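import Pool.Agent.H34.LS.V0

/-!
V6: the function `psi w x = cos (π x / (2 w))` for `|x| ≤ w`, `0` otherwise (`w ≥ 1`).
`cos` is even and antitone on `[0, π]` (`Real.strictAntiOn_cos`, `Real.cos_le_cos_of_nonneg_of_le_pi`),
positive on `(-π/2, π/2)`; `cos (π/4) = √2 / 2 ≥ 2/3`; `cos (3π/8) ≥ 1/3` (for example from
`cos (3π/4) = - √2/2 = 2 c^2 - 1` and `c ≥ 0`, so `c^2 = (1 - √2/2)/2 ≥ 1/9`).
-/

namespace Pool.Agent.H34.LS

private theorem v6_abs (w : ℕ) (x : ℤ) :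
    Real.cos (Real.pi * x / (2 * w)) = Real.cos (Real.pi * |(x : ℝ)| / (2 * w)) := by
  rw [← Real.cos_abs (Real.pi * x / (2 * w)), abs_div, abs_mul, abs_of_pos Real.pi_pos,
    abs_of_nonneg (show (0 : ℝ) ≤ 2 * w by positivity)]

private theorem v6_arg_le {w : ℕ} (hw : 1 ≤ w) {x : ℤ} {a : ℝ} (h : |(x : ℝ)| ≤ a * w) :
    Real.pi * |(x : ℝ)| / (2 * w) ≤ a * (Real.pi / 2) := by
  have hw0 : (0 : ℝ) < 2 * w := by
    have : (1 : ℝ) ≤ w := by exact_mod_cast hw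
    linarith
  rw [div_le_iff₀ hw0]
  nlinarith [Real.pi_pos]

private theorem v6_le_arg {w : ℕ} (hw : 1 ≤ w) {x : ℤ} {a : ℝ} (h : a * w ≤ |(x : ℝ)|) :
    a * (Real.pi / 2) ≤ Real.pi * |(x : ℝ)| / (2 * w) := by
  have hw0 : (0 : ℝ) < 2 * w := by
    have : (1 : ℝ) ≤ w := by exact_mod_cast hw
    linarith
  rw [le_div_iff₀ hw0]
  nlinarith [Real.pi_pos]

private theorem v6_arg_nonneg (w : ℕ) (x : ℤ) : 0 ≤ Real.pi * |(x : ℝ)| / (2 * w) := by
  have := Real.pi_pos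
  positivity

private theorem v6_cos_quarter : (2 / 3 : ℝ) ≤ Real.cos (Real.pi / 4) := by
  rw [Real.cos_pi_div_four]
  have : (4 / 3 : ℝ) ≤ Real.sqrt 2 := by
    apply Real.le_sqrt_of_sq_le
    norm_num
  linarith

private theorem v6_cos_three : (1 / 3 : ℝ) ≤ Real.cos (3 * Real.pi / 8) := by
  have hpi := Real.pi_pos
  have h0 : 0 ≤ Real.cos (3 * Real.pi / 8) := by
    apply Real.cos_nonneg_of_mem_Icc
    constructor <;> linarith
  have h1 : Real.cos (2 * (3 * Real.pi / 8)) = -(Real.sqrt 2 / 2) := by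
    have : 2 * (3 * Real.pi / 8) = Real.pi - Real.pi / 4 := by ring
    rw [this, Real.cos_pi_sub, Real.cos_pi_div_four]
  rw [Real.cos_two_mul] at h1
  have h2 : Real.sqrt 2 ≤ 3 / 2 := by
    rw [Real.sqrt_le_left (by norm_num)]
    norm_num
  by_contra hcon
  have hlt := not_le.mp hcon
  nlinarith

theorem psi_nonneg (w : ℕ) (x : ℤ) : 0 ≤ psi w x := by
  unfold psi
  split_ifs with h
  · rcases Nat.eq_zero_or_pos w with rfl | hw
    · have : x = 0 := by
        have h' : |x| ≤ 0 := by exact_mod_cast h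
        exact abs_nonpos_iff.mp h'
      subst this
      simp
    · rw [v6_abs]
      have h' : |(x : ℝ)| ≤ 1 * w := by
        rw [one_mul]
        exact_mod_cast h
      have h1 := v6_arg_le hw h'
      have h0 := v6_arg_nonneg w x
      have hpi := Real.pi_pos
      apply Real.cos_nonneg_of_mem_Icc
      constructor <;> linarith
  · exact le_rfl

theorem psi_le_one (w : ℕ) (x : ℤ) : psi w x ≤ 1 := by
  unfold psi
  split_ifs
  · exact Real.cos_le_one _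
  · exact zero_le_one

theorem psi_neg (w : ℕ) (x : ℤ) : psi w (-x) = psi w x := by
  unfold psi
  rw [abs_neg]
  split_ifs
  · push_cast
    rw [mul_neg, neg_div, Real.cos_neg]
  · rfl

theorem psi_pos {w : ℕ} {x : ℤ} (h : |x| < (w : ℤ)) : 0 < psi w x := by
  have hw : 1 ≤ w := by
    have h1 := abs_nonneg x
    omega
  unfold psi
  rw [if_pos h.le, v6_abs]
  have hw0 : (0 : ℝ) < 2 * w := by
    have : (1 : ℝ) ≤ w := by exact_mod_cast hw
    linarith
  have h' : |(x : ℝ)| < w := by exact_mod_cast h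
  have h1 : Real.pi * |(x : ℝ)| / (2 * w) < Real.pi / 2 := by
    rw [div_lt_iff₀ hw0]
    nlinarith [Real.pi_pos]
  have h0 := v6_arg_nonneg w x
  have hpi := Real.pi_pos
  apply Real.cos_pos_of_mem_Ioo
  constructor <;> linarith

theorem psi_zero {w : ℕ} (hw : 1 ≤ w) {x : ℤ} (h : (w : ℤ) ≤ |x|) : psi w x = 0 := by
  unfold psi
  split_ifs with h2
  · have h3 : |x| = (w : ℤ) := le_antisymm h2 h
    have h4 : |(x : ℝ)| = w := by exact_mod_cast h3
    rw [v6_abs, h4]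
    have hw0 : (w : ℝ) ≠ 0 := by
      have : (1 : ℝ) ≤ w := by exact_mod_cast hw
      linarith
    have h5 : Real.pi * (w : ℝ) / (2 * w) = Real.pi / 2 := by
      field_simp
    rw [h5, Real.cos_pi_div_two]
  · rfl

theorem psi_ge {k : ℕ} {x : ℤ} (h : |x| ≤ 2 * (k : ℤ)) (hk : 1 ≤ k) : 2 / 3 ≤ psi (4 * k) x := by
  have hk' : (0 : ℤ) ≤ (k : ℤ) := by positivity
  have h1 : |x| ≤ ((4 * k : ℕ) : ℤ) := by
    push_cast
    linarith
  unfold psi
  rw [if_pos h1, v6_abs]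
  have h2 : |(x : ℝ)| ≤ 1 / 2 * ((4 * k : ℕ) : ℝ) := by
    have h3 : |(x : ℝ)| ≤ 2 * (k : ℝ) := by exact_mod_cast h
    push_cast
    linarith
  have h4 := v6_arg_le (by omega : 1 ≤ 4 * k) h2
  have h0 := v6_arg_nonneg (4 * k) x
  have hpi := Real.pi_pos
  refine v6_cos_quarter.trans ?_
  apply Real.cos_le_cos_of_nonneg_of_le_pi h0 (by linarith)
  linarith

theorem psi_ge' {k : ℕ} {x : ℤ} (h : |x| ≤ 3 * (k : ℤ)) (hk : 1 ≤ k) : 1 / 3 ≤ psi (4 * k) x := by
  have hk' : (0 : ℤ) ≤ (k : ℤ) := by positivity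
  have h1 : |x| ≤ ((4 * k : ℕ) : ℤ) := by
    push_cast
    linarith
  unfold psi
  rw [if_pos h1, v6_abs]
  have h2 : |(x : ℝ)| ≤ 3 / 4 * ((4 * k : ℕ) : ℝ) := by
    have h3 : |(x : ℝ)| ≤ 3 * (k : ℝ) := by exact_mod_cast h
    push_cast
    linarith
  have h4 := v6_arg_le (by omega : 1 ≤ 4 * k) h2
  have h0 := v6_arg_nonneg (4 * k) x
  have hpi := Real.pi_pos
  refine v6_cos_three.trans ?_
  apply Real.cos_le_cos_of_nonneg_of_le_pi h0 (by linarith)
  linarith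

/-- `psi` is at least the cosine up to `3 w` (the cosine is nonpositive on `[π/2, 3π/2]`). -/
theorem cos_le_psi {w : ℕ} (hw : 1 ≤ w) {x : ℤ} (h : |x| ≤ 3 * (w : ℤ)) :
    Real.cos (Real.pi * x / (2 * w)) ≤ psi w x := by
  by_cases h1 : |x| ≤ (w : ℤ)
  · unfold psi
    rw [if_pos h1]
  · unfold psi
    rw [if_neg h1, v6_abs]
    have h2 : 1 * (w : ℝ) ≤ |(x : ℝ)| := by
      rw [one_mul]
      exact_mod_cast (not_le.mp h1).le
    have h3 : |(x : ℝ)| ≤ 3 * (w : ℝ) := by exact_mod_cast h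
    have h4 := v6_le_arg hw h2
    have h5 := v6_arg_le hw h3
    apply Real.cos_nonpos_of_pi_div_two_le_of_le
    · linarith
    · linarith

theorem psi_le_cos {w : ℕ} (hw : 1 ≤ w) (x : ℤ) :
    psi w x ≤ Real.cos (Real.pi * x / (2 * w)) + if (w : ℤ) ≤ |x| then 1 else 0 := by
  by_cases h1 : (w : ℤ) ≤ |x|
  · rw [if_pos h1, psi_zero hw h1]
    have := Real.neg_one_le_cos (Real.pi * x / (2 * w))
    linarith
  · rw [if_neg h1, add_zero]
    unfold psi
    rw [if_pos (not_le.mp h1).le]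

theorem psi_eq_cos {w : ℕ} {x : ℤ} (h : |x| ≤ (w : ℤ)) :
    psi w x = Real.cos (Real.pi * x / (2 * w)) := by
  rw [psi, if_pos h]

end Pool.Agent.H34.LS
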