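import Pool.Agent.H34.LS.V0

/-!
V1: algebra of `tot`, `tl`, `bnd`. All functions are finitely supported, `tl g q x = q (g⁻¹ x)`.
`bnd r K` is a finite sum (`Finsupp.sum`), linear in `r` and in `K`.
Useful: `Finsupp.sum_mapDomain_index`, `Finsupp.mapDomain_apply` (injective maps), `Finsupp.sum_apply`,
`Finsupp.sum_smul_index'`, `Finsupp.sum_sum_index`, `Finsupp.mapDomain_sum`, `Finsupp.mapDomain_smul`.
-/

namespace Pool.Agent.H34.LS

universe u v w

variable {X : Type u} {Y : Type v} {Z : Type w} {G : Type u} [Group G]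

theorem tl_apply (g : G) (q : G →₀ ℝ) (x : G) : tl g q x = q (g⁻¹ * x) := by
  have h := Finsupp.mapDomain_apply (mul_right_injective g) q (g⁻¹ * x)
  rw [← h]
  unfold tl
  rw [mul_inv_cancel_left]

theorem tl_nonneg (g : G) {q : G →₀ ℝ} (h : ∀ x, 0 ≤ q x) (x : G) : 0 ≤ tl g q x := by
  rw [tl_apply]
  exact h _

theorem tl_add (g : G) (q r : G →₀ ℝ) : tl g (q + r) = tl g q + tl g r := by
  unfold tl
  exact Finsupp.mapDomain_add

theorem tl_smul (g : G) (c : ℝ) (q : G →₀ ℝ) : tl g (c • q) = c • tl g q := by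
  unfold tl
  exact Finsupp.mapDomain_smul c q

theorem tl_one (q : G →₀ ℝ) : tl 1 q = q := by
  ext x
  rw [tl_apply, inv_one, one_mul]

theorem tl_tl (g g' : G) (q : G →₀ ℝ) : tl g (tl g' q) = tl (g * g') q := by
  ext x
  rw [tl_apply, tl_apply, tl_apply, mul_inv_rev, mul_assoc]

theorem tl_single (g x : G) (c : ℝ) : tl g (Finsupp.single x c) = Finsupp.single (g * x) c := by
  unfold tl
  exact Finsupp.mapDomain_single

theorem tot_tl (g : G) (q : G →₀ ℝ) : tot (tl g q) = tot q := by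
  unfold tot tl
  exact Finsupp.sum_mapDomain_index (fun _ => rfl) (fun _ _ _ => rfl)

theorem fent_tl (g : G) (q : G →₀ ℝ) : fent (tl g q) = fent q := by
  unfold fent tl
  exact Finsupp.sum_mapDomain_index_inj (mul_right_injective g)

theorem tl_bnd (g : G) (r : X →₀ ℝ) (K : X → (G →₀ ℝ)) :
    tl g (bnd r K) = bnd r (fun z => tl g (K z)) := by
  unfold bnd
  unfold tl
  refine (map_finsuppSum (Finsupp.mapDomain.addMonoidHom (fun x : G => g * x)) r
    (fun z a => a • K z)).trans ?_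
  apply Finsupp.sum_congr
  intro z _
  exact Finsupp.mapDomain_smul (r z) (K z)

theorem bnd_tl (g : G) (r : G →₀ ℝ) (K : G → (Y →₀ ℝ)) :
    bnd (tl g r) K = bnd r (fun z => K (g * z)) := by
  unfold bnd tl
  exact Finsupp.sum_mapDomain_index (fun _ => zero_smul _ _) (fun _ _ _ => add_smul _ _ _)

theorem bnd_single (x : X) (c : ℝ) (K : X → (Y →₀ ℝ)) :
    bnd (Finsupp.single x c) K = c • K x := by
  unfold bnd
  exact Finsupp.sum_single_index (zero_smul _ _)

theorem bnd_bnd (r : X →₀ ℝ) (K : X → (Y →₀ ℝ)) (L : Y → (Z →₀ ℝ)) :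
    bnd (bnd r K) L = bnd r (fun z => bnd (K z) L) := by
  unfold bnd
  refine (Finsupp.sum_sum_index (f := r) (g := fun z a => a • K z) (h := fun y b => b • L y)
    (fun _ => zero_smul _ _) (fun _ _ _ => add_smul _ _ _)).trans ?_
  apply Finsupp.sum_congr
  intro z _
  refine (Finsupp.sum_smul_index (g := K z) (b := r z) (h := fun y b => b • L y)
    (fun _ => zero_smul _ _)).trans ?_
  dsimp only
  rw [Finsupp.smul_sum]
  apply Finsupp.sum_congr
  intro y _
  rw [mul_smul]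

theorem bnd_add (r : X →₀ ℝ) (K L : X → (Y →₀ ℝ)) :
    bnd r (fun z => K z + L z) = bnd r K + bnd r L := by
  unfold bnd
  rw [← Finsupp.sum_add]
  apply Finsupp.sum_congr
  intro z _
  exact smul_add _ _ _

theorem bnd_smul (r : X →₀ ℝ) (c : ℝ) (K : X → (Y →₀ ℝ)) :
    bnd r (fun z => c • K z) = c • bnd r K := by
  unfold bnd
  rw [Finsupp.smul_sum]
  apply Finsupp.sum_congr
  intro z _
  exact smul_comm _ _ _

/-- the value at a point, as a sum over any finite set containing the support. -/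
theorem bnd_apply (r : X →₀ ℝ) (K : X → (Y →₀ ℝ)) (y : Y) :
    bnd r K y = r.sum (fun z a => a * K z y) := by
  unfold bnd
  rw [Finsupp.sum_apply]
  apply Finsupp.sum_congr
  intro z _
  rfl

theorem bnd_nonneg {r : X →₀ ℝ} (hr : ∀ x, 0 ≤ r x) {K : X → (Y →₀ ℝ)} (hK : ∀ x y, 0 ≤ K x y)
    (y : Y) : 0 ≤ bnd r K y := by
  rw [bnd_apply]
  exact Finset.sum_nonneg (fun z _ => mul_nonneg (hr z) (hK z y))

theorem bnd_mono {r : X →₀ ℝ} (hr : ∀ x, 0 ≤ r x) {K L : X → (Y →₀ ℝ)}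
    (hKL : ∀ x, r x ≠ 0 → ∀ y, K x y ≤ L x y) (y : Y) : bnd r K y ≤ bnd r L y := by
  rw [bnd_apply, bnd_apply]
  apply Finset.sum_le_sum
  intro z hz
  exact mul_le_mul_of_nonneg_left (hKL z (Finsupp.mem_support_iff.1 hz) y) (hr z)

theorem bnd_congr {r : X →₀ ℝ} {K L : X → (Y →₀ ℝ)} (h : ∀ x, r x ≠ 0 → K x = L x) :
    bnd r K = bnd r L := by
  unfold bnd
  apply Finsupp.sum_congr
  intro z hz
  rw [h z (Finsupp.mem_support_iff.1 hz)]

theorem tot_bnd (r : X →₀ ℝ) (K : X → (Y →₀ ℝ)) :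
    tot (bnd r K) = r.sum (fun z a => a * tot (K z)) := by
  unfold tot bnd
  rw [Finsupp.sum_sum_index (fun _ => rfl) (fun _ _ _ => rfl)]
  apply Finsupp.sum_congr
  intro z _
  rw [Finsupp.sum_smul_index (fun _ => rfl), Finsupp.mul_sum]

theorem tot_add (p q : X →₀ ℝ) : tot (p + q) = tot p + tot q := by
  unfold tot
  exact Finsupp.sum_add_index' (fun _ => rfl) (fun _ _ _ => rfl)

theorem tot_smul (c : ℝ) (p : X →₀ ℝ) : tot (c • p) = c * tot p := by
  unfold tot
  rw [Finsupp.sum_smul_index (fun _ => rfl), Finsupp.mul_sum]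

theorem tot_nonneg {p : X →₀ ℝ} (hp : ∀ x, 0 ≤ p x) : 0 ≤ tot p := by
  unfold tot
  exact Finset.sum_nonneg (fun x _ => hp x)

theorem tot_mono {p q : X →₀ ℝ} (h : ∀ x, p x ≤ q x) : tot p ≤ tot q := by
  have h1 : tot q = tot p + tot (q - p) := by
    rw [← tot_add, add_sub_cancel]
  have h2 : 0 ≤ tot (q - p) := by
    apply tot_nonneg
    intro x
    rw [Finsupp.sub_apply]
    linarith [h x]
  linarith

/-- integration of a function against `bnd r K`. -/
theorem sum_bnd (r : X →₀ ℝ) (K : X → (Y →₀ ℝ)) (F : Y → ℝ) :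
    (bnd r K).sum (fun y b => b * F y) = r.sum (fun z a => a * (K z).sum (fun y b => b * F y)) := by
  unfold bnd
  rw [Finsupp.sum_sum_index (fun _ => zero_mul _) (fun _ _ _ => add_mul _ _ _)]
  apply Finsupp.sum_congr
  intro z _
  rw [Finsupp.sum_smul_index (fun _ => zero_mul _), Finsupp.mul_sum]
  apply Finsupp.sum_congr
  intro y _
  rw [mul_assoc]

theorem sum_tl (g : G) (q : G →₀ ℝ) (F : G → ℝ) :
    (tl g q).sum (fun x a => a * F x) = q.sum (fun x a => a * F (g * x)) := by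
  unfold tl
  exact Finsupp.sum_mapDomain_index (fun _ => zero_mul _) (fun _ _ _ => add_mul _ _ _)

end Pool.Agent.H34.LS
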