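import Pool.Agent.H34.LS.Fwd

/-!
W1: basic facts on word length. All elementary: a word of least length exists because `S`
generates (use `Subgroup.closure_induction` or `Subgroup.exists_list_of_mem_closure`).
-/

namespace Pool.Agent.H34.LS

universe u

variable {G : Type u} [Group G] {S : Set G}

theorem wl_le {l : List G} (h : ∀ x ∈ l, x ∈ S ∨ x⁻¹ ∈ S) : wordLength S l.prod ≤ l.length := by
  exact Nat.sInf_le ⟨l, rfl, h, rfl⟩

theorem wl_one (S : Set G) : wordLength S 1 = 0 := by
  have h := wl_le (S := S) (l := []) (by intro x hx; simp at hx)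
  simpa using h

theorem wl_letter {x : G} (h : x ∈ S ∨ x⁻¹ ∈ S) : wordLength S x ≤ 1 := by
  have h := wl_le (S := S) (l := [x]) (by
    intro y hy
    rw [List.mem_singleton] at hy
    rw [hy]; exact h)
  simpa using h

private theorem w1_list_of_mem {g : G} (hg : g ∈ Subgroup.closure S) :
    ∃ l : List G, (∀ x ∈ l, x ∈ S ∨ x⁻¹ ∈ S) ∧ l.prod = g := by
  induction hg using Subgroup.closure_induction with
  | mem x hx =>
    refine ⟨[x], ?_, by simp⟩
    intro y hy
    rw [List.mem_singleton] at hy
    rw [hy]; exact Or.inl hx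
  | one => exact ⟨[], by simp, by simp⟩
  | mul x y _ _ ihx ihy =>
    obtain ⟨l, hl, hp⟩ := ihx
    obtain ⟨l', hl', hp'⟩ := ihy
    refine ⟨l ++ l', ?_, by rw [List.prod_append, hp, hp']⟩
    intro z hz
    rcases List.mem_append.1 hz with hz | hz
    · exact hl z hz
    · exact hl' z hz
  | inv x _ ih =>
    obtain ⟨l, hl, hp⟩ := ih
    refine ⟨(l.map (fun x => x⁻¹)).reverse, ?_, by rw [← List.prod_inv_reverse, hp]⟩
    intro z hz
    rw [List.mem_reverse, List.mem_map] at hz
    obtain ⟨y, hy, rfl⟩ := hz
    rcases hl y hy with h | h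
    · right; rw [inv_inv]; exact h
    · left; exact h

theorem wl_exists (hS : Subgroup.closure S = ⊤) (g : G) :
    ∃ l : List G, l.length = wordLength S g ∧ (∀ x ∈ l, x ∈ S ∨ x⁻¹ ∈ S) ∧ l.prod = g := by
  have hg : g ∈ Subgroup.closure S := by rw [hS]; trivial
  obtain ⟨l, hl, hp⟩ := w1_list_of_mem hg
  have hne : {n | ∃ l : List G, l.length = n ∧ (∀ x ∈ l, x ∈ S ∨ x⁻¹ ∈ S) ∧ l.prod = g}.Nonempty :=
    ⟨l.length, l, rfl, hl, hp⟩
  exact Nat.sInf_mem hne

theorem wl_mul (hS : Subgroup.closure S = ⊤) (g h : G) :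
    wordLength S (g * h) ≤ wordLength S g + wordLength S h := by
  obtain ⟨l, hl, hs, hp⟩ := wl_exists hS g
  obtain ⟨l', hl', hs', hp'⟩ := wl_exists hS h
  have h1 := wl_le (S := S) (l := l ++ l') (by
    intro x hx
    rcases List.mem_append.1 hx with hx | hx
    · exact hs x hx
    · exact hs' x hx)
  rw [List.prod_append, hp, hp', List.length_append, hl, hl'] at h1
  exact h1

private theorem w1_inv_le (hS : Subgroup.closure S = ⊤) (g : G) :
    wordLength S g⁻¹ ≤ wordLength S g := by
  obtain ⟨l, hl, hs, hp⟩ := wl_exists hS g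
  have h1 := wl_le (S := S) (l := (l.map (fun x => x⁻¹)).reverse) (by
    intro x hx
    rw [List.mem_reverse, List.mem_map] at hx
    obtain ⟨y, hy, rfl⟩ := hx
    rcases hs y hy with h | h
    · right; rw [inv_inv]; exact h
    · left; exact h)
  rw [← List.prod_inv_reverse, hp, List.length_reverse, List.length_map, hl] at h1
  exact h1

theorem wl_inv (hS : Subgroup.closure S = ⊤) (g : G) :
    wordLength S g⁻¹ = wordLength S g := by
  apply le_antisymm (w1_inv_le hS g)
  have h := w1_inv_le hS g⁻¹
  rwa [inv_inv] at h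

theorem wl_eq_zero (hS : Subgroup.closure S = ⊤) {g : G} : wordLength S g = 0 ↔ g = 1 := by
  constructor
  · intro h
    obtain ⟨l, hl, _, hp⟩ := wl_exists hS g
    rw [h] at hl
    rw [List.length_eq_zero_iff] at hl
    rw [hl] at hp
    simpa using hp.symm
  · rintro rfl
    exact wl_one S

/-- geodesic words can be cut anywhere. -/
theorem wl_cut (hS : Subgroup.closure S = ⊤) (g : G) (k : ℕ) (hk : k ≤ wordLength S g) :
    ∃ a b : G, a * b = g ∧ wordLength S a = k ∧ wordLength S b = wordLength S g - k := by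
  obtain ⟨l, hl, hs, hp⟩ := wl_exists hS g
  have hab : (l.take k).prod * (l.drop k).prod = g := by
    rw [← List.prod_append, List.take_append_drop, hp]
  have ha : wordLength S (l.take k).prod ≤ k := by
    refine (wl_le ?_).trans ?_
    · intro x hx
      exact hs x (List.mem_of_mem_take hx)
    · exact List.length_take_le _ _
  have hb : wordLength S (l.drop k).prod ≤ wordLength S g - k := by
    refine (wl_le ?_).trans ?_
    · intro x hx
      exact hs x (List.mem_of_mem_drop hx)
    · rw [List.length_drop, hl]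
  have hm := wl_mul hS (l.take k).prod (l.drop k).prod
  rw [hab] at hm
  refine ⟨(l.take k).prod, (l.drop k).prod, hab, ?_, ?_⟩ <;> omega

theorem ball_finite (hS : Subgroup.closure S = ⊤) (hf : S.Finite) (n : ℕ) :
    {g : G | wordLength S g ≤ n}.Finite := by
  have hS2 : (S ∪ {x | x⁻¹ ∈ S}).Finite := by
    refine hf.union ?_
    have : {x : G | x⁻¹ ∈ S} = (fun x => x⁻¹) '' S := by
      ext x
      constructor
      · intro hx; exact ⟨x⁻¹, hx, inv_inv x⟩
      · rintro ⟨y, hy, rfl⟩
        change (y⁻¹)⁻¹ ∈ S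
        rw [inv_inv]; exact hy
    rw [this]
    exact hf.image _
  induction n with
  | zero =>
    refine (Set.finite_singleton (1 : G)).subset ?_
    intro g hg
    have h0 : wordLength S g = 0 := Nat.le_zero.1 hg
    exact (wl_eq_zero hS).1 h0
  | succ n ih =>
    refine ((Set.finite_singleton (1 : G)).union (Set.Finite.image2 (fun x y => x * y) hS2 ih)).subset ?_
    intro g hg
    obtain ⟨l, hl, hs, hp⟩ := wl_exists hS g
    cases l with
    | nil => left; simpa using hp.symm
    | cons x t =>
      right
      refine ⟨x, ?_, t.prod, ?_, ?_⟩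
      · rcases hs x List.mem_cons_self with h | h
        · left; exact h
        · right; exact h
      · have h1 : wordLength S t.prod ≤ t.length := wl_le (fun y hy => hs y (List.mem_cons_of_mem _ hy))
        have h2 : t.length + 1 = wordLength S g := by rw [← hl]; rfl
        have h3 : wordLength S g ≤ n + 1 := hg
        change wordLength S t.prod ≤ n
        omega
      · change x * t.prod = g
        rw [← hp, List.prod_cons]

theorem wd_nonneg (x y : G) : 0 ≤ wordDist S x y := by
  unfold wordDist
  exact Nat.cast_nonneg _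

theorem wd_self (x : G) : wordDist S x x = 0 := by
  unfold wordDist
  rw [inv_mul_cancel, wl_one]
  exact Nat.cast_zero

theorem wd_comm (hS : Subgroup.closure S = ⊤) (x y : G) : wordDist S x y = wordDist S y x := by
  unfold wordDist
  rw [← wl_inv hS (x⁻¹ * y), mul_inv_rev, inv_inv]

theorem wd_tri (hS : Subgroup.closure S = ⊤) (x y z : G) :
    wordDist S x z ≤ wordDist S x y + wordDist S y z := by
  unfold wordDist
  have h := wl_mul hS (x⁻¹ * y) (y⁻¹ * z)
  have h2 : x⁻¹ * y * (y⁻¹ * z) = x⁻¹ * z := by group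
  rw [h2] at h
  exact_mod_cast h

theorem wd_left (g x y : G) : wordDist S (g * x) (g * y) = wordDist S x y := by
  unfold wordDist
  have h2 : (g * x)⁻¹ * (g * y) = x⁻¹ * y := by group
  rw [h2]

end Pool.Agent.H34.LS
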