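import Pool.Agent.H34.LS.V1

/-!
V2: convolution powers. `pw_coeff`: induction, `p ^ (n+1) = p * p ^ n` (`pow_succ'`), and
`(p * r).coeff = bnd p.coeff (fun g => tl g r.coeff)` (`MonoidAlgebra.coeff_mul`; compare the
computations in E1, E5 for `MonoidAlgebra.coeff_mul` in this Mathlib). `pw_add`: induction on `k`
with `tl_bnd`, `bnd_bnd`, `bnd_tl`, `tl_tl`.
-/

namespace Pool.Agent.H34.LS

universe u v

variable {G : Type u} [Group G]

theorem mul_coeff (p r : MonoidAlgebra ℝ G) :
    (p * r).coeff = bnd p.coeff (fun g => tl g r.coeff) := by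
  ext x
  rw [MonoidAlgebra.coeff_mul_apply_left, bnd_apply]
  refine Finset.sum_congr rfl fun g _ => ?_
  show p.coeff g * r.coeff (g⁻¹ * x) = p.coeff g * (tl g r.coeff) x
  rw [tl_apply]

theorem pw_coeff (p : MonoidAlgebra ℝ G) (n : ℕ) : (p ^ n).coeff = pw p.coeff n := by
  induction n with
  | zero =>
    rw [pow_zero, MonoidAlgebra.one_def]
    rfl
  | succ n ih =>
    rw [pow_succ', mul_coeff, ih]
    rfl

theorem pw_nonneg {P : G →₀ ℝ} (h : ∀ g, 0 ≤ P g) (n : ℕ) (x : G) : 0 ≤ pw P n x := by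
  induction n generalizing x with
  | zero =>
    classical
    show 0 ≤ (Finsupp.single (1 : G) (1 : ℝ)) x
    rw [Finsupp.single_apply]
    split_ifs
    · exact zero_le_one
    · exact le_refl _
  | succ n ih =>
    exact bnd_nonneg h (fun g y => tl_nonneg g ih y) x

theorem tot_pw {P : G →₀ ℝ} (h : tot P = 1) (n : ℕ) : tot (pw P n) = 1 := by
  induction n with
  | zero =>
    show (Finsupp.single (1 : G) (1 : ℝ)).sum (fun _ a => a) = 1
    rw [Finsupp.sum_single_index rfl]
  | succ n ih =>
    show tot (bnd P (fun g => tl g (pw P n))) = 1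
    rw [tot_bnd, ← h]
    refine Finset.sum_congr rfl fun g _ => ?_
    show P g * tot (tl g (pw P n)) = P g
    rw [tot_tl, ih, mul_one]

theorem pw_le_one {P : G →₀ ℝ} (h : ∀ g, 0 ≤ P g) (h1 : tot P = 1) (n : ℕ) (x : G) :
    pw P n x ≤ 1 := by
  by_cases hx : x ∈ (pw P n).support
  · rw [← tot_pw h1 n]
    exact Finset.single_le_sum (f := fun y => pw P n y) (fun y _ => pw_nonneg h n y) hx
  · rw [Finsupp.notMem_support_iff] at hx
    rw [hx]
    exact zero_le_one

theorem pw_add (P : G →₀ ℝ) (k n : ℕ) :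
    pw P (k + n) = bnd (pw P k) (fun z => tl z (pw P n)) := by
  induction k with
  | zero =>
    rw [Nat.zero_add]
    show pw P n = bnd (Finsupp.single (1 : G) (1 : ℝ)) (fun z => tl z (pw P n))
    rw [bnd_single, one_smul, tl_one]
  | succ k ih =>
    have h1 : k + 1 + n = (k + n) + 1 := by ring
    rw [h1]
    show bnd P (fun g => tl g (pw P (k + n))) =
      bnd (bnd P (fun g => tl g (pw P k))) (fun z => tl z (pw P n))
    rw [bnd_bnd, ih]
    congr 1
    funext g
    rw [tl_bnd, bnd_tl]
    congr 1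
    funext z
    rw [tl_tl]

/-- `JJ` of the shifted powers is the increment of entropy:
`fent (tl g q) = fent q`, `P.sum (fun g c => c * e) = e`. -/
theorem jj_pw {P : G →₀ ℝ} (h1 : tot P = 1) (n : ℕ) :
    JJ P (fun g => tl g (pw P n)) = fent (pw P (n + 1)) - fent (pw P n) := by
  have h2 : P.sum (fun g c => c * fent (tl g (pw P n))) = fent (pw P n) := by
    have h3 : P.sum (fun g c => c * fent (tl g (pw P n))) = tot P * fent (pw P n) := by
      unfold tot Finsupp.sum
      rw [Finset.sum_mul]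
      refine Finset.sum_congr rfl fun g _ => ?_
      show P g * fent (tl g (pw P n)) = P g * fent (pw P n)
      rw [fent_tl]
    rw [h3, h1, one_mul]
  unfold JJ
  rw [h2]
  rfl

end Pool.Agent.H34.LS
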