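import Pool.Agent.H34.LS.LL0

/-!
LL1: the lamplighter group is generated by `ga = (single 0 1, 0)` and `gt = (0, 1)`:
`gt ^ k = (0, k)` (`k : ℤ`), `gt ^ k * ga * gt ^ (-k) = (single k 1, 0)`, and every `(l, k)` is a product of such
elements (`Finsupp.induction_linear` on `l`; in `ZMod 2` every value is `0` or `1`) times `gt ^ k`. It maps onto
`ℤ` by `hpos`; the kernel is locally finite: for a finite subset `s` of the kernel let `A` be the union of the
supports of the lamps; the closure is contained in the subgroup of the `(l, 0)` with the support of `l` in `A`, and this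
set is finite (`ZMod 2` is finite; for instance an injection into functions `A → ZMod 2`).
`gen_submonoid`: `ga⁻¹ = ga` and `gt⁻¹` is in the set, so the submonoid generated is the subgroup
generated (`Subgroup.closure_toSubmonoid`, or `Submonoid` closed under inverses).
-/

namespace Pool.Agent.H34.LS.LL

theorem ga_inv : ga⁻¹ = ga := by
  apply LL.ext
  · rw [inv_lamp]
    ext i
    rw [sh_apply]
    show ga.lamp (i - -(0 : ℤ)) = ga.lamp i
    rw [neg_zero, sub_zero]
  · rw [inv_pos]
    show -(0 : ℤ) = 0
    rw [neg_zero]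

private noncomputable def ll1_tk : Multiplicative ℤ →* LL where
  toFun k := ⟨0, Multiplicative.toAdd k⟩
  map_one' := rfl
  map_mul' a b := by
    apply LL.ext
    · rw [mul_lamp]
      show (0 : ℤ →₀ ZMod 2) = 0 + sh _ 0
      rw [map_zero, add_zero]
    · rfl

private theorem ll1_gt_zpow (k : ℤ) : gt ^ k = ⟨0, k⟩ := by
  have h1 : ll1_tk (Multiplicative.ofAdd (1 : ℤ)) = gt := rfl
  have h2 : ll1_tk (Multiplicative.ofAdd k) = ⟨0, k⟩ := rfl
  rw [← h1, ← map_zpow, ← h2]
  congr 1
  rw [← ofAdd_zsmul, smul_eq_mul, mul_one]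

private theorem ll1_conj (i : ℤ) : gt ^ i * ga * gt ^ (-i) = ⟨Finsupp.single i 1, 0⟩ := by
  rw [ll1_gt_zpow, ll1_gt_zpow]
  apply LL.ext
  · rw [mul_lamp, mul_lamp]
    show (0 : ℤ →₀ ZMod 2) + sh i (Finsupp.single 0 1) + sh _ 0 = Finsupp.single i 1
    rw [map_zero, add_zero, zero_add]
    ext j
    rw [sh_apply, Finsupp.single_apply, Finsupp.single_apply]
    by_cases h : i = j
    · rw [if_pos h, if_pos (by omega)]
    · rw [if_neg h, if_neg (by omega)]
  · rw [mul_pos, mul_pos]
    show i + 0 + -i = 0
    ring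

private theorem ll1_lamp_mul (l l' : ℤ →₀ ZMod 2) :
    (⟨l, 0⟩ : LL) * ⟨l', 0⟩ = ⟨l + l', 0⟩ := by
  apply LL.ext
  · rw [mul_lamp]
    show l + sh 0 l' = l + l'
    congr 1
    ext j
    rw [sh_apply, sub_zero]
  · rfl

private theorem ll1_split (x : LL) : x = ⟨x.lamp, 0⟩ * ⟨0, x.pos⟩ := by
  apply LL.ext
  · rw [mul_lamp]
    show x.lamp = x.lamp + sh 0 0
    rw [map_zero, add_zero]
  · rw [mul_pos]
    show x.pos = 0 + x.pos
    rw [zero_add]

theorem gen_closure : Subgroup.closure ({ga, gt} : Set LL) = ⊤ := by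
  rw [eq_top_iff]
  intro x _
  set H := Subgroup.closure ({ga, gt} : Set LL) with hH
  have ha : ga ∈ H := Subgroup.subset_closure (Set.mem_insert _ _)
  have ht : gt ∈ H := Subgroup.subset_closure (Set.mem_insert_of_mem _ rfl)
  have hl : ∀ l : ℤ →₀ ZMod 2, (⟨l, 0⟩ : LL) ∈ H := by
    intro l
    induction l using Finsupp.induction_linear with
    | zero => exact H.one_mem
    | add f g hf hg =>
      rw [← ll1_lamp_mul]
      exact H.mul_mem hf hg
    | single i c =>
      have hc : c = 0 ∨ c = 1 := by
        revert c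
        decide
      rcases hc with rfl | rfl
      · rw [Finsupp.single_zero]
        exact H.one_mem
      · rw [← ll1_conj]
        exact H.mul_mem (H.mul_mem (H.zpow_mem ht _) ha) (H.zpow_mem ht _)
  rw [ll1_split x, ← ll1_gt_zpow]
  exact H.mul_mem (hl _) (H.zpow_mem ht _)

theorem gen_submonoid : Submonoid.closure ({ga, gt, gt⁻¹} : Set LL) = ⊤ := by
  rw [eq_top_iff]
  intro x _
  have h1 : x ∈ (Subgroup.closure ({ga, gt} : Set LL)).toSubmonoid := by
    rw [gen_closure]
    exact Subgroup.mem_top x
  rw [Subgroup.closure_toSubmonoid] at h1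
  refine Submonoid.closure_mono ?_ h1
  rintro y (hy | hy)
  · rcases hy with rfl | hy
    · exact Or.inl rfl
    · exact Or.inr (Or.inl hy)
  · rw [Set.mem_inv] at hy
    rcases hy with hy | hy
    · left
      rw [← ga_inv, ← hy, inv_inv]
    · right
      right
      rw [Set.mem_singleton_iff] at hy ⊢
      rw [← hy, inv_inv]

theorem ll_fg : Group.FG LL := by
  rw [Group.fg_iff]
  exact ⟨{ga, gt}, gen_closure, by simp⟩

theorem ll_locFinByZ : LocFinByZ LL := by
  classical
  refine ⟨hpos, ?_, ?_⟩
  · intro k
    exact ⟨⟨0, Multiplicative.toAdd k⟩, rfl⟩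
  · intro s hs hsk
    have hpos0 : ∀ x : LL, x ∈ hpos.ker ↔ x.pos = 0 := by
      intro x
      rw [MonoidHom.mem_ker]
      exact Iff.rfl
    set A : Finset ℤ := hs.toFinset.biUnion (fun x => x.lamp.support) with hA
    set K : Subgroup LL :=
      { carrier := {x | x.pos = 0 ∧ x.lamp.support ⊆ A}
        mul_mem' := by
          rintro a b ⟨ha, ha'⟩ ⟨hb, hb'⟩
          refine ⟨?_, ?_⟩
          · rw [mul_pos, ha, hb, add_zero]
          · rw [mul_lamp, ha]
            have : sh 0 b.lamp = b.lamp := by
              ext j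
              rw [sh_apply, sub_zero]
            rw [this]
            exact Finsupp.support_add.trans (Finset.union_subset ha' hb')
        one_mem' := by
          refine ⟨rfl, ?_⟩
          rw [one_lamp, Finsupp.support_zero]
          exact Finset.empty_subset _
        inv_mem' := by
          rintro a ⟨ha, ha'⟩
          refine ⟨?_, ?_⟩
          · rw [inv_pos, ha, neg_zero]
          · rw [inv_lamp, ha]
            have : sh (-0) a.lamp = a.lamp := by
              ext j
              rw [sh_apply, neg_zero, sub_zero]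
            rw [this]
            exact ha' } with hK
    have hle : Subgroup.closure s ≤ K := by
      rw [Subgroup.closure_le]
      intro x hx
      refine ⟨(hpos0 x).1 (hsk hx), ?_⟩
      intro i hi
      rw [hA, Finset.mem_biUnion]
      exact ⟨x, hs.mem_toFinset.2 hx, hi⟩
    refine Set.Finite.subset ?_ (show ((Subgroup.closure s : Subgroup LL) : Set LL) ⊆ (K : Set LL)
      from hle)
    refine Set.Finite.of_injOn (f := fun (x : LL) (a : A) => x.lamp a.1)
      (t := (Set.univ : Set (A → ZMod 2))) (fun _ _ => Set.mem_univ _) ?_ Set.finite_univ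
    rintro x ⟨hx, hx'⟩ y ⟨hy, hy'⟩ hxy
    apply LL.ext
    · ext j
      by_cases hj : j ∈ A
      · exact congrFun hxy ⟨j, hj⟩
      · have h1 : x.lamp j = 0 := by
          by_contra h
          exact hj (hx' (Finsupp.mem_support_iff.2 h))
        have h2 : y.lamp j = 0 := by
          by_contra h
          exact hj (hy' (Finsupp.mem_support_iff.2 h))
        rw [h1, h2]
    · rw [hx, hy]

end Pool.Agent.H34.LS.LL
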