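import Pool.Agent.H34.LS.Defs

/-!
# Windows of a group with a height function: definition
-/

namespace Pool.Agent.H34.LS

universe u

/-- The window of half-width `w`: the elements represented by words in `S` and inverses of
elements of `S` all of whose prefixes have height (value of `f`) of modulus at most `w`. -/
def window {G : Type u} [Group G] (f : G →* Multiplicative ℤ) (S : Set G) (w : ℕ) : Set G :=
  {g | ∃ l : List G, (∀ x ∈ l, x ∈ S ∨ x⁻¹ ∈ S) ∧ l.prod = g ∧
    ∀ k : ℕ, |Multiplicative.toAdd (f ((l.take k).prod))| ≤ (w : ℤ)}

end Pool.Agent.H34.LS
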