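import Pool.Agent.H34.LS.T3

/-!
T4: summary of the construction (the tower theorem). `M = ⨆ N i` is normal (union of an
increasing chain of normal subgroups), contained in `⨆ K`. Clause (loc): for `j` take the
subgroup `U` of stage `i = j`: `U ⊓ K j ≤ N (j+1) ≤ M`. Clause (ent): for `e > 0` and `L` take the
stage `i` with `(i + 1) ≥ 1 / e` and `i + 1 ≥ L`: its `l` satisfies
`l ≥ (i+1) (log [F:U] + 1) ≥ i + 1 ≥ L` and `log [F:U] ≤ l / (i+1) ≤ e l`.
-/

namespace Pool.Agent.H34.LS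

universe u

variable {F : Type u} [Group F]

private theorem t4_iSup_normal {N : ℕ → Subgroup F} (hN : ∀ i, (N i).Normal)
    (hmono : Monotone N) : (⨆ i, N i).Normal := by
  constructor
  intro x hx g
  rw [Subgroup.mem_iSup_of_directed hmono.directed_le] at hx ⊢
  obtain ⟨i, hi⟩ := hx
  exact ⟨i, (hN i).conj_mem x hi g⟩

theorem tower {S : Set F} (hf : S.Finite) (hS : Subgroup.closure S = ⊤)
    {K : ℕ → Subgroup F} (hn : ∀ j, (K j).Normal) (hm : Monotone K) (hsep : ∀ j, Sep (K j))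
    (hh : ∀ j, ∃ e : ℝ, HypQ S (K j) e) :
    ∃ (M : Subgroup F) (_ : M.Normal), M ≤ (⨆ j, K j) ∧ LacunaryHyperbolic (F ⧸ M) ∧
      (∀ j, ∃ U : Subgroup F, U.Normal ∧ U.FiniteIndex ∧ U ⊓ K j ≤ M) ∧
      (∀ e : ℝ, 0 < e → ∀ L : ℕ, ∃ (U : Subgroup F) (l : ℕ), U.Normal ∧ U.FiniteIndex ∧ L ≤ l ∧
        Real.log (U.index : ℝ) ≤ e * l ∧
        ∀ x, wordLength S x ≤ l → x ∈ U → x ∈ (⨆ j, K j) → x ∈ M) := by
  obtain ⟨N, r, hg, hst⟩ := seq_exists hf hS hn hm hsep hh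
  have hmono : Monotone N := monotone_nat_of_le_succ fun i => (hst i).1
  have hMn : (⨆ i, N i).Normal := t4_iSup_normal (fun i => (hg i).1) hmono
  refine ⟨⨆ i, N i, hMn, ?_, lacunary_limit hf hS hg hst _ rfl hMn, ?_, ?_⟩
  · refine iSup_le fun i => ?_
    obtain ⟨j, hj⟩ := (hg i).2.1
    exact hj.trans (le_iSup K j)
  · intro j
    obtain ⟨_, _, _, _, U, hU, hUf, hUK, _⟩ := hst j
    exact ⟨U, hU, hUf, hUK.trans (le_iSup N (j + 1))⟩
  · intro e he L
    obtain ⟨i, hi⟩ : ∃ i : ℕ, 1 / e ≤ (i : ℝ) := exists_nat_ge (1 / e)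
    have hk1 : 1 / e ≤ ((max i L : ℕ) : ℝ) := hi.trans (by exact_mod_cast le_max_left i L)
    have hk2 : L ≤ max i L := le_max_right i L
    generalize max i L = k at hk1 hk2
    obtain ⟨_, _, _, _, U, hU, hUf, _, l, hl, hx⟩ := hst k
    have hlog : 0 ≤ Real.log (U.index : ℝ) := Real.log_natCast_nonneg _
    have hk0 : (0 : ℝ) ≤ (k : ℝ) := Nat.cast_nonneg k
    refine ⟨U, l, hU, hUf, ?_, ?_, ?_⟩
    · have h1 : (k : ℝ) ≤ l := by nlinarith
      exact hk2.trans (by exact_mod_cast h1)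
    · have h1 : 1 ≤ e * (k : ℝ) := by
        rw [div_le_iff₀ he] at hk1
        linarith
      have h2 : e * (((k : ℝ) + 1) * (Real.log (U.index : ℝ) + 1)) ≤ e * l :=
        mul_le_mul_of_nonneg_left hl he.le
      nlinarith [mul_nonneg he.le hlog, mul_nonneg he.le hk0, mul_nonneg (sub_nonneg.2 h1) hlog]
    · intro x h1 h2 h3
      exact (le_iSup N (k + 1)) (hx x h1 h2 h3)

end Pool.Agent.H34.LS
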