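import Pool.Agent.H34.LS.Fwd

/-!
L1: the limit group is again locally-finite-by-`ℤ`. `M ≤ ker pi = ⨆ K j`.
(1) The kernel of `F ⧸ M → G` is locally finite: a finite subset lifts to a finite subset of
`K j` for some `j` (monotone union); with `U` as in the hypothesis (`U ⊓ K j ≤ M`), the image of
`K j` in `F ⧸ M` is finite (`U ⊓ K j` has finite index in `K j`).
(2) Locally finite by locally finite is locally finite: let `s` be a finite subset of the kernel
of `F ⧸ M → G → ℤ`, `H` the subgroup it generates; its image in `G` is finite, so the kernel `H0`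
of `H → G` has finite index in `H`, hence is finitely generated (Schreier,
`Subgroup.fg_of_index_ne_zero`), hence finite by (1); so `H` is finite.
(3) the composite `F ⧸ M → G → ℤ` is onto.
-/

namespace Pool.Agent.H34.LS

universe u v

theorem locFin_ext {G : Type u} [Group G] {H : Type v} [Group H] (f : G →* H)
    (hk : ∀ s : Set G, s.Finite → s ⊆ (f.ker : Set G) →
      ((Subgroup.closure s : Subgroup G) : Set G).Finite)
    (s : Set G) (hs : s.Finite)
    (hi : ((Subgroup.closure (f '' s) : Subgroup H) : Set H).Finite) :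
    ((Subgroup.closure s : Subgroup G) : Set G).Finite := by
  let C : Subgroup G := Subgroup.closure s
  let fC : C →* H := f.comp C.subtype
  have hr : Finite fC.range := by
    have h0 : (fC.range : Set H) ⊆ ((Subgroup.closure (f '' s) : Subgroup H) : Set H) := by
      rintro _ ⟨⟨x, hx⟩, rfl⟩
      have h2 : f x ∈ (Subgroup.closure s).map f := ⟨x, hx, rfl⟩
      rw [MonoidHom.map_closure] at h2
      exact h2
    exact (hi.subset h0).to_subtype
  have hfi : fC.ker.FiniteIndex := Subgroup.finiteIndex_ker fC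
  have hCfg : Group.FG C := (Group.fg_iff_subgroup_fg C).2 ⟨hs.toFinset, by simp [C]⟩
  have hkfg : Group.FG fC.ker := Subgroup.fg_of_index_ne_zero fC.ker
  have hfg : fC.ker.FG := (Group.fg_iff_subgroup_fg _).1 hkfg
  obtain ⟨T, hT⟩ := hfg
  have h1 := hk (C.subtype '' (T : Set C)) (T.finite_toSet.image _) (by
    rintro _ ⟨x, hx, rfl⟩
    have h3 : x ∈ fC.ker := by
      rw [← hT]
      exact Subgroup.subset_closure hx
    exact h3)
  rw [← MonoidHom.map_closure, hT] at h1
  have h4 : Finite fC.ker := by
    have h5 : Finite (fC.ker.map C.subtype) := h1.to_subtype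
    exact Finite.of_equiv _ (fC.ker.equivMapOfInjective C.subtype C.subtype_injective).symm.toEquiv
  have h6 : Finite (C ⧸ fC.ker) := inferInstance
  have h7 : Finite C :=
    Finite.of_equiv ((C ⧸ fC.ker) × fC.ker) (Subgroup.groupEquivQuotientProdSubgroup).symm
  exact Set.toFinite (C : Set G)

theorem locFinByZ_quot {F : Type u} [Group F] {G : Type v} [Group G] {K : ℕ → Subgroup F}
    (hm : Monotone K) (pi : F →* G) (hpi : Function.Surjective pi) (hker : pi.ker = ⨆ j, K j)
    (M : Subgroup F) [M.Normal] (hM : M ≤ pi.ker)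
    (hloc : ∀ j, ∃ U : Subgroup F, U.Normal ∧ U.FiniteIndex ∧ U ⊓ K j ≤ M)
    (hG : LocFinByZ G) : LocFinByZ (F ⧸ M) := by
  let psi : F ⧸ M →* G := QuotientGroup.lift M pi hM
  have hps : Function.Surjective psi := by
    intro y
    obtain ⟨x, rfl⟩ := hpi y
    exact ⟨QuotientGroup.mk x, rfl⟩
  have hk : ∀ s : Set (F ⧸ M), s.Finite → s ⊆ (psi.ker : Set (F ⧸ M)) →
      ((Subgroup.closure s : Subgroup (F ⧸ M)) : Set (F ⧸ M)).Finite := by
    intro s hs hsk
    have hx : ∀ x ∈ s, ∃ j, x ∈ (K j).map (QuotientGroup.mk' M) := by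
      intro x hx
      obtain ⟨y, rfl⟩ := QuotientGroup.mk'_surjective M x
      have h1 : y ∈ pi.ker := hsk hx
      rw [hker, Subgroup.mem_iSup_of_directed hm.directed_le] at h1
      obtain ⟨j, hj⟩ := h1
      exact ⟨j, y, hj, rfl⟩
    have hj : ∃ j, ∀ x ∈ s, x ∈ (K j).map (QuotientGroup.mk' M) := by
      clear hsk
      induction s, hs using Set.Finite.induction_on with
      | empty => exact ⟨0, by simp⟩
      | @insert a s ha hs ih =>
        obtain ⟨j, hj⟩ := ih (fun x h => hx x (Set.mem_insert_of_mem _ h))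
        obtain ⟨i, hi⟩ := hx a (Set.mem_insert _ _)
        refine ⟨max i j, ?_⟩
        intro x h
        rcases Set.mem_insert_iff.1 h with rfl | h
        · exact Subgroup.map_mono (hm (le_max_left i j)) hi
        · exact Subgroup.map_mono (hm (le_max_right i j)) (hj x h)
    obtain ⟨j, hj⟩ := hj
    obtain ⟨U, hUn, hUf, hUM⟩ := hloc j
    let q : K j →* F ⧸ M := (QuotientGroup.mk' M).comp (K j).subtype
    have hq : U.subgroupOf (K j) ≤ q.ker := by
      intro x hx
      have h1 : (x : F) ∈ U ⊓ K j := ⟨Subgroup.mem_subgroupOf.1 hx, x.2⟩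
      exact (QuotientGroup.eq_one_iff (x : F)).2 (hUM h1)
    have : (U.subgroupOf (K j)).FiniteIndex := inferInstance
    have : q.ker.FiniteIndex := Subgroup.finiteIndex_of_le hq
    have hfr : Finite q.range :=
      Finite.of_equiv _ (QuotientGroup.quotientKerEquivRange q).toEquiv
    have hmap : (K j).map (QuotientGroup.mk' M) = q.range := by
      rw [MonoidHom.range_comp, Subgroup.range_subtype]
    have hsub : ((Subgroup.closure s : Subgroup (F ⧸ M)) : Set (F ⧸ M)) ⊆ (q.range : Set (F ⧸ M)) := by
      have h2 : Subgroup.closure s ≤ q.range := by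
        rw [Subgroup.closure_le, ← hmap]
        exact hj
      exact h2
    exact (Set.toFinite (q.range : Set (F ⧸ M))).subset hsub
  obtain ⟨f, hfs, hfk⟩ := hG
  refine ⟨f.comp psi, hfs.comp hps, ?_⟩
  intro s hs hsk
  refine locFin_ext psi hk s hs ?_
  refine hfk (psi '' s) (hs.image _) ?_
  rintro _ ⟨x, hx, rfl⟩
  exact hsk hx

end Pool.Agent.H34.LS
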