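import Pool.Agent.H34.LS.Defs

/-!
M1: symmetric generating measures lift along epimorphisms of finitely generated groups.
Let `T' = support mu'` (finite, symmetric, generates `G'` as a monoid; nonempty), `A` a finite
generating set of `G`. For `a` in `A` write `theta a = t_1 ... t_k` with `t_i` in `T'`, `k ≥ 1`
(possible also when `theta a = 1`: a generating monoid of a group contains the inverse of any
element of `T'`, multiply). Choose preimages `s_1, ..., s_k` of the `t_i`, and replace `s_k` by
`s_k * c` with `c` in the kernel of `theta` so that `s_1 ... s_k c = a`. Let `T` be the finite set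
of all these elements `s_i`, `s_k c` (all `a` in `A`) together with one preimage of every element
of `T'`, and all inverses. Then `theta '' T = T'`, `T = T⁻¹`, and `T` generates `G` as a monoid.
Put `mu g = mu' (theta g) / #(T ∩ theta ⁻¹ {theta g})` for `g` in `T` and `0` otherwise.
-/

namespace Pool.Agent.H34.LS

universe u v

open scoped Pointwise

/-- every element is a product of elements with images in the generating set. -/
theorem m1_lift {G : Type u} [Group G] {G' : Type v} [Group G'] (theta : G →* G')
    (htheta : Function.Surjective theta) {T' : Set G'} (hne : T'.Nonempty)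
    (hinv : ∀ t ∈ T', t⁻¹ ∈ T') (h : G') (hh : h ∈ Submonoid.closure T') :
    ∀ g : G, theta g = h → ∃ T : Set G, T.Finite ∧ (∀ x ∈ T, theta x ∈ T') ∧
      g ∈ Submonoid.closure T := by
  induction hh using Submonoid.closure_induction with
  | mem x hx =>
    intro g hg
    refine ⟨{g}, Set.finite_singleton g, ?_, Submonoid.subset_closure (Set.mem_singleton g)⟩
    intro y hy
    rw [Set.mem_singleton_iff.1 hy, hg]
    exact hx
  | one =>
    intro g hg
    obtain ⟨t, ht⟩ := hne
    obtain ⟨s, hs⟩ := htheta t
    refine ⟨{g * s, s⁻¹}, (Set.finite_singleton _).insert _, ?_, ?_⟩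
    · intro y hy
      rcases hy with rfl | hy
      · rw [map_mul, hg, hs, one_mul]
        exact ht
      · rw [Set.mem_singleton_iff.1 hy, map_inv, hs]
        exact hinv t ht
    · have h1 : g * s ∈ Submonoid.closure ({g * s, s⁻¹} : Set G) :=
        Submonoid.subset_closure (Set.mem_insert _ _)
      have h2 : s⁻¹ ∈ Submonoid.closure ({g * s, s⁻¹} : Set G) :=
        Submonoid.subset_closure (Set.mem_insert_of_mem _ rfl)
      have h3 := Submonoid.mul_mem _ h1 h2
      rwa [mul_inv_cancel_right] at h3
  | mul x y _ _ ihx ihy =>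
    intro g hg
    obtain ⟨s, hs⟩ := htheta x
    obtain ⟨T1, hT1, hT1', hm1⟩ := ihx s hs
    obtain ⟨T2, hT2, hT2', hm2⟩ := ihy (s⁻¹ * g) (by
      rw [map_mul, map_inv, hs, hg, inv_mul_cancel_left])
    refine ⟨T1 ∪ T2, hT1.union hT2, ?_, ?_⟩
    · rintro z (hz | hz)
      · exact hT1' z hz
      · exact hT2' z hz
    · have h1 := Submonoid.closure_mono (Set.subset_union_left (s := T1) (t := T2)) hm1
      have h2 := Submonoid.closure_mono (Set.subset_union_right (s := T1) (t := T2)) hm2
      have h3 := Submonoid.mul_mem _ h1 h2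
      rwa [mul_inv_cancel_left] at h3

/-- the finite symmetric generating set. -/
theorem m1_set {G : Type u} [Group G] {G' : Type v} [Group G'] (hfg : Group.FG G)
    (theta : G →* G') (htheta : Function.Surjective theta) {T' : Set G'} (hfin : T'.Finite)
    (hne : T'.Nonempty) (hinv : ∀ t ∈ T', t⁻¹ ∈ T') (hcl : Submonoid.closure T' = ⊤) :
    ∃ T : Set G, T.Finite ∧ (∀ x ∈ T, theta x ∈ T') ∧ (∀ t ∈ T', ∃ x ∈ T, theta x = t) ∧
      (∀ x ∈ T, x⁻¹ ∈ T) ∧ Submonoid.closure T = ⊤ := by
  obtain ⟨A, hA, hAfin⟩ := Group.fg_iff.1 hfg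
  have hlift : ∀ g : G, ∃ T : Set G, T.Finite ∧ (∀ x ∈ T, theta x ∈ T') ∧
      g ∈ Submonoid.closure T := fun g =>
    m1_lift theta htheta hne hinv (theta g) (by rw [hcl]; exact Submonoid.mem_top _) g rfl
  choose L hL1 hL2 hL3 using hlift
  choose s hs using htheta
  set T0 : Set G := (⋃ a ∈ A, L a) ∪ s '' T' with hT0
  have hT0fin : T0.Finite := (hAfin.biUnion fun a _ => hL1 a).union (hfin.image s)
  have hT0' : ∀ x ∈ T0, theta x ∈ T' := by
    rintro x (hx | ⟨t, ht, rfl⟩)
    · simp only [Set.mem_iUnion, exists_prop] at hx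
      obtain ⟨a, _, ha⟩ := hx
      exact hL2 a x ha
    · rw [hs]
      exact ht
  have hT0cl : Subgroup.closure T0 = ⊤ := by
    rw [eq_top_iff, ← hA, Subgroup.closure_le]
    intro a ha
    have h1 : L a ⊆ T0 := fun x hx => Or.inl (Set.mem_biUnion ha hx)
    have h2 : Submonoid.closure (L a) ≤ (Subgroup.closure T0).toSubmonoid :=
      Submonoid.closure_le.2 (h1.trans Subgroup.subset_closure)
    exact h2 (hL3 a)
  refine ⟨T0 ∪ T0⁻¹, hT0fin.union hT0fin.inv, ?_, ?_, ?_, ?_⟩
  · rintro x (hx | hx)
    · exact hT0' x hx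
    · have h1 := hinv _ (hT0' _ (Set.mem_inv.1 hx))
      rwa [map_inv, inv_inv] at h1
  · intro t ht
    exact ⟨s t, Or.inl (Or.inr ⟨t, ht, rfl⟩), hs t⟩
  · rintro x (hx | hx)
    · exact Or.inr (by rwa [Set.mem_inv, inv_inv])
    · exact Or.inl (Set.mem_inv.1 hx)
  · rw [← Subgroup.closure_toSubmonoid, hT0cl]
    rfl

theorem lift_measure {G : Type u} [Group G] {G' : Type v} [Group G'] (hfg : Group.FG G)
    (theta : G →* G') (htheta : Function.Surjective theta) {mu' : G' → ℝ} (h : IsFSProb mu')
    (hg : Generating mu') (hs : Symm mu') :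
    ∃ mu : G → ℝ, IsFSProb mu ∧ Generating mu ∧ Symm mu ∧ push theta mu = mu' := by
  classical
  have hne : (Function.support mu').Nonempty := by
    by_contra hc
    rw [Set.not_nonempty_iff_eq_empty, Function.support_eq_empty_iff] at hc
    have := h.total
    rw [hc] at this
    simp at this
  have hinv : ∀ t ∈ Function.support mu', t⁻¹ ∈ Function.support mu' := by
    intro t ht
    rw [Function.mem_support] at ht ⊢
    rw [hs]
    exact ht
  obtain ⟨T, hTfin, hT1, hT2, hT3, hT4⟩ := m1_set hfg theta htheta h.finite hne hinv hg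
  set F : Finset G := hTfin.toFinset with hF
  have hFT : ∀ g, g ∈ F ↔ g ∈ T := fun g => hTfin.mem_toFinset
  set n : G' → ℕ := fun t => (F.filter fun g => theta g = t).card with hn
  set mu : G → ℝ := fun g => if g ∈ F then mu' (theta g) / n (theta g) else 0 with hmu
  have hnpos : ∀ t ∈ Function.support mu', 0 < n t := by
    intro t ht
    obtain ⟨x, hx, hxt⟩ := hT2 t ht
    exact Finset.card_pos.2 ⟨x, Finset.mem_filter.2 ⟨(hFT x).2 hx, hxt⟩⟩
  have hninv : ∀ t, n t⁻¹ = n t := by
    intro t
    refine Finset.card_bij (fun g _ => g⁻¹) ?_ ?_ ?_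
    · intro g hg
      rw [Finset.mem_filter] at hg ⊢
      refine ⟨(hFT _).2 (hT3 g ((hFT g).1 hg.1)), ?_⟩
      rw [map_inv, hg.2, inv_inv]
    · intro a _ b _ hab
      exact inv_injective hab
    · intro b hb
      rw [Finset.mem_filter] at hb
      refine ⟨b⁻¹, ?_, inv_inv b⟩
      rw [Finset.mem_filter]
      refine ⟨(hFT _).2 (hT3 b ((hFT b).1 hb.1)), ?_⟩
      rw [map_inv, hb.2]
  have hsupp : Function.support mu = T := by
    ext g
    rw [Function.mem_support]
    constructor
    · intro hg
      by_contra hc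
      apply hg
      simp only [hmu]
      rw [if_neg (fun h' => hc ((hFT g).1 h'))]
    · intro hg
      simp only [hmu]
      rw [if_pos ((hFT g).2 hg)]
      have h1 := hT1 g hg
      exact div_ne_zero h1 (Nat.cast_ne_zero.2 (hnpos _ h1).ne')
  have hpush : ∀ t, ∑ g ∈ F.filter (fun g => theta g = t), mu g = mu' t := by
    intro t
    have h1 : ∑ g ∈ F.filter (fun g => theta g = t), mu g =
        ∑ g ∈ F.filter (fun g => theta g = t), mu' t / n t := by
      refine Finset.sum_congr rfl fun g hg => ?_
      rw [Finset.mem_filter] at hg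
      simp only [hmu]
      rw [if_pos hg.1, hg.2]
    rw [h1, Finset.sum_const, nsmul_eq_mul]
    by_cases ht : t ∈ Function.support mu'
    · have h2 : (n t : ℝ) ≠ 0 := Nat.cast_ne_zero.2 (hnpos t ht).ne'
      change (n t : ℝ) * (mu' t / n t) = mu' t
      field_simp
    · rw [Function.notMem_support] at ht
      rw [ht]
      simp
  refine ⟨mu, ⟨?_, ?_, ?_⟩, ?_, ?_, ?_⟩
  · intro g
    simp only [hmu]
    split_ifs
    · exact div_nonneg (h.nonneg _) (Nat.cast_nonneg _)
    · exact le_rfl
  · rw [hsupp]
    exact hTfin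
  · rw [finsum_eq_sum_of_support_subset mu (s := F) (by
      rw [hsupp]
      intro g hg
      exact (hFT g).2 hg)]
    have h1 := h.total
    rw [finsum_eq_sum_of_support_subset mu' (s := h.finite.toFinset) (by
      intro g hg
      exact h.finite.mem_toFinset.2 hg)] at h1
    rw [← h1, ← Finset.sum_fiberwise_of_maps_to (s := F) (t := h.finite.toFinset) (g := theta)
      (fun g hg => h.finite.mem_toFinset.2 (hT1 g ((hFT g).1 hg)))]
    exact Finset.sum_congr rfl fun t _ => hpush t
  · unfold Generating
    rw [hsupp]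
    exact hT4
  · intro g
    have hmem : g⁻¹ ∈ F ↔ g ∈ F := by
      rw [hFT, hFT]
      constructor
      · intro h'
        have := hT3 _ h'
        rwa [inv_inv] at this
      · exact hT3 g
    simp only [hmu]
    by_cases hg : g ∈ F
    · rw [if_pos hg, if_pos (hmem.2 hg), map_inv, hs, hninv]
    · rw [if_neg hg, if_neg (fun h' => hg (hmem.1 h'))]
  · funext t
    unfold push
    rw [← hpush t]
    have h1 : ∀ g : G, (∑ᶠ (_ : g ∈ theta ⁻¹' {t}), mu g) = if theta g = t then mu g else 0 := by
      intro g
      by_cases hgt : theta g = t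
      · have h2 : g ∈ theta ⁻¹' {t} := hgt
        rw [if_pos hgt, finsum_eq_if, if_pos h2]
      · have h2 : ¬ g ∈ theta ⁻¹' {t} := hgt
        rw [if_neg hgt, finsum_eq_if, if_neg h2]
    simp only [h1]
    rw [finsum_eq_sum_of_support_subset _ (s := F) (by
      intro g hg
      rw [Function.mem_support] at hg
      apply (hFT g).2
      rw [← hsupp, Function.mem_support]
      intro h0
      apply hg
      rw [h0]
      simp)]
    rw [Finset.sum_filter]

end Pool.Agent.H34.LS
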