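import Pool.Agent.H34.LS.W1

/-!
W2: word length and surjective homomorphisms. `wl_lift`: take a shortest word for `h` in the
images of the generators and lift it letter by letter; `wl_map_le` gives the other inequality.
-/

namespace Pool.Agent.H34.LS

universe u v

variable {G : Type u} [Group G] {H : Type v} [Group H] {S : Set G}

theorem closure_image (f : G →* H) (hf : Function.Surjective f)
    (hS : Subgroup.closure S = ⊤) : Subgroup.closure (f '' S) = ⊤ := by
  rw [← MonoidHom.map_closure, hS, ← MonoidHom.range_eq_map]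
  exact MonoidHom.range_eq_top.mpr hf

theorem wl_map_le (f : G →* H) (hS : Subgroup.closure S = ⊤) (g : G) :
    wordLength (f '' S) (f g) ≤ wordLength S g := by
  obtain ⟨l, hl, hlS, hlg⟩ := wl_exists hS g
  have h1 : (l.map f).prod = f g := by
    rw [← map_list_prod, hlg]
  rw [← h1, ← hl, ← List.length_map (as := l) f]
  refine wl_le fun x hx => ?_
  obtain ⟨y, hy, rfl⟩ := List.mem_map.mp hx
  rcases hlS y hy with h | h
  · exact Or.inl ⟨y, h, rfl⟩
  · exact Or.inr ⟨y⁻¹, h, map_inv f y⟩

theorem wl_lift (f : G →* H) (hf : Function.Surjective f) (hS : Subgroup.closure S = ⊤) (h : H) :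
    ∃ g : G, f g = h ∧ wordLength S g = wordLength (f '' S) h := by
  obtain ⟨l, hl, hlS, hlh⟩ := wl_exists (closure_image f hf hS) h
  have key : ∀ l : List H, (∀ x ∈ l, x ∈ f '' S ∨ x⁻¹ ∈ f '' S) →
      ∃ l' : List G, l'.map f = l ∧ ∀ y ∈ l', y ∈ S ∨ y⁻¹ ∈ S := by
    intro l
    induction l with
    | nil => intro _; exact ⟨[], rfl, by simp⟩
    | cons x l ih =>
      intro hx
      obtain ⟨l', hl', hl'S⟩ := ih fun y hy => hx y (List.mem_cons_of_mem _ hy)
      have hy : ∃ y : G, f y = x ∧ (y ∈ S ∨ y⁻¹ ∈ S) := by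
        rcases hx x (List.mem_cons_self) with ⟨y, hy, hyx⟩ | ⟨y, hy, hyx⟩
        · exact ⟨y, hyx, Or.inl hy⟩
        · refine ⟨y⁻¹, ?_, Or.inr (by rwa [inv_inv])⟩
          rw [map_inv, hyx, inv_inv]
      obtain ⟨y, hyx, hyS⟩ := hy
      refine ⟨y :: l', by rw [List.map_cons, hyx, hl'], fun z hz => ?_⟩
      rcases List.mem_cons.mp hz with rfl | hz
      · exact hyS
      · exact hl'S z hz
  obtain ⟨l', hl', hl'S⟩ := key l hlS
  have h1 : f l'.prod = h := by
    rw [map_list_prod, hl', hlh]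
  refine ⟨l'.prod, h1, le_antisymm ?_ ?_⟩
  · rw [← hl, ← hl', List.length_map]
    exact wl_le hl'S
  · have := wl_map_le f hS l'.prod
    rwa [h1] at this

end Pool.Agent.H34.LS
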