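import Pool.Agent.H34.LS.Fwd

/-!
E1: probability elements of the group algebra, averaging operators and the l1 norm.
`MonoidAlgebra ℝ G` is a structure with field `coeff : G →₀ ℝ`; useful lemmas are
`MonoidAlgebra.coeff_mul_apply_left`, `MonoidAlgebra.mul_def`, `MonoidAlgebra.mapDomainRingHom`.
-/

namespace Pool.Agent.H34.LS

universe u v

variable {G : Type u} [Group G] {H : Type v} [Group H]

/-- total mass. -/
private noncomputable def e1_tot (p : MonoidAlgebra ℝ G) : ℝ := p.coeff.sum (fun _ a => a)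

private theorem e1_tot_add (p q : MonoidAlgebra ℝ G) : e1_tot (p + q) = e1_tot p + e1_tot q := by
  unfold e1_tot
  rw [MonoidAlgebra.coeff_add]
  exact Finsupp.sum_add_index' (fun _ => rfl) (fun _ _ _ => rfl)

private theorem e1_tot_zero : e1_tot (0 : MonoidAlgebra ℝ G) = 0 := by
  unfold e1_tot
  simp

private theorem e1_tot_single (g : G) (r : ℝ) : e1_tot (MonoidAlgebra.single g r) = r := by
  unfold e1_tot
  rw [MonoidAlgebra.coeff_single]
  exact Finsupp.sum_single_index rfl

private theorem e1_tot_mul (p q : MonoidAlgebra ℝ G) : e1_tot (p * q) = e1_tot p * e1_tot q := by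
  induction p using MonoidAlgebra.induction_linear with
  | zero => rw [zero_mul, e1_tot_zero, zero_mul]
  | add x y hx hy => rw [add_mul, e1_tot_add, hx, hy, e1_tot_add, add_mul]
  | single g r =>
    induction q using MonoidAlgebra.induction_linear with
    | zero => rw [mul_zero, e1_tot_zero, mul_zero]
    | add x y hx hy => rw [mul_add, e1_tot_add, hx, hy, e1_tot_add, mul_add]
    | single h s =>
      rw [MonoidAlgebra.single_mul_single, e1_tot_single, e1_tot_single, e1_tot_single]

private theorem e1_avg_add (p q : MonoidAlgebra ℝ G) (f : G → ℝ) (x : G) :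
    avg (p + q) f x = avg p f x + avg q f x := by
  unfold avg
  rw [MonoidAlgebra.coeff_add]
  exact Finsupp.sum_add_index' (fun _ => zero_mul _) (fun _ _ _ => add_mul _ _ _)

private theorem e1_avg_zero (f : G → ℝ) (x : G) : avg (0 : MonoidAlgebra ℝ G) f x = 0 := by
  unfold avg
  simp

private theorem e1_avg_single (g : G) (r : ℝ) (f : G → ℝ) (x : G) :
    avg (MonoidAlgebra.single g r) f x = r * f (x * g) := by
  unfold avg
  rw [MonoidAlgebra.coeff_single]
  exact Finsupp.sum_single_index (zero_mul _)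

private theorem e1_avg_single_mul (g : G) (r : ℝ) (q : MonoidAlgebra ℝ G) (f : G → ℝ) (x : G) :
    avg (MonoidAlgebra.single g r * q) f x = r * avg q f (x * g) := by
  induction q using MonoidAlgebra.induction_linear with
  | zero => rw [mul_zero, e1_avg_zero, e1_avg_zero, mul_zero]
  | add y z hy hz => rw [mul_add, e1_avg_add, hy, hz, e1_avg_add, mul_add]
  | single h s =>
    rw [MonoidAlgebra.single_mul_single, e1_avg_single, e1_avg_single, mul_assoc, mul_assoc]

private theorem e1_nrm_eq (p : MonoidAlgebra ℝ G) (s : Finset G) (hs : p.coeff.support ⊆ s) :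
    nrm p = ∑ g ∈ s, |p.coeff g| := by
  unfold nrm
  exact Finsupp.sum_of_support_subset _ hs _ (fun _ _ => abs_zero)

private theorem e1_nrm_single (g : G) (r : ℝ) : nrm (MonoidAlgebra.single g r) = |r| := by
  unfold nrm
  rw [MonoidAlgebra.coeff_single]
  exact Finsupp.sum_single_index abs_zero

theorem pa_single (g : G) : PA (MonoidAlgebra.single g (1 : ℝ)) := by
  classical
  refine ⟨fun h => ?_, e1_tot_single g 1⟩
  rw [MonoidAlgebra.coeff_single, Finsupp.single_apply]
  split_ifs
  · exact zero_le_one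
  · exact le_rfl

theorem pa_one : PA (1 : MonoidAlgebra ℝ G) := by
  rw [MonoidAlgebra.one_def]
  exact pa_single 1

theorem pa_mul {p q : MonoidAlgebra ℝ G} (hp : PA p) (hq : PA q) : PA (p * q) := by
  classical
  refine ⟨fun g => ?_, ?_⟩
  · rw [MonoidAlgebra.coeff_mul]
    refine Finset.sum_nonneg fun a _ => Finset.sum_nonneg fun b _ => ?_
    change (0 : ℝ) ≤ if a * b = g then p.coeff a * q.coeff b else 0
    split_ifs
    · exact mul_nonneg (hp.1 a) (hq.1 b)
    · exact le_rfl
  · have h1 := e1_tot_mul p q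
    have h2 : e1_tot p = 1 := hp.2
    have h3 : e1_tot q = 1 := hq.2
    rw [h2, h3, mul_one] at h1
    exact h1

theorem pa_pow {p : MonoidAlgebra ℝ G} (hp : PA p) (n : ℕ) : PA (p ^ n) := by
  induction n with
  | zero => rw [pow_zero]; exact pa_one
  | succ n ih => rw [pow_succ]; exact pa_mul ih hp

theorem pa_shl {p : MonoidAlgebra ℝ G} (hp : PA p) (g : G) : PA (shl g p) := pa_mul (pa_single g) hp

theorem pa_mp (f : G →* H) {p : MonoidAlgebra ℝ G} (hp : PA p) : PA (mp f p) := by
  classical
  have hc : (mp f p).coeff = Finsupp.mapDomain f p.coeff := rfl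
  refine ⟨fun h => ?_, ?_⟩
  · rw [hc, Finsupp.mapDomain, Finsupp.sum_apply]
    refine Finset.sum_nonneg fun a _ => ?_
    change 0 ≤ (Finsupp.single (f a) (p.coeff a) : H →₀ ℝ) h
    rw [Finsupp.single_apply]
    split_ifs
    · exact hp.1 a
    · exact le_rfl
  · rw [hc, Finsupp.sum_mapDomain_index (fun _ => rfl) (fun _ _ _ => rfl)]
    exact hp.2

theorem avg_one (f : G → ℝ) : avg (1 : MonoidAlgebra ℝ G) f = f := by
  funext x
  rw [MonoidAlgebra.one_def, e1_avg_single, one_mul, mul_one]

theorem avg_mul (p q : MonoidAlgebra ℝ G) (f : G → ℝ) : avg (p * q) f = avg p (avg q f) := by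
  funext x
  induction p using MonoidAlgebra.induction_linear with
  | zero => rw [zero_mul, e1_avg_zero, e1_avg_zero]
  | add y z hy hz => rw [add_mul, e1_avg_add, hy, hz, e1_avg_add]
  | single g r => rw [e1_avg_single_mul, e1_avg_single]

theorem avg_pow_harm {p : MonoidAlgebra ℝ G} {f : G → ℝ} (h : avg p f = f) (n : ℕ) :
    avg (p ^ n) f = f := by
  induction n with
  | zero => rw [pow_zero]; exact avg_one f
  | succ n ih => rw [pow_succ, avg_mul, h, ih]

theorem avg_shl (g : G) (p : MonoidAlgebra ℝ G) (f : G → ℝ) (x : G) :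
    avg (shl g p) f x = avg p f (x * g) := by
  unfold shl
  rw [e1_avg_single_mul, one_mul]

private theorem e1_avg_le (p : MonoidAlgebra ℝ G) {f : G → ℝ} {C : ℝ} (hf : ∀ x, |f x| ≤ C)
    (x : G) : |avg p f x| ≤ C * nrm p := by
  unfold avg nrm Finsupp.sum
  rw [Finset.mul_sum]
  refine (Finset.abs_sum_le_sum_abs _ _).trans ?_
  refine Finset.sum_le_sum fun g _ => ?_
  rw [abs_mul, mul_comm]
  exact mul_le_mul_of_nonneg_right (hf _) (abs_nonneg _)

theorem avg_bound {p : MonoidAlgebra ℝ G} (hp : PA p) {f : G → ℝ} {C : ℝ}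
    (hf : ∀ x, |f x| ≤ C) (x : G) : |avg p f x| ≤ C := by
  have h1 : |avg p f x| ≤ C * nrm p := e1_avg_le p hf x
  have h2 : nrm p = 1 := by
    unfold nrm
    refine Eq.trans ?_ hp.2
    exact Finset.sum_congr rfl fun g _ => abs_of_nonneg (hp.1 g)
  rw [h2, mul_one] at h1
  exact h1

theorem avg_sub_le (p q : MonoidAlgebra ℝ G) {f : G → ℝ} {C : ℝ} (hf : ∀ x, |f x| ≤ C) (x : G) :
    |avg p f x - avg q f x| ≤ C * nrm (p - q) := by
  have h1 : avg p f x - avg q f x = avg (p - q) f x := by
    have h2 := e1_avg_add (p - q) q f x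
    rw [sub_add_cancel] at h2
    rw [h2]
    ring
  rw [h1]
  exact e1_avg_le (p - q) hf x

theorem nrm_nonneg (p : MonoidAlgebra ℝ G) : 0 ≤ nrm p := by
  unfold nrm
  exact Finset.sum_nonneg fun g _ => abs_nonneg _

theorem nrm_pa {p : MonoidAlgebra ℝ G} (hp : PA p) : nrm p = 1 := by
  unfold nrm
  refine Eq.trans ?_ hp.2
  exact Finset.sum_congr rfl fun g _ => abs_of_nonneg (hp.1 g)

theorem nrm_add_le (p q : MonoidAlgebra ℝ G) : nrm (p + q) ≤ nrm p + nrm q := by
  classical
  rw [e1_nrm_eq (p + q) (p.coeff.support ∪ q.coeff.support)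
      (by rw [MonoidAlgebra.coeff_add]; exact Finsupp.support_add),
    e1_nrm_eq p (p.coeff.support ∪ q.coeff.support) Finset.subset_union_left,
    e1_nrm_eq q (p.coeff.support ∪ q.coeff.support) Finset.subset_union_right,
    ← Finset.sum_add_distrib]
  refine Finset.sum_le_sum fun g _ => ?_
  rw [MonoidAlgebra.coeff_add, Finsupp.add_apply]
  exact abs_add_le _ _

theorem nrm_smul (c : ℝ) (p : MonoidAlgebra ℝ G) : nrm (c • p) = |c| * nrm p := by
  rw [e1_nrm_eq (c • p) p.coeff.support
      (by rw [MonoidAlgebra.coeff_smul]; exact Finsupp.support_smul),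
    e1_nrm_eq p p.coeff.support (Finset.Subset.refl _), Finset.mul_sum]
  refine Finset.sum_congr rfl fun g _ => ?_
  rw [MonoidAlgebra.coeff_smul, Finsupp.smul_apply, smul_eq_mul, abs_mul]

private theorem e1_nrm_sum_le {ι : Type*} (s : Finset ι) (f : ι → MonoidAlgebra ℝ G) :
    nrm (∑ i ∈ s, f i) ≤ ∑ i ∈ s, nrm (f i) := by
  classical
  induction s using Finset.induction_on with
  | empty =>
    rw [Finset.sum_empty, Finset.sum_empty]
    unfold nrm
    simp
  | insert a s ha ih =>
    rw [Finset.sum_insert ha, Finset.sum_insert ha]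
    exact (nrm_add_le _ _).trans (by linarith)

theorem nrm_mul_le (p q : MonoidAlgebra ℝ G) : nrm (p * q) ≤ nrm p * nrm q := by
  rw [MonoidAlgebra.mul_def]
  unfold Finsupp.sum
  refine (e1_nrm_sum_le _ _).trans ?_
  have h1 : ∀ g ∈ p.coeff.support,
      nrm (∑ h ∈ q.coeff.support, MonoidAlgebra.single (g * h) (p.coeff g * q.coeff h)) ≤
        |p.coeff g| * nrm q := by
    intro g _
    refine (e1_nrm_sum_le _ _).trans ?_
    rw [e1_nrm_eq q q.coeff.support (Finset.Subset.refl _), Finset.mul_sum]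
    refine Finset.sum_le_sum fun h _ => ?_
    rw [e1_nrm_single, abs_mul]
  refine (Finset.sum_le_sum h1).trans ?_
  rw [← Finset.sum_mul, ← e1_nrm_eq p p.coeff.support (Finset.Subset.refl _)]

end Pool.Agent.H34.LS
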