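import Pool.Agent.H34.LS.E4

/-!
E5: entropy increments. `ent_step`:
`Σ_g p g Σ_x q (g⁻¹ x) log (q (g⁻¹ x) / (p q) x) = Σ_g p g (- ent q) + ent (p q)`
because `Σ_g p g q (g⁻¹ x) = (p q) x`. (Absolute continuity: `p g > 0` and `q (g⁻¹ x) > 0` imply
`(p q) x > 0`.) `ent_mono`: apply `ent_step` to `q = p ^ n` and `q = p ^ (n+1)`, and
`kl_mul_right` with `r = p` to every term.
-/

namespace Pool.Agent.H34.LS

universe u

variable {G : Type u} [Group G]

private theorem e5_shl_apply (g : G) (q : MonoidAlgebra ℝ G) (x : G) :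
    (shl g q).coeff x = q.coeff (g⁻¹ * x) := by
  unfold shl
  rw [MonoidAlgebra.coeff_single_mul_apply, one_mul]

private theorem e5_mul_apply (p q : MonoidAlgebra ℝ G) (x : G) :
    (p * q).coeff x = ∑ g ∈ p.coeff.support, p.coeff g * q.coeff (g⁻¹ * x) := by
  rw [MonoidAlgebra.coeff_mul_apply_left]
  rfl

private theorem e5_ent_eq_finsum (q : MonoidAlgebra ℝ G) :
    ent q = ∑ᶠ x, Real.negMulLog (q.coeff x) := by
  rw [finsum_eq_sum_of_support_subset (s := q.coeff.support)]
  · rfl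
  · intro x hx
    rw [Function.mem_support] at hx
    rw [Finset.mem_coe, Finsupp.mem_support_iff]
    intro h
    apply hx
    rw [h, Real.negMulLog_zero]

private theorem e5_ent_shl (g : G) (q : MonoidAlgebra ℝ G) : ent (shl g q) = ent q := by
  rw [e5_ent_eq_finsum, e5_ent_eq_finsum]
  rw [← finsum_comp_equiv (Equiv.mulLeft g⁻¹) (f := fun x => Real.negMulLog (q.coeff x))]
  apply finsum_congr
  intro x
  rw [e5_shl_apply]
  rfl

theorem shl_ac {p q : MonoidAlgebra ℝ G} (hp : PA p) (hq : PA q) {g : G} (hg : 0 < p.coeff g)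
    (x : G) (h : (p * q).coeff x = 0) : (shl g q).coeff x = 0 := by
  rw [e5_shl_apply]
  rw [e5_mul_apply, Finset.sum_eq_zero_iff_of_nonneg] at h
  · have h1 := h g (Finsupp.mem_support_iff.2 hg.ne')
    rcases mul_eq_zero.1 h1 with h2 | h2
    · exact absurd h2 hg.ne'
    · exact h2
  · intro i _
    exact mul_nonneg (hp.1 i) (hq.1 _)

private theorem e5_kl {p q : MonoidAlgebra ℝ G} (hp : PA p) (hq : PA q) {g : G}
    (hg : 0 < p.coeff g) :
    kl (shl g q).coeff (p * q).coeff =
      - ent q - ∑ x ∈ (p * q).coeff.support,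
        q.coeff (g⁻¹ * x) * Real.log ((p * q).coeff x) := by
  have hsub : (shl g q).coeff.support ⊆ (p * q).coeff.support := by
    intro x hx
    rw [Finsupp.mem_support_iff] at hx ⊢
    exact fun h => hx (shl_ac hp hq hg x h)
  have h1 : kl (shl g q).coeff (p * q).coeff = ∑ x ∈ (p * q).coeff.support,
      (shl g q).coeff x * Real.log ((shl g q).coeff x / (p * q).coeff x) := by
    unfold kl
    exact Finsupp.sum_of_support_subset _ hsub _ (fun x _ => by rw [zero_mul])
  have h2 : ent q = ∑ x ∈ (p * q).coeff.support, Real.negMulLog ((shl g q).coeff x) := by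
    rw [← e5_ent_shl g q]
    unfold ent fent
    exact Finsupp.sum_of_support_subset _ hsub _ (fun x _ => Real.negMulLog_zero)
  rw [h1, h2, ← Finset.sum_neg_distrib, ← Finset.sum_sub_distrib]
  apply Finset.sum_congr rfl
  intro x hx
  rw [Finsupp.mem_support_iff] at hx
  rw [← e5_shl_apply g q x]
  by_cases h0 : (shl g q).coeff x = 0
  · rw [h0]
    simp
  · rw [Real.log_div h0 hx, Real.negMulLog]
    ring

theorem ent_step {p q : MonoidAlgebra ℝ G} (hp : PA p) (hq : PA q) :
    ent (p * q) - ent q = p.coeff.sum (fun g a => a * kl (shl g q).coeff (p * q).coeff) := by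
  have h1 : p.coeff.sum (fun g a => a * kl (shl g q).coeff (p * q).coeff) =
      ∑ g ∈ p.coeff.support, (p.coeff g * (- ent q) -
        ∑ x ∈ (p * q).coeff.support,
          (p.coeff g * q.coeff (g⁻¹ * x)) * Real.log ((p * q).coeff x)) := by
    unfold Finsupp.sum
    apply Finset.sum_congr rfl
    intro g hg
    rw [Finsupp.mem_support_iff] at hg
    change p.coeff g * kl (shl g q).coeff (p * q).coeff = _
    rw [e5_kl hp hq (lt_of_le_of_ne (hp.1 g) (Ne.symm hg)), mul_sub, Finset.mul_sum]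
    congr 1
    apply Finset.sum_congr rfl
    intro x _
    ring
  rw [h1, Finset.sum_sub_distrib, ← Finset.sum_mul, Finset.sum_comm]
  have h2 : ∑ g ∈ p.coeff.support, p.coeff g = 1 := hp.2
  have h3 : ∑ x ∈ (p * q).coeff.support, ∑ g ∈ p.coeff.support,
      (p.coeff g * q.coeff (g⁻¹ * x)) * Real.log ((p * q).coeff x) = - ent (p * q) := by
    unfold ent fent Finsupp.sum
    rw [← Finset.sum_neg_distrib]
    apply Finset.sum_congr rfl
    intro x _
    rw [← Finset.sum_mul, ← e5_mul_apply]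
    change _ = - (-((p * q).coeff x) * Real.log ((p * q).coeff x))
    ring
  rw [h2, h3]
  ring

theorem ent_step_nonneg {p : MonoidAlgebra ℝ G} (hp : PA p) (n : ℕ) :
    0 ≤ ent (p ^ (n + 1)) - ent (p ^ n) := by
  rw [pow_succ', ent_step hp (pa_pow hp n)]
  apply Finset.sum_nonneg
  intro g hg
  rw [Finsupp.mem_support_iff] at hg
  apply mul_nonneg (hp.1 g)
  have h1 := pa_shl (pa_pow hp n) g
  have h2 := pa_mul hp (pa_pow hp n)
  apply kl_nonneg _ _ h1.1 h2.1
  · rw [h1.2, h2.2]
  · exact shl_ac hp (pa_pow hp n) (lt_of_le_of_ne (hp.1 g) (Ne.symm hg))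

theorem ent_mono {p : MonoidAlgebra ℝ G} (hp : PA p) (n : ℕ) :
    ent (p ^ (n + 2)) - ent (p ^ (n + 1)) ≤ ent (p ^ (n + 1)) - ent (p ^ n) := by
  have h1 : ent (p ^ (n + 2)) - ent (p ^ (n + 1)) =
      p.coeff.sum (fun g a => a * kl (shl g (p ^ (n + 1))).coeff (p * p ^ (n + 1)).coeff) := by
    rw [← ent_step hp (pa_pow hp (n + 1)), ← pow_succ']
  have h2 : ent (p ^ (n + 1)) - ent (p ^ n) =
      p.coeff.sum (fun g a => a * kl (shl g (p ^ n)).coeff (p * p ^ n).coeff) := by
    rw [← ent_step hp (pa_pow hp n), ← pow_succ']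
  rw [h1, h2]
  apply Finset.sum_le_sum
  intro g hg
  rw [Finsupp.mem_support_iff] at hg
  apply mul_le_mul_of_nonneg_left _ (hp.1 g)
  have h3 : shl g (p ^ (n + 1)) = shl g (p ^ n) * p := by
    unfold shl
    rw [pow_succ, mul_assoc]
  have h4 : p * p ^ (n + 1) = (p * p ^ n) * p := by
    rw [pow_succ, mul_assoc]
  rw [h3, h4]
  exact kl_mul_right (pa_shl (pa_pow hp n) g) (pa_mul hp (pa_pow hp n)) hp
    (shl_ac hp (pa_pow hp n) (lt_of_le_of_ne (hp.1 g) (Ne.symm hg)))

theorem ent_one : ent (1 : MonoidAlgebra ℝ G) = 0 := by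
  unfold ent fent
  rw [MonoidAlgebra.one_def, MonoidAlgebra.coeff_single, Finsupp.sum_single_index]
  · exact Real.negMulLog_one
  · exact Real.negMulLog_zero

end Pool.Agent.H34.LS
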