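import Pool.Agent.H34.LS.Fwd

/-!
E6: l1 distance and relative entropy.
`l1_sq_le_kl` (Hellinger bound, a weak Pinsker inequality): `kl p q = 2 Σ p (- log √(q/p)) ≥
2 Σ p (1 - √(q/p)) = Σ (√p - √q)²` (both have mass one), and by Cauchy-Schwarz
`(Σ |p - q|)² ≤ Σ (√p - √q)² * Σ (√p + √q)² ≤ 4 Σ (√p - √q)²`.
`kl_le_l1`: if `c p ≤ q` pointwise with `0 < c ≤ 1` then
`kl p q ≤ Σ p (p/q - 1) = Σ (p-q)²/q ≤ Σ |p - q| / c` (log x ≤ x - 1; equal masses;
`|p - q| / q ≤ max (p/q) 1 ≤ 1/c`).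
-/

namespace Pool.Agent.H34.LS

universe u

private theorem e6_sum {X : Type u} [DecidableEq X] (p q : X →₀ ℝ) (f : X → ℝ → ℝ)
    (hf : ∀ x, f x 0 = 0) :
    p.sum f = ∑ x ∈ p.support ∪ q.support, f x (p x) :=
  Finsupp.sum_of_support_subset p Finset.subset_union_left f (fun x _ => hf x)

private theorem e6_sum' {X : Type u} [DecidableEq X] (p q : X →₀ ℝ) (f : X → ℝ → ℝ)
    (hf : ∀ x, f x 0 = 0) :
    q.sum f = ∑ x ∈ p.support ∪ q.support, f x (q x) :=
  Finsupp.sum_of_support_subset q Finset.subset_union_right f (fun x _ => hf x)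

private theorem e6_sub {X : Type u} [DecidableEq X] (p q : X →₀ ℝ) :
    (p - q).sum (fun _ a => |a|) = ∑ x ∈ p.support ∪ q.support, |p x - q x| := by
  rw [Finsupp.sum_of_support_subset (p - q) (s := p.support ∪ q.support) ?_ _ (by simp)]
  · rfl
  · intro x hx
    rw [Finset.mem_union, Finsupp.mem_support_iff, Finsupp.mem_support_iff]
    rw [Finsupp.mem_support_iff, Finsupp.sub_apply] at hx
    by_contra h
    push Not at h
    rw [h.1, h.2] at hx
    simp at hx

private theorem e6_kl {X : Type u} [DecidableEq X] (p q : X →₀ ℝ) :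
    kl p q = ∑ x ∈ p.support ∪ q.support, p x * Real.log (p x / q x) := by
  unfold kl
  exact e6_sum p q (fun x a => a * Real.log (a / q x)) (by simp)

private theorem e6_low {a b : ℝ} (ha : 0 ≤ a) (hb : 0 ≤ b) (h : b = 0 → a = 0) :
    2 * (a - Real.sqrt a * Real.sqrt b) ≤ a * Real.log (a / b) := by
  rcases ha.eq_or_lt with h0 | h0
  · rw [← h0]; simp
  · have hb0 : 0 < b := lt_of_le_of_ne hb (fun h1 => h0.ne' (h h1.symm))
    have hsa : 0 < Real.sqrt a := Real.sqrt_pos.2 h0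
    have hsb : 0 < Real.sqrt b := Real.sqrt_pos.2 hb0
    have h1 : Real.log (Real.sqrt b / Real.sqrt a) ≤ Real.sqrt b / Real.sqrt a - 1 :=
      Real.log_le_sub_one_of_pos (div_pos hsb hsa)
    have h2 : Real.log (Real.sqrt b / Real.sqrt a) = - (Real.log (a / b) / 2) := by
      rw [Real.log_div hsb.ne' hsa.ne', Real.log_div h0.ne' hb0.ne', Real.log_sqrt hb,
        Real.log_sqrt ha]
      ring
    rw [h2] at h1
    have h3 : 2 * (1 - Real.sqrt b / Real.sqrt a) ≤ Real.log (a / b) := by linarith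
    have h4 := mul_le_mul_of_nonneg_left h3 ha
    have h5 : a * (2 * (1 - Real.sqrt b / Real.sqrt a)) =
        2 * (a - Real.sqrt a * Real.sqrt b) := by
      have h6 : a = Real.sqrt a * Real.sqrt a := (Real.mul_self_sqrt ha).symm
      have h7 : a * (Real.sqrt b / Real.sqrt a) = Real.sqrt a * Real.sqrt b := by
        rw [mul_div_assoc']
        rw [div_eq_iff hsa.ne']
        nth_rewrite 1 [h6]
        ring
      calc a * (2 * (1 - Real.sqrt b / Real.sqrt a))
          = 2 * (a - a * (Real.sqrt b / Real.sqrt a)) := by ring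
        _ = 2 * (a - Real.sqrt a * Real.sqrt b) := by rw [h7]
    linarith

private theorem e6_up {a b c : ℝ} (ha : 0 ≤ a) (hc : 0 < c) (hc1 : c ≤ 1)
    (hb : 0 ≤ b) (h : c * a ≤ b) :
    a * Real.log (a / b) ≤ (a - b) + |a - b| / c := by
  rcases ha.eq_or_lt with h0 | h0
  · rw [← h0]
    simp only [zero_div, Real.log_zero, mul_zero, zero_sub, abs_neg, abs_of_nonneg hb]
    have : b ≤ b / c := by
      rw [le_div_iff₀ hc]
      nlinarith
    linarith
  · have hb0 : 0 < b := lt_of_lt_of_le (mul_pos hc h0) h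
    have h1 : Real.log (a / b) ≤ a / b - 1 := Real.log_le_sub_one_of_pos (div_pos h0 hb0)
    have h2 := mul_le_mul_of_nonneg_left h1 ha
    have h3 : a * (a / b - 1) = (a - b) + |a - b| * |a - b| / b := by
      rw [abs_mul_abs_self]
      field_simp
      ring
    have h4 : |a - b| * c ≤ b := by
      rcases le_total b a with h5 | h5
      · rw [abs_of_nonneg (sub_nonneg.2 h5)]
        nlinarith
      · rw [abs_of_nonpos (sub_nonpos.2 h5)]
        nlinarith
    have h5 : |a - b| * |a - b| / b ≤ |a - b| / c := by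
      rw [div_le_div_iff₀ hb0 hc]
      have := mul_le_mul_of_nonneg_left h4 (abs_nonneg (a - b))
      nlinarith
    linarith

theorem l1_sq_le_kl {X : Type u} (p q : X →₀ ℝ) (hp : ∀ x, 0 ≤ p x) (hq : ∀ x, 0 ≤ q x)
    (hp1 : p.sum (fun _ a => a) = 1) (hq1 : q.sum (fun _ a => a) = 1)
    (hac : ∀ x, q x = 0 → p x = 0) :
    ((p - q).sum (fun _ a => |a|)) ^ 2 ≤ 4 * kl p q := by
  classical
  rw [e6_sub, e6_kl]
  rw [e6_sum p q (fun _ a => a) (by simp)] at hp1
  rw [e6_sum' p q (fun _ a => a) (by simp)] at hq1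
  set S := p.support ∪ q.support with hS
  have h1 : ∑ x ∈ S, (Real.sqrt (p x) - Real.sqrt (q x)) ^ 2 ≤
      ∑ x ∈ S, p x * Real.log (p x / q x) := by
    have h2 : ∑ x ∈ S, (Real.sqrt (p x) - Real.sqrt (q x)) ^ 2 =
        ∑ x ∈ S, 2 * (p x - Real.sqrt (p x) * Real.sqrt (q x)) := by
      have h3 : ∑ x ∈ S, (Real.sqrt (p x) - Real.sqrt (q x)) ^ 2 =
          ∑ x ∈ S, (2 * (p x - Real.sqrt (p x) * Real.sqrt (q x)) + (q x - p x)) := by
        refine Finset.sum_congr rfl fun x _ => ?_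
        have e1 := Real.mul_self_sqrt (hp x)
        have e2 := Real.mul_self_sqrt (hq x)
        nlinarith
      rw [h3, Finset.sum_add_distrib, Finset.sum_sub_distrib, hp1, hq1]
      ring
    rw [h2]
    exact Finset.sum_le_sum fun x _ => e6_low (hp x) (hq x) (hac x)
  have h2 : ∑ x ∈ S, (Real.sqrt (p x) + Real.sqrt (q x)) ^ 2 ≤ 4 := by
    have h3 : ∑ x ∈ S, (Real.sqrt (p x) + Real.sqrt (q x)) ^ 2 ≤ ∑ x ∈ S, 2 * (p x + q x) := by
      refine Finset.sum_le_sum fun x _ => ?_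
      have e1 := Real.mul_self_sqrt (hp x)
      have e2 := Real.mul_self_sqrt (hq x)
      nlinarith [sq_nonneg (Real.sqrt (p x) - Real.sqrt (q x))]
    rw [← Finset.mul_sum, Finset.sum_add_distrib, hp1, hq1] at h3
    linarith
  have h3 : ∑ x ∈ S, |p x - q x| =
      ∑ x ∈ S, |Real.sqrt (p x) - Real.sqrt (q x)| * (Real.sqrt (p x) + Real.sqrt (q x)) := by
    refine Finset.sum_congr rfl fun x _ => ?_
    have e1 := Real.mul_self_sqrt (hp x)
    have e2 := Real.mul_self_sqrt (hq x)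
    have e3 : p x - q x = (Real.sqrt (p x) - Real.sqrt (q x)) *
        (Real.sqrt (p x) + Real.sqrt (q x)) := by nlinarith
    have e4 : 0 ≤ Real.sqrt (p x) + Real.sqrt (q x) :=
      add_nonneg (Real.sqrt_nonneg _) (Real.sqrt_nonneg _)
    rw [e3, abs_mul, abs_of_nonneg e4]
  have h4 := Finset.sum_mul_sq_le_sq_mul_sq S
    (fun x => |Real.sqrt (p x) - Real.sqrt (q x)|)
    (fun x => Real.sqrt (p x) + Real.sqrt (q x))
  rw [← h3] at h4
  simp only [sq_abs] at h4
  have h5 : 0 ≤ ∑ x ∈ S, (Real.sqrt (p x) - Real.sqrt (q x)) ^ 2 :=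
    Finset.sum_nonneg fun x _ => sq_nonneg _
  calc (∑ x ∈ S, |p x - q x|) ^ 2
      ≤ (∑ x ∈ S, (Real.sqrt (p x) - Real.sqrt (q x)) ^ 2) *
        ∑ x ∈ S, (Real.sqrt (p x) + Real.sqrt (q x)) ^ 2 := h4
    _ ≤ (∑ x ∈ S, (Real.sqrt (p x) - Real.sqrt (q x)) ^ 2) * 4 :=
        mul_le_mul_of_nonneg_left h2 h5
    _ ≤ 4 * ∑ x ∈ S, p x * Real.log (p x / q x) := by linarith

theorem kl_le_l1 {X : Type u} (p q : X →₀ ℝ) (hp : ∀ x, 0 ≤ p x) (hq : ∀ x, 0 ≤ q x)
    (hp1 : p.sum (fun _ a => a) = 1) (hq1 : q.sum (fun _ a => a) = 1)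
    {c : ℝ} (hc : 0 < c) (hc1 : c ≤ 1) (hle : ∀ x, c * p x ≤ q x) :
    kl p q ≤ (p - q).sum (fun _ a => |a|) / c := by
  classical
  rw [e6_sub, e6_kl]
  rw [e6_sum p q (fun _ a => a) (by simp)] at hp1
  rw [e6_sum' p q (fun _ a => a) (by simp)] at hq1
  set S := p.support ∪ q.support with hS
  calc ∑ x ∈ S, p x * Real.log (p x / q x)
      ≤ ∑ x ∈ S, ((p x - q x) + |p x - q x| / c) :=
        Finset.sum_le_sum fun x _ => e6_up (hp x) hc hc1 (hq x) (hle x)
    _ = (∑ x ∈ S, |p x - q x|) / c := by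
        rw [Finset.sum_add_distrib, Finset.sum_sub_distrib, hp1, hq1, Finset.sum_div]
        ring

end Pool.Agent.H34.LS
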