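import Pool.Agent.H34.LS.V1

/-!
V13: the support of the killed walk lies in a window. For each `g` in the support of `P` fix a word
`l g` in `S` and inverses with product `g` (`Subgroup.closure S = ⊤`; for instance
`Subgroup.closure_induction` or `Subgroup.exists_list_of_mem_closure`); let `B` bound the modulus of the heights of
all prefixes of these finitely many words. Claim, by induction on `m`, for all `s`, `x`: if
`qk P hh w m s x ≠ 0` then there is a word with product `x` with all prefixes `y` satisfying
`|s + height y| ≤ w + B`. `m = 0`: `x = 1`, empty word, `|s| ≤ w` since `psi w s ≠ 0`. Step: `vv s ≠ 0`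
so `psi w s ≠ 0` and `|s| ≤ w`; `bnd P (...) x ≠ 0` so there is `g` in the support of `P` with
`qk m (s + hh g) (g⁻¹ x) ≠ 0` (`bnd_apply`, `tl_apply`); the word is `l g ++ l'`; a prefix of it is a
prefix of `l g` (height at most `B` in modulus, `|s| ≤ w`) or `g` times a prefix of `l'`
(`List.take_append`). Finally `|height y| ≤ w + B + |s| ≤ 2 w + B`, where `|s| ≤ w` as before.
-/

namespace Pool.Agent.H34.LS

universe u

variable {G : Type u} [Group G]

private lemma v13_psi {w : ℕ} {s : ℤ} (h : psi w s ≠ 0) : |s| ≤ (w : ℤ) := by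
  by_contra hn
  exact h (by unfold psi; rw [if_neg hn])

omit [Group G] in
private lemma v13_vv {P : G →₀ ℝ} {hh : G → ℤ} {w : ℕ} {s : ℤ} (h : vv P hh w s ≠ 0) :
    |s| ≤ (w : ℤ) := by
  apply v13_psi
  intro h0
  apply h
  unfold vv
  rw [h0, mul_zero, zero_div]

private lemma v13_word (f : G →* Multiplicative ℤ) {S : Set G} (hS : Subgroup.closure S = ⊤)
    (g : G) : ∃ (l : List G) (b : ℕ), (∀ x ∈ l, x ∈ S ∨ x⁻¹ ∈ S) ∧ l.prod = g ∧
      ∀ k : ℕ, |Multiplicative.toAdd (f ((l.take k).prod))| ≤ (b : ℤ) := by
  have hg : g ∈ Subgroup.closure S := by rw [hS]; exact Subgroup.mem_top g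
  have hg' : g ∈ Submonoid.closure (S ∪ S⁻¹) := by
    rw [← Subgroup.closure_toSubmonoid]; exact hg
  obtain ⟨l, h1', h2⟩ := Submonoid.exists_list_of_mem_closure hg'
  have h1 : ∀ x ∈ l, x ∈ S ∨ x⁻¹ ∈ S := by
    intro x hx
    rcases h1' x hx with h | h
    · exact Or.inl h
    · exact Or.inr (Set.mem_inv.1 h)
  refine ⟨l, (Finset.range (l.length + 1)).sup
    (fun k => (Multiplicative.toAdd (f ((l.take k).prod))).natAbs), h1, h2, ?_⟩
  intro k
  have key : ∀ j : ℕ, j ≤ l.length → |Multiplicative.toAdd (f ((l.take j).prod))| ≤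
      (((Finset.range (l.length + 1)).sup
        (fun k => (Multiplicative.toAdd (f ((l.take k).prod))).natAbs) : ℕ) : ℤ) := by
    intro j hj
    have h3 := Finset.le_sup (f := fun k => (Multiplicative.toAdd (f ((l.take k).prod))).natAbs)
      (Finset.mem_range.2 (Nat.lt_succ_of_le hj))
    rw [Int.abs_eq_natAbs]
    exact_mod_cast h3
  by_cases hk : k ≤ l.length
  · exact key k hk
  · have h4 : l.take k = l.take l.length := by
      rw [List.take_of_length_le (by omega), List.take_length]
    rw [h4]
    exact key _ le_rfl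

theorem qk_support (f : G →* Multiplicative ℤ) {S : Set G} (hS : Subgroup.closure S = ⊤)
    (P : G →₀ ℝ) :
    ∃ B : ℕ, ∀ (w m : ℕ) (s : ℤ) (x : G),
      qk P (fun g => Multiplicative.toAdd (f g)) w m s x ≠ 0 → x ∈ window f S (2 * w + B) := by
  choose l b hl1 hl2 hl3 using v13_word f hS
  refine ⟨P.support.sup b, ?_⟩
  set B := P.support.sup b with hB
  have claim : ∀ (w m : ℕ) (s : ℤ) (x : G),
      qk P (fun g => Multiplicative.toAdd (f g)) w m s x ≠ 0 → |s| ≤ (w : ℤ) ∧
        ∃ l' : List G, (∀ y ∈ l', y ∈ S ∨ y⁻¹ ∈ S) ∧ l'.prod = x ∧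
          ∀ k : ℕ, |s + Multiplicative.toAdd (f ((l'.take k).prod))| ≤ (w : ℤ) + B := by
    intro w m
    induction m with
    | zero =>
      intro s x hx
      have hx' : psi w s * (Finsupp.single (1 : G) (1 : ℝ)) x ≠ 0 := hx
      have hs : |s| ≤ (w : ℤ) := v13_psi (left_ne_zero_of_mul hx')
      have hx1 : x = 1 := by
        by_contra hne
        apply right_ne_zero_of_mul hx'
        exact Finsupp.single_eq_of_ne hne
      refine ⟨hs, [], by simp, by rw [hx1]; rfl, ?_⟩
      intro k
      simp only [List.take_nil, List.prod_nil, map_one, toAdd_one, add_zero]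
      have : (0 : ℤ) ≤ B := Int.natCast_nonneg _
      linarith
    | succ m ih =>
      intro s x hx
      have hx' : vv P (fun g => Multiplicative.toAdd (f g)) w s *
          (bnd P (fun g => tl g (qk P (fun g => Multiplicative.toAdd (f g)) w m
            (s + Multiplicative.toAdd (f g))))) x ≠ 0 := hx
      have hs : |s| ≤ (w : ℤ) := v13_vv (left_ne_zero_of_mul hx')
      have h1 := right_ne_zero_of_mul hx'
      rw [bnd_apply] at h1
      obtain ⟨g, hg, hg2⟩ := Finset.exists_ne_zero_of_sum_ne_zero h1
      have h2 := right_ne_zero_of_mul hg2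
      rw [tl_apply] at h2
      obtain ⟨-, l', hl1', hl2', hl3'⟩ := ih _ _ h2
      refine ⟨hs, l g ++ l', ?_, ?_, ?_⟩
      · intro y hy
        rcases List.mem_append.1 hy with hy | hy
        · exact hl1 g y hy
        · exact hl1' y hy
      · rw [List.prod_append, hl2, hl2', mul_inv_cancel_left]
      · intro k
        have hbB : (b g : ℤ) ≤ B := by
          have := Finset.le_sup (f := b) hg
          exact_mod_cast this
        rw [List.take_append, List.prod_append]
        by_cases hk : k ≤ (l g).length
        · have h0 : k - (l g).length = 0 := by omega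
          rw [h0, List.take_zero, List.prod_nil, mul_one]
          have h3 := hl3 g k
          have h4 := abs_add_le s (Multiplicative.toAdd (f (((l g).take k).prod)))
          linarith
        · have h3 : (l g).take k = l g := List.take_of_length_le (by omega)
          rw [h3, hl2, map_mul, toAdd_mul, ← add_assoc]
          exact hl3' _
  intro w m s x hx
  obtain ⟨hs, l', h1, h2, h3⟩ := claim w m s x hx
  refine ⟨l', h1, h2, ?_⟩
  intro k
  have h4 := h3 k
  have h5 : |Multiplicative.toAdd (f ((l'.take k).prod))| ≤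
      |s + Multiplicative.toAdd (f ((l'.take k).prod))| + |s| := by
    have h6 : Multiplicative.toAdd (f ((l'.take k).prod)) =
        (s + Multiplicative.toAdd (f ((l'.take k).prod))) - s := by ring
    calc |Multiplicative.toAdd (f ((l'.take k).prod))|
        = |(s + Multiplicative.toAdd (f ((l'.take k).prod))) - s| := by rw [← h6]
      _ ≤ _ := abs_sub _ _
  push_cast
  linarith

/-- windows grow with the half-width. -/
theorem window_mono (f : G →* Multiplicative ℤ) (S : Set G) {w w' : ℕ} (h : w ≤ w') :
    window f S w ⊆ window f S w' := by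
  rintro g ⟨l, h1, h2, h3⟩
  exact ⟨l, h1, h2, fun k => (h3 k).trans (by exact_mod_cast h)⟩

end Pool.Agent.H34.LS
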