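import Pool.Agent.H34.LS.Fwd

/-!
E2: entropy decreases under coarser partitions. `fent_coarse`: the map `a` factors through `b` on
the support, so the masses of `a` are sums of masses of `b`; use
`negMulLog (x + y) ≤ negMulLog x + negMulLog y` for nonnegative `x, y` (as `log (x+y) ≥ log x`).
`fent_nonneg`: total mass one gives every mass in `[0,1]`.
-/

namespace Pool.Agent.H34.LS

universe u v w

theorem negMulLog_add_le {x y : ℝ} (hx : 0 ≤ x) (hy : 0 ≤ y) :
    Real.negMulLog (x + y) ≤ Real.negMulLog x + Real.negMulLog y := by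
  rcases hx.eq_or_lt with rfl | hx'
  · simp
  rcases hy.eq_or_lt with rfl | hy'
  · simp
  unfold Real.negMulLog
  have h1 : Real.log x ≤ Real.log (x + y) := Real.log_le_log hx' (by linarith)
  have h2 : Real.log y ≤ Real.log (x + y) := Real.log_le_log hy' (by linarith)
  nlinarith

theorem fent_nonneg {X : Type u} (p : X →₀ ℝ) (hp : ∀ x, 0 ≤ p x)
    (h1 : p.sum (fun _ a => a) = 1) : 0 ≤ fent p := by
  unfold fent
  refine Finset.sum_nonneg fun x hx => ?_
  refine Real.negMulLog_nonneg (hp x) ?_
  rw [← h1]
  exact Finset.single_le_sum (f := fun x => p x) (fun y _ => hp y) hx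

private theorem e2_fent_sub {X : Type u} (p : X →₀ ℝ) (s : Finset X) (hs : p.support ⊆ s) :
    fent p = ∑ x ∈ s, Real.negMulLog (p x) := by
  unfold fent
  exact Finsupp.sum_of_support_subset p hs _ (fun _ _ => Real.negMulLog_zero)

private theorem e2_fent_add {X : Type u} (p q : X →₀ ℝ) (hp : ∀ x, 0 ≤ p x) (hq : ∀ x, 0 ≤ q x) :
    fent (p + q) ≤ fent p + fent q := by
  classical
  rw [e2_fent_sub (p + q) (p.support ∪ q.support) Finsupp.support_add,
    e2_fent_sub p (p.support ∪ q.support) Finset.subset_union_left,
    e2_fent_sub q (p.support ∪ q.support) Finset.subset_union_right, ← Finset.sum_add_distrib]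
  refine Finset.sum_le_sum fun x _ => ?_
  rw [Finsupp.add_apply]
  exact negMulLog_add_le (hp x) (hq x)

private theorem e2_fent_single {X : Type u} (x : X) (r : ℝ) :
    fent (Finsupp.single x r) = Real.negMulLog r := by
  unfold fent
  exact Finsupp.sum_single_index Real.negMulLog_zero

private theorem e2_fent_single_add {X : Type u} (x : X) (r : ℝ) (q : X →₀ ℝ)
    (hx : x ∉ q.support) : fent (Finsupp.single x r + q) = Real.negMulLog r + fent q := by
  classical
  rw [← e2_fent_single x r]
  unfold fent
  refine Finsupp.sum_add_index_of_disjoint ?_ _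
  refine Finset.disjoint_left.mpr fun y hy hy' => ?_
  have := Finsupp.support_single_subset hy
  rw [Finset.mem_singleton] at this
  exact hx (this ▸ hy')

private theorem e2_map {Y : Type v} {Z : Type w} (c : Z → Y) (q : Z →₀ ℝ) :
    (∀ z, 0 ≤ q z) → fent (q.mapDomain c) ≤ fent q := by
  classical
  induction q using Finsupp.induction with
  | zero => intro _; rw [Finsupp.mapDomain_zero]; simp [fent]
  | single_add z r q hz hr ih =>
    intro h
    have hq0 : q z = 0 := Finsupp.notMem_support_iff.mp hz
    have hr0 : 0 ≤ r := by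
      have := h z
      rwa [Finsupp.add_apply, Finsupp.single_eq_same, hq0, add_zero] at this
    have hq : ∀ y, 0 ≤ q y := by
      intro y
      by_cases hy : y = z
      · rw [hy, hq0]
      · have := h y
        rwa [Finsupp.add_apply, Finsupp.single_eq_of_ne hy, zero_add] at this
    rw [Finsupp.mapDomain_add, Finsupp.mapDomain_single, e2_fent_single_add z r q hz]
    refine (e2_fent_add _ _ ?_ ?_).trans ?_
    · intro y
      rw [Finsupp.single_apply]
      split_ifs
      · exact hr0
      · exact le_rfl
    · intro y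
      unfold Finsupp.mapDomain Finsupp.sum
      rw [Finsupp.finsetSum_apply]
      refine Finset.sum_nonneg fun x _ => ?_
      rw [Finsupp.single_apply]
      split_ifs
      · exact hq x
      · exact le_rfl
    · rw [e2_fent_single]
      exact add_le_add le_rfl (ih hq)

theorem fent_coarse {X : Type u} {Y : Type v} {Z : Type w} (p : X →₀ ℝ) (hp : ∀ x, 0 ≤ p x)
    (a : X → Y) (b : X → Z)
    (h : ∀ x ∈ p.support, ∀ y ∈ p.support, b x = b y → a x = a y) :
    fent (p.mapDomain a) ≤ fent (p.mapDomain b) := by
  classical
  by_cases hne : p.support.Nonempty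
  · obtain ⟨x0, hx0⟩ := hne
    let c : Z → Y := fun z => if hz : ∃ x ∈ p.support, b x = z then a hz.choose else a x0
    have hc : ∀ x ∈ p.support, a x = (c ∘ b) x := by
      intro x hx
      have hz : ∃ x' ∈ p.support, b x' = b x := ⟨x, hx, rfl⟩
      show a x = if hz : ∃ x' ∈ p.support, b x' = b x then a hz.choose else a x0
      rw [dif_pos hz]
      exact h x hx _ hz.choose_spec.1 hz.choose_spec.2.symm
    rw [Finsupp.mapDomain_congr hc, Finsupp.mapDomain_comp]
    refine e2_map c _ fun z => ?_
    unfold Finsupp.mapDomain Finsupp.sum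
    rw [Finsupp.finsetSum_apply]
    refine Finset.sum_nonneg fun x _ => ?_
    rw [Finsupp.single_apply]
    split_ifs
    · exact hp x
    · exact le_rfl
  · rw [Finset.not_nonempty_iff_eq_empty, Finsupp.support_eq_empty] at hne
    rw [hne, Finsupp.mapDomain_zero, Finsupp.mapDomain_zero]
    simp [fent]

end Pool.Agent.H34.LS
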