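import Pool.Agent.H34.LS.V1

/-!
V7: symmetric walks. `symm_sum`: the substitution `g ↦ g⁻¹` in the finite sum
(`hh g⁻¹ = - hh g` from `hom`). `lam`: the bounds `1 - x^2 / 2 ≤ cos x ≤ 1`
(`Real.one_sub_sq_div_two_le_cos`), `π^2 ≤ 10`, `|hh g| ≤ R` and `2 R ≤ w` give
`lam ≥ 1 - 10 R^2 / (8 w^2) ≥ 11/16 ≥ 1/2`, and `- log lam ≤ (1 - lam) / lam ≤ 2 (1 - lam) ≤ 3 R^2 / w^2`
(`Real.one_sub_inv_le_log_of_pos`).
-/

namespace Pool.Agent.H34.LS

universe u

variable {G : Type u} [Group G] {P : G →₀ ℝ} {hh : G → ℤ} {R : ℕ}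

theorem hh_one (h : Walk P hh R) : hh 1 = 0 := by
  have := h.hom 1 1
  rw [one_mul] at this
  omega

theorem hh_inv (h : Walk P hh R) (g : G) : hh g⁻¹ = - hh g := by
  have h1 := h.hom g g⁻¹
  rw [mul_inv_cancel, hh_one h] at h1
  omega

private theorem v7_tot (h : Walk P hh R) : ∑ g ∈ P.support, P g = 1 := h.total

omit [Group G] in
private theorem v7_lam (w : ℕ) :
    lam P hh w = ∑ g ∈ P.support, P g * Real.cos (Real.pi * hh g / (2 * w)) := rfl

/-- quantitative lower bound for `lam`. -/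
private theorem v7_lower (h : Walk P hh R) {w : ℕ} (hw : 1 ≤ w) :
    1 - 5 / 4 * ((R : ℝ) ^ 2 / (w : ℝ) ^ 2) ≤ lam P hh w := by
  have hw0 : (0 : ℝ) < w := by exact_mod_cast hw
  have h1 : ∑ g ∈ P.support, P g * (1 - 5 / 4 * ((R : ℝ) ^ 2 / (w : ℝ) ^ 2)) ≤ lam P hh w := by
    rw [v7_lam]
    apply Finset.sum_le_sum
    intro g hg
    apply mul_le_mul_of_nonneg_left _ (h.nonneg g)
    have hb := h.bdd g (Finsupp.mem_support_iff.1 hg)
    have hb' : |(hh g : ℝ)| ≤ R := by exact_mod_cast hb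
    have hsq : (hh g : ℝ) ^ 2 ≤ (R : ℝ) ^ 2 := by
      rw [← sq_abs]
      exact pow_le_pow_left₀ (abs_nonneg _) hb' 2
    have hpi : Real.pi ^ 2 ≤ 10 := by
      have h1 := Real.pi_lt_d2
      have h2 := Real.pi_pos
      nlinarith
    have hx : (Real.pi * hh g / (2 * w)) ^ 2 ≤ 5 / 2 * ((R : ℝ) ^ 2 / (w : ℝ) ^ 2) := by
      rw [div_pow, mul_pow, mul_pow, mul_div_assoc', div_le_div_iff₀ (by positivity) (by positivity)]
      have h3 : Real.pi ^ 2 * (hh g : ℝ) ^ 2 ≤ 10 * (R : ℝ) ^ 2 :=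
        mul_le_mul hpi hsq (by positivity) (by norm_num)
      have h4 := mul_le_mul_of_nonneg_right h3 (show (0 : ℝ) ≤ (w : ℝ) ^ 2 by positivity)
      nlinarith
    have hc := Real.one_sub_sq_div_two_le_cos (x := Real.pi * hh g / (2 * w))
    linarith
  rw [← Finset.sum_mul, v7_tot h, one_mul] at h1
  exact h1

theorem symm_sum (h : Walk P hh R) (F : ℤ → ℝ) :
    P.sum (fun g a => a * F (- hh g)) = P.sum (fun g a => a * F (hh g)) := by
  change ∑ g ∈ P.support, P g * F (- hh g) = ∑ g ∈ P.support, P g * F (hh g)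
  apply Finset.sum_nbij' (fun g => g⁻¹) (fun g => g⁻¹)
  · intro g hg
    rw [Finsupp.mem_support_iff] at hg ⊢
    rwa [h.symm]
  · intro g hg
    rw [Finsupp.mem_support_iff] at hg ⊢
    rwa [h.symm]
  · intro g _
    exact inv_inv g
  · intro g _
    exact inv_inv g
  · intro g _
    rw [h.symm, hh_inv h]

/-- odd functions have mean zero. -/
theorem odd_sum (h : Walk P hh R) (F : ℤ → ℝ) (hF : ∀ x, F (-x) = - F x) :
    P.sum (fun g a => a * F (hh g)) = 0 := by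
  have h1 := symm_sum h F
  have h2 : P.sum (fun g a => a * F (- hh g)) = - P.sum (fun g a => a * F (hh g)) := by
    change ∑ g ∈ P.support, P g * F (- hh g) = - ∑ g ∈ P.support, P g * F (hh g)
    rw [← Finset.sum_neg_distrib]
    apply Finset.sum_congr rfl
    intro g _
    rw [hF]
    ring
  linarith

theorem lam_le_one (h : Walk P hh R) (w : ℕ) : lam P hh w ≤ 1 := by
  rw [v7_lam, ← v7_tot h]
  apply Finset.sum_le_sum
  intro g _
  exact mul_le_of_le_one_right (h.nonneg g) (Real.cos_le_one _)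

theorem lam_ge (h : Walk P hh R) {w : ℕ} (hw : 1 ≤ w) (hR : 2 * R ≤ w) : 1 / 2 ≤ lam P hh w := by
  have h1 := v7_lower h hw
  have hw0 : (0 : ℝ) < w := by exact_mod_cast hw
  have hR' : 2 * (R : ℝ) ≤ w := by exact_mod_cast hR
  have hR0 : (0 : ℝ) ≤ R := Nat.cast_nonneg R
  have h2 : (R : ℝ) ^ 2 / (w : ℝ) ^ 2 ≤ 1 / 4 := by
    rw [div_le_div_iff₀ (by positivity) (by norm_num)]
    nlinarith
  linarith

theorem log_lam_le (h : Walk P hh R) {w : ℕ} (hw : 1 ≤ w) (hR : 2 * R ≤ w) :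
    - Real.log (lam P hh w) ≤ 3 * (R : ℝ) ^ 2 / (w : ℝ) ^ 2 := by
  have h1 := v7_lower h hw
  have h2 := lam_ge h hw hR
  have h3 := lam_le_one h w
  have h4 : 0 < lam P hh w := by linarith
  have h5 := Real.one_sub_inv_le_log_of_pos h4
  have h6 : (lam P hh w)⁻¹ - 1 ≤ 2 * (1 - lam P hh w) := by
    have h7 : (lam P hh w)⁻¹ ≤ 2 := by
      rw [inv_le_comm₀ h4 (by norm_num)]
      linarith
    have h8 : (lam P hh w)⁻¹ - 1 = (lam P hh w)⁻¹ * (1 - lam P hh w) := by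
      rw [mul_sub, inv_mul_cancel₀ h4.ne', mul_one]
    rw [h8]
    exact mul_le_mul_of_nonneg_right h7 (by linarith)
  have h9 : (0 : ℝ) ≤ (R : ℝ) ^ 2 / (w : ℝ) ^ 2 := by positivity
  rw [mul_div_assoc]
  linarith

/-- `P.sum (fun g a => a * cos (π (x + hh g) / (2 w))) = lam * cos (π x / (2 w))`: addition formula
and `odd_sum` for the sine. -/
theorem lam_cos (h : Walk P hh R) (w : ℕ) (x : ℤ) :
    P.sum (fun g a => a * Real.cos (Real.pi * ((x + hh g : ℤ) : ℝ) / (2 * w))) =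
      lam P hh w * Real.cos (Real.pi * x / (2 * w)) := by
  have h1 := odd_sum h (fun y => Real.sin (Real.pi * (y : ℝ) / (2 * w))) (by
    intro y
    rw [← Real.sin_neg]
    congr 1
    push_cast
    ring)
  change ∑ g ∈ P.support, P g * Real.sin (Real.pi * (hh g : ℝ) / (2 * w)) = 0 at h1
  change ∑ g ∈ P.support, P g * Real.cos (Real.pi * ((x + hh g : ℤ) : ℝ) / (2 * w)) = _
  have h2 : ∀ g, P g * Real.cos (Real.pi * ((x + hh g : ℤ) : ℝ) / (2 * w)) =
      P g * Real.cos (Real.pi * hh g / (2 * w)) * Real.cos (Real.pi * x / (2 * w)) -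
      P g * Real.sin (Real.pi * (hh g : ℝ) / (2 * w)) * Real.sin (Real.pi * x / (2 * w)) := by
    intro g
    have h3 : Real.pi * ((x + hh g : ℤ) : ℝ) / (2 * w) =
        Real.pi * x / (2 * w) + Real.pi * hh g / (2 * w) := by
      push_cast
      ring
    rw [h3, Real.cos_add]
    ring
  rw [Finset.sum_congr rfl (fun g _ => h2 g), Finset.sum_sub_distrib, ← Finset.sum_mul,
    ← Finset.sum_mul, h1, zero_mul, sub_zero, v7_lam]

end Pool.Agent.H34.LS
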