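import Pool.Agent.H34.LS.V6
import Pool.Agent.H34.LS.V7

/-!
V8: `ppsi x = sum_g P g psi (x + hh g)` and the survival probability `vv = lam psi / ppsi`.
`ppsi_ge`: for `|x| ≤ w` all `|x + hh g| ≤ w + R ≤ 3 w`, so by `cos_le_psi` and `lam_cos`
`ppsi x ≥ lam cos (π x / 2 w) = lam psi x`; for `|x| > w` the right side is `0`. `ppsi_eq`: if
`|x| + R ≤ w` all the values are cosines. The rest follows; `vv_mul`: if `ppsi x = 0` then
`lam psi x ≤ 0`, so it is `0`.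
-/

namespace Pool.Agent.H34.LS

universe u

variable {G : Type u} [Group G] {P : G →₀ ℝ} {hh : G → ℤ} {R : ℕ}

theorem ppsi_nonneg (h : Walk P hh R) (w : ℕ) (x : ℤ) : 0 ≤ ppsi P hh w x := by
  unfold ppsi Finsupp.sum
  exact Finset.sum_nonneg fun g _ => mul_nonneg (h.nonneg g) (psi_nonneg _ _)

theorem ppsi_le_one (h : Walk P hh R) (w : ℕ) (x : ℤ) : ppsi P hh w x ≤ 1 := by
  have h1 := h.total
  unfold tot Finsupp.sum at h1
  rw [← h1]
  unfold ppsi Finsupp.sum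
  refine Finset.sum_le_sum fun g _ => ?_
  exact mul_le_of_le_one_right (h.nonneg g) (psi_le_one _ _)

theorem ppsi_ge (h : Walk P hh R) {w : ℕ} (hw : 1 ≤ w) (hR : 2 * R ≤ w) (x : ℤ) :
    lam P hh w * psi w x ≤ ppsi P hh w x := by
  by_cases hx : |x| ≤ (w : ℤ)
  · rw [psi_eq_cos hx, ← lam_cos h w x]
    unfold ppsi Finsupp.sum
    refine Finset.sum_le_sum fun g hg => ?_
    refine mul_le_mul_of_nonneg_left ?_ (h.nonneg g)
    refine cos_le_psi hw ?_
    have h1 := h.bdd g (Finsupp.mem_support_iff.1 hg)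
    have h2 := abs_add_le x (hh g)
    have h3 : (2 * R : ℤ) ≤ w := by exact_mod_cast hR
    have h4 : (0 : ℤ) ≤ R := Int.natCast_nonneg _
    linarith
  · have h1 : psi w x = 0 := by
      unfold psi
      rw [if_neg hx]
    rw [h1, mul_zero]
    exact ppsi_nonneg h w x

theorem ppsi_eq (h : Walk P hh R) {w : ℕ} (hw : 1 ≤ w) {x : ℤ} (hx : |x| + (R : ℤ) ≤ w) :
    ppsi P hh w x = lam P hh w * psi w x := by
  have h0 : |x| ≤ (w : ℤ) := by
    have : (0 : ℤ) ≤ R := Int.natCast_nonneg _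
    linarith
  rw [psi_eq_cos h0, ← lam_cos h w x]
  unfold ppsi Finsupp.sum
  refine Finset.sum_congr rfl fun g hg => ?_
  have h1 := h.bdd g (Finsupp.mem_support_iff.1 hg)
  have h2 := abs_add_le x (hh g)
  show P g * psi w (x + hh g) = P g * Real.cos (Real.pi * ((x + hh g : ℤ) : ℝ) / (2 * w))
  rw [psi_eq_cos (by linarith)]

theorem ppsi_pos (h : Walk P hh R) {w : ℕ} (hw : 1 ≤ w) (hR : 2 * R ≤ w) {x : ℤ}
    (hx : |x| < (w : ℤ)) : 0 < ppsi P hh w x := by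
  have h1 := lam_ge h hw hR
  have h2 := psi_pos hx
  exact lt_of_lt_of_le (mul_pos (by linarith) h2) (ppsi_ge h hw hR x)

theorem vv_nonneg (h : Walk P hh R) {w : ℕ} (hw : 1 ≤ w) (hR : 2 * R ≤ w) (x : ℤ) :
    0 ≤ vv P hh w x := by
  have h1 := lam_ge h hw hR
  exact div_nonneg (mul_nonneg (by linarith) (psi_nonneg _ _)) (ppsi_nonneg h w x)

theorem vv_le_one (h : Walk P hh R) {w : ℕ} (hw : 1 ≤ w) (hR : 2 * R ≤ w) (x : ℤ) :
    vv P hh w x ≤ 1 := by
  exact div_le_one_of_le₀ (ppsi_ge h hw hR x) (ppsi_nonneg h w x)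

theorem vv_mul (h : Walk P hh R) {w : ℕ} (hw : 1 ≤ w) (hR : 2 * R ≤ w) (x : ℤ) :
    vv P hh w x * ppsi P hh w x = lam P hh w * psi w x := by
  by_cases h0 : ppsi P hh w x = 0
  · have h1 := ppsi_ge h hw hR x
    have h2 := lam_ge h hw hR
    have h3 : 0 ≤ lam P hh w * psi w x := mul_nonneg (by linarith) (psi_nonneg _ _)
    rw [h0] at h1 ⊢
    rw [mul_zero]
    linarith
  · exact div_mul_cancel₀ _ h0

theorem vv_zero {w : ℕ} (hw : 1 ≤ w) {x : ℤ} (hx : (w : ℤ) ≤ |x|) : vv P hh w x = 0 := by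
  unfold vv
  rw [psi_zero hw hx, mul_zero, zero_div]

theorem vv_pos (h : Walk P hh R) {w : ℕ} (hw : 1 ≤ w) (hR : 2 * R ≤ w) {x : ℤ}
    (hx : |x| < (w : ℤ)) : 0 < vv P hh w x := by
  have h1 := lam_ge h hw hR
  exact div_pos (mul_pos (by linarith) (psi_pos hx)) (ppsi_pos h hw hR hx)

end Pool.Agent.H34.LS
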