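import Pool.Agent.H34.LS.V2
import Pool.Agent.H34.LS.V8

/-!
V11: the killed walk `qk P hh w m s` (`qk 0 s = psi w s • single 1 1`,
`qk (m+1) s = vv s • bnd P (fun g => tl g (qk m (s + hh g)))`). All by induction on `m` (for all `s`).
`qk_le_pw`: `psi ≤ 1`, `vv ≤ 1`, `bnd_mono`. `tot_qk`: `tot (qk (m+1) s) = vv s * sum_g P g lam^m psi (s + hh g)
= lam^m * vv s * ppsi s = lam^(m+1) psi s` (`tot_bnd`, `tot_tl`, `vv_mul`). `qk_zero`: `vv s = 0`, `psi s = 0`.
-/

namespace Pool.Agent.H34.LS

universe u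

variable {G : Type u} [Group G] {P : G →₀ ℝ} {hh : G → ℤ} {R : ℕ}

theorem qk_nonneg (h : Walk P hh R) {w : ℕ} (hw : 1 ≤ w) (hR : 2 * R ≤ w) (m : ℕ) (s : ℤ) (x : G) :
    0 ≤ qk P hh w m s x := by
  induction m generalizing s x with
  | zero =>
    rw [qk, Finsupp.smul_apply, smul_eq_mul]
    refine mul_nonneg (psi_nonneg w s) ?_
    classical
    rw [Finsupp.single_apply]
    split_ifs <;> norm_num
  | succ m ih =>
    rw [qk, Finsupp.smul_apply, smul_eq_mul]
    refine mul_nonneg (vv_nonneg h hw hR s) ?_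
    exact bnd_nonneg h.nonneg (fun g y => tl_nonneg g (fun z => ih (s + hh g) z) y) x

theorem qk_le_pw (h : Walk P hh R) {w : ℕ} (hw : 1 ≤ w) (hR : 2 * R ≤ w) (m : ℕ) (s : ℤ) (x : G) :
    qk P hh w m s x ≤ pw P m x := by
  induction m generalizing s x with
  | zero =>
    rw [qk, pw, Finsupp.smul_apply, smul_eq_mul]
    have h0 : (0 : ℝ) ≤ (Finsupp.single (1 : G) (1 : ℝ)) x := by
      classical
      rw [Finsupp.single_apply]
      split_ifs <;> norm_num
    have h1 := mul_le_mul_of_nonneg_right (psi_le_one w s) h0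
    linarith
  | succ m ih =>
    rw [qk, pw, Finsupp.smul_apply, smul_eq_mul]
    have h1 : bnd P (fun g => tl g (qk P hh w m (s + hh g))) x ≤
        bnd P (fun g => tl g (pw P m)) x := by
      apply bnd_mono h.nonneg
      intro g _ y
      rw [tl_apply, tl_apply]
      exact ih (s + hh g) _
    have h2 : 0 ≤ bnd P (fun g => tl g (qk P hh w m (s + hh g))) x :=
      bnd_nonneg h.nonneg (fun g y => tl_nonneg g
        (fun z => qk_nonneg h hw hR m (s + hh g) z) y) x
    have h3 := mul_le_mul_of_nonneg_right (vv_le_one h hw hR s) h2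
    linarith

theorem tot_qk (h : Walk P hh R) {w : ℕ} (hw : 1 ≤ w) (hR : 2 * R ≤ w) (m : ℕ) (s : ℤ) :
    tot (qk P hh w m s) = lam P hh w ^ m * psi w s := by
  induction m generalizing s with
  | zero =>
    rw [qk, tot_smul]
    have h1 : tot (Finsupp.single (1 : G) (1 : ℝ)) = 1 := by
      unfold tot
      rw [Finsupp.sum_single_index rfl]
    rw [h1]
    ring
  | succ m ih =>
    rw [qk, tot_smul, tot_bnd]
    have h1 : P.sum (fun g a => a * tot (tl g (qk P hh w m (s + hh g)))) =
        lam P hh w ^ m * ppsi P hh w s := by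
      unfold ppsi
      rw [Finsupp.mul_sum]
      apply Finsupp.sum_congr
      intro g _
      rw [tot_tl, ih]
      ring
    rw [h1]
    have h2 := vv_mul h hw hR s
    calc vv P hh w s * (lam P hh w ^ m * ppsi P hh w s)
        = lam P hh w ^ m * (vv P hh w s * ppsi P hh w s) := by ring
      _ = lam P hh w ^ (m + 1) * psi w s := by rw [h2]; ring

theorem qk_zero {w : ℕ} (hw : 1 ≤ w) (m : ℕ) {s : ℤ} (hs : (w : ℤ) ≤ |s|) :
    qk P hh w m s = 0 := by
  cases m with
  | zero => rw [qk, psi_zero hw hs, zero_smul]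
  | succ m => rw [qk, vv_zero hw hs, zero_smul]

/-- entropy of the killed walk is nonnegative (all values are in `[0, 1]`). -/
theorem fent_qk_nonneg (h : Walk P hh R) {w : ℕ} (hw : 1 ≤ w) (hR : 2 * R ≤ w) (m : ℕ) (s : ℤ) :
    0 ≤ fent (qk P hh w m s) := by
  unfold fent
  apply Finsupp.sum_nonneg
  intro x _
  exact Real.negMulLog_nonneg (qk_nonneg h hw hR m s x)
    ((qk_le_pw h hw hR m s x).trans (pw_le_one h.nonneg h.total m x))

end Pool.Agent.H34.LS
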