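import Pool.Agent.H34.LS.E4
import Pool.Agent.H34.LS.V11

/-!
V14: entropy bound. For a nonnegative `q` with mass `M` and at most `N` points in its support,
`fent q ≤ M log N - M log M` (`log_sum` (E4) over the support with `b = 1`, then
`M log (M / card) ≤ - fent q`; or Jensen). With `M = lam ^ m * psi`:
`- M log M = M m (- log lam) + lam ^ m * negMulLog psi ≤ lam ^ m * (m * (- log lam) + 1)`
(`psi ≤ 1`, `negMulLog psi ≤ 1 - psi ≤ 1`, `- log lam ≥ 0`).
-/

namespace Pool.Agent.H34.LS

universe u

variable {G : Type u} [Group G] {P : G →₀ ℝ} {hh : G → ℤ} {R : ℕ}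

theorem fent_le_card {X : Type u} {q : X →₀ ℝ} (hq : ∀ x, 0 ≤ q x) {N : ℕ}
    (hN : q.support.card ≤ N) : fent q ≤ tot q * Real.log N + Real.negMulLog (tot q) := by
  by_cases hS : q.support = ∅
  · have h0 : q = 0 := Finsupp.support_eq_empty.1 hS
    subst h0
    simp [fent, tot]
  · have hne : q.support.Nonempty := Finset.nonempty_iff_ne_empty.2 hS
    have hcard : 0 < q.support.card := Finset.card_pos.2 hne
    have hM : 0 < tot q := by
      unfold tot Finsupp.sum
      refine Finset.sum_pos (fun x hx => ?_) hne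
      exact lt_of_le_of_ne (hq x) (Ne.symm (Finsupp.mem_support_iff.1 hx))
    have h1 := log_sum q.support (fun x => q x) (fun _ => (1 : ℝ)) (fun x _ => hq x)
      (fun _ _ => zero_le_one) (fun _ _ h => absurd h one_ne_zero)
    have h2 : ∑ x ∈ q.support, q x = tot q := rfl
    have h3 : ∑ x ∈ q.support, q x * Real.log (q x / 1) = - fent q := by
      unfold fent Finsupp.sum
      rw [← Finset.sum_neg_distrib]
      refine Finset.sum_congr rfl fun x _ => ?_
      rw [div_one]
      unfold Real.negMulLog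
      ring
    have h4 : ∑ _x ∈ q.support, (1 : ℝ) = (q.support.card : ℝ) := by
      rw [Finset.sum_const, nsmul_eq_mul, mul_one]
    rw [h2, h3, h4] at h1
    have hc : (0 : ℝ) < q.support.card := Nat.cast_pos.2 hcard
    rw [Real.log_div hM.ne' hc.ne'] at h1
    have h5 : Real.log (q.support.card : ℝ) ≤ Real.log N :=
      Real.log_le_log hc (Nat.cast_le.2 hN)
    have h6 := mul_le_mul_of_nonneg_left h5 hM.le
    unfold Real.negMulLog
    nlinarith

theorem fent_qk_le (h : Walk P hh R) {w : ℕ} (hw : 1 ≤ w) (hR : 2 * R ≤ w) (m : ℕ) (s : ℤ) {N : ℕ}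
    (hN : (qk P hh w m s).support.card ≤ N) :
    fent (qk P hh w m s) ≤
      lam P hh w ^ m * (Real.log N + m * (- Real.log (lam P hh w)) + 1) := by
  have hq : ∀ x, 0 ≤ qk P hh w m s x := qk_nonneg h hw hR m s
  refine (fent_le_card hq hN).trans ?_
  rw [tot_qk h hw hR m s, Real.negMulLog_mul]
  have hl : 0 < lam P hh w := lt_of_lt_of_le (by norm_num) (lam_ge h hw hR)
  have hlog : 0 ≤ - Real.log (lam P hh w) := by
    have := Real.log_nonpos hl.le (lam_le_one h w)
    linarith
  have hp0 := psi_nonneg w s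
  have hp1 := psi_le_one w s
  have hpl : Real.negMulLog (psi w s) ≤ 1 := by
    have := Real.negMulLog_le_one_sub_self hp0
    linarith
  have hN0 : 0 ≤ Real.log (N : ℝ) := Real.log_natCast_nonneg N
  have hL : 0 < lam P hh w ^ m := pow_pos hl m
  have e1 : Real.negMulLog (lam P hh w ^ m) = lam P hh w ^ m * (m * (- Real.log (lam P hh w))) := by
    unfold Real.negMulLog
    rw [Real.log_pow]
    ring
  rw [e1]
  have hm : 0 ≤ (m : ℝ) * (- Real.log (lam P hh w)) := mul_nonneg (Nat.cast_nonneg m) hlog
  have k1 : lam P hh w ^ m * psi w s * Real.log N ≤ lam P hh w ^ m * Real.log N := by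
    refine mul_le_mul_of_nonneg_right ?_ hN0
    exact mul_le_of_le_one_right hL.le hp1
  have k2 : psi w s * (lam P hh w ^ m * (m * (- Real.log (lam P hh w)))) ≤
      lam P hh w ^ m * (m * (- Real.log (lam P hh w))) :=
    mul_le_of_le_one_left (mul_nonneg hL.le hm) hp1
  have k3 : lam P hh w ^ m * Real.negMulLog (psi w s) ≤ lam P hh w ^ m * 1 :=
    mul_le_mul_of_nonneg_left hpl hL.le
  calc lam P hh w ^ m * psi w s * Real.log N +
        (psi w s * (lam P hh w ^ m * (m * (- Real.log (lam P hh w)))) +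
          lam P hh w ^ m * Real.negMulLog (psi w s))
      ≤ lam P hh w ^ m * Real.log N + (lam P hh w ^ m * (m * (- Real.log (lam P hh w))) +
          lam P hh w ^ m * 1) := add_le_add k1 (add_le_add k2 k3)
    _ = lam P hh w ^ m * (Real.log N + m * (- Real.log (lam P hh w)) + 1) := by ring

end Pool.Agent.H34.LS
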