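import Mathlib

/-!
V19: weighted telescoping. Let `B i = A ⌊c 4^i⌋` (natural floor), nonincreasing, nonnegative. For each `j` let
`g j : ℕ` be at least `1` with `⌊c * 4^(j + g j)⌋ ≥ C * 4^j * (K j + 1)` and `2 ^ (g j) ≤ C1 * exp (K j)` for a
constant `C1` (for instance `g j` the least natural `g ≥ 1` with `c * 4^g ≥ C * (K j + 1) + 1`: then either `g = 1` or
`c * 4^(g-1) < C (K j + 1) + 1`, so `2^g ≤ 4^g ≤ 4 + (4 / c) (C (K j + 1) + 1) ≤ C1 * exp (K j)`, using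
`K j + 1 ≤ exp (K j)`). For `j ≥ j0`: `H` with `t = ⌊c 4^j⌋` and `M = ⌊c 4^(j + g j)⌋` gives
`c' * exp (-(C * K j)) ≤ B j - B (j + g j) = sum_{i ∈ [j, j + g j)} (B i - B (i+1))`. Multiply by
`2^(-g j)` and sum over `j0 ≤ j < J`: in the double sum the term `B i - B (i+1) ≥ 0` has the coefficient
`sum_{j ≤ i < j + g j} 2^(-g j) ≤ sum_{d = i - j ≥ 0} 2^(-(d+1)) ≤ 1`, so the total is at most
`B j0` (telescoping, `B ≥ 0`). Hence `sum_j c' * exp (-(C K j)) * 2^(-g j) ≤ B j0 ≤ A 0`, and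
`2^(-g j) ≥ exp (-K j) / C1`. So the partial sums of `exp (-((C + 1) K j))` are bounded
(`summable_of_sum_range_le`; the first `j0` terms do not matter).
-/

namespace Pool.Agent.H34.LS

private theorem v19_gap {c C : ℝ} (hc : 0 < c) (hC : 0 < C) : ∃ C1 : ℝ, 0 < C1 ∧
    ∀ κ : ℝ, 0 ≤ κ → ∃ g : ℕ, C * (κ + 1) + 1 ≤ c * 4 ^ (g + 1) ∧
      (2 : ℝ) ^ (g + 1) ≤ C1 * Real.exp κ := by
  refine ⟨2 + 4 * (C + 1) / c, by positivity, ?_⟩
  intro κ hκ
  have hex : ∃ n : ℕ, C * (κ + 1) + 1 ≤ c * 4 ^ n := by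
    obtain ⟨n, hn⟩ := pow_unbounded_of_one_lt ((C * (κ + 1) + 1) / c) (by norm_num : (1 : ℝ) < 4)
    refine ⟨n, ?_⟩
    rw [div_lt_iff₀ hc] at hn
    linarith
  classical
  obtain ⟨n, hn, hmin⟩ : ∃ n : ℕ, C * (κ + 1) + 1 ≤ c * 4 ^ n ∧
      ∀ m < n, ¬ C * (κ + 1) + 1 ≤ c * 4 ^ m :=
    ⟨Nat.find hex, Nat.find_spec hex, fun m hm => Nat.find_min hex hm⟩
  have hexp1 : κ + 1 ≤ Real.exp κ := Real.add_one_le_exp κ
  have hexp2 : 1 ≤ Real.exp κ := by linarith
  refine ⟨n, ?_, ?_⟩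
  · refine hn.trans ?_
    apply mul_le_mul_of_nonneg_left _ hc.le
    exact pow_le_pow_right₀ (by norm_num) (Nat.le_succ n)
  · rcases n with _ | m
    · have h1 : 0 ≤ 4 * (C + 1) / c := by positivity
      have h2 : 0 ≤ 4 * (C + 1) / c * Real.exp κ := by positivity
      rw [zero_add, pow_one, add_mul]
      linarith
    · have hm := hmin m (Nat.lt_succ_self m)
      rw [not_le] at hm
      have h24 : (2 : ℝ) ^ m ≤ 4 ^ m := pow_le_pow_left₀ (by norm_num) (by norm_num) m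
      have h3 : C * (κ + 1) + 1 ≤ (C + 1) * Real.exp κ := by
        have := mul_le_mul_of_nonneg_left hexp1 hC.le
        linarith
      have h4 : (4 : ℝ) ^ m ≤ (C + 1) * Real.exp κ / c := by
        rw [le_div_iff₀ hc]
        linarith
      have h5 : (2 : ℝ) ^ (m + 1 + 1) = 4 * 2 ^ m := by ring
      rw [h5]
      have h6 : (2 + 4 * (C + 1) / c) * Real.exp κ
          = 2 * Real.exp κ + 4 * ((C + 1) * Real.exp κ / c) := by ring
      rw [h6]
      linarith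

/-- the weighted average of the later values -/
private noncomputable def v19_E (B : ℕ → ℝ) (j : ℕ) : ℝ :=
  ∑' n : ℕ, (1 : ℝ) / 2 / 2 ^ n * B (j + 1 + n)

private theorem v19_summable {B : ℕ → ℝ} (hB : Antitone B) (h0 : ∀ j, 0 ≤ B j) (j : ℕ) :
    Summable (fun n : ℕ => (1 : ℝ) / 2 / 2 ^ n * B (j + 1 + n)) := by
  apply Summable.of_nonneg_of_le (f := fun n : ℕ => (1 : ℝ) / 2 / 2 ^ n * B 0)
  · intro n
    exact mul_nonneg (by positivity) (h0 _)
  · intro n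
    exact mul_le_mul_of_nonneg_left (hB (Nat.zero_le _)) (by positivity)
  · exact (hasSum_geometric_two' 1).summable.mul_right _

private theorem v19_rec {B : ℕ → ℝ} (hB : Antitone B) (h0 : ∀ j, 0 ≤ B j) (j : ℕ) :
    2 * v19_E B j = B (j + 1) + v19_E B (j + 1) := by
  unfold v19_E
  rw [(v19_summable hB h0 j).tsum_eq_zero_add]
  have h1 : ∀ n : ℕ, (1 : ℝ) / 2 / 2 ^ (n + 1) * B (j + 1 + (n + 1))
      = (1 / 2) * ((1 : ℝ) / 2 / 2 ^ n * B (j + 1 + 1 + n)) := by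
    intro n
    have e : j + 1 + (n + 1) = j + 1 + 1 + n := by ring
    rw [e, pow_succ]
    ring
  rw [tsum_congr h1, tsum_mul_left]
  simp only [pow_zero, div_one, add_zero]
  ring

private theorem v19_term {B : ℕ → ℝ} (hB : Antitone B) (h0 : ∀ j, 0 ≤ B j) (j g : ℕ) :
    (1 / 2 : ℝ) ^ (g + 1) * (B j - B (j + (g + 1))) ≤ B j - v19_E B j := by
  have h1 : HasSum (fun n : ℕ => (1 : ℝ) / 2 / 2 ^ n * B j) (B j) := by
    have := (hasSum_geometric_two' (1 : ℝ)).mul_right (B j)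
    rwa [one_mul] at this
  have h2 := h1.sub (v19_summable hB h0 j).hasSum
  have h3 := le_hasSum h2 g (by
    intro n _
    rw [← mul_sub]
    apply mul_nonneg (by positivity)
    have : B (j + 1 + n) ≤ B j := hB (by omega)
    linarith)
  have e : j + (g + 1) = j + 1 + g := by ring
  rw [e]
  refine le_trans (le_of_eq ?_) h3
  rw [← mul_sub, pow_succ, one_div_pow]
  ring

private theorem v19_E_nonneg {B : ℕ → ℝ} (h0 : ∀ j, 0 ≤ B j) (j : ℕ) : 0 ≤ v19_E B j := by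
  unfold v19_E
  exact tsum_nonneg (fun n => mul_nonneg (by positivity) (h0 _))

theorem telescoping {A : ℕ → ℝ} (hA : Antitone A) (h0 : ∀ j, 0 ≤ A j) {c C c' : ℝ} (hc : 0 < c)
    (hC : 0 < C) (hc' : 0 < c') {K : ℕ → ℝ} (hK : ∀ j, 0 ≤ K j) (j0 : ℕ)
    (H : ∀ j, j0 ≤ j → ∀ t M : ℕ, (t : ℝ) ≤ c * 4 ^ j → C * (4 ^ j * (K j + 1)) ≤ M →
      A M ≤ A t - c' * Real.exp (-(C * K j))) :
    Summable (fun j => Real.exp (-((C + 1) * K j))) := by
  obtain ⟨C1, hC1, hgap⟩ := v19_gap hc hC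
  obtain ⟨B, hBdef⟩ : ∃ B : ℕ → ℝ, ∀ i, B i = A ⌊c * 4 ^ i⌋₊ := ⟨_, fun _ => rfl⟩
  have hB : Antitone B := by
    intro i j hij
    rw [hBdef, hBdef]
    apply hA
    apply Nat.floor_mono
    apply mul_le_mul_of_nonneg_left _ hc.le
    exact pow_le_pow_right₀ (by norm_num) hij
  have hB0 : ∀ j, 0 ≤ B j := fun j => by
    rw [hBdef]
    exact h0 _
  have key : ∀ j, j0 ≤ j → Real.exp (-((C + 1) * K j))
      ≤ C1 / c' * ((B j + v19_E B j) - (B (j + 1) + v19_E B (j + 1))) := by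
    intro j hj
    obtain ⟨g, hg1, hg2⟩ := hgap (K j) (hK j)
    have hM : C * (4 ^ j * (K j + 1)) ≤ ((⌊c * 4 ^ (j + (g + 1))⌋₊ : ℕ) : ℝ) := by
      have hfl : c * 4 ^ (j + (g + 1)) < ((⌊c * 4 ^ (j + (g + 1))⌋₊ : ℕ) : ℝ) + 1 :=
        Nat.lt_floor_add_one _
      have h4 : (1 : ℝ) ≤ 4 ^ j := one_le_pow₀ (by norm_num)
      have e : c * 4 ^ (j + (g + 1)) = 4 ^ j * (c * 4 ^ (g + 1)) := by
        rw [pow_add]
        ring
      have h5 : 4 ^ j * (C * (K j + 1) + 1) ≤ 4 ^ j * (c * 4 ^ (g + 1)) :=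
        mul_le_mul_of_nonneg_left hg1 (by positivity)
      rw [← e] at h5
      have e2 : C * (4 ^ j * (K j + 1)) = 4 ^ j * (C * (K j + 1) + 1) - 4 ^ j := by ring
      rw [e2]
      linarith
    have ht : ((⌊c * 4 ^ j⌋₊ : ℕ) : ℝ) ≤ c * 4 ^ j := Nat.floor_le (by positivity)
    have hH := H j hj _ _ ht hM
    rw [← hBdef, ← hBdef] at hH
    have hterm := v19_term hB hB0 j g
    have hrec := v19_rec hB hB0 j
    have hle : (1 / 2 : ℝ) ^ (g + 1) * (c' * Real.exp (-(C * K j)))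
        ≤ (B j + v19_E B j) - (B (j + 1) + v19_E B (j + 1)) := by
      have h6 : (1 / 2 : ℝ) ^ (g + 1) * (c' * Real.exp (-(C * K j)))
          ≤ (1 / 2 : ℝ) ^ (g + 1) * (B j - B (j + (g + 1))) := by
        apply mul_le_mul_of_nonneg_left _ (by positivity)
        linarith
      linarith
    have hexp : Real.exp (-((C + 1) * K j)) = Real.exp (-(C * K j)) * (Real.exp (K j))⁻¹ := by
      rw [← Real.exp_neg, ← Real.exp_add]
      congr 1
      ring
    have h7 : (Real.exp (K j))⁻¹ ≤ C1 * (1 / 2 : ℝ) ^ (g + 1) := by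
      rw [one_div_pow, mul_one_div, le_div_iff₀ (by positivity),
        inv_mul_le_iff₀ (Real.exp_pos _)]
      linarith
    rw [hexp]
    calc Real.exp (-(C * K j)) * (Real.exp (K j))⁻¹
        ≤ Real.exp (-(C * K j)) * (C1 * (1 / 2 : ℝ) ^ (g + 1)) :=
          mul_le_mul_of_nonneg_left h7 (Real.exp_pos _).le
      _ = C1 / c' * ((1 / 2 : ℝ) ^ (g + 1) * (c' * Real.exp (-(C * K j)))) := by
          field_simp
      _ ≤ C1 / c' * ((B j + v19_E B j) - (B (j + 1) + v19_E B (j + 1))) :=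
          mul_le_mul_of_nonneg_left hle (by positivity)
  rw [← summable_nat_add_iff j0]
  apply summable_of_sum_range_le (c := C1 / c' * (B j0 + v19_E B j0))
  · intro n
    exact (Real.exp_pos _).le
  · intro n
    have h8 : ∑ i ∈ Finset.range n, Real.exp (-((C + 1) * K (i + j0)))
        ≤ ∑ i ∈ Finset.range n, (C1 / c' * (B (i + j0) + v19_E B (i + j0))
          - C1 / c' * (B (i + 1 + j0) + v19_E B (i + 1 + j0))) := by
      apply Finset.sum_le_sum
      intro i _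
      have h9 := key (i + j0) (Nat.le_add_left _ _)
      have e : i + j0 + 1 = i + 1 + j0 := by ring
      rw [e] at h9
      rw [← mul_sub]
      exact h9
    refine h8.trans ?_
    rw [Finset.sum_range_sub' (fun i => C1 / c' * (B (i + j0) + v19_E B (i + j0)))]
    have h10 : 0 ≤ C1 / c' * (B (n + j0) + v19_E B (n + j0)) :=
      mul_nonneg (by positivity) (add_nonneg (hB0 _) (v19_E_nonneg hB0 _))
    rw [zero_add]
    linarith

end Pool.Agent.H34.LS
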