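import Pool.Agent.H34.LS.E1

/-!
E14: translation between weights `mu : G → ℝ` and the group algebra.
-/

namespace Pool.Agent.H34.LS

universe u v

variable {G : Type u} [Group G] {H : Type v} [Group H]

/-- the element of the group algebra with weights `mu`. -/
noncomputable def toPA (mu : G → ℝ) (h : (Function.support mu).Finite) : MonoidAlgebra ℝ G :=
  MonoidAlgebra.ofCoeff (Finsupp.ofSupportFinite mu h)

private theorem e14_coeff (mu : G → ℝ) (h : (Function.support mu).Finite) (g : G) :
    (toPA mu h).coeff g = mu g := rfl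

private theorem e14_supp (mu : G → ℝ) (h : (Function.support mu).Finite) :
    (toPA mu h).coeff.support = h.toFinset := rfl

private theorem e14_sum (mu : G → ℝ) (h : (Function.support mu).Finite) (F : G → ℝ → ℝ)
    (hF : ∀ g, F g 0 = 0) : (toPA mu h).coeff.sum F = ∑ᶠ g, F g (mu g) := by
  rw [Finsupp.sum, e14_supp]
  symm
  rw [finsum_eq_sum_of_support_subset (s := h.toFinset)]
  · exact Finset.sum_congr rfl fun g _ => by rw [e14_coeff]
  · intro g hg
    rw [Set.Finite.coe_toFinset, Function.mem_support]
    intro h0
    rw [Function.mem_support, h0, hF] at hg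
    exact hg rfl

private theorem e14_push (f : G →* H) (mu : G → ℝ) (h : (Function.support mu).Finite) (y : H) :
    push f mu y = (Finsupp.mapDomain f (toPA mu h).coeff) y := by
  classical
  unfold push
  rw [finsum_mem_def, finsum_eq_sum_of_support_subset (s := h.toFinset)]
  · rw [Finsupp.mapDomain, Finsupp.sum_apply, Finsupp.sum, e14_supp]
    refine Finset.sum_congr rfl fun g _ => ?_
    rw [e14_coeff, Finsupp.single_apply, Set.indicator_apply]
    rfl
  · intro g hg
    rw [Set.Finite.coe_toFinset, Function.mem_support]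
    intro h0
    rw [Function.mem_support, Set.indicator_apply, h0, ite_self] at hg
    exact hg rfl

private theorem e14_mp (f : G →* H) (p : MonoidAlgebra ℝ G) :
    (mp f p).coeff = Finsupp.mapDomain f p.coeff := rfl

private theorem e14_avg (f : G →* H) (p : MonoidAlgebra ℝ G) (F : H → ℝ) (x : G) :
    avg (mp f p) F (f x) = avg p (fun g => F (f g)) x := by
  unfold avg
  rw [e14_mp, Finsupp.sum_mapDomain_index]
  · refine Finsupp.sum_congr fun g _ => ?_
    show _ = p.coeff g * F (f (x * g))
    rw [map_mul]
  · intro b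
    rw [zero_mul]
  · intro b m₁ m₂
    rw [add_mul]

private theorem e14_harm {mu : G → ℝ} (h : (Function.support mu).Finite) (f : G → ℝ) :
    Harmonic mu f ↔ avg (toPA mu h) f = f := by
  have key : ∀ x, avg (toPA mu h) f x = ∑ᶠ g, mu g * f (x * g) := fun x =>
    e14_sum mu h (fun g a => a * f (x * g)) (fun g => zero_mul _)
  constructor
  · intro hh
    funext x
    rw [key, ← hh x]
  · intro hh x
    rw [← key, hh]

theorem toPA_pa {mu : G → ℝ} (h : IsFSProb mu) : PA (toPA mu h.finite) := by
  refine ⟨fun g => h.nonneg g, ?_⟩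
  rw [e14_sum mu h.finite (fun _ a => a) (fun _ => rfl)]
  exact h.total

theorem toPA_gen {mu : G → ℝ} (h : IsFSProb mu) (hg : Generating mu) :
    Submonoid.closure {g | (toPA mu h.finite).coeff g ≠ 0} = ⊤ := by
  exact hg

theorem triv_iff {mu : G → ℝ} (h : IsFSProb mu) :
    TrivialBoundary mu ↔ Liou (toPA mu h.finite) := by
  unfold TrivialBoundary Liou
  constructor
  · intro ht f hf hh
    exact ht f hf ((e14_harm h.finite f).mpr hh)
  · intro ht f hf hh
    exact ht f hf ((e14_harm h.finite f).mp hh)

private theorem e14_map_nonneg (f : G →* H) {mu : G → ℝ} (h : IsFSProb mu) (y : H) :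
    0 ≤ (Finsupp.mapDomain f (toPA mu h.finite).coeff) y := by
  classical
  rw [Finsupp.mapDomain, Finsupp.sum_apply]
  refine Finset.sum_nonneg fun g _ => ?_
  show 0 ≤ (Finsupp.single (f g) ((toPA mu h.finite).coeff g)) y
  rw [Finsupp.single_apply]
  split_ifs
  · exact h.nonneg g
  · exact le_rfl

theorem push_fs (f : G →* H) {mu : G → ℝ} (h : IsFSProb mu) : IsFSProb (push f mu) := by
  have hp : push f mu = fun y => (Finsupp.mapDomain f (toPA mu h.finite).coeff) y :=
    funext fun y => e14_push f mu h.finite y
  refine ⟨?_, ?_, ?_⟩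
  · intro y
    rw [hp]
    exact e14_map_nonneg f h y
  · rw [hp]
    exact Finsupp.hasFiniteSupport _
  · rw [hp]
    have h1 : ∑ᶠ y, (Finsupp.mapDomain f (toPA mu h.finite).coeff) y =
        (Finsupp.mapDomain f (toPA mu h.finite).coeff).sum (fun _ a => a) := by
      rw [Finsupp.sum, finsum_eq_sum_of_support_subset]
      intro y hy
      exact Finset.mem_coe.mpr (Finsupp.mem_support_iff.mpr hy)
    rw [h1, Finsupp.sum_mapDomain_index (fun _ => rfl) (fun _ _ _ => rfl)]
    exact (toPA_pa h).2

theorem toPA_push (f : G →* H) {mu : G → ℝ} (h : IsFSProb mu) :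
    toPA (push f mu) (push_fs f h).finite = mp f (toPA mu h.finite) := by
  have h1 : (toPA (push f mu) (push_fs f h).finite).coeff = (mp f (toPA mu h.finite)).coeff := by
    ext y
    rw [e14_coeff, e14_mp, e14_push f mu h.finite]
  exact MonoidAlgebra.ext h1

theorem push_gen (f : G →* H) (hf : Function.Surjective f) {mu : G → ℝ} (h : IsFSProb mu)
    (hg : Generating mu) : Generating (push f mu) := by
  classical
  have hsub : f '' (Function.support mu) ⊆ Function.support (push f mu) := by
    rintro _ ⟨g, hg, rfl⟩
    rw [Function.mem_support, e14_push f mu h.finite]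
    apply ne_of_gt
    have h1 : mu g ≤ (Finsupp.mapDomain f (toPA mu h.finite).coeff) (f g) := by
      rw [Finsupp.mapDomain, Finsupp.sum_apply, Finsupp.sum]
      have h2 : (Finsupp.single (f g) ((toPA mu h.finite).coeff g)) (f g) = mu g := by
        rw [Finsupp.single_eq_same]
        rfl
      rw [← h2]
      refine Finset.single_le_sum
        (f := fun a => (Finsupp.single (f a) ((toPA mu h.finite).coeff a)) (f g)) ?_ ?_
      · intro a _
        show 0 ≤ (Finsupp.single (f a) ((toPA mu h.finite).coeff a)) (f g)
        rw [Finsupp.single_apply]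
        split_ifs
        · exact h.nonneg a
        · exact le_rfl
      · exact Finsupp.mem_support_iff.mpr hg
    exact lt_of_lt_of_le (lt_of_le_of_ne (h.nonneg g) (Ne.symm hg)) h1
  unfold Generating at hg ⊢
  rw [eq_top_iff]
  intro y _
  obtain ⟨x, rfl⟩ := hf y
  have hx : x ∈ Submonoid.closure (Function.support mu) := by
    rw [hg]
    exact Submonoid.mem_top x
  have h3 : f x ∈ (Submonoid.closure (Function.support mu)).map f := ⟨x, hx, rfl⟩
  rw [MonoidHom.map_mclosure] at h3
  exact Submonoid.closure_mono hsub h3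

/-- a bounded harmonic function on `H` pulls back to a bounded harmonic function on `G`. -/
theorem triv_push (f : G →* H) (hf : Function.Surjective f) {mu : G → ℝ} (h : IsFSProb mu)
    (ht : TrivialBoundary mu) : TrivialBoundary (push f mu) := by
  rw [triv_iff (push_fs f h), toPA_push f h]
  rw [triv_iff h] at ht
  intro F hF hh y y'
  obtain ⟨x, rfl⟩ := hf y
  obtain ⟨x', rfl⟩ := hf y'
  obtain ⟨C, hC⟩ := hF
  refine ht (fun g => F (f g)) ⟨C, fun g => hC _⟩ ?_ x x'
  funext z
  rw [← e14_avg, hh]

end Pool.Agent.H34.LS
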