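import Pool.Agent.H34.LS.E5
import Pool.Agent.H34.LS.E6

/-!
E7: small entropy increments imply the Liouville property. Let `|f| ≤ C`, `avg p f = f`,
`p g > 0`. By `avg_shl`, `avg_pow_harm`:
`f (x g) - f x = avg (shl g (p^n)) f x - avg (p^(n+1)) f x`, at most
`C * nrm (shl g (p^n) - p^(n+1)) ≤ C * 2 * √(kl ..)` by `avg_sub_le`, `l1_sq_le_kl`, and
`p g * kl (shl g (p^n)) (p^(n+1)) ≤ ent (p^(n+1)) - ent (p^n)` by `ent_step` (all terms are
nonnegative, `kl_nonneg`; `p^(n+1) = p * p^n`). Hence `f (x g) = f x`; conclude by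
`Submonoid.closure_induction`.
-/

namespace Pool.Agent.H34.LS

universe u

variable {G : Type u} [Group G]

theorem liou_of_small {p : MonoidAlgebra ℝ G} (hp : PA p)
    (hgen : Submonoid.closure {g | p.coeff g ≠ 0} = ⊤)
    (h : ∀ e : ℝ, 0 < e → ∃ n : ℕ, ent (p ^ (n + 1)) - ent (p ^ n) < e) : Liou p := by
  rintro f ⟨C, hC⟩ hf
  have hC0 : 0 ≤ C := le_trans (abs_nonneg _) (hC 1)
  have hstep : ∀ g, p.coeff g ≠ 0 → ∀ x, f (x * g) = f x := by
    intro g hg0 x
    have hg : 0 < p.coeff g := lt_of_le_of_ne (hp.1 g) (Ne.symm hg0)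
    have hb : ∀ e : ℝ, 0 < e → p.coeff g * (f (x * g) - f x) ^ 2 ≤ 0 + e := by
      intro e he
      obtain ⟨n, hn⟩ := h (e / (4 * C ^ 2 + 1)) (by positivity)
      have hq := pa_pow hp n
      have hpq : PA (p * p ^ n) := pa_mul hp hq
      have hs := pa_shl hq g
      have h1 : f (x * g) = avg (shl g (p ^ n)) f x := by
        rw [avg_shl, avg_pow_harm hf]
      have h2 : f x = avg (p * p ^ n) f x := by
        rw [← pow_succ', avg_pow_harm hf]
      have h3 : |f (x * g) - f x| ≤ C * nrm (shl g (p ^ n) - p * p ^ n) := by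
        have h3' := avg_sub_le (shl g (p ^ n)) (p * p ^ n) hC x
        rw [← h1, ← h2] at h3'
        exact h3'
      have h4 : nrm (shl g (p ^ n) - p * p ^ n) ^ 2 ≤
          4 * kl (shl g (p ^ n)).coeff (p * p ^ n).coeff := by
        have := l1_sq_le_kl (shl g (p ^ n)).coeff (p * p ^ n).coeff hs.1 hpq.1 hs.2 hpq.2
          (fun y hy => shl_ac hp hq hg y hy)
        exact this
      have h5 : p.coeff g * kl (shl g (p ^ n)).coeff (p * p ^ n).coeff ≤
          ent (p ^ (n + 1)) - ent (p ^ n) := by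
        rw [pow_succ', ent_step hp hq]
        unfold Finsupp.sum
        refine Finset.single_le_sum
          (f := fun a => p.coeff a * kl (shl a (p ^ n)).coeff (p * p ^ n).coeff) ?_
          (Finsupp.mem_support_iff.2 hg0)
        intro a ha
        refine mul_nonneg (hp.1 a) ?_
        have ha' : 0 < p.coeff a :=
          lt_of_le_of_ne (hp.1 a) (Ne.symm (Finsupp.mem_support_iff.1 ha))
        have hsa := pa_shl hq a
        exact kl_nonneg _ _ hsa.1 hpq.1 (hsa.2.trans hpq.2.symm)
          (fun y hy => shl_ac hp hq ha' y hy)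
      have h6 : (f (x * g) - f x) ^ 2 ≤ C ^ 2 * nrm (shl g (p ^ n) - p * p ^ n) ^ 2 := by
        rw [← mul_pow, ← sq_abs (f (x * g) - f x)]
        exact pow_le_pow_left₀ (abs_nonneg _) h3 2
      have h7 : p.coeff g * (f (x * g) - f x) ^ 2 ≤
          4 * C ^ 2 * (p.coeff g * kl (shl g (p ^ n)).coeff (p * p ^ n).coeff) := by
        calc p.coeff g * (f (x * g) - f x) ^ 2
            ≤ p.coeff g * (C ^ 2 * (4 * kl (shl g (p ^ n)).coeff (p * p ^ n).coeff)) := by
              refine mul_le_mul_of_nonneg_left (h6.trans ?_) hg.le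
              exact mul_le_mul_of_nonneg_left h4 (sq_nonneg C)
          _ = _ := by ring
      have h8 : 4 * C ^ 2 * (p.coeff g * kl (shl g (p ^ n)).coeff (p * p ^ n).coeff) ≤
          4 * C ^ 2 * (e / (4 * C ^ 2 + 1)) :=
        mul_le_mul_of_nonneg_left (h5.trans hn.le) (by positivity)
      have h9 : 4 * C ^ 2 * (e / (4 * C ^ 2 + 1)) ≤ e := by
        rw [← mul_div_assoc, div_le_iff₀ (by positivity)]
        nlinarith
      linarith
    have h10 : p.coeff g * (f (x * g) - f x) ^ 2 ≤ 0 := le_of_forall_pos_le_add hb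
    have h11 : (f (x * g) - f x) ^ 2 ≤ 0 := by
      by_contra hc
      exact absurd h10 (not_le.2 (mul_pos hg (not_le.1 hc)))
    have h12 : f (x * g) - f x = 0 := by
      exact pow_eq_zero_iff (two_ne_zero) |>.1 (le_antisymm h11 (sq_nonneg _))
    exact sub_eq_zero.1 h12
  have hall : ∀ g ∈ Submonoid.closure {g | p.coeff g ≠ 0}, ∀ x, f (x * g) = f x := by
    intro g hg
    induction hg using Submonoid.closure_induction with
    | mem g hg => exact hstep g hg
    | one => intro x; rw [mul_one]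
    | mul a b _ _ iha ihb => intro x; rw [← mul_assoc, ihb, iha]
  intro x y
  have h13 := hall (x⁻¹ * y) (by rw [hgen]; exact Submonoid.mem_top _) x
  rw [mul_inv_cancel_left] at h13
  exact h13.symm

end Pool.Agent.H34.LS
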