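import Pool.Agent.H34.LS.V11

/-!
V15: the monotonicity formula. `Jk m s` is the entropy increment at the first step of the killed walk
of length `m + 1` from `s`; `Phi m` is the weighted entropy of the killed walks of length `m`.

Proof of `phi_step`. For `|s| < w` put `r = bnd P (fun g => tl g (qk m (s + hh g)))`, so
`qk (m+1) s = vv s • r`. For `0 ≤ c ≤ 1` and `r ≥ 0`:
`fent (c • r) = c * fent r + negMulLog c * tot r ≥ c * fent r`. Hence
`ppsi s / lam * fent (qk (m+1) s) ≥ (ppsi s * vv s / lam) * fent r = psi s * fent r` (`vv_mul`), and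
`fent r = Jk m s + P.sum (fun g c => c * e (s + hh g))` with `e x = fent (qk m x)` (`fent_tl`). It remains to see
`sum_{s ∈ Ioo} psi s * P.sum (fun g c => c * e (s + hh g)) = sum_{x ∈ Ioo} ppsi x * e x`:
for fixed `g`, `sum_{s ∈ Ioo} psi s * e (s + hh g) = sum_{x ∈ Ioo} psi (x - hh g) * e x` (substitution
`x = s + hh g`; `psi` and `e` vanish outside `Ioo (-w) w`: `psi_zero`, `qk_zero`), and then `symm_sum` with
`F y = psi (x + y)`: `P.sum (fun g c => c * psi (x - hh g)) = ppsi x`.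
-/

namespace Pool.Agent.H34.LS

universe u

variable {G : Type u} [Group G] {P : G →₀ ℝ} {hh : G → ℤ} {R : ℕ}

noncomputable def Jk (P : G →₀ ℝ) (hh : G → ℤ) (w m : ℕ) (s : ℤ) : ℝ :=
  JJ P (fun g => tl g (qk P hh w m (s + hh g)))

noncomputable def Phi (P : G →₀ ℝ) (hh : G → ℤ) (w m : ℕ) : ℝ :=
  ∑ s ∈ Finset.Ioo (-(w : ℤ)) w, ppsi P hh w s / lam P hh w * fent (qk P hh w m s)

theorem fent_smul_ge {X : Type u} {r : X →₀ ℝ} (hr : ∀ x, 0 ≤ r x) {c : ℝ} (hc : 0 ≤ c)
    (hc1 : c ≤ 1) : c * fent r ≤ fent (c • r) := by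
  have h1 : fent (c • r) = r.sum (fun _ a => Real.negMulLog (c * a)) := by
    unfold fent
    exact Finsupp.sum_smul_index (fun _ => Real.negMulLog_zero)
  rw [h1]
  unfold fent
  rw [Finsupp.sum, Finsupp.sum, Finset.mul_sum]
  refine Finset.sum_le_sum fun x _ => ?_
  rw [Real.negMulLog_mul]
  have h2 : 0 ≤ r x * Real.negMulLog c := mul_nonneg (hr x) (Real.negMulLog_nonneg hc hc1)
  linarith

private theorem v15_mem {w : ℕ} {x : ℤ} (h : ¬ (w : ℤ) ≤ |x|) :
    x ∈ Finset.Ioo (-(w : ℤ)) w := by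
  rw [Finset.mem_Ioo]
  exact abs_lt.1 (not_le.1 h)

private theorem v15_e_zero {w : ℕ} (hw : 1 ≤ w) (m : ℕ) {x : ℤ} (hx : (w : ℤ) ≤ |x|) :
    fent (qk P hh w m x) = 0 := by
  rw [qk_zero hw m hx]
  unfold fent
  exact Finsupp.sum_zero_index

private theorem v15_shift {w : ℕ} (hw : 1 ≤ w) (m : ℕ) (k : ℤ) :
    ∑ s ∈ Finset.Ioo (-(w : ℤ)) w, psi w s * fent (qk P hh w m (s + k)) =
      ∑ x ∈ Finset.Ioo (-(w : ℤ)) w, psi w (x - k) * fent (qk P hh w m x) := by
  refine Finset.sum_bij_ne_zero (fun s _ _ => s + k) ?_ ?_ ?_ ?_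
  · intro s _ h
    by_contra hc
    apply h
    have : (w : ℤ) ≤ |s + k| := by
      by_contra hcc
      exact hc (v15_mem hcc)
    rw [v15_e_zero hw m this, mul_zero]
  · intro a _ _ b _ _ hab
    have hab' : a + k = b + k := hab
    omega
  · intro b hb h
    have hb1 : b - k ∈ Finset.Ioo (-(w : ℤ)) w := by
      by_contra hc
      apply h
      have : (w : ℤ) ≤ |b - k| := by
        by_contra hcc
        exact hc (v15_mem hcc)
      rw [psi_zero hw this, zero_mul]
    have hbk : b - k + k = b := by ring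
    refine ⟨b - k, hb1, ?_, hbk⟩
    rw [hbk]
    exact h
  · intro s _ _
    have : s + k - k = s := by ring
    simp only [this]

private theorem v15_swap (h : Walk P hh R) {w : ℕ} (hw : 1 ≤ w) (m : ℕ) :
    ∑ s ∈ Finset.Ioo (-(w : ℤ)) w,
        psi w s * P.sum (fun g c => c * fent (qk P hh w m (s + hh g))) =
      ∑ x ∈ Finset.Ioo (-(w : ℤ)) w, ppsi P hh w x * fent (qk P hh w m x) := by
  have e1 : ∑ s ∈ Finset.Ioo (-(w : ℤ)) w,
        psi w s * P.sum (fun g c => c * fent (qk P hh w m (s + hh g))) =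
      ∑ g ∈ P.support, P g * ∑ s ∈ Finset.Ioo (-(w : ℤ)) w,
        psi w s * fent (qk P hh w m (s + hh g)) := by
    simp only [Finsupp.sum, Finset.mul_sum]
    rw [Finset.sum_comm]
    refine Finset.sum_congr rfl fun g _ => Finset.sum_congr rfl fun s _ => ?_
    ring
  have e2 : ∑ x ∈ Finset.Ioo (-(w : ℤ)) w, ppsi P hh w x * fent (qk P hh w m x) =
      ∑ g ∈ P.support, P g * ∑ x ∈ Finset.Ioo (-(w : ℤ)) w,
        psi w (x - hh g) * fent (qk P hh w m x) := by
    have e3 : ∀ x : ℤ, ppsi P hh w x = ∑ g ∈ P.support, P g * psi w (x - hh g) := by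
      intro x
      have := symm_sum h (fun y => psi w (x + y))
      unfold ppsi
      rw [← this, Finsupp.sum]
      refine Finset.sum_congr rfl fun g _ => ?_
      rw [sub_eq_add_neg]
    simp only [e3, Finset.mul_sum, Finset.sum_mul]
    rw [Finset.sum_comm]
    refine Finset.sum_congr rfl fun g _ => Finset.sum_congr rfl fun s _ => ?_
    ring
  rw [e1, e2]
  refine Finset.sum_congr rfl fun g _ => ?_
  rw [v15_shift hw m (hh g)]

theorem phi_step (h : Walk P hh R) {w : ℕ} (hw : 1 ≤ w) (hR : 2 * R ≤ w) (m : ℕ) :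
    (∑ s ∈ Finset.Ioo (-(w : ℤ)) w, psi w s * Jk P hh w m s) + lam P hh w * Phi P hh w m ≤
      Phi P hh w (m + 1) := by
  have hlam : 0 < lam P hh w := lt_of_lt_of_le (by norm_num) (lam_ge h hw hR)
  have hphi : lam P hh w * Phi P hh w m =
      ∑ s ∈ Finset.Ioo (-(w : ℤ)) w,
        psi w s * P.sum (fun g c => c * fent (qk P hh w m (s + hh g))) := by
    rw [v15_swap h hw m]
    unfold Phi
    rw [Finset.mul_sum]
    refine Finset.sum_congr rfl fun s _ => ?_
    field_simp
  rw [hphi, ← Finset.sum_add_distrib]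
  unfold Phi
  refine Finset.sum_le_sum fun s _ => ?_
  set r : G →₀ ℝ := bnd P (fun g => tl g (qk P hh w m (s + hh g))) with hr
  have hq : qk P hh w (m + 1) s = vv P hh w s • r := rfl
  have hr0 : ∀ x, 0 ≤ r x := fun x =>
    bnd_nonneg h.nonneg (fun g y => tl_nonneg g (fun z => qk_nonneg h hw hR m (s + hh g) z) y) x
  have hJ : fent r = Jk P hh w m s +
      P.sum (fun g c => c * fent (qk P hh w m (s + hh g))) := by
    have : P.sum (fun g c => c * fent (tl g (qk P hh w m (s + hh g)))) =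
        P.sum (fun g c => c * fent (qk P hh w m (s + hh g))) := by
      simp only [fent_tl]
    unfold Jk JJ
    rw [this, ← hr]
    ring
  rw [← mul_add, ← hJ, hq]
  have h1 := fent_smul_ge hr0 (vv_nonneg h hw hR s) (vv_le_one h hw hR s)
  have h2 : 0 ≤ ppsi P hh w s / lam P hh w := div_nonneg (ppsi_nonneg h w s) hlam.le
  calc psi w s * fent r = ppsi P hh w s / lam P hh w * (vv P hh w s * fent r) := by
        have h3 := vv_mul h hw hR s
        have h4 : psi w s = ppsi P hh w s / lam P hh w * vv P hh w s := by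
          rw [div_mul_eq_mul_div, mul_comm (ppsi P hh w s), h3]
          field_simp
        rw [h4]
        ring
    _ ≤ ppsi P hh w s / lam P hh w * fent (vv P hh w s • r) :=
        mul_le_mul_of_nonneg_left h1 h2

theorem phi_nonneg (h : Walk P hh R) {w : ℕ} (hw : 1 ≤ w) (hR : 2 * R ≤ w) (m : ℕ) :
    0 ≤ Phi P hh w m := by
  have hlam : 0 < lam P hh w := lt_of_lt_of_le (by norm_num) (lam_ge h hw hR)
  exact Finset.sum_nonneg fun s _ => mul_nonneg (div_nonneg (ppsi_nonneg h w s) hlam.le)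
    (fent_qk_nonneg h hw hR m s)

end Pool.Agent.H34.LS
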