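import Pool.Agent.H34.LS.V13

/-!
V21: two sufficient conditions for the divergence hypothesis of `window_criterion`.
-/

namespace Pool.Agent.H34.LS

open Filter

universe u

variable {G : Type u} [Group G]

/-- `log |W_n| = o (n² log log n)` suffices. -/
theorem diverge_of_little_o (f : G →* Multiplicative ℤ) (S : Set G)
    (h : ∀ e : ℝ, 0 < e → ∀ᶠ n : ℕ in atTop,
      Real.log ((window f S n).ncard : ℝ) ≤ e * (n : ℝ) ^ 2 * Real.log (Real.log n)) :
    ∀ c : ℝ, 0 < c → ¬ Summable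
      (fun j : ℕ => Real.exp (-(c * (Real.log ((window f S (2 ^ j)).ncard : ℝ) / 4 ^ j)))) := by
  intro c hc hs
  have h1 := h (1 / (2 * c)) (by positivity)
  have hpow : Tendsto (fun j : ℕ => 2 ^ j) atTop atTop := tendsto_pow_atTop_atTop_of_one_lt (by norm_num)
  have h2 := hpow.eventually h1
  have h3 : ∀ᶠ j : ℕ in atTop, (1 : ℝ) / (j : ℝ) ^ (1 / 2 : ℝ) ≤
      Real.exp (-(c * (Real.log ((window f S (2 ^ j)).ncard : ℝ) / 4 ^ j))) := by
    filter_upwards [h2, eventually_ge_atTop 2] with j hj hj2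
    have hj0 : (0 : ℝ) < j := by
      have : 0 < j := by omega
      exact_mod_cast this
    have hlog2 : 0 < Real.log 2 := Real.log_pos (by norm_num)
    have hlog2' : Real.log 2 ≤ 1 := by
      have := Real.log_two_lt_d9
      linarith
    have e1 : Real.log (((2 : ℕ) ^ j : ℕ) : ℝ) = j * Real.log 2 := by
      push_cast
      rw [Real.log_pow]
    have e2 : Real.log (j * Real.log 2) ≤ Real.log j :=
      Real.log_le_log (by positivity) (by nlinarith)
    have e3 : (((2 : ℕ) ^ j : ℕ) : ℝ) ^ 2 = 4 ^ j := by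
      push_cast
      rw [← pow_mul, mul_comm, pow_mul]
      norm_num
    have e4 : Real.log ((window f S (2 ^ j)).ncard : ℝ) / 4 ^ j ≤ 1 / (2 * c) * Real.log j := by
      rw [div_le_iff₀ (by positivity)]
      calc Real.log ((window f S (2 ^ j)).ncard : ℝ)
          ≤ 1 / (2 * c) * (((2 : ℕ) ^ j : ℕ) : ℝ) ^ 2 * Real.log (Real.log (((2 : ℕ) ^ j : ℕ) : ℝ)) := hj
        _ = 1 / (2 * c) * 4 ^ j * Real.log (j * Real.log 2) := by rw [e1, e3]
        _ ≤ 1 / (2 * c) * 4 ^ j * Real.log j := by gcongr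
        _ = 1 / (2 * c) * Real.log j * 4 ^ j := by ring
    rw [one_div, ← Real.rpow_neg hj0.le, Real.rpow_def_of_pos hj0]
    apply Real.exp_le_exp.2
    have e5 : c * (Real.log ((window f S (2 ^ j)).ncard : ℝ) / 4 ^ j) ≤ c * (1 / (2 * c) * Real.log j) :=
      mul_le_mul_of_nonneg_left e4 hc.le
    have e6 : c * (1 / (2 * c) * Real.log j) = 1 / 2 * Real.log j := by
      field_simp
    rw [e6] at e5
    linarith
  have h4 : Summable (fun j : ℕ => (1 : ℝ) / (j : ℝ) ^ (1 / 2 : ℝ)) := by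
    refine summable_of_isBigO_nat hs ?_
    refine Asymptotics.IsBigO.of_bound 1 ?_
    filter_upwards [h3] with j hj
    rw [one_mul, Real.norm_of_nonneg (by positivity), Real.norm_of_nonneg (Real.exp_pos _).le]
    exact hj
  rw [Real.summable_one_div_nat_rpow] at h4
  norm_num at h4

/-- `log |W_n| ≤ K n²` for infinitely many `n` suffices. -/
theorem diverge_of_frequently (f : G →* Multiplicative ℤ) (S : Set G)
    (hfin : ∀ n, (window f S n).Finite) {K : ℝ} (hK : 0 ≤ K)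
    (h : ∃ᶠ n : ℕ in atTop, Real.log ((window f S n).ncard : ℝ) ≤ K * (n : ℝ) ^ 2) :
    ∀ c : ℝ, 0 < c → ¬ Summable
      (fun j : ℕ => Real.exp (-(c * (Real.log ((window f S (2 ^ j)).ncard : ℝ) / 4 ^ j)))) := by
  intro c hc hs
  have h0 := hs.tendsto_atTop_zero
  have h1 : ∀ᶠ j : ℕ in atTop,
      Real.exp (-(c * (Real.log ((window f S (2 ^ j)).ncard : ℝ) / 4 ^ j))) < Real.exp (-(c * (4 * K))) :=
    (tendsto_order.1 h0).2 _ (Real.exp_pos _)
  obtain ⟨j0, hj0⟩ := eventually_atTop.1 h1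
  obtain ⟨n, hn, hnK⟩ := frequently_atTop.1 h (2 ^ j0)
  have hn0 : n ≠ 0 := by
    have : 0 < 2 ^ j0 := by positivity
    omega
  set j := Nat.log 2 n with hj
  have hle : 2 ^ j ≤ n := Nat.pow_log_le_self 2 hn0
  have hlt : n < 2 ^ (j + 1) := Nat.lt_pow_succ_log_self (by norm_num) n
  have hjj : j0 ≤ j := by
    rw [hj]
    exact Nat.le_log_of_pow_le (by norm_num) hn
  have h2 := hj0 j hjj
  rw [Real.exp_lt_exp, neg_lt_neg_iff] at h2
  have h3 := lt_of_mul_lt_mul_left h2 hc.le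
  have hne : (window f S (2 ^ j)).Nonempty :=
    ⟨1, [], by simp, rfl, fun k => by simp⟩
  have hcard : (0 : ℝ) < ((window f S (2 ^ j)).ncard : ℝ) := by
    exact_mod_cast (Set.ncard_pos (hfin _)).2 hne
  have hmono : ((window f S (2 ^ j)).ncard : ℝ) ≤ ((window f S n).ncard : ℝ) := by
    exact_mod_cast Set.ncard_le_ncard (window_mono f S hle) (hfin n)
  have h4 : Real.log ((window f S (2 ^ j)).ncard : ℝ) ≤ K * (n : ℝ) ^ 2 :=
    (Real.log_le_log hcard hmono).trans hnK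
  have h5 : (n : ℝ) ^ 2 ≤ 4 * 4 ^ j := by
    have e1 : (n : ℝ) ≤ 2 ^ (j + 1) := by exact_mod_cast hlt.le
    have e2 : ((2 : ℝ) ^ (j + 1)) ^ 2 = 4 * 4 ^ j := by
      rw [← pow_mul, mul_comm (j + 1) 2, pow_mul, pow_succ]
      norm_num
      ring
    calc (n : ℝ) ^ 2 ≤ ((2 : ℝ) ^ (j + 1)) ^ 2 := by gcongr
      _ = 4 * 4 ^ j := e2
  have h6 : Real.log ((window f S (2 ^ j)).ncard : ℝ) / 4 ^ j ≤ 4 * K := by
    rw [div_le_iff₀ (by positivity)]
    calc Real.log ((window f S (2 ^ j)).ncard : ℝ) ≤ K * (n : ℝ) ^ 2 := h4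
      _ ≤ K * (4 * 4 ^ j) := by gcongr
      _ = 4 * K * 4 ^ j := by ring
  linarith

end Pool.Agent.H34.LS
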