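import Pool.Agent.H34.LS.E13
import Pool.Agent.H34.LS.E14

/-!
E15: `transfer` for weights: combine `triv_push`, `triv_iff`, `toPA_push`, `toPA_gen`, `transfer`.
-/

namespace Pool.Agent.H34.LS

universe u v w

theorem boundary_iff {F : Type u} {G : Type v} {G' : Type w} [Group F] [Group G] [Group G']
    {S : Set F} (hS : Subgroup.closure S = ⊤) (pi : F →* G) (hpi : Function.Surjective pi)
    (theta : G →* G') (htheta : Function.Surjective theta)
    (hc : ∀ e : ℝ, 0 < e → ∀ L : ℕ, ∃ (U : Subgroup F) (l : ℕ), U.Normal ∧ U.FiniteIndex ∧ L ≤ l ∧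
      Real.log (U.index : ℝ) ≤ e * l ∧
      ∀ x, wordLength S x ≤ l → x ∈ U → theta (pi x) = 1 → pi x = 1)
    {mu : G → ℝ} (h : IsFSProb mu) (hg : Generating mu) :
    TrivialBoundary mu ↔ TrivialBoundary (push theta mu) := by
  constructor
  · intro ht
    exact triv_push theta htheta h ht
  · intro ht
    have h1 : Liou (toPA (push theta mu) (push_fs theta h).finite) :=
      (triv_iff (push_fs theta h)).mp ht
    rw [toPA_push theta h] at h1
    exact (triv_iff h).mpr (transfer hS pi hpi theta hc (toPA_pa h) (toPA_gen h hg) h1)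

end Pool.Agent.H34.LS
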