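import Pool.Agent.H34.LS.H7
import Pool.Agent.H34.LS.T4
import Pool.Agent.H34.LS.E15
import Pool.Agent.H34.LS.M1
import Pool.Agent.H34.LS.L1

/-!
A1: the lifting theorem. Take `F, S, K, pi` from `tower_data` and `M` from `tower`. `G = F ⧸ M`,
`theta : F ⧸ M → G'` induced by `pi` (`QuotientGroup.lift`, as `M ≤ ⨆ K = pi.ker`). `Group.FG G`:
`F` is generated by the finite set `S`. `LocFinByZ` by `locFinByZ_quot`. The statement on
measures is `boundary_iff` with `pi := QuotientGroup.mk' M`; its hypothesis `hc` is the last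
clause of `tower` (an element `x` with `theta (mk x) = 1` lies in `pi.ker = ⨆ K`, and `x ∈ M` means
`mk x = 1`). Lifts of measures: `lift_measure`.
-/

namespace Pool.Agent.H34.LS

universe u

theorem lifting {G' : Type u} [Group G'] (hfg : Group.FG G') (hG' : LocFinByZ G') :
    ∃ (G : Type u) (_ : Group G) (theta : G →* G'), Group.FG G ∧ LocFinByZ G ∧
      LacunaryHyperbolic G ∧ Function.Surjective theta ∧
      (∀ mu : G → ℝ, IsFSProb mu → Generating mu →
        (TrivialBoundary mu ↔ TrivialBoundary (push theta mu))) ∧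
      (∀ mu' : G' → ℝ, IsFSProb mu' → Generating mu' → Symm mu' →
        ∃ mu : G → ℝ, IsFSProb mu ∧ Generating mu ∧ Symm mu ∧ push theta mu = mu') := by
  obtain ⟨F, iF, S, K, pi, hSf, hS, hKn, hKm, hsep, hhyp, hpi, hker⟩ := tower_data G' hfg hG'
  obtain ⟨M, hMn, hMK, hlac, hloc, hent⟩ := tower hSf hS hKn hKm hsep hhyp
  have hMker : M ≤ pi.ker := by rw [hker]; exact hMK
  let theta : F ⧸ M →* G' := QuotientGroup.lift M pi hMker
  have hth : Function.Surjective theta := by
    intro y
    obtain ⟨x, rfl⟩ := hpi y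
    exact ⟨QuotientGroup.mk x, rfl⟩
  have hFG : Group.FG F := ⟨⟨hSf.toFinset, by simpa using hS⟩⟩
  have hG : Group.FG (F ⧸ M) :=
    Group.fg_of_surjective (f := QuotientGroup.mk' M) (QuotientGroup.mk'_surjective M)
  refine ⟨F ⧸ M, inferInstance, theta, hG, locFinByZ_quot hKm pi hpi hker M hMker hloc hG', hlac,
    hth, ?_, ?_⟩
  · intro mu h hg
    refine boundary_iff hS (QuotientGroup.mk' M) (QuotientGroup.mk'_surjective M) theta hth ?_ h hg
    intro e he L
    obtain ⟨U, l, hU, hUf, hL, hlog, hx⟩ := hent e he L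
    refine ⟨U, l, hU, hUf, hL, hlog, ?_⟩
    intro x hxl hxU hx1
    have hxK : x ∈ ⨆ j, K j := by
      rw [← hker]
      exact hx1
    exact (QuotientGroup.eq_one_iff x).2 (hx x hxl hxU hxK)
  · intro mu' h hg hs
    exact lift_measure hG theta hth h hg hs

end Pool.Agent.H34.LS
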