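import Pool.Agent.H34.LS.LL0

/-!
LL2: windows of the lamplighter group with respect to `S = {ga, gt}`. If all prefixes of a word in
`ga, gt` and inverses have position of modulus at most `w`, then its product `g` has lamps only
in `[-w, w]` and `|pos| ≤ w` (induction on the word from the right: appending a letter: `g * ga` changes only the
lamp at the position of `g`, `g * gt^{±1}` changes no lamp; the prefixes of `l` are prefixes of `l ++ [x]`).
So `window hpos {ga, gt} w` is contained in the set of `(l, k)` with support of `l` in `Icc (-w) w` and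
`k ∈ Icc (-w) w`, which has at most `2 ^ (2 w + 1) * (2 w + 1)` elements (injection into
`(Icc (-w) w → ZMod 2) × Icc (-w) w`, or `Finset.card` of `Finset.finsupp`, ...). Hence
`log ncard ≤ (2 w + 1) log 2 + log (2 w + 1) ≤ 2 (2 w + 1)`.
`ll_diverge`: with `w = 2 ^ j`: `log ncard / 4 ^ j ≤ 2 (2 * 2 ^ j + 1) / 4 ^ j → 0`, so the terms
`exp (-(c * (...)))` tend to `1` and are not summable (`Summable.tendsto_atTop_zero`).
-/

namespace Pool.Agent.H34.LS.LL

/-- The lamps of the letters. -/
theorem ll2_letter {x : LL} (hx : x ∈ ({ga, gt} : Set LL) ∨ x⁻¹ ∈ ({ga, gt} : Set LL)) {i : ℤ}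
    (hi : i ≠ 0) : x.lamp i = 0 := by
  have h1 : ∀ y : LL, y ∈ ({ga, gt} : Set LL) → y.lamp i = 0 ∧ y⁻¹.lamp i = 0 := by
    intro y hy
    rw [Set.mem_insert_iff, Set.mem_singleton_iff] at hy
    rcases hy with rfl | rfl
    · constructor
      · exact Finsupp.single_eq_of_ne hi
      · rw [inv_lamp, sh_apply]
        have h2 : (ga : LL).pos = 0 := rfl
        rw [h2, neg_zero, sub_zero]
        exact Finsupp.single_eq_of_ne hi
    · constructor
      · rfl
      · rw [inv_lamp, sh_apply]
        rfl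
  rcases hx with hx | hx
  · exact (h1 x hx).1
  · have := (h1 _ hx).2
    rw [inv_inv] at this
    exact this

theorem ll2_bound (w : ℕ) : ∀ l : List LL,
    (∀ x ∈ l, x ∈ ({ga, gt} : Set LL) ∨ x⁻¹ ∈ ({ga, gt} : Set LL)) →
    (∀ k : ℕ, |((l.take k).prod).pos| ≤ (w : ℤ)) →
    ∀ i : ℤ, (w : ℤ) < |i| → l.prod.lamp i = 0 := by
  intro l
  induction l using List.reverseRecOn with
  | nil =>
    intro _ _ i _
    rw [List.prod_nil, one_lamp]
    rfl
  | append_singleton l x ih =>
    intro h1 h2 i hi
    have hl2 : ∀ k : ℕ, |((l.take k).prod).pos| ≤ (w : ℤ) := by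
      intro k
      rcases le_total k l.length with hk | hk
      · have := h2 k
        rw [List.take_append_of_le_length hk] at this
        exact this
      · have := h2 l.length
        rw [List.take_append_of_le_length le_rfl, List.take_length] at this
        rw [List.take_of_length_le hk]
        exact this
    have hpos' := hl2 l.length
    rw [List.take_length] at hpos'
    rw [List.prod_append, List.prod_singleton, mul_lamp, Finsupp.add_apply,
      ih (fun y hy => h1 y (List.mem_append_left _ hy)) hl2 i hi, zero_add, sh_apply]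
    apply ll2_letter (h1 x (List.mem_append_right _ (List.mem_singleton_self x)))
    intro h0
    have : i = l.prod.pos := by omega
    rw [this] at hi
    exact absurd hpos' (not_le.2 hi)

/-- The code of an element. -/
noncomputable def ll2_code (g : LL) : Finset ℤ × ℤ := (g.lamp.support, g.pos)

theorem ll2_code_inj : Function.Injective ll2_code := by
  intro g h e
  unfold ll2_code at e
  rw [Prod.mk.injEq] at e
  have z2 : ∀ a : ZMod 2, a = 0 ∨ a = 1 := by decide
  apply LL.ext
  · ext i
    have h1 : g.lamp i ≠ 0 ↔ h.lamp i ≠ 0 := by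
      rw [← Finsupp.mem_support_iff, ← Finsupp.mem_support_iff, e.1]
    rcases z2 (g.lamp i) with hg | hg <;> rcases z2 (h.lamp i) with hh | hh
    · rw [hg, hh]
    · rw [hg, hh] at h1
      exact absurd rfl (h1.2 one_ne_zero)
    · rw [hg, hh] at h1
      exact absurd rfl (h1.1 one_ne_zero)
    · rw [hg, hh]
  · exact e.2

/-- The set of the codes of the window. -/
noncomputable def ll2_box (w : ℕ) : Finset (Finset ℤ × ℤ) :=
  (Finset.Icc (-(w : ℤ)) w).powerset ×ˢ Finset.Icc (-(w : ℤ)) w

theorem ll2_box_card (w : ℕ) : (ll2_box w).card = 2 ^ (2 * w + 1) * (2 * w + 1) := by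
  have h : (Finset.Icc (-(w : ℤ)) w).card = 2 * w + 1 := by
    rw [Int.card_Icc]
    omega
  unfold ll2_box
  rw [Finset.card_product, Finset.card_powerset, h]

theorem ll2_maps (w : ℕ) {g : LL} (hg : g ∈ window hpos ({ga, gt} : Set LL) w) :
    ll2_code g ∈ (ll2_box w : Set (Finset ℤ × ℤ)) := by
  obtain ⟨l, h1, rfl, h2⟩ := hg
  have h2' : ∀ k : ℕ, |((l.take k).prod).pos| ≤ (w : ℤ) := fun k => h2 k
  have hp := h2' l.length
  rw [List.take_length, abs_le] at hp
  unfold ll2_code ll2_box
  rw [Finset.mem_coe, Finset.mem_product, Finset.mem_powerset]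
  refine ⟨fun i hi => ?_, Finset.mem_Icc.2 hp⟩
  rw [Finsupp.mem_support_iff] at hi
  rw [Finset.mem_Icc, ← abs_le]
  by_contra hc
  exact hi (ll2_bound w l h1 h2' i (not_le.1 hc))

theorem ll_window_finite (w : ℕ) : (window hpos ({ga, gt} : Set LL) w).Finite := by
  apply Set.Finite.of_finite_image _ ll2_code_inj.injOn
  apply (ll2_box w).finite_toSet.subset
  rintro _ ⟨g, hg, rfl⟩
  exact ll2_maps w hg

theorem ll2_ncard (w : ℕ) :
    (window hpos ({ga, gt} : Set LL) w).ncard ≤ 2 ^ (2 * w + 1) * (2 * w + 1) := by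
  rw [← ll2_box_card w, ← Set.ncard_coe_finset (ll2_box w)]
  exact Set.ncard_le_ncard_of_injOn ll2_code (fun g hg => ll2_maps w hg) ll2_code_inj.injOn
    (ll2_box w).finite_toSet

theorem ll_window_log (w : ℕ) :
    Real.log ((window hpos ({ga, gt} : Set LL) w).ncard : ℝ) ≤ 2 * (2 * (w : ℝ) + 1) := by
  have h := ll2_ncard w
  rcases Nat.eq_zero_or_pos (window hpos ({ga, gt} : Set LL) w).ncard with h0 | h0
  · rw [h0, Nat.cast_zero, Real.log_zero]
    positivity
  · have h1 : ((window hpos ({ga, gt} : Set LL) w).ncard : ℝ) ≤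
        2 ^ (2 * w + 1) * (2 * (w : ℝ) + 1) := by exact_mod_cast h
    have h2 : (0 : ℝ) < 2 * (w : ℝ) + 1 := by positivity
    refine (Real.log_le_log (by exact_mod_cast h0) h1).trans ?_
    rw [Real.log_mul (by positivity) h2.ne', Real.log_pow]
    have h3 := Real.log_le_sub_one_of_pos h2
    have h4 := Real.log_two_lt_d9
    push_cast
    nlinarith

theorem ll_diverge (c : ℝ) (hc : 0 < c) : ¬ Summable
    (fun j : ℕ => Real.exp (-(c * (Real.log ((window hpos ({ga, gt} : Set LL) (2 ^ j)).ncard : ℝ) /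
      4 ^ j)))) := by
  intro hs
  have ht := hs.tendsto_atTop_zero
  have hpos' : (0 : ℝ) < Real.exp (-(c * 6)) := Real.exp_pos _
  obtain ⟨j, hj⟩ := (ht.eventually (gt_mem_nhds hpos')).exists
  have h1 : Real.exp (-(c * 6)) ≤ Real.exp (-(c *
      (Real.log ((window hpos ({ga, gt} : Set LL) (2 ^ j)).ncard : ℝ) / 4 ^ j))) := by
    apply Real.exp_le_exp.2
    apply neg_le_neg
    apply mul_le_mul_of_nonneg_left _ hc.le
    have h4 : (0 : ℝ) < 4 ^ j := by positivity
    rw [div_le_iff₀ h4]
    refine (ll_window_log (2 ^ j)).trans ?_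
    push_cast
    have h5 : (2 : ℝ) ^ j ≤ 4 ^ j := pow_le_pow_left₀ (by norm_num) (by norm_num) j
    have h6 : (1 : ℝ) ≤ 4 ^ j := one_le_pow₀ (by norm_num)
    linarith
  exact absurd hj (not_lt.2 h1)

end Pool.Agent.H34.LS.LL
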