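import Pool.Agent.H34.LS.LL0

/-!
LL3: the biased measure on the lamplighter group has a non-constant bounded harmonic function.
`biased` has support `{ga, gt, gt⁻¹}` (three different elements: positions `0, 1, -1`), weights `1/3, 4/9, 2/9`.
Harmonic function: `F g = e (g.lamp 0) * u g.pos`, `e 0 = 1`, `e 1 = -1`, `u k = 1` for `k ≤ 0` and
`u k = 4 - 3 * 2^(-k)` for `k ≥ 0` (so `u 0 = 1`, `|F| ≤ 4`). `g * ga` switches the lamp at `g.pos`,
`g * gt^{±1}` moves. Harmonicity at `g` with `k = g.pos`: for `k ≠ 0`: `3 u k = 2 u (k+1) + u (k-1)`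
(for `k ≥ 1`: `2 u (k+1) + u (k-1) = 12 - 3 * 2^(-k) - 6 * 2^(-k) = 3 u k`; for `k ≤ -1` all three are `1`), for
`k = 0`: `u 0 = - u 0 / 3 + (4/9) u 1 + (2/9) u (-1)`, i.e. `4/3 = 10/9 + 2/9`. `F 1 = 1`, `F ga = -1`.
-/

namespace Pool.Agent.H34.LS.LL

private theorem ll3_ne1 : ga ≠ gt := by
  intro h
  have h1 := congrArg LL.pos h
  exact absurd h1 (by show (0 : ℤ) ≠ 1; norm_num)

private theorem ll3_ne2 : ga ≠ gt⁻¹ := by
  intro h
  have h1 := congrArg LL.pos h
  exact absurd h1 (by show (0 : ℤ) ≠ -1; norm_num)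

private theorem ll3_ne3 : gt ≠ gt⁻¹ := by
  intro h
  have h1 := congrArg LL.pos h
  exact absurd h1 (by show (1 : ℤ) ≠ -1; norm_num)

private theorem ll3_ga : biased ga = 1 / 3 := by
  unfold biased
  rw [if_pos rfl, if_neg ll3_ne1, if_neg ll3_ne2]
  norm_num

private theorem ll3_gt : biased gt = 4 / 9 := by
  unfold biased
  rw [if_neg ll3_ne1.symm, if_pos rfl, if_neg ll3_ne3]
  norm_num

private theorem ll3_gti : biased gt⁻¹ = 2 / 9 := by
  unfold biased
  rw [if_neg ll3_ne2.symm, if_neg ll3_ne3.symm, if_pos rfl]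
  norm_num

private theorem ll3_other {g : LL} (h1 : g ≠ ga) (h2 : g ≠ gt) (h3 : g ≠ gt⁻¹) : biased g = 0 := by
  unfold biased
  rw [if_neg h1, if_neg h2, if_neg h3]
  norm_num

theorem biased_support : Function.support biased = ({ga, gt, gt⁻¹} : Set LL) := by
  ext g
  rw [Function.mem_support, Set.mem_insert_iff, Set.mem_insert_iff, Set.mem_singleton_iff]
  constructor
  · intro h
    by_contra hc
    rw [not_or, not_or] at hc
    exact h (ll3_other hc.1 hc.2.1 hc.2.2)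
  · rintro (h | h | h)
    · rw [h, ll3_ga]
      norm_num
    · rw [h, ll3_gt]
      norm_num
    · rw [h, ll3_gti]
      norm_num

private theorem ll3_finsum (φ : LL → ℝ) :
    ∑ᶠ h, biased h * φ h = 1 / 3 * φ ga + 4 / 9 * φ gt + 2 / 9 * φ gt⁻¹ := by
  classical
  rw [finsum_eq_sum_of_support_subset (s := ({ga, gt, gt⁻¹} : Finset LL))]
  · rw [Finset.sum_insert, Finset.sum_insert, Finset.sum_singleton, ll3_ga, ll3_gt, ll3_gti,
      add_assoc]
    · rw [Finset.mem_singleton]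
      exact ll3_ne3
    · rw [Finset.mem_insert, Finset.mem_singleton, not_or]
      exact ⟨ll3_ne1, ll3_ne2⟩
  · intro g hg
    rw [Function.mem_support] at hg
    have h1 : g ∈ Function.support biased := Function.mem_support.2 (left_ne_zero_of_mul hg)
    rw [biased_support] at h1
    simpa using h1

theorem biased_fs : IsFSProb biased := by
  refine ⟨?_, ?_, ?_⟩
  · intro g
    unfold biased
    positivity
  · rw [biased_support]
    exact Set.toFinite _
  · have h := ll3_finsum (fun _ => 1)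
    simp only [mul_one] at h
    rw [h]
    norm_num

/-- the sign of a lamp -/
private noncomputable def ll3_e (x : ZMod 2) : ℝ := if x = 0 then 1 else -1

private theorem ll3_e_zero : ll3_e 0 = 1 := if_pos rfl

private theorem ll3_e_one : ll3_e 1 = -1 := if_neg (by decide)

private theorem ll3_two (x : ZMod 2) : x = 0 ∨ x = 1 := by
  revert x
  decide

private theorem ll3_e_flip (x : ZMod 2) : ll3_e (x + 1) = -ll3_e x := by
  rcases ll3_two x with h | h
  · rw [h, zero_add, ll3_e_one, ll3_e_zero]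
  · have h2 : (1 : ZMod 2) + 1 = 0 := by decide
    rw [h, h2, ll3_e_one, ll3_e_zero, neg_neg]

private theorem ll3_e_abs (x : ZMod 2) : |ll3_e x| = 1 := by
  rcases ll3_two x with h | h
  · rw [h, ll3_e_zero, abs_one]
  · rw [h, ll3_e_one, abs_neg, abs_one]

/-- the profile of the harmonic function -/
private noncomputable def ll3_u (k : ℤ) : ℝ := if k ≤ 0 then 1 else 4 - 3 * (2 : ℝ) ^ (-k)

private theorem ll3_u_neg {k : ℤ} (h : k ≤ 0) : ll3_u k = 1 := if_pos h

private theorem ll3_u_pos {k : ℤ} (h : 0 ≤ k) : ll3_u k = 4 - 3 * (2 : ℝ) ^ (-k) := by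
  rcases h.eq_or_lt with h0 | h0
  · rw [← h0, ll3_u_neg le_rfl]
    norm_num
  · exact if_neg (not_le.2 h0)

private theorem ll3_u_abs (k : ℤ) : |ll3_u k| ≤ 4 := by
  rcases le_total k 0 with h | h
  · rw [ll3_u_neg h, abs_one]
    norm_num
  · rw [ll3_u_pos h]
    have h1 : (0 : ℝ) < (2 : ℝ) ^ (-k) := by positivity
    have h2 : (2 : ℝ) ^ (-k) ≤ 1 := zpow_le_one_of_nonpos₀ (by norm_num) (by omega)
    rw [abs_le]
    constructor <;> linarith

private theorem ll3_u_rec {k : ℤ} (h : k ≠ 0) : 3 * ll3_u k = 2 * ll3_u (k + 1) + ll3_u (k - 1) := by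
  rcases lt_or_gt_of_ne h with h | h
  · rw [ll3_u_neg (by omega), ll3_u_neg (by omega), ll3_u_neg (by omega)]
    norm_num
  · rw [ll3_u_pos (by omega), ll3_u_pos (by omega), ll3_u_pos (by omega)]
    have h1 : (2 : ℝ) ^ (-(k + 1)) = (2 : ℝ) ^ (-k) * 2⁻¹ := by
      rw [neg_add, zpow_add₀ (by norm_num : (2 : ℝ) ≠ 0), zpow_neg_one]
    have h2 : (2 : ℝ) ^ (-(k - 1)) = (2 : ℝ) ^ (-k) * 2 := by
      rw [show -(k - 1) = -k + 1 by ring, zpow_add₀ (by norm_num : (2 : ℝ) ≠ 0), zpow_one]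
    rw [h1, h2]
    ring

/-- the harmonic function -/
private noncomputable def ll3_F (g : LL) : ℝ := ll3_e (g.lamp 0) * ll3_u g.pos

private theorem ll3_F_ga (g : LL) :
    ll3_F (g * ga) = ll3_e (g.lamp 0 + if g.pos = 0 then 1 else 0) * ll3_u g.pos := by
  unfold ll3_F
  rw [mul_lamp, mul_pos, Finsupp.add_apply, sh_apply]
  have h1 : ga.lamp (0 - g.pos) = if g.pos = 0 then 1 else 0 := by
    show (Finsupp.single (0 : ℤ) (1 : ZMod 2)) (0 - g.pos) = _
    rw [Finsupp.single_apply]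
    by_cases h : g.pos = 0
    · rw [if_pos (by rw [h]; rfl), if_pos h]
    · rw [if_neg (fun h' => h (by omega)), if_neg h]
  have h2 : ga.pos = 0 := rfl
  rw [h1, h2, add_zero]

private theorem ll3_F_gt (g : LL) : ll3_F (g * gt) = ll3_e (g.lamp 0) * ll3_u (g.pos + 1) := by
  unfold ll3_F
  have h1 : gt.lamp = 0 := rfl
  have h2 : gt.pos = 1 := rfl
  rw [mul_lamp, mul_pos, h1, h2, map_zero (sh g.pos), add_zero]

private theorem ll3_F_gti (g : LL) : ll3_F (g * gt⁻¹) = ll3_e (g.lamp 0) * ll3_u (g.pos - 1) := by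
  unfold ll3_F
  have h1 : gt.lamp = 0 := rfl
  have h2 : gt.pos = 1 := rfl
  rw [mul_lamp, mul_pos, inv_lamp, inv_pos, h1, h2, map_zero (sh (-1)), map_zero (sh g.pos),
    add_zero, sub_eq_add_neg]

private theorem ll3_harm : Harmonic biased ll3_F := by
  intro g
  rw [ll3_finsum (fun h => ll3_F (g * h)), ll3_F_ga, ll3_F_gt, ll3_F_gti]
  unfold ll3_F
  by_cases h : g.pos = 0
  · rw [if_pos h, ll3_e_flip, h, ll3_u_neg le_rfl, ll3_u_neg (by norm_num : (0 : ℤ) - 1 ≤ 0),
      ll3_u_pos (by norm_num : (0 : ℤ) ≤ 0 + 1)]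
    norm_num
    ring
  · rw [if_neg h, add_zero]
    have h1 := ll3_u_rec h
    linear_combination (2 / 9 * ll3_e (g.lamp 0)) * h1

theorem biased_nontrivial : ¬ TrivialBoundary biased := by
  intro h
  have h1 := h ll3_F ⟨4, fun g => by
    unfold ll3_F
    rw [abs_mul, ll3_e_abs, one_mul]
    exact ll3_u_abs _⟩ ll3_harm 1 ga
  have h2 : ll3_F 1 = 1 := by
    show ll3_e ((0 : ℤ →₀ ZMod 2) 0) * ll3_u 0 = 1
    rw [Finsupp.zero_apply, ll3_e_zero, ll3_u_neg le_rfl, one_mul]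
  have h3 : ll3_F ga = -1 := by
    show ll3_e ((Finsupp.single (0 : ℤ) (1 : ZMod 2)) 0) * ll3_u 0 = -1
    rw [Finsupp.single_eq_same, ll3_e_one, ll3_u_neg le_rfl, mul_one]
  rw [h2, h3] at h1
  norm_num at h1

end Pool.Agent.H34.LS.LL
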