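import Pool.Agent.H34.LS.M1

/-!
LL4: lifting a measure whose support is closed under inverses (no symmetry of the weights): adapt the
proof of `lift_measure` in M1 (`m1_set` gives the finite set `T`; put on the fibre of `T` over `t` the
uniform distribution of the mass `mu' t`; if private declarations of M1 are needed, copy them with new
names starting with `ll4_`).
-/

namespace Pool.Agent.H34.LS

universe u v

theorem lift_measure_inv {G : Type u} [Group G] {G' : Type v} [Group G'] (hfg : Group.FG G)
    (theta : G →* G') (htheta : Function.Surjective theta) {mu' : G' → ℝ} (h : IsFSProb mu')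
    (hg : Generating mu') (hs : ∀ x, mu' x ≠ 0 → mu' x⁻¹ ≠ 0) :
    ∃ mu : G → ℝ, IsFSProb mu ∧ Generating mu ∧ push theta mu = mu' := by
  classical
  have hne : (Function.support mu').Nonempty := by
    by_contra hc
    rw [Set.not_nonempty_iff_eq_empty, Function.support_eq_empty_iff] at hc
    have := h.total
    rw [hc] at this
    simp at this
  have hinv : ∀ t ∈ Function.support mu', t⁻¹ ∈ Function.support mu' := by
    intro t ht
    rw [Function.mem_support] at ht ⊢
    exact hs t ht
  obtain ⟨T, hTfin, hT1, hT2, _, hT4⟩ := m1_set hfg theta htheta h.finite hne hinv hg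
  set F : Finset G := hTfin.toFinset with hF
  have hFT : ∀ g, g ∈ F ↔ g ∈ T := fun g => hTfin.mem_toFinset
  set n : G' → ℕ := fun t => (F.filter fun g => theta g = t).card with hn
  set mu : G → ℝ := fun g => if g ∈ F then mu' (theta g) / n (theta g) else 0 with hmu
  have hnpos : ∀ t ∈ Function.support mu', 0 < n t := by
    intro t ht
    obtain ⟨x, hx, hxt⟩ := hT2 t ht
    exact Finset.card_pos.2 ⟨x, Finset.mem_filter.2 ⟨(hFT x).2 hx, hxt⟩⟩
  have hsupp : Function.support mu = T := by
    ext g
    rw [Function.mem_support]
    constructor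
    · intro hg
      by_contra hc
      apply hg
      simp only [hmu]
      rw [if_neg (fun h' => hc ((hFT g).1 h'))]
    · intro hg
      simp only [hmu]
      rw [if_pos ((hFT g).2 hg)]
      have h1 := hT1 g hg
      exact div_ne_zero h1 (Nat.cast_ne_zero.2 (hnpos _ h1).ne')
  have hpush : ∀ t, ∑ g ∈ F.filter (fun g => theta g = t), mu g = mu' t := by
    intro t
    have h1 : ∑ g ∈ F.filter (fun g => theta g = t), mu g =
        ∑ g ∈ F.filter (fun g => theta g = t), mu' t / n t := by
      refine Finset.sum_congr rfl fun g hg => ?_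
      rw [Finset.mem_filter] at hg
      simp only [hmu]
      rw [if_pos hg.1, hg.2]
    rw [h1, Finset.sum_const, nsmul_eq_mul]
    by_cases ht : t ∈ Function.support mu'
    · have h2 : (n t : ℝ) ≠ 0 := Nat.cast_ne_zero.2 (hnpos t ht).ne'
      change (n t : ℝ) * (mu' t / n t) = mu' t
      field_simp
    · rw [Function.notMem_support] at ht
      rw [ht]
      simp
  refine ⟨mu, ⟨?_, ?_, ?_⟩, ?_, ?_⟩
  · intro g
    simp only [hmu]
    split_ifs
    · exact div_nonneg (h.nonneg _) (Nat.cast_nonneg _)
    · exact le_rfl
  · rw [hsupp]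
    exact hTfin
  · rw [finsum_eq_sum_of_support_subset mu (s := F) (by
      rw [hsupp]
      intro g hg
      exact (hFT g).2 hg)]
    have h1 := h.total
    rw [finsum_eq_sum_of_support_subset mu' (s := h.finite.toFinset) (by
      intro g hg
      exact h.finite.mem_toFinset.2 hg)] at h1
    rw [← h1, ← Finset.sum_fiberwise_of_maps_to (s := F) (t := h.finite.toFinset) (g := theta)
      (fun g hg => h.finite.mem_toFinset.2 (hT1 g ((hFT g).1 hg)))]
    exact Finset.sum_congr rfl fun t _ => hpush t
  · unfold Generating
    rw [hsupp]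
    exact hT4
  · funext t
    unfold push
    rw [← hpush t]
    have h1 : ∀ g : G, (∑ᶠ (_ : g ∈ theta ⁻¹' {t}), mu g) = if theta g = t then mu g else 0 := by
      intro g
      by_cases hgt : theta g = t
      · have h2 : g ∈ theta ⁻¹' {t} := hgt
        rw [if_pos hgt, finsum_eq_if, if_pos h2]
      · have h2 : ¬ g ∈ theta ⁻¹' {t} := hgt
        rw [if_neg hgt, finsum_eq_if, if_neg h2]
    simp only [h1]
    rw [finsum_eq_sum_of_support_subset _ (s := F) (by
      intro g hg
      rw [Function.mem_support] at hg
      apply (hFT g).2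
      rw [← hsupp, Function.mem_support]
      intro h0
      apply hg
      rw [h0]
      simp)]
    rw [Finset.sum_filter]

end Pool.Agent.H34.LS
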