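import Pool.Agent.H34.LS.Defs

/-!
LL6: every finitely generated group has a symmetric finitely supported generating measure.
-/

namespace Pool.Agent.H34.LS

universe u

theorem exists_symm {G : Type u} [Group G] (h : Group.FG G) :
    ∃ mu : G → ℝ, IsFSProb mu ∧ Generating mu ∧ Symm mu := by
  classical
  obtain ⟨A, hA, hAfin⟩ := Group.fg_iff.1 h
  have hTfin : (A ∪ A⁻¹ ∪ {1}).Finite := (hAfin.union hAfin.inv).union (Set.finite_singleton 1)
  set T : Finset G := hTfin.toFinset with hT
  have hmem : ∀ x, x ∈ T ↔ x ∈ A ∪ A⁻¹ ∪ {1} := fun x => by rw [hT, Set.Finite.mem_toFinset]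
  have hne : T.Nonempty := ⟨1, by rw [hmem]; exact Or.inr rfl⟩
  have hcard : (0 : ℝ) < (T.card : ℝ) := by exact_mod_cast hne.card_pos
  have hinv : ∀ x, x⁻¹ ∈ T ↔ x ∈ T := by
    intro x
    rw [hmem, hmem]
    simp only [Set.mem_union, Set.mem_inv, inv_inv, Set.mem_singleton_iff, inv_eq_one]
    tauto
  have hsupp : Function.support (fun x : G => if x ∈ T then (1 : ℝ) / T.card else 0) = (T : Set G) := by
    ext x
    rw [Function.mem_support, Finset.mem_coe]
    constructor
    · intro hx
      by_contra hc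
      exact hx (if_neg hc)
    · intro hx
      rw [if_pos hx]
      exact (div_pos one_pos hcard).ne'
  refine ⟨fun x => if x ∈ T then (1 : ℝ) / T.card else 0, ⟨?_, ?_, ?_⟩, ?_, ?_⟩
  · intro g
    split_ifs
    · exact (div_pos one_pos hcard).le
    · exact le_rfl
  · rw [hsupp]
    exact T.finite_toSet
  · rw [finsum_eq_sum_of_support_subset (s := T) _ (by rw [hsupp])]
    rw [Finset.sum_congr rfl (fun x hx => if_pos hx), Finset.sum_const, nsmul_eq_mul]
    field_simp
  · unfold Generating
    rw [hsupp]
    have h1 : Submonoid.closure (A ∪ A⁻¹) = ⊤ := by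
      rw [← Subgroup.closure_toSubmonoid, hA]
      rfl
    refine top_le_iff.1 ?_
    rw [← h1]
    refine Submonoid.closure_mono ?_
    intro x hx
    rw [Finset.mem_coe, hmem]
    exact Or.inl hx
  · intro g
    dsimp only
    simp only [hinv]

end Pool.Agent.H34.LS
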