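import Pool.Agent.H34.LS.V2
import Pool.Agent.H34.LS.V7

/-!
V9: mean and second moment of the height of the walk, Chebyshev. For every `F`,
`(pw P (n+1)).sum (fun x a => a * F x) = P.sum (fun g a => a * (pw P n).sum (fun x b => b * F (g * x)))`
(`sum_bnd`, `sum_tl`). With `F = hh` and `F = hh ^ 2`, `hh (g x) = hh g + hh x`, mean zero of `P`
(`odd_sum` with `F x = (x : ℝ)`), `tot = 1`: the mean is `0` for all `n` and the second moment is
`n * sigma^2` with `sigma^2 = P.sum (fun g a => a * hh g ^ 2) ≤ R ^ 2`. `tail_le`: Chebyshev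
(`k^2 ≤ (hh x)^2` where `k ≤ |hh x|`).
-/

namespace Pool.Agent.H34.LS

universe u

variable {G : Type u} [Group G] {P : G →₀ ℝ} {hh : G → ℤ} {R : ℕ}

private theorem v9_succ (P : G →₀ ℝ) (n : ℕ) (F : G → ℝ) :
    (pw P (n + 1)).sum (fun x a => a * F x) =
      P.sum (fun g a => a * (pw P n).sum (fun x b => b * F (g * x))) := by
  have h1 : pw P (n + 1) = bnd P (fun g => tl g (pw P n)) := rfl
  rw [h1, sum_bnd]
  refine Finset.sum_congr rfl fun g _ => ?_
  beta_reduce
  rw [sum_tl]

private theorem v9_zero (P : G →₀ ℝ) (F : G → ℝ) :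
    (pw P 0).sum (fun x a => a * F x) = F 1 := by
  have h1 : pw P 0 = Finsupp.single 1 1 := rfl
  rw [h1, Finsupp.sum_single_index (by simp), one_mul]

theorem pw_mean (h : Walk P hh R) (n : ℕ) : (pw P n).sum (fun x a => a * (hh x : ℝ)) = 0 := by
  induction n with
  | zero => rw [v9_zero P (fun x => (hh x : ℝ)), hh_one h]; norm_num
  | succ n ih =>
    rw [v9_succ P n (fun x => (hh x : ℝ))]
    have key : ∀ g : G, (pw P n).sum (fun x b => b * ((hh (g * x) : ℤ) : ℝ)) = (hh g : ℝ) := by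
      intro g
      have e1 : (pw P n).sum (fun x b => b * ((hh (g * x) : ℤ) : ℝ))
          = (hh g : ℝ) * tot (pw P n) + (pw P n).sum (fun x b => b * (hh x : ℝ)) := by
        unfold tot Finsupp.sum
        rw [Finset.mul_sum, ← Finset.sum_add_distrib]
        refine Finset.sum_congr rfl fun x _ => ?_
        beta_reduce
        rw [h.hom g x]
        push_cast
        ring
      rw [e1, ih, tot_pw h.total]; ring
    have e2 : P.sum (fun g a => a * (pw P n).sum (fun x b => b * ((hh (g * x) : ℤ) : ℝ)))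
        = P.sum (fun g a => a * (fun z : ℤ => (z : ℝ)) (hh g)) := by
      refine Finset.sum_congr rfl fun g _ => ?_
      simp only
      rw [key g]
    rw [e2]
    exact odd_sum h (fun z : ℤ => (z : ℝ)) (fun x => by push_cast; ring)

private theorem v9_sigma (h : Walk P hh R) :
    P.sum (fun g a => a * (hh g : ℝ) ^ 2) ≤ (R : ℝ) ^ 2 := by
  have h1 : P.sum (fun g a => a * (hh g : ℝ) ^ 2) ≤ P.sum (fun _ a => a * (R : ℝ) ^ 2) := by
    refine Finset.sum_le_sum fun g hg => ?_
    refine mul_le_mul_of_nonneg_left ?_ (h.nonneg g)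
    have h2 := h.bdd g (Finsupp.mem_support_iff.mp hg)
    have h3 : |(hh g : ℝ)| ≤ (R : ℝ) := by
      have : ((|hh g| : ℤ) : ℝ) ≤ ((R : ℤ) : ℝ) := by exact_mod_cast h2
      rwa [Int.cast_abs, Int.cast_natCast] at this
    rw [← sq_abs]
    exact pow_le_pow_left₀ (abs_nonneg _) h3 2
  refine h1.trans ?_
  have h4 : P.sum (fun _ a => a * (R : ℝ) ^ 2) = tot P * (R : ℝ) ^ 2 := by
    unfold tot Finsupp.sum
    rw [Finset.sum_mul]
  rw [h4, h.total, one_mul]

theorem pw_second (h : Walk P hh R) (n : ℕ) :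
    (pw P n).sum (fun x a => a * (hh x : ℝ) ^ 2) ≤ n * (R : ℝ) ^ 2 := by
  induction n with
  | zero => rw [v9_zero P (fun x => (hh x : ℝ) ^ 2), hh_one h]; norm_num
  | succ n ih =>
    rw [v9_succ P n (fun x => (hh x : ℝ) ^ 2)]
    set S : ℝ := (pw P n).sum (fun x a => a * (hh x : ℝ) ^ 2) with hS
    have key : ∀ g : G, (pw P n).sum (fun x b => b * ((hh (g * x) : ℤ) : ℝ) ^ 2)
        = (hh g : ℝ) ^ 2 + S := by
      intro g
      have e1 : (pw P n).sum (fun x b => b * ((hh (g * x) : ℤ) : ℝ) ^ 2)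
          = (hh g : ℝ) ^ 2 * tot (pw P n)
            + 2 * (hh g : ℝ) * (pw P n).sum (fun x b => b * (hh x : ℝ)) + S := by
        rw [hS]
        unfold tot Finsupp.sum
        rw [Finset.mul_sum, Finset.mul_sum, ← Finset.sum_add_distrib, ← Finset.sum_add_distrib]
        refine Finset.sum_congr rfl fun x _ => ?_
        beta_reduce
        rw [h.hom g x]
        push_cast
        ring
      rw [e1, pw_mean h n, tot_pw h.total]; ring
    have e2 : P.sum (fun g a => a * (pw P n).sum (fun x b => b * ((hh (g * x) : ℤ) : ℝ) ^ 2))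
        = P.sum (fun g a => a * (hh g : ℝ) ^ 2) + tot P * S := by
      rw [tot, Finsupp.sum, Finsupp.sum, Finsupp.sum, Finset.sum_mul, ← Finset.sum_add_distrib]
      refine Finset.sum_congr rfl fun g _ => ?_
      beta_reduce
      rw [key g]
      ring
    rw [e2, h.total]
    have := v9_sigma h
    push_cast
    nlinarith

theorem tail_nonneg (h : Walk P hh R) (n k : ℕ) : 0 ≤ tail P hh n k := by
  unfold tail
  refine Finset.sum_nonneg fun x _ => ?_
  beta_reduce
  split_ifs
  · exact pw_nonneg h.nonneg n x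
  · exact le_rfl

theorem tail_le (h : Walk P hh R) (n : ℕ) {k : ℕ} (hk : 1 ≤ k) :
    tail P hh n k ≤ n * (R : ℝ) ^ 2 / (k : ℝ) ^ 2 := by
  have hk0 : (0 : ℝ) < (k : ℝ) ^ 2 := by
    have : (0 : ℝ) < (k : ℝ) := by exact_mod_cast hk
    positivity
  rw [le_div_iff₀ hk0]
  refine le_trans ?_ (pw_second h n)
  unfold tail Finsupp.sum
  rw [Finset.sum_mul]
  refine Finset.sum_le_sum fun x _ => ?_
  have hx : 0 ≤ pw P n x := pw_nonneg h.nonneg n x
  beta_reduce
  split_ifs with hif
  · refine mul_le_mul_of_nonneg_left ?_ hx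
    have h3 : (k : ℝ) ≤ |(hh x : ℝ)| := by
      have : ((k : ℤ) : ℝ) ≤ ((|hh x| : ℤ) : ℝ) := by exact_mod_cast hif
      rwa [Int.cast_abs, Int.cast_natCast] at this
    rw [← sq_abs (hh x : ℝ)]
    exact pow_le_pow_left₀ (by positivity) h3 2
  · rw [zero_mul]
    positivity

end Pool.Agent.H34.LS
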