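import Pool.Agent.H34.LS.V6
import Pool.Agent.H34.LS.V9

/-!
V10: mean of `psi` along the free walk. First, by induction on `n` with `lam_cos`, `sum_bnd`, `sum_tl`:
`(pw P n).sum (fun z a => a * cos (π (s + hh z) / (2 w))) = lam ^ n * cos (π s / (2 w))`.
Then `psi_le_cos` with `w = 4 k`: `psi (s + hh z) ≤ cos + [4 k ≤ |s + hh z|]`, and for `|s| ≤ 2 k` the event
`4 k ≤ |s + hh z|` implies `2 k ≤ |hh z|`. Finally `psi s = cos (π s / (2 w))` (`psi_eq_cos`).
-/

namespace Pool.Agent.H34.LS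

universe u

variable {G : Type u} [Group G] {P : G →₀ ℝ} {hh : G → ℤ} {R : ℕ}

theorem pw_cos (h : Walk P hh R) (w : ℕ) (n : ℕ) (s : ℤ) :
    (pw P n).sum (fun z a => a * Real.cos (Real.pi * ((s + hh z : ℤ) : ℝ) / (2 * w))) =
      lam P hh w ^ n * Real.cos (Real.pi * s / (2 * w)) := by
  induction n generalizing s with
  | zero =>
    have e : pw P 0 = Finsupp.single 1 1 := rfl
    rw [e, Finsupp.sum_single_index (by simp), hh_one h, add_zero, pow_zero]
  | succ n ih =>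
    have e : pw P (n + 1) = bnd P (fun g => tl g (pw P n)) := rfl
    rw [e, sum_bnd P (fun g => tl g (pw P n))
      (fun z => Real.cos (Real.pi * ((s + hh z : ℤ) : ℝ) / (2 * w)))]
    have h1 : ∀ g : G, (tl g (pw P n)).sum
        (fun y b => b * Real.cos (Real.pi * ((s + hh y : ℤ) : ℝ) / (2 * w))) =
        lam P hh w ^ n * Real.cos (Real.pi * ((s + hh g : ℤ) : ℝ) / (2 * w)) := by
      intro g
      rw [sum_tl g (pw P n) (fun z => Real.cos (Real.pi * ((s + hh z : ℤ) : ℝ) / (2 * w))),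
        ← ih (s + hh g)]
      refine Finsupp.sum_congr fun x _ => ?_
      rw [h.hom g x, add_assoc]
    simp only [h1]
    rw [pow_succ, mul_assoc, ← lam_cos h w s, Finsupp.mul_sum]
    refine Finsupp.sum_congr fun x _ => ?_
    ring

theorem psi_mean (h : Walk P hh R) {k : ℕ} (hk : 1 ≤ k) {s : ℤ} (hs : |s| ≤ 2 * (k : ℤ)) (n : ℕ) :
    (pw P n).sum (fun z a => a * psi (4 * k) (s + hh z)) ≤
      lam P hh (4 * k) ^ n * psi (4 * k) s + tail P hh n (2 * k) := by
  have hs4 : |s| ≤ ((4 * k : ℕ) : ℤ) := by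
    push_cast
    omega
  rw [psi_eq_cos hs4, ← pw_cos h (4 * k) n s]
  unfold tail
  simp only [Finsupp.sum]
  rw [← Finset.sum_add_distrib]
  refine Finset.sum_le_sum fun z _ => ?_
  have ha : 0 ≤ pw P n z := pw_nonneg h.nonneg n z
  have h1 := psi_le_cos (w := 4 * k) (by omega) (s + hh z)
  have h2 : (if ((4 * k : ℕ) : ℤ) ≤ |s + hh z| then (1 : ℝ) else 0) ≤
      if ((2 * k : ℕ) : ℤ) ≤ |hh z| then (1 : ℝ) else 0 := by
    by_cases h4 : ((4 * k : ℕ) : ℤ) ≤ |s + hh z|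
    · have h5 : ((2 * k : ℕ) : ℤ) ≤ |hh z| := by
        have := abs_add_le s (hh z)
        push_cast at h4 ⊢
        omega
      rw [if_pos h4, if_pos h5]
    · rw [if_neg h4]
      split_ifs <;> norm_num
  have h3 : (if ((2 * k : ℕ) : ℤ) ≤ |hh z| then pw P n z else 0) =
      pw P n z * (if ((2 * k : ℕ) : ℤ) ≤ |hh z| then (1 : ℝ) else 0) := by
    split_ifs <;> simp
  rw [h3, ← mul_add]
  refine mul_le_mul_of_nonneg_left ?_ ha
  linarith

end Pool.Agent.H34.LS
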