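import Pool.Agent.H34.LS.V11

/-!
V12: dropping the killing in the first `k` steps. Induction on `k`, for all `s`: `k = 0`:
`bnd (single 1 1) K = K 1 = tl 1 (qk n (s + hh 1)) = qk n s` (`hh_one`). Step:
`qk (k+1+n) s = vv s • bnd P (fun g => tl g (qk (k+n) (s + hh g))) ≤ bnd P (fun g => tl g (bnd (pw P k) (fun z =>
tl z (qk n (s + hh g + hh z)))))` (`vv ≤ 1`, `bnd_mono`) and this is
`bnd P (fun g => bnd (tl g (pw P k)) (fun z => tl z (qk n (s + hh z)))) = bnd (pw P (k+1)) (...)`
(`tl_bnd`, `tl_tl`, `hom`, `bnd_tl`, `bnd_bnd`).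
-/

namespace Pool.Agent.H34.LS

universe u

variable {G : Type u} [Group G] {P : G →₀ ℝ} {hh : G → ℤ} {R : ℕ}

theorem qk_le_bnd (h : Walk P hh R) {w : ℕ} (hw : 1 ≤ w) (hR : 2 * R ≤ w) (k n : ℕ) (s : ℤ) (x : G) :
    qk P hh w (k + n) s x ≤ bnd (pw P k) (fun z => tl z (qk P hh w n (s + hh z))) x := by
  have hone : hh 1 = 0 := by
    have h1 := h.hom 1 1
    rw [mul_one] at h1
    omega
  induction k generalizing s x with
  | zero =>
    have e0 : pw P 0 = Finsupp.single 1 1 := rfl
    rw [e0, bnd_single, one_smul, tl_one, hone, add_zero, Nat.zero_add]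
  | succ k ih =>
    have e1 : qk P hh w (k + 1 + n) s =
        vv P hh w s • bnd P (fun g => tl g (qk P hh w (k + n) (s + hh g))) := by
      have e0 : k + 1 + n = (k + n) + 1 := by ring
      rw [e0]
      rfl
    have e2 : pw P (k + 1) = bnd P (fun g => tl g (pw P k)) := rfl
    have hb : 0 ≤ bnd P (fun g => tl g (qk P hh w (k + n) (s + hh g))) x :=
      bnd_nonneg h.nonneg (fun g y => tl_nonneg g (fun z => qk_nonneg h hw hR _ _ z) y) x
    have h1 : qk P hh w (k + 1 + n) s x ≤
        bnd P (fun g => tl g (qk P hh w (k + n) (s + hh g))) x := by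
      rw [e1, Finsupp.smul_apply, smul_eq_mul]
      exact mul_le_of_le_one_left hb (vv_le_one h hw hR s)
    refine h1.trans ?_
    rw [e2, bnd_bnd]
    refine bnd_mono h.nonneg (fun g _ y => ?_) x
    have e3 : bnd (tl g (pw P k)) (fun z => tl z (qk P hh w n (s + hh z))) =
        tl g (bnd (pw P k) (fun z => tl z (qk P hh w n (s + hh g + hh z)))) := by
      rw [bnd_tl, tl_bnd]
      congr 1
      funext z
      rw [tl_tl, h.hom, add_assoc]
    rw [e3, tl_apply, tl_apply]
    exact ih (s + hh g) (g⁻¹ * y)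

end Pool.Agent.H34.LS
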