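import Pool.Agent.H34.LS.V3

/-!
V5: `JJ` after a kernel `K : X → (Y →₀ ℝ)`, `K ≥ 0`: data processing with masses. Put
`R = bnd a r` (`= sum_i a i r i`), so `bnd a (fun i => bnd (r i) K) = bnd R K` (`bnd_bnd`). For `i` with
`a i > 0` and `y : Y`: `bnd (r i) K y = sum_{z ∈ R.support} r i z * K z y` (the support of `r i` is
contained in that of `R`) and `bnd R K y = sum_{z ∈ R.support} R z * K z y`. `log_sum` (E4):
`(bnd (r i) K y) * log (bnd (r i) K y / bnd R K y) ≤
  sum_z (r i z * K z y) * log ((r i z * K z y) / (R z * K z y))` and the log is `log (r i z / R z)` when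
`K z y ≠ 0` (otherwise the term is zero). Multiply by `a i`, sum over `i` and `y ∈` a finite set
containing the supports of all the `K z`, `z ∈ R.support` (then also the support of `bnd R K`):
`sum_y K z y = tot (K z)`, and `sum_i a i * r i z * log (r i z / R z) = DD a r z`.
-/

namespace Pool.Agent.H34.LS

universe u v w

variable {I : Type u} {X : Type v} {Y : Type w}

theorem jj_bnd {a : I →₀ ℝ} (ha : ∀ i, 0 ≤ a i) {r : I → (X →₀ ℝ)} (hr : ∀ i x, 0 ≤ r i x)
    {K : X → (Y →₀ ℝ)} (hK : ∀ x y, 0 ≤ K x y) :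
    JJ a (fun i => bnd (r i) K) ≤ ∑ z ∈ (bnd a r).support, DD a r z * tot (K z) := by
  classical
  set R : X →₀ ℝ := bnd a r with hR
  set Z : Finset X := R.support with hZ
  set W : Finset Y := Z.biUnion (fun z => (K z).support) with hW
  have hU : bnd a (fun i => bnd (r i) K) = bnd R K := by
    rw [hR, bnd_bnd]
  have hf : ∀ i y, 0 ≤ bnd (r i) K y := fun i y => bnd_nonneg (hr i) hK y
  have hUy : ∀ y, bnd R K y = ∑ z ∈ Z, R z * K z y := fun y => bnd_apply R K y
  have hs : (bnd a (fun i => bnd (r i) K)).support ⊆ W := by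
    rw [hU]
    intro y hy
    rw [Finsupp.mem_support_iff, hUy y] at hy
    obtain ⟨z, hz, hne⟩ := Finset.exists_ne_zero_of_sum_ne_zero hy
    rw [hW, Finset.mem_biUnion]
    exact ⟨z, hz, Finsupp.mem_support_iff.2 (right_ne_zero_of_mul hne)⟩
  have hri : ∀ i ∈ a.support, ∀ z, z ∉ Z → r i z = 0 := by
    intro i hi z hz
    rw [hZ, Finsupp.notMem_support_iff, hR, bnd_apply, Finsupp.sum] at hz
    have h0 := (Finset.sum_eq_zero_iff_of_nonneg
      (fun j _ => mul_nonneg (ha j) (hr j z))).1 hz i hi
    exact (mul_eq_zero.1 h0).resolve_left (Finsupp.mem_support_iff.1 hi)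
  have hfy : ∀ i ∈ a.support, ∀ y, bnd (r i) K y = ∑ z ∈ Z, r i z * K z y := by
    intro i hi y
    rw [bnd_apply, Finsupp.sum]
    refine Finset.sum_subset ?_ ?_
    · intro z hz
      by_contra hc
      exact Finsupp.mem_support_iff.1 hz (hri i hi z hc)
    · intro z _ hz
      rw [Finsupp.notMem_support_iff.1 hz, zero_mul]
  have hK1 : ∀ z ∈ Z, tot (K z) = ∑ y ∈ W, K z y := by
    intro z hz
    rw [tot, Finsupp.sum]
    refine Finset.sum_subset ?_ ?_
    · intro y hy
      exact Finset.mem_biUnion.2 ⟨z, hz, hy⟩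
    · intro y _ hy
      exact Finsupp.notMem_support_iff.1 hy
  rw [jj_eq ha hf W hs]
  calc ∑ y ∈ W, DD a (fun i => bnd (r i) K) y
      ≤ ∑ y ∈ W, ∑ i ∈ a.support, a i * ∑ z ∈ Z, K z y * (r i z * Real.log (r i z / R z)) := by
        refine Finset.sum_le_sum fun y _ => ?_
        rw [DD, Finsupp.sum]
        refine Finset.sum_le_sum fun i hi => mul_le_mul_of_nonneg_left ?_ (ha i)
        rw [hU, hUy y, hfy i hi y]
        refine (log_sum Z (fun z => r i z * K z y) (fun z => R z * K z y)
          (fun z _ => mul_nonneg (hr i z) (hK z y))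
          (fun z _ => mul_nonneg (bnd_nonneg ha hr z) (hK z y)) ?_).trans (le_of_eq ?_)
        · intro z hz h0
          rcases mul_eq_zero.1 h0 with h0 | h0
          · exact absurd h0 (Finsupp.mem_support_iff.1 hz)
          · rw [h0, mul_zero]
        · refine Finset.sum_congr rfl fun z _ => ?_
          by_cases h0 : K z y = 0
          · rw [h0]
            ring
          · rw [mul_div_mul_right _ _ h0]
            ring
    _ = ∑ z ∈ Z, DD a r z * tot (K z) := by
        have h1 : ∀ z ∈ Z, DD a r z * tot (K z) = ∑ y ∈ W, ∑ i ∈ a.support,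
            a i * (K z y * (r i z * Real.log (r i z / R z))) := by
          intro z hz
          rw [hK1 z hz, DD, Finsupp.sum, Finset.mul_sum]
          refine Finset.sum_congr rfl fun y _ => ?_
          rw [Finset.sum_mul]
          refine Finset.sum_congr rfl fun i _ => ?_
          ring
        have h2 : ∑ z ∈ Z, DD a r z * tot (K z) = ∑ z ∈ Z, ∑ y ∈ W, ∑ i ∈ a.support,
            a i * (K z y * (r i z * Real.log (r i z / R z))) := Finset.sum_congr rfl h1
        rw [h2, Finset.sum_comm (s := Z)]
        refine Finset.sum_congr rfl fun y _ => ?_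
        rw [Finset.sum_comm (s := Z)]
        refine Finset.sum_congr rfl fun i _ => ?_
        rw [Finset.mul_sum]

end Pool.Agent.H34.LS
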