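import Pool.Agent.H34.LS.V4
import Pool.Agent.H34.LS.V5
import Pool.Agent.H34.LS.V10
import Pool.Agent.H34.LS.V12
import Pool.Agent.H34.LS.V15

/-!
V17: the main inequality. Write `w = 4 k`, `l = lam P hh w`, `q = qk P hh w n`, `q' = qk P hh w (n + t)`,
`rho g = tl g (pw P t)`, `rho = bnd P (fun g => rho g) = pw P (t + 1)`. Note `t + n = n + t`.

`U g = tl g (q' (s + hh g))`, `Q g = bnd (rho g) (fun z => tl z (q (s + hh z)))`,
`W g = bnd (rho g) (fun z => tl z (pw P n - q (s + hh z)))`.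

(1) `tl g (pw P (n + t)) = Q g + W g` (`pw_add`, `tl_bnd`, `tl_tl`, `bnd_tl`, `bnd_add`, `tl_add`), `W g ≥ 0`
(`qk_le_pw`).
(2) `U g ≤ Q g` pointwise: `qk_le_bnd` with `k := t` at `s + hh g`, apply `tl g` (`tl_apply`, or `tl_bnd`, `tl_tl`,
`hom`, `bnd_tl`). Put `E g = Q g - U g ≥ 0`.
(3) `AA (n + t) = JJ P (Q + W) ≤ JJ P Q + JJ P W ≤ JJ P U + JJ P E + JJ P W` (`jj_add` twice) and
`JJ P U = Jk P hh w (n + t) s`.
(4) `JJ P E ≤ L * tot (bnd P E)` (`jj_le`) and `tot (bnd P E) = tot (bnd P Q) - tot (bnd P U)`,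
`tot (bnd P Q) = tot (bnd rho (fun z => tl z (q (s + hh z)))) = rho.sum (fun z a => a * (l^n * psi (s + hh z)))
≤ l^n * (l^(t+1) * psi s + tail (t+1) (2 k))` (`bnd_bnd`, `tot_bnd`, `tot_tl`, `tot_qk`, `psi_mean`),
`tot (bnd P U) = P.sum (fun g a => a * (l^(n+t) * psi (s + hh g))) = l^(n+t) * ppsi s = l^(n+t+1) * psi s`
(`ppsi_eq`, `|s| + R ≤ 3 k ≤ w`). So `JJ P E ≤ L * l^n * tail (t+1) (2 k)` (`L ≥ 0` since `P g ≤ 1`
and the support of `P` is nonempty).
(5) `jj_bnd` with `r = rho`, `K z = tl z (pw P n - q (s + hh z))`, `tot (K z) = 1 - l^n * psi (s + hh z)`: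
`JJ P W ≤ sum_z DD z * (1 - l^n * psi (s + hh z))`, the sum over the support of `rho`; `DD z ≥ 0`
(`dd_nonneg`), `sum_z DD z = AA t` (`jj_eq`), `DD z ≤ L * rho z` (`dd_le`). For `|hh z| < k` one has
`|s + hh z| ≤ 3 k`, `psi ≥ 1/3` (`psi_ge'`). Hence
`sum_z DD z * psi (s + hh z) ≥ (1/3) * sum_{|hh z| < k} DD z ≥ (1/3) * (AA t - L * tail (t+1) k)`.
-/

namespace Pool.Agent.H34.LS

universe u

variable {G : Type u} [Group G] {P : G →₀ ℝ} {hh : G → ℤ} {R : ℕ}

/-- increment of the entropy of the free walk (see `jj_pw`). -/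
noncomputable def AA (P : G →₀ ℝ) (j : ℕ) : ℝ := JJ P (fun g => tl g (pw P j))

theorem main_ineq (h : Walk P hh R) {L : ℝ} (hL : ∀ g, P g ≠ 0 → - Real.log (P g) ≤ L) {k : ℕ}
    (hk : 1 ≤ k) (hR : R ≤ k) {s : ℤ} (hs : |s| ≤ 2 * (k : ℤ)) (n t : ℕ) :
    AA P (n + t) ≤ AA P t - lam P hh (4 * k) ^ n / 3 * (AA P t - L * tail P hh (t + 1) k) +
      Jk P hh (4 * k) (n + t) s + L * lam P hh (4 * k) ^ n * tail P hh (t + 1) (2 * k) := by
  have hw : 1 ≤ 4 * k := by omega
  have hR2 : 2 * R ≤ 4 * k := by omega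
  set l := lam P hh (4 * k) with hl
  have hl2 : 1 / 2 ≤ l := lam_ge h hw hR2
  have hl0 : 0 < l := by linarith
  -- `L` is nonnegative
  have hL0 : 0 ≤ L := by
    have hne : P.support.Nonempty := by
      rw [Finset.nonempty_iff_ne_empty]
      intro he
      have h1 := h.total
      rw [tot, Finsupp.sum, he, Finset.sum_empty] at h1
      exact zero_ne_one h1
    obtain ⟨g, hg⟩ := hne
    have h1 : P g ≤ 1 := by
      have h2 := h.total
      rw [tot, Finsupp.sum] at h2
      rw [← h2]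
      exact Finset.single_le_sum (f := fun g => P g) (fun i _ => h.nonneg i) hg
    have h3 := hL g (Finsupp.mem_support_iff.1 hg)
    have h4 := Real.log_nonpos (h.nonneg g) h1
    linarith
  set rho : G → (G →₀ ℝ) := fun g => tl g (pw P t) with hrho
  set K : G → (G →₀ ℝ) := fun z => tl z (qk P hh (4 * k) n (s + hh z)) with hK
  set K' : G → (G →₀ ℝ) := fun z => tl z (pw P n - qk P hh (4 * k) n (s + hh z)) with hK'
  set Q : G → (G →₀ ℝ) := fun g => bnd (rho g) K with hQ
  set W : G → (G →₀ ℝ) := fun g => bnd (rho g) K' with hW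
  set U : G → (G →₀ ℝ) := fun g => tl g (qk P hh (4 * k) (n + t) (s + hh g)) with hU
  set F : G → (G →₀ ℝ) := fun g => Q g - U g with hF
  have hpw : bnd P rho = pw P (t + 1) := rfl
  have hrho0 : ∀ g x, 0 ≤ rho g x := fun g x => tl_nonneg g (pw_nonneg h.nonneg t) x
  have hK0 : ∀ z x, 0 ≤ K z x := fun z x => tl_nonneg z (qk_nonneg h hw hR2 n _) x
  have hK'0 : ∀ z x, 0 ≤ K' z x := fun z x => tl_nonneg z (fun y => by
    rw [Finsupp.coe_sub, Pi.sub_apply, sub_nonneg]
    exact qk_le_pw h hw hR2 n _ y) x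
  have hU0 : ∀ g x, 0 ≤ U g x := fun g x => tl_nonneg g (qk_nonneg h hw hR2 _ _) x
  have hQ0 : ∀ g x, 0 ≤ Q g x := fun g x => bnd_nonneg (hrho0 g) hK0 x
  have hW0 : ∀ g x, 0 ≤ W g x := fun g x => bnd_nonneg (hrho0 g) hK'0 x
  -- (1)
  have hKK : ∀ z, K z + K' z = tl z (pw P n) := by
    intro z
    simp only [hK, hK']
    rw [← tl_add, add_sub_cancel]
  have h1 : ∀ g, tl g (pw P (n + t)) = Q g + W g := by
    intro g
    simp only [hQ, hW]
    rw [← bnd_add]
    have e1 : (fun z => K z + K' z) = fun z => tl z (pw P n) := funext hKK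
    rw [e1, add_comm n t, pw_add, tl_bnd]
    simp only [hrho]
    rw [bnd_tl]
    congr 1
    funext z
    rw [tl_tl]
  -- (2)
  have h2 : ∀ g x, U g x ≤ Q g x := by
    intro g x
    have e1 := qk_le_bnd h hw hR2 t n (s + hh g) (g⁻¹ * x)
    rw [← tl_apply g, ← tl_apply g, tl_bnd] at e1
    simp only [hU, hQ, hrho]
    rw [bnd_tl, add_comm n t]
    refine e1.trans (le_of_eq ?_)
    congr 2
    funext z
    simp only [hK]
    rw [tl_tl, h.hom, add_assoc]
  have hF0 : ∀ g x, 0 ≤ F g x := by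
    intro g x
    simp only [hF]
    rw [Finsupp.coe_sub, Pi.sub_apply, sub_nonneg]
    exact h2 g x
  have hUF : ∀ g, U g + F g = Q g := fun g => add_sub_cancel _ _
  -- (3)
  have h3 : AA P (n + t) ≤ JJ P U + JJ P F + JJ P W := by
    have e1 : AA P (n + t) = JJ P (fun g => Q g + W g) := by
      unfold AA
      congr 1
      funext g
      exact h1 g
    have e2 : JJ P Q = JJ P (fun g => U g + F g) := by
      congr 1
      funext g
      exact (hUF g).symm
    rw [e1]
    have e3 := jj_add h.nonneg hQ0 hW0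
    have e4 := jj_add h.nonneg hU0 hF0
    rw [← e2] at e4
    linarith
  -- (4)
  have h4 : JJ P F ≤ L * l ^ n * tail P hh (t + 1) (2 * k) := by
    have e1 := jj_le h.nonneg hL hF0
    have e2 : tot (bnd P Q) = tot (bnd P U) + tot (bnd P F) := by
      rw [← tot_add, ← bnd_add]
      congr 2
      funext g
      exact (hUF g).symm
    have e3 : tot (bnd P Q) ≤ l ^ n * (l ^ (t + 1) * psi (4 * k) s + tail P hh (t + 1) (2 * k)) := by
      have e4 : bnd P Q = bnd (pw P (t + 1)) K := by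
        rw [← hpw, bnd_bnd]
      rw [e4, tot_bnd]
      have e5 : (pw P (t + 1)).sum (fun z a => a * tot (K z)) =
          l ^ n * (pw P (t + 1)).sum (fun z a => a * psi (4 * k) (s + hh z)) := by
        rw [Finsupp.sum, Finsupp.sum, Finset.mul_sum]
        refine Finset.sum_congr rfl fun z _ => ?_
        simp only [hK]
        rw [tot_tl, tot_qk h hw hR2, ← hl]
        ring
      rw [e5]
      exact mul_le_mul_of_nonneg_left (psi_mean h hk hs (t + 1)) (by positivity)
    have e6 : tot (bnd P U) = l ^ (n + t + 1) * psi (4 * k) s := by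
      rw [tot_bnd]
      have e7 : P.sum (fun g a => a * tot (U g)) = l ^ (n + t) * ppsi P hh (4 * k) s := by
        rw [ppsi, Finsupp.sum, Finsupp.sum, Finset.mul_sum]
        refine Finset.sum_congr rfl fun z _ => ?_
        simp only [hU]
        rw [tot_tl, tot_qk h hw hR2, ← hl]
        ring
      rw [e7, ppsi_eq h hw (by omega), ← hl]
      ring
    have e8 : tot (bnd P F) ≤ l ^ n * tail P hh (t + 1) (2 * k) := by
      have e9 : l ^ (n + t + 1) * psi (4 * k) s = l ^ n * (l ^ (t + 1) * psi (4 * k) s) := by ring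
      rw [e6, e9] at e2
      linarith [mul_add (l ^ n) (l ^ (t + 1) * psi (4 * k) s) (tail P hh (t + 1) (2 * k))]
    calc JJ P F ≤ L * tot (bnd P F) := e1
      _ ≤ L * (l ^ n * tail P hh (t + 1) (2 * k)) := mul_le_mul_of_nonneg_left e8 hL0
      _ = _ := by ring
  -- (5)
  have h5 : JJ P W ≤ AA P t - l ^ n / 3 * (AA P t - L * tail P hh (t + 1) k) := by
    have e1 := jj_bnd h.nonneg hrho0 hK'0
    have eA : AA P t = ∑ z ∈ (bnd P rho).support, DD P rho z :=
      jj_eq h.nonneg hrho0 _ subset_rfl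
    have e2 : ∀ z, tot (K' z) = 1 - l ^ n * psi (4 * k) (s + hh z) := by
      intro z
      have e3 : tot (K z) + tot (K' z) = 1 := by
        rw [← tot_add, hKK, tot_tl, tot_pw h.total]
      have e4 : tot (K z) = l ^ n * psi (4 * k) (s + hh z) := by
        simp only [hK]
        rw [tot_tl, tot_qk h hw hR2, ← hl]
      linarith
    have e5 : ∑ z ∈ (bnd P rho).support, DD P rho z * tot (K' z) =
        AA P t - l ^ n * ∑ z ∈ (bnd P rho).support, DD P rho z * psi (4 * k) (s + hh z) := by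
      rw [eA, Finset.mul_sum, ← Finset.sum_sub_distrib]
      refine Finset.sum_congr rfl fun z _ => ?_
      rw [e2]
      ring
    have e6 : 1 / 3 * (AA P t - L * tail P hh (t + 1) k) ≤
        ∑ z ∈ (bnd P rho).support, DD P rho z * psi (4 * k) (s + hh z) := by
      have e7 : tail P hh (t + 1) k = ∑ z ∈ (bnd P rho).support,
          if (k : ℤ) ≤ |hh z| then bnd P rho z else 0 := by
        rw [hpw, tail, Finsupp.sum]
      rw [eA, e7, Finset.mul_sum, ← Finset.sum_sub_distrib, Finset.mul_sum]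
      refine Finset.sum_le_sum fun z _ => ?_
      have d0 := dd_nonneg h.nonneg h.total hrho0 z
      have d1 := dd_le h.nonneg hL hrho0 z
      have d2 := psi_nonneg (4 * k) (s + hh z)
      have d3 := mul_nonneg d0 d2
      split_ifs with hz
      · linarith
      · have hz' : |s + hh z| ≤ 3 * (k : ℤ) := by
          rw [not_le] at hz
          calc |s + hh z| ≤ |s| + |hh z| := abs_add_le _ _
            _ ≤ 3 * (k : ℤ) := by omega
        have d4 := mul_le_mul_of_nonneg_left (psi_ge' hz' hk) d0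
        linarith
    have e8 : l ^ n * (1 / 3 * (AA P t - L * tail P hh (t + 1) k)) ≤
        l ^ n * ∑ z ∈ (bnd P rho).support, DD P rho z * psi (4 * k) (s + hh z) :=
      mul_le_mul_of_nonneg_left e6 (by positivity)
    rw [e5] at e1
    calc JJ P W ≤ _ := e1
      _ ≤ AA P t - l ^ n * (1 / 3 * (AA P t - L * tail P hh (t + 1) k)) := by linarith
      _ = _ := by ring
  have h6 : Jk P hh (4 * k) (n + t) s = JJ P U := rfl
  rw [h6]
  linarith

end Pool.Agent.H34.LS
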