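import Pool.Agent.H34.LS.V16
import Pool.Agent.H34.LS.V17

/-!
V18: the drop of the entropy increments, with constants. Let `L ≥ 1` (replace `L` by `max L 1`), `R ≥ 1`
may be replaced by `max R 1` in the estimates. `D = log N ≥ 0`, `l = lam P hh (4 k)`,
`- log l ≤ 3 R^2 / (4 k)^2 ≤ R^2 / k^2` (`log_lam_le`), `0 < l ≤ 1`.

Given `t` with `t ≤ c k^2` put `T = ⌈144 (D + 1) / e⌉ + 2 (t + 1)` (natural ceiling) and take the good pair
`m, s` of `good_pair`; `m + 1 ≥ T / 2 ≥ t + 1`, so `m = n + t`. With `l^(m+1) = l^n * l^(t+1) ≤ l^n`: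
`Jk m s ≤ l^n * (12 (D + 1) / T + 12 * (- log l)) ≤ l^n * (e / 12 + 12 R^2 / k^2)`. By `tail_le`
(`k` and `2 k`): `tail (t+1) k, tail (t+1) (2k) ≤ (t+1) R^2 / k^2`. So `main_ineq` gives
`AA m ≤ AA t - l^n * (e / 3 - (4/3) L (t+1) R^2 / k^2 - e / 12 - 12 R^2 / k^2)` (as `AA t ≥ e`), and the bracket
is `≥ e / 12` if `(4/3) L (t+1) R^2 / k^2 ≤ e / 12` and `12 R^2 / k^2 ≤ e / 12` (`c` small, `k ≥ k0`
large; `t + 1 ≤ c k^2 + 1 ≤ 2 c k^2`). Finally `n ≤ T`, `l^n ≥ l^T ≥ exp (- T R^2 / k^2)` and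
`T R^2 / k^2 ≤ (144 (D + 1) / e + 1 + 2 (t + 1)) R^2 / k^2 ≤ C' D / k^2 + C''` with constants
(`t + 1 ≤ 2 c k^2`, `k ≥ 1`), and `AA M ≤ AA m` for `M ≥ T ≥ m` by antitonicity; `T ≤ C (D + k^2)`
for a suitable `C`.
-/

namespace Pool.Agent.H34.LS

universe u

variable {G : Type u} [Group G] {P : G →₀ ℝ} {hh : G → ℤ} {R : ℕ}

theorem drop (h : Walk P hh R) {L : ℝ} (hL : ∀ g, P g ≠ 0 → - Real.log (P g) ≤ L) {e : ℝ}
    (he : 0 < e) (hA : ∀ j, e ≤ AA P j) (hanti : Antitone (AA P)) :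
    ∃ c C c' : ℝ, 0 < c ∧ 0 < C ∧ 0 < c' ∧ ∃ k0 : ℕ, 1 ≤ k0 ∧ ∀ k N : ℕ, k0 ≤ k →
      (∀ m s, (qk P hh (4 * k) m s).support.card ≤ N) → ∀ t M : ℕ, (t : ℝ) ≤ c * (k : ℝ) ^ 2 →
      C * (Real.log N + (k : ℝ) ^ 2) ≤ M →
      AA P M ≤ AA P t - c' * Real.exp (-(C * (Real.log N / (k : ℝ) ^ 2))) := by
  set L1 : ℝ := max L 1 with hL1
  have hL1' : 1 ≤ L1 := le_max_right _ _
  have hLL : ∀ g, P g ≠ 0 → - Real.log (P g) ≤ L1 := fun g hg => (hL g hg).trans (le_max_left _ _)
  set r : ℝ := (R : ℝ) ^ 2 + 1 with hr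
  have hr1 : 1 ≤ r := by
    rw [hr]
    have := sq_nonneg (R : ℝ)
    linarith
  have hRr : (R : ℝ) ^ 2 ≤ r := by
    rw [hr]
    linarith
  set c : ℝ := e / (32 * L1 * r) with hc
  have hc0 : 0 < c := by positivity
  have hcr : 32 * L1 * r * c = e := by
    rw [hc]
    field_simp
  set C2 : ℝ := 144 * r / e + 3 * r + 2 * c * r with hC2
  have hC20 : 0 < C2 := by positivity
  set C : ℝ := 144 * r / e + 144 / e + 3 + 2 * c with hC
  have hC0 : 0 < C := by positivity
  refine ⟨c, C, e / 12 * Real.exp (-C2), hc0, hC0, by positivity,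
    R + ⌈144 * L1 * r / e⌉₊ + 1, by omega, ?_⟩
  intro k N hk hN t M ht hM
  have hk1 : 1 ≤ k := by omega
  have hRk : R ≤ k := by omega
  have hkr : (1 : ℝ) ≤ k := by exact_mod_cast hk1
  have hkbig : 144 * L1 * r / e ≤ (k : ℝ) := by
    refine (Nat.le_ceil _).trans ?_
    have : ⌈144 * L1 * r / e⌉₊ ≤ k := by omega
    exact_mod_cast this
  set K : ℝ := (k : ℝ) ^ 2 with hK
  have hkK : (k : ℝ) ≤ K := by
    rw [hK, pow_two]
    nlinarith
  have hK1 : 1 ≤ K := hkr.trans hkK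
  have hK0 : 0 < K := by linarith
  have hKbig : 144 * L1 * r ≤ e * K := by
    have h1 := hkbig.trans hkK
    rw [div_le_iff₀ he] at h1
    linarith
  -- the eigenvalue
  set l : ℝ := lam P hh (4 * k) with hl
  have hl1 : l ≤ 1 := lam_le_one h _
  have hl2 : 1 / 2 ≤ l := lam_ge h (by omega) (by omega)
  have hl0 : 0 < l := by linarith
  have hlog0 : 0 ≤ - Real.log l := by
    have := Real.log_nonpos hl0.le hl1
    linarith
  have hlog : - Real.log l ≤ r / K := by
    refine (log_lam_le h (w := 4 * k) (by omega) (by omega)).trans ?_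
    push_cast
    rw [mul_pow, ← hK, div_le_div_iff₀ (by positivity) hK0]
    nlinarith [mul_le_mul_of_nonneg_right hRr hK0.le, mul_nonneg (sq_nonneg (R : ℝ)) hK0.le]
  set D : ℝ := Real.log N with hD
  have hD0 : 0 ≤ D := Real.log_natCast_nonneg N
  -- the time
  set T : ℕ := ⌈144 * (D + 1) / e⌉₊ + 2 * (t + 1) with hT
  have hT1 : 1 ≤ T := by omega
  have hTr : 144 * (D + 1) / e ≤ (T : ℝ) := by
    refine (Nat.le_ceil _).trans ?_
    have : ⌈144 * (D + 1) / e⌉₊ ≤ T := by omega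
    exact_mod_cast this
  have hT0 : (0 : ℝ) < T := by exact_mod_cast hT1
  have hTle : (T : ℝ) ≤ 144 * (D + 1) / e + 1 + 2 * (c * K + 1) := by
    have h1 : (⌈144 * (D + 1) / e⌉₊ : ℝ) < 144 * (D + 1) / e + 1 :=
      Nat.ceil_lt_add_one (by positivity)
    rw [hT]
    push_cast
    linarith
  obtain ⟨m, s, hm1, hm2, hs, hJ⟩ := good_pair h hk1 hRk hN hT1
  rw [← hl, ← hD] at hJ
  obtain ⟨n, hn⟩ : ∃ n, m = n + t := ⟨m - t, by omega⟩
  subst hn
  have hmain := main_ineq h hLL hk1 hRk hs n t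
  rw [← hl] at hmain
  have hln0 : 0 < l ^ n := pow_pos hl0 n
  -- tails
  have ht0 : (0 : ℝ) ≤ (t : ℝ) + 1 := by positivity
  set X : ℝ := ((t : ℝ) + 1) * r / K with hX
  have hX0 : 0 ≤ X := by positivity
  have hXle : X ≤ ((c * K + 1) * r) / K := by
    rw [hX]
    gcongr
  have hXe : 4 / 3 * L1 * X ≤ e / 12 := by
    have h1 : 4 / 3 * L1 * X ≤ 4 / 3 * L1 * (((c * K + 1) * r) / K) :=
      mul_le_mul_of_nonneg_left hXle (by positivity)
    refine h1.trans ?_
    rw [mul_div_assoc', div_le_iff₀ hK0]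
    nlinarith
  have htail1 : tail P hh (t + 1) k ≤ X := by
    refine (tail_le h (t + 1) hk1).trans ?_
    rw [hX, ← hK]
    push_cast
    gcongr
  have htail2 : tail P hh (t + 1) (2 * k) ≤ X := by
    refine (tail_le h (t + 1) (k := 2 * k) (by omega)).trans ?_
    rw [hX]
    push_cast
    rw [mul_pow, ← hK, div_le_div_iff₀ (by positivity) hK0]
    have h1 : ((t : ℝ) + 1) * (R : ℝ) ^ 2 ≤ ((t : ℝ) + 1) * r := mul_le_mul_of_nonneg_left hRr ht0
    nlinarith [mul_le_mul_of_nonneg_right h1 hK0.le,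
      mul_nonneg (mul_nonneg ht0 (sq_nonneg (R : ℝ))) hK0.le]
  -- the increment of the killed walk
  have hJ2 : Jk P hh (4 * k) (n + t) s ≤ l ^ n * (e / 12 + 12 * (r / K)) := by
    have h1 : 12 * (D + T * (- Real.log l) + 1) / T = 12 * (D + 1) / T + 12 * (- Real.log l) := by
      field_simp
      ring
    have h2 : 12 * (D + 1) / T ≤ e / 12 := by
      rw [div_le_iff₀ hT0]
      rw [div_le_iff₀ he] at hTr
      linarith
    have h3 : 0 ≤ 12 * (D + 1) / T + 12 * (- Real.log l) := by positivity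
    have h4 : l ^ (n + t + 1) ≤ l ^ n := by
      rw [add_assoc, pow_add]
      exact mul_le_of_le_one_right hln0.le (pow_le_one₀ hl0.le hl1)
    rw [h1] at hJ
    calc Jk P hh (4 * k) (n + t) s
        ≤ l ^ (n + t + 1) * (12 * (D + 1) / T + 12 * (- Real.log l)) := hJ
      _ ≤ l ^ n * (12 * (D + 1) / T + 12 * (- Real.log l)) := mul_le_mul_of_nonneg_right h4 h3
      _ ≤ l ^ n * (e / 12 + 12 * (r / K)) :=
          mul_le_mul_of_nonneg_left (by linarith) hln0.le
  have hrK : 12 * (r / K) ≤ e / 12 := by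
    rw [mul_div_assoc', div_le_iff₀ hK0]
    nlinarith
  have hAt := hA t
  -- the drop at time m
  have hdrop : AA P (n + t) ≤ AA P t - l ^ n * (e / 12) := by
    have h1 : L1 * tail P hh (t + 1) k ≤ L1 * X := mul_le_mul_of_nonneg_left htail1 (by linarith)
    have h2 : L1 * l ^ n * tail P hh (t + 1) (2 * k) ≤ L1 * l ^ n * X :=
      mul_le_mul_of_nonneg_left htail2 (by positivity)
    have h3 : l ^ n / 3 * (e - L1 * X) ≤ l ^ n / 3 * (AA P t - L1 * tail P hh (t + 1) k) :=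
      mul_le_mul_of_nonneg_left (by linarith) (by positivity)
    have h4 : 0 ≤ l ^ n * (e / 12 - 4 / 3 * L1 * X) := mul_nonneg hln0.le (by linarith)
    have h5 : 0 ≤ l ^ n * (e / 12 - 12 * (r / K)) := mul_nonneg hln0.le (by linarith)
    nlinarith
  -- lower bound of the power of the eigenvalue
  have hpow : Real.exp (-(C2 + 144 * r / e * (D / K))) ≤ l ^ n := by
    have h1 : l ^ T ≤ l ^ n := pow_le_pow_of_le_one hl0.le hl1 (by omega)
    have h2 : l ^ T = Real.exp (T * Real.log l) := by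
      rw [Real.exp_nat_mul, Real.exp_log hl0]
    refine le_trans ?_ h1
    rw [h2]
    refine Real.exp_le_exp.2 ?_
    have h3 : (T : ℝ) * (- Real.log l) ≤ (T : ℝ) * (r / K) := mul_le_mul_of_nonneg_left hlog hT0.le
    have h4 : (T : ℝ) * (r / K) ≤ (144 * (D + 1) / e + 1 + 2 * (c * K + 1)) * (r / K) :=
      mul_le_mul_of_nonneg_right hTle (by positivity)
    have h5 : (144 * (D + 1) / e + 1 + 2 * (c * K + 1)) * (r / K) =
        144 * r / e * (D / K) + (144 * r / e + 3 * r) / K + 2 * c * r := by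
      field_simp
      ring
    have h6 : (144 * r / e + 3 * r) / K ≤ 144 * r / e + 3 * r :=
      div_le_self (by positivity) hK1
    rw [hC2]
    linarith
  -- the final time
  have hTM : T ≤ M := by
    have h1 : (T : ℝ) ≤ M := by
      refine hTle.trans (le_trans ?_ hM)
      have h2 : 144 * (D + 1) / e = 144 / e * D + 144 / e := by
        field_simp
      have h3 : (144 / e + 3) * 1 ≤ (144 / e + 3) * K :=
        mul_le_mul_of_nonneg_left hK1 (by positivity)
      have h4 : 0 ≤ (144 * r / e + 3 + 2 * c) * D := by positivity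
      have h5 : 0 ≤ (144 * r / e) * K := by positivity
      rw [h2, hC]
      nlinarith
    exact_mod_cast h1
  have hAM : AA P M ≤ AA P (n + t) := hanti (by omega)
  have hfin : e / 12 * Real.exp (-C2) * Real.exp (-(C * (D / K))) ≤ l ^ n * (e / 12) := by
    have h1 : Real.exp (-C2) * Real.exp (-(C * (D / K))) ≤
        Real.exp (-(C2 + 144 * r / e * (D / K))) := by
      rw [← Real.exp_add]
      refine Real.exp_le_exp.2 ?_
      have h2 : 144 * r / e * (D / K) ≤ C * (D / K) := by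
        refine mul_le_mul_of_nonneg_right ?_ (by positivity)
        rw [hC]
        have : 0 < 144 / e := by positivity
        linarith
      linarith
    have h2 := mul_le_mul_of_nonneg_left (h1.trans hpow) (show 0 ≤ e / 12 by positivity)
    linarith
  linarith

end Pool.Agent.H34.LS
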