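import Pool.Agent.H34.LS.E7
import Pool.Agent.H34.LS.E14
import Pool.Agent.H34.LS.V13
import Pool.Agent.H34.LS.V18
import Pool.Agent.H34.LS.V19

/-!
V20: the window growth criterion.
-/

namespace Pool.Agent.H34.LS

universe u

variable {G : Type u} [Group G]

theorem window_criterion (f : G →* Multiplicative ℤ) (S : Set G)
    (hS : Subgroup.closure S = ⊤) (hfin : ∀ w, (window f S w).Finite)
    (hdiv : ∀ c : ℝ, 0 < c → ¬ Summable
      (fun j : ℕ => Real.exp (-(c * (Real.log ((window f S (2 ^ j)).ncard : ℝ) / 4 ^ j)))))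
    {mu : G → ℝ} (h : IsFSProb mu) (hg : Generating mu) (hs : Symm mu) : TrivialBoundary mu := by
  rw [triv_iff h]
  set p := toPA mu h.finite with hp
  have hpa : PA p := toPA_pa h
  by_contra hcon
  have hex : ∃ e : ℝ, 0 < e ∧ ∀ n : ℕ, e ≤ ent (p ^ (n + 1)) - ent (p ^ n) := by
    by_contra hne
    push Not at hne
    exact hcon (liou_of_small hpa (toPA_gen h hg) hne)
  obtain ⟨e, he, hent⟩ := hex
  set P : G →₀ ℝ := p.coeff with hP
  set hh : G → ℤ := fun g => Multiplicative.toAdd (f g) with hhd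
  have hAA : ∀ j, AA P j = ent (p ^ (j + 1)) - ent (p ^ j) := by
    intro j
    unfold AA
    rw [jj_pw (show tot P = 1 from hpa.2), ← pw_coeff, ← pw_coeff]
    rfl
  have hA : ∀ j, e ≤ AA P j := fun j => by rw [hAA]; exact hent j
  have hanti : Antitone (AA P) := by
    refine antitone_nat_of_succ_le fun j => ?_
    rw [hAA, hAA]
    exact ent_mono hpa j
  -- the bound of the heights
  obtain ⟨R, hR⟩ : ∃ R : ℕ, ∀ g, P g ≠ 0 → |hh g| ≤ (R : ℤ) := by
    refine ⟨P.support.sup (fun g => (hh g).natAbs), fun g hg0 => ?_⟩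
    have h1 : (hh g).natAbs ≤ P.support.sup (fun g => (hh g).natAbs) :=
      Finset.le_sup (f := fun g => (hh g).natAbs) (Finsupp.mem_support_iff.2 hg0)
    have h2 : |hh g| = ((hh g).natAbs : ℤ) := Int.abs_eq_natAbs (hh g)
    rw [h2]
    exact_mod_cast h1
  have hW : Walk P hh R := by
    refine ⟨hpa.1, hpa.2, fun g => hs g, fun x y => ?_, hR⟩
    rw [hhd]
    simp only [map_mul, toAdd_mul]
  obtain ⟨L, hL⟩ : ∃ L : ℝ, ∀ g, P g ≠ 0 → - Real.log (P g) ≤ L := by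
    refine ⟨∑ g ∈ P.support, |Real.log (P g)|, fun g hg0 => ?_⟩
    refine (neg_le_abs _).trans ?_
    exact Finset.single_le_sum (f := fun g => |Real.log (P g)|) (fun _ _ => abs_nonneg _)
      (Finsupp.mem_support_iff.2 hg0)
  obtain ⟨c, C, c', hc, hC, hc', k0, hk0, hdrop⟩ := drop hW hL he hA hanti
  obtain ⟨B, hB⟩ := qk_support f hS P
  -- dyadic scales
  set K : ℕ → ℝ := fun j => Real.log ((window f S (2 ^ j)).ncard : ℝ) / 4 ^ j with hK
  have hK0 : ∀ j, 0 ≤ K j := fun j =>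
    div_nonneg (Real.log_natCast_nonneg _) (by positivity)
  obtain ⟨j1, hj1⟩ : ∃ j1 : ℕ, B ≤ 2 ^ j1 ∧ k0 ≤ 2 ^ j1 := by
    refine ⟨B + k0, ?_, ?_⟩
    · exact (Nat.le_add_right B k0).trans (Nat.lt_two_pow_self).le
    · exact (Nat.le_add_left k0 B).trans (Nat.lt_two_pow_self).le
  refine hdiv (256 * C + 1) (by positivity) ?_
  refine telescoping (c := c / 256) (C := 256 * C) hanti (fun j => he.le.trans (hA j))
    (by positivity) (by positivity) hc' hK0 (j1 + 4) ?_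
  intro j hj t M ht hM
  obtain ⟨i, rfl⟩ : ∃ i, j = i + 4 := ⟨j - 4, by omega⟩
  have hi : j1 ≤ i := by omega
  have hpow : (2 : ℕ) ^ j1 ≤ 2 ^ i := Nat.pow_le_pow_right (by norm_num) hi
  have h4 : (4 : ℝ) ^ (i + 4) = 256 * ((2 ^ i : ℕ) : ℝ) ^ 2 := by
    have : (4 : ℝ) ^ i = (2 ^ i) ^ 2 := by
      rw [← pow_mul, mul_comm i 2, pow_mul]
      norm_num
    push_cast
    rw [pow_add, this]
    ring
  have hcard : ∀ m s, (qk P hh (4 * 2 ^ i) m s).support.card ≤ (window f S (2 ^ (i + 4))).ncard := by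
    intro m s
    rw [← Set.ncard_coe_finset]
    refine Set.ncard_le_ncard (fun x hx => ?_) (hfin _)
    have hx1 := hB (4 * 2 ^ i) m s x (Finsupp.mem_support_iff.1 (Finset.mem_coe.1 hx))
    refine window_mono f S ?_ hx1
    have : (2 : ℕ) ^ (i + 4) = 16 * 2 ^ i := by ring
    rw [this]
    omega
  have hlog : Real.log ((window f S (2 ^ (i + 4))).ncard : ℝ) = 4 ^ (i + 4) * K (i + 4) := by
    rw [hK]
    field_simp
  have hd := hdrop (2 ^ i) (window f S (2 ^ (i + 4))).ncard (hj1.2.trans hpow) hcard t M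
    (by
      calc (t : ℝ) ≤ c / 256 * 4 ^ (i + 4) := ht
        _ = c * ((2 ^ i : ℕ) : ℝ) ^ 2 := by rw [h4]; ring)
    (by
      have hM' : 256 * C * (4 ^ (i + 4) * (K (i + 4) + 1)) ≤ M := hM
      refine le_trans ?_ hM'
      rw [hlog, h4]
      have h1 : (0 : ℝ) ≤ ((2 ^ i : ℕ) : ℝ) ^ 2 := by positivity
      have h2 := hK0 (i + 4)
      have h3 : 0 ≤ C * (((2 ^ i : ℕ) : ℝ) ^ 2 * K (i + 4)) := by positivity
      have h5 : 0 ≤ C * ((2 ^ i : ℕ) : ℝ) ^ 2 := by positivity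
      have h6 : 256 * C * (256 * ((2 ^ i : ℕ) : ℝ) ^ 2 * (K (i + 4) + 1)) -
          C * (256 * ((2 ^ i : ℕ) : ℝ) ^ 2 * K (i + 4) + ((2 ^ i : ℕ) : ℝ) ^ 2) =
          65280 * (C * (((2 ^ i : ℕ) : ℝ) ^ 2 * K (i + 4))) +
            65535 * (C * ((2 ^ i : ℕ) : ℝ) ^ 2) := by ring
      linarith)
  refine hd.trans (le_of_eq ?_)
  congr 3
  rw [hlog, h4]
  have h1 : ((2 ^ i : ℕ) : ℝ) ^ 2 ≠ 0 := by positivity
  field_simp

end Pool.Agent.H34.LS
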