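import Pool.Agent.H34.LS.A1
import Pool.Agent.H34.LS.V20
import Pool.Agent.H34.LS.LL1
import Pool.Agent.H34.LS.LL2
import Pool.Agent.H34.LS.LL3
import Pool.Agent.H34.LS.LL4
import Pool.Agent.H34.LS.LL6

/-!
LL5: a lacunary hyperbolic group all of whose symmetric finitely supported generating measures
have trivial Poisson boundary, while some finitely supported generating measure with
inverse-closed support has non-trivial Poisson boundary.
-/

namespace Pool.Agent.H34.LS

open LL

theorem push_symm {G G' : Type} [Group G] [Group G'] (theta : G →* G') {mu : G → ℝ}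
    (hs : Symm mu) : Symm (push theta mu) := by
  intro y
  unfold push
  rw [finsum_mem_eq_of_bijOn (fun g => g⁻¹) (t := theta ⁻¹' {y}) (g := mu)]
  · refine ⟨fun g hg => ?_, fun a _ b _ hab => inv_injective hab, fun g hg => ⟨g⁻¹, ?_, inv_inv g⟩⟩
    · rw [Set.mem_preimage, Set.mem_singleton_iff] at hg ⊢
      rw [map_inv, hg, inv_inv]
    · rw [Set.mem_preimage, Set.mem_singleton_iff] at hg ⊢
      rw [map_inv, hg]
  · intro g _
    exact (hs g).symm

theorem asym_instability :
    ∃ (G : Type) (_ : Group G), Group.FG G ∧ LocFinByZ G ∧ LacunaryHyperbolic G ∧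
      (∃ mu : G → ℝ, IsFSProb mu ∧ Generating mu ∧ Symm mu) ∧
      (∀ mu : G → ℝ, IsFSProb mu → Generating mu → Symm mu → TrivialBoundary mu) ∧
      ∃ mu : G → ℝ, IsFSProb mu ∧ Generating mu ∧ ¬ TrivialBoundary mu := by
  obtain ⟨G, iG, theta, hfg, hloc, hlac, hsurj, hiff, hlift⟩ := lifting ll_fg ll_locFinByZ
  refine ⟨G, iG, hfg, hloc, hlac, ?_, ?_, ?_⟩
  · exact exists_symm hfg
  · intro mu h hg hs
    rw [hiff mu h hg]
    exact window_criterion hpos {ga, gt} gen_closure ll_window_finite ll_diverge
      (push_fs theta h) (push_gen theta hsurj h hg) (push_symm theta hs)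
  · have hgen : Generating biased := by
      unfold Generating
      rw [biased_support]
      exact gen_submonoid
    obtain ⟨mu, h, hg, hp⟩ := lift_measure_inv hfg theta hsurj biased_fs hgen (by
      intro x hx
      have h1 : x ∈ Function.support biased := hx
      change x⁻¹ ∈ Function.support biased
      rw [biased_support] at h1 ⊢
      rcases h1 with rfl | rfl | h1
      · rw [ga_inv]
        exact Or.inl rfl
      · exact Or.inr (Or.inr rfl)
      · rw [Set.mem_singleton_iff.1 h1, inv_inv]
        exact Or.inr (Or.inl rfl))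
    refine ⟨mu, h, hg, ?_⟩
    rw [hiff mu h hg, hp]
    exact biased_nontrivial

end Pool.Agent.H34.LS
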