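import Pool.Agent.H34.LS.H2

/-!
H3: HNN extensions of finite groups are residually finite. Fix a transversal pair `d` and `g ≠ 1`.
Let `X` be the finite set of normal words with list length at most `n`. The group `B` acts freely
on `X` (it changes only the head). Let `D` be the set of `w` in `X` with
`(t • w).toList.length ≤ n`, `f w = t • w` there (anything elsewhere); `f` is equivariant because
`t * of a = of (phi a) * t`. By `extend_perm` there is a permutation `T` of `X` extending `f` with
`T (a • x) = phi a • T x`, so `HNNExtension.lift` gives a homomorphism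
`rho : HNNExtension → Equiv.Perm X` with `rho (of b)` = action of `b`, `rho t = T`. For `n` large
(`n ≥` length of a word in `of b`, `t`, `t⁻¹` representing `g`, all intermediate lists have length
at most that number) `rho g` maps the empty word to the normal word of `g`, which is different
from the empty word because `g ≠ 1` (`NormalWord.equiv`/`prod_injective`). (For `t⁻¹`: if
`w` and `t⁻¹ • w` both have length `≤ n` then `T (t⁻¹ • w) = w`, so `T⁻¹ w = t⁻¹ • w`.) The
kernel of `rho` is normal of finite index and does not contain `g`.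
-/

namespace Pool.Agent.H34.LS

universe u

open HNNExtension

/-- `x` acts on `y` by left multiplication in every large finite model. -/
private def H3_P {B : Type u} [Group B] {A1 A2 : Subgroup B} (phi : A1 ≃* A2)
    (x : HNNExtension B A1 A2 phi) : Prop :=
  ∀ y : HNNExtension B A1 A2 phi, ∃ F : Set (HNNExtension B A1 A2 phi), F.Finite ∧
    ∀ (X : Set (HNNExtension B A1 A2 phi)) (_ : ∀ (b : B), ∀ z ∈ X, of b * z ∈ X)
      (rho : HNNExtension B A1 A2 phi →* Equiv.Perm X),
      (∀ (b : B) (z : X), ((rho (of b)) z : HNNExtension B A1 A2 phi) = of b * z.1) →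
      (∀ z : X, t * (z : HNNExtension B A1 A2 phi) ∈ X →
        ((rho t) z : HNNExtension B A1 A2 phi) = t * z.1) →
      F ⊆ X → ∃ hy : y ∈ X, ((rho x) ⟨y, hy⟩ : HNNExtension B A1 A2 phi) = x * y

private theorem H3_all {B : Type u} [Group B] {A1 A2 : Subgroup B} (phi : A1 ≃* A2)
    (x : HNNExtension B A1 A2 phi) : H3_P phi x := by
  induction x using HNNExtension.induction_on with
  | of b =>
    intro y
    refine ⟨{y}, Set.finite_singleton y, fun X hX rho h1 h2 hF => ?_⟩
    exact ⟨hF rfl, h1 b _⟩
  | t =>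
    intro y
    refine ⟨{y, t * y}, Set.toFinite _, fun X hX rho h1 h2 hF => ?_⟩
    exact ⟨hF (Set.mem_insert _ _), h2 ⟨y, hF (Set.mem_insert _ _)⟩
      (hF (Set.mem_insert_of_mem _ rfl))⟩
  | mul x x' ih ih' =>
    intro y
    obtain ⟨F', hF', h'⟩ := ih' y
    obtain ⟨F, hF, h⟩ := ih (x' * y)
    refine ⟨F' ∪ F, hF'.union hF, fun X hX rho h1 h2 hs => ?_⟩
    obtain ⟨hy, e1⟩ := h' X hX rho h1 h2 (Set.subset_union_left.trans hs)
    obtain ⟨hy2, e2⟩ := h X hX rho h1 h2 (Set.subset_union_right.trans hs)
    refine ⟨hy, ?_⟩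
    have e3 : (rho x') ⟨y, hy⟩ = ⟨x' * y, hy2⟩ := Subtype.ext e1
    rw [map_mul, Equiv.Perm.mul_apply, e3, e2, mul_assoc]
  | inv x ih =>
    intro y
    obtain ⟨F, hF, h⟩ := ih (x⁻¹ * y)
    refine ⟨F ∪ {y}, hF.union (Set.finite_singleton y), fun X hX rho h1 h2 hs => ?_⟩
    obtain ⟨hy, e1⟩ := h X hX rho h1 h2 (Set.subset_union_left.trans hs)
    have hy2 : y ∈ X := hs (Or.inr rfl)
    refine ⟨hy2, ?_⟩
    have e2 : (rho x) ⟨x⁻¹ * y, hy⟩ = ⟨y, hy2⟩ := Subtype.ext (by rw [e1, mul_inv_cancel_left])
    rw [map_inv, ← e2]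
    exact congrArg Subtype.val (Equiv.symm_apply_apply (rho x) _)

theorem hnn_resFin {B : Type u} [Group B] [Finite B] {A1 A2 : Subgroup B} (phi : A1 ≃* A2)
    (g : HNNExtension B A1 A2 phi) (hg : g ≠ 1) :
    ∃ U : Subgroup (HNNExtension B A1 A2 phi), U.Normal ∧ U.FiniteIndex ∧ g ∉ U := by
  classical
  obtain ⟨F, hF, h⟩ := H3_all phi g 1
  set X : Set (HNNExtension B A1 A2 phi) :=
    Set.image2 (fun (b : B) (z : HNNExtension B A1 A2 phi) => of b * z) Set.univ F with hXdef
  have hXfin : X.Finite := Set.Finite.image2 _ (Set.toFinite _) hF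
  have hX : ∀ (b : B), ∀ z ∈ X, of b * z ∈ X := by
    rintro b z ⟨b', -, w, hw, rfl⟩
    exact ⟨b * b', Set.mem_univ _, w, hw, by simp only [map_mul, mul_assoc]⟩
  have hFX : F ⊆ X := fun z hz => ⟨1, Set.mem_univ _, z, hz, by simp only [map_one, one_mul]⟩
  have : Finite X := hXfin
  let _ : MulAction B X :=
    { smul := fun b z => ⟨of b * z.1, hX b z.1 z.2⟩
      one_smul := fun z => Subtype.ext (by
        change of 1 * z.1 = z.1
        rw [map_one, one_mul])
      mul_smul := fun b b' z => Subtype.ext (by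
        change of (b * b') * z.1 = of b * (of b' * z.1)
        rw [map_mul, mul_assoc]) }
  have hsmul : ∀ (b : B) (z : X), ((b • z : X) : HNNExtension B A1 A2 phi) = of b * z.1 :=
    fun b z => rfl
  have hfree : ∀ (b : B) (z : X), b • z = z → b = 1 := by
    intro b z hz
    have h1 : (of b : HNNExtension B A1 A2 phi) * z.1 = z.1 := by rw [← hsmul, hz]
    have h2 : (of b : HNNExtension B A1 A2 phi) = 1 := mul_eq_right.1 h1
    exact of_injective phi (by rw [h2, map_one])
  set D : Set X := {z | t * (z : HNNExtension B A1 A2 phi) ∈ X} with hDdef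
  have hD : ∀ (a : A1) (z : X), z ∈ D → (a : B) • z ∈ D := by
    intro a z hz
    have e1 : (t : HNNExtension B A1 A2 phi) * (of (a : B) * z.1) =
        of (phi a : B) * (t * z.1) := by
      rw [← mul_assoc, t_mul_of, mul_assoc]
    change (t : HNNExtension B A1 A2 phi) * (of (a : B) * z.1) ∈ X
    rw [e1]
    exact hX _ _ hz
  set f : X → X := fun z => if hz : t * (z : HNNExtension B A1 A2 phi) ∈ X then ⟨t * z.1, hz⟩ else z
    with hfdef
  have hfval : ∀ z ∈ D, ((f z : X) : HNNExtension B A1 A2 phi) = t * z.1 := by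
    intro z hz
    have hz' : t * (z : HNNExtension B A1 A2 phi) ∈ X := hz
    simp only [hfdef, dif_pos hz']
  have hinj : Set.InjOn f D := by
    intro z hz w hw hzw
    have h1 := hfval z hz
    rw [hzw, hfval w hw] at h1
    exact Subtype.ext (mul_left_cancel h1).symm
  have heq : ∀ (a : A1) (z : X), z ∈ D → f ((a : B) • z) = (phi a : B) • f z := by
    intro a z hz
    apply Subtype.ext
    rw [hfval _ (hD a z hz), hsmul, hsmul, hfval z hz, ← mul_assoc, t_mul_of, mul_assoc]
  obtain ⟨T, hT1, hT2⟩ := extend_perm phi hfree D hD f hinj heq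
  set rho : HNNExtension B A1 A2 phi →* Equiv.Perm X :=
    HNNExtension.lift (MulAction.toPermHom B X) T (fun a => by
      ext z
      rw [Equiv.Perm.mul_apply, Equiv.Perm.mul_apply, MulAction.toPermHom_apply,
        MulAction.toPermHom_apply, MulAction.toPerm_apply, MulAction.toPerm_apply, hT2]) with hrho
  have hof : ∀ (b : B) (z : X), ((rho (of b)) z : HNNExtension B A1 A2 phi) = of b * z.1 := by
    intro b z
    rw [hrho, lift_of, MulAction.toPermHom_apply, MulAction.toPerm_apply, hsmul]
  have ht : ∀ z : X, t * (z : HNNExtension B A1 A2 phi) ∈ X →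
      ((rho t) z : HNNExtension B A1 A2 phi) = t * z.1 := by
    intro z hz
    rw [hrho, lift_t, hT1 z hz, hfval z hz]
  obtain ⟨h1, e⟩ := h X hX rho hof ht hFX
  have : Finite (Equiv.Perm X) := inferInstance
  refine ⟨rho.ker, inferInstance, inferInstance, fun hmem => hg ?_⟩
  rw [MonoidHom.mem_ker.1 hmem, Equiv.Perm.one_apply, mul_one] at e
  exact e.symm

end Pool.Agent.H34.LS
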