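import Pool.Agent.H34.LS.HT

/-!
H5: the homomorphisms `mapHT`. `mapHT_comp`, `toG_mapHT`: compare on `of b` and on `t`
(`HNNExtension.hom_ext`). `mapHT_surj`: if `B' = B ⊔ t B t⁻¹` then `mapHT : HT t B → HT t B'` is
onto: the range contains `t`, `of b` for `b` in `B`, and for `b` in `B` the element
`of (t b t⁻¹) = t (of b) t⁻¹` (relation `HNNExtension.equiv_eq_conj`, as `b` and `t b t⁻¹` lie in
`B'`), and these generate `HT t B'`. `toG_surj`: clear.
-/

namespace Pool.Agent.H34.LS

universe u

variable {G : Type u} [Group G]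

theorem mapHT_comp (t : G) {B B' B'' : Subgroup G} (h : B ≤ B') (h' : B' ≤ B'') (w : HT t B) :
    mapHT t h' (mapHT t h w) = mapHT t (h.trans h') w := by
  have key : (mapHT t h').comp (mapHT t h) = mapHT t (h.trans h') := by
    apply HNNExtension.hom_ext
    · ext b
      simp only [MonoidHom.comp_apply, mapHT_of]
      congr 1
    · simp only [MonoidHom.comp_apply, mapHT_t]
  exact DFunLike.congr_fun key w

theorem mapHT_refl (t : G) {B : Subgroup G} (w : HT t B) : mapHT t (le_refl B) w = w := by
  have key : mapHT t (le_refl B) = MonoidHom.id (HT t B) := by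
    apply HNNExtension.hom_ext
    · ext b
      simp only [MonoidHom.comp_apply, mapHT_of, MonoidHom.id_apply]
      congr 1
    · simp only [mapHT_t, MonoidHom.id_apply]
  exact DFunLike.congr_fun key w

theorem toG_mapHT (t : G) {B B' : Subgroup G} (h : B ≤ B') (w : HT t B) :
    toG t B' (mapHT t h w) = toG t B w := by
  have key : (toG t B').comp (mapHT t h) = toG t B := by
    apply HNNExtension.hom_ext
    · ext b
      simp only [MonoidHom.comp_apply, mapHT_of, toG_of]
      rfl
    · simp only [MonoidHom.comp_apply, mapHT_t, toG_t]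
  exact DFunLike.congr_fun key w

/-- generators of `HT t B`. -/
theorem ht_closure (t : G) (B : Subgroup G) :
    Subgroup.closure (Set.range (HNNExtension.of : B →* HT t B) ∪ {HNNExtension.t}) = ⊤ := by
  rw [eq_top_iff]
  intro w _
  induction w using HNNExtension.induction_on with
  | of g => exact Subgroup.subset_closure (Or.inl ⟨g, rfl⟩)
  | t => exact Subgroup.subset_closure (Or.inr rfl)
  | mul x y hx hy => exact Subgroup.mul_mem _ (hx trivial) (hy trivial)
  | inv x hx => exact Subgroup.inv_mem _ (hx trivial)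

theorem mapHT_surj (t : G) {B B' : Subgroup G} (h : B ≤ B')
    (hB' : B' = B ⊔ B.map (MulAut.conj t).toMonoidHom) :
    Function.Surjective (mapHT t h) := by
  rw [← MonoidHom.range_eq_top, eq_top_iff, ← ht_closure t B', Subgroup.closure_le]
  have ht : (HNNExtension.t : HT t B') ∈ (mapHT t h).range := ⟨HNNExtension.t, mapHT_t t h⟩
  rintro w (⟨b, rfl⟩ | hw)
  · -- elements of `B'`
    have hle : B' ≤ (((mapHT t h).range).comap
        (HNNExtension.of : B' →* HT t B')).map B'.subtype := by
      conv_lhs => rw [hB']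
      rw [sup_le_iff]
      constructor
      · intro b hb
        refine ⟨⟨b, h hb⟩, ?_, rfl⟩
        rw [SetLike.mem_coe, Subgroup.mem_comap]
        exact ⟨HNNExtension.of ⟨b, hb⟩, by rw [mapHT_of]; rfl⟩
      · rintro c ⟨b, hb, rfl⟩
        have hc : t * b * t⁻¹ ∈ B' := by
          rw [hB']
          exact Subgroup.mem_sup_right ⟨b, hb, rfl⟩
        refine ⟨⟨t * b * t⁻¹, hc⟩, ?_, rfl⟩
        rw [SetLike.mem_coe, Subgroup.mem_comap]
        have h2 := HNNExtension.equiv_eq_conj (φ := upIso t B')
          (⟨⟨b, h hb⟩, by rw [mem_upSub]; exact hc⟩ : upSub t B')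
        have h3 : (HNNExtension.of (⟨t * b * t⁻¹, hc⟩ : B') : HT t B') =
            HNNExtension.t * HNNExtension.of (⟨b, h hb⟩ : B') * HNNExtension.t⁻¹ := h2
        rw [h3]
        refine Subgroup.mul_mem _ (Subgroup.mul_mem _ ht ?_) (Subgroup.inv_mem _ ht)
        exact ⟨HNNExtension.of ⟨b, hb⟩, by rw [mapHT_of]; rfl⟩
    obtain ⟨c, hc, hcb⟩ := hle b.2
    have hcb' : c = b := Subtype.ext hcb
    subst hcb'
    exact hc
  · rw [Set.mem_singleton_iff] at hw
    rw [hw]
    exact ht

theorem toG_surj (t : G) {B : Subgroup G}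
    (hgen : Subgroup.closure ((B : Set G) ∪ {t}) = ⊤) : Function.Surjective (toG t B) := by
  rw [← MonoidHom.range_eq_top, eq_top_iff, ← hgen, Subgroup.closure_le]
  rintro w (hw | hw)
  · exact ⟨HNNExtension.of ⟨w, hw⟩, toG_of t B ⟨w, hw⟩⟩
  · rw [Set.mem_singleton_iff] at hw
    rw [hw]
    exact ⟨HNNExtension.t, toG_t t B⟩

end Pool.Agent.H34.LS
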