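import Pool.Agent.H34.LS.H4
import Pool.Agent.H34.LS.H5

/-!
H6: an element of the kernel of `HT t (B 0) → G` dies in `HT t (B j)` for some `j`.
Claim: for every `w` in `HT t (B 0)` there are `m : ℕ`, `k : ℤ`, `J : ℕ` and `b` in `B J` such that
for all `j ≥ J`: `mapHT w = t ^ (-m) * of b * t ^ k` in `HT t (B j)`. The set of `w` with this
property contains `1` and is stable under left multiplication by `of a` (`a` in `B 0`:
`of a * t^(-m) = t^(-m) * of (t^m a t^(-m))` in `HT t (B j)` for `j ≥ m`), by `t` (if `m > 0`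
clear; if `m = 0`: `t * of b = of (t b t⁻¹) * t` for `j ≥ J + 1`) and by `t⁻¹` (clear), hence is
everything (`ht_closure`). If `toG w = 1` then `t^(-m) b t^k = 1` in `G`; applying `f` gives
`k = m`, so `b = 1` and `mapHT w = 1`.
-/

namespace Pool.Agent.H34.LS

universe u

variable {G : Type u} [Group G]

theorem windows_mono (W : Windows G) : Monotone W.B := by
  apply monotone_nat_of_le_succ
  intro n
  rw [W.step n]
  exact le_sup_left

private theorem h6_conj_mem (W : Windows G) {i : ℕ} {x : G} (hx : x ∈ W.B i) :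
    W.t * x * W.t⁻¹ ∈ W.B (i + 1) := by
  rw [W.step i]
  exact Subgroup.mem_sup_right ⟨x, hx, rfl⟩

private theorem h6_conj (W : Windows G) {i j : ℕ} {x : G} (hx : x ∈ W.B i) (hij : i + 1 ≤ j) :
    (HNNExtension.of (⟨W.t * x * W.t⁻¹, windows_mono W hij (h6_conj_mem W hx)⟩ : W.B j) :
      HT W.t (W.B j)) =
    HNNExtension.t * HNNExtension.of
      (⟨x, windows_mono W ((Nat.le_succ i).trans hij) hx⟩ : W.B j) * HNNExtension.t⁻¹ := by
  have h2 := HNNExtension.equiv_eq_conj (φ := upIso W.t (W.B j))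
    (⟨⟨x, windows_mono W ((Nat.le_succ i).trans hij) hx⟩, by
      rw [mem_upSub]; exact windows_mono W hij (h6_conj_mem W hx)⟩ : upSub W.t (W.B j))
  exact h2

private theorem h6_pow_mem (W : Windows G) {x : G} (hx : x ∈ W.B 0) (m : ℕ) :
    W.t ^ m * x * (W.t ^ m)⁻¹ ∈ W.B m := by
  induction m with
  | zero => simpa using hx
  | succ m ih =>
    have := h6_conj_mem W ih
    have h : W.t ^ (m + 1) * x * (W.t ^ (m + 1))⁻¹ =
        W.t * (W.t ^ m * x * (W.t ^ m)⁻¹) * W.t⁻¹ := by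
      rw [pow_succ']
      simp [mul_assoc]
    rw [h]
    exact this

private theorem h6_pow_conj (W : Windows G) {x : G} (hx : x ∈ W.B 0) (m : ℕ) {j : ℕ}
    (hj : m ≤ j) :
    (HNNExtension.of (⟨W.t ^ m * x * (W.t ^ m)⁻¹, windows_mono W hj (h6_pow_mem W hx m)⟩ :
      W.B j) : HT W.t (W.B j)) =
    HNNExtension.t ^ m * HNNExtension.of
      (⟨x, windows_mono W (Nat.zero_le j) hx⟩ : W.B j) * (HNNExtension.t ^ m)⁻¹ := by
  induction m with
  | zero => simp
  | succ m ih =>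
    have h1 := h6_conj W (h6_pow_mem W hx m) hj
    have h2 := ih ((Nat.le_succ m).trans hj)
    rw [h2] at h1
    have h : W.t ^ (m + 1) * x * (W.t ^ (m + 1))⁻¹ =
        W.t * (W.t ^ m * x * (W.t ^ m)⁻¹) * W.t⁻¹ := by
      rw [pow_succ']
      simp [mul_assoc]
    have h3 : (⟨W.t ^ (m + 1) * x * (W.t ^ (m + 1))⁻¹,
        windows_mono W hj (h6_pow_mem W hx (m + 1))⟩ : W.B j) =
        ⟨W.t * (W.t ^ m * x * (W.t ^ m)⁻¹) * W.t⁻¹,
          windows_mono W hj (h6_conj_mem W (h6_pow_mem W hx m))⟩ := Subtype.ext h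
    rw [h3, h1, pow_succ']
    simp only [mul_assoc, mul_inv_rev]

private def h6P (W : Windows G) (w : HT W.t (W.B 0)) : Prop :=
  ∃ (m : ℕ) (k : ℤ) (J : ℕ) (b : G) (hb : b ∈ W.B J), ∀ j (hj : J ≤ j),
    mapHT W.t (windows_mono W (Nat.zero_le j)) w =
      (HNNExtension.t ^ m)⁻¹ * HNNExtension.of (⟨b, windows_mono W hj hb⟩ : W.B j) *
        HNNExtension.t ^ k

private theorem h6P_one (W : Windows G) : h6P W 1 := by
  refine ⟨0, 0, 0, 1, Subgroup.one_mem _, ?_⟩
  intro j hj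
  have : (⟨1, windows_mono W hj (Subgroup.one_mem _)⟩ : W.B j) = 1 := rfl
  rw [this]
  simp

private theorem h6P_of (W : Windows G) (a : W.B 0) (w : HT W.t (W.B 0)) (hw : h6P W w) :
    h6P W (HNNExtension.of a * w) := by
  obtain ⟨m, k, J, b, hb, h⟩ := hw
  refine ⟨m, k, max m J, (W.t ^ m * (a : G) * (W.t ^ m)⁻¹) * b,
    Subgroup.mul_mem _ (windows_mono W (le_max_left m J) (h6_pow_mem W a.2 m))
      (windows_mono W (le_max_right m J) hb), ?_⟩
  intro j hj
  have hm : m ≤ j := (le_max_left m J).trans hj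
  have hJ : J ≤ j := (le_max_right m J).trans hj
  have h1 := h6_pow_conj W a.2 m hm
  have h2 : (⟨(W.t ^ m * (a : G) * (W.t ^ m)⁻¹) * b, windows_mono W hj
      (Subgroup.mul_mem _ (windows_mono W (le_max_left m J) (h6_pow_mem W a.2 m))
      (windows_mono W (le_max_right m J) hb))⟩ : W.B j) =
      (⟨W.t ^ m * (a : G) * (W.t ^ m)⁻¹, windows_mono W hm (h6_pow_mem W a.2 m)⟩ : W.B j) *
        ⟨b, windows_mono W hJ hb⟩ := rfl
  have h3 : Subgroup.inclusion (windows_mono W (Nat.zero_le j)) a =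
    (⟨(a : G), windows_mono W (Nat.zero_le j) a.2⟩ : W.B j) := rfl
  have h4 := map_mul (HNNExtension.of : W.B j →* HT W.t (W.B j))
    (⟨W.t ^ m * (a : G) * (W.t ^ m)⁻¹, windows_mono W hm (h6_pow_mem W a.2 m)⟩ : W.B j)
    ⟨b, windows_mono W hJ hb⟩
  rw [h2, h4, h1, map_mul, h j hJ, mapHT_of, h3]
  simp only [mul_assoc, inv_mul_cancel_left]

private theorem h6P_tinv (W : Windows G) (w : HT W.t (W.B 0)) (hw : h6P W w) :
    h6P W ((HNNExtension.t)⁻¹ * w) := by
  obtain ⟨m, k, J, b, hb, h⟩ := hw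
  refine ⟨m + 1, k, J, b, hb, ?_⟩
  intro j hj
  rw [map_mul, map_inv, mapHT_t, h j hj, pow_succ]
  simp only [mul_assoc, mul_inv_rev]

private theorem h6P_t (W : Windows G) (w : HT W.t (W.B 0)) (hw : h6P W w) :
    h6P W (HNNExtension.t * w) := by
  obtain ⟨m, k, J, b, hb, h⟩ := hw
  rcases m with _ | m
  · refine ⟨0, k + 1, J + 1, W.t * b * W.t⁻¹, h6_conj_mem W hb, ?_⟩
    intro j hj
    rw [map_mul, mapHT_t, h j ((Nat.le_succ J).trans hj), h6_conj W hb hj, add_comm k 1,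
      zpow_add, zpow_one]
    simp only [pow_zero, inv_one, one_mul, mul_assoc, inv_mul_cancel_left]
  · refine ⟨m, k, J, b, hb, ?_⟩
    intro j hj
    rw [map_mul, mapHT_t, h j hj, pow_succ]
    simp only [mul_assoc, mul_inv_rev, mul_inv_cancel_left]

private theorem h6P_all (W : Windows G) (w : HT W.t (W.B 0)) : h6P W w := by
  have hw : w ∈ Subgroup.closure
      (Set.range (HNNExtension.of : W.B 0 →* HT W.t (W.B 0)) ∪ {HNNExtension.t}) := by
    rw [ht_closure]; trivial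
  induction hw using Subgroup.closure_induction_left with
  | one => exact h6P_one W
  | mul_left x hx y hy ih =>
    rcases hx with ⟨a, rfl⟩ | hx
    · exact h6P_of W a y ih
    · rw [Set.mem_singleton_iff] at hx
      rw [hx]
      exact h6P_t W y ih
  | inv_mul_cancel x hx y hy ih =>
    rcases hx with ⟨a, rfl⟩ | hx
    · rw [← map_inv]
      exact h6P_of W a⁻¹ y ih
    · rw [Set.mem_singleton_iff] at hx
      rw [hx]
      exact h6P_tinv W y ih

theorem dies (W : Windows G) (w : HT W.t (W.B 0)) (hw : toG W.t (W.B 0) w = 1) :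
    ∃ j : ℕ, mapHT W.t (windows_mono W (Nat.zero_le j)) w = 1 := by
  obtain ⟨m, k, J, b, hb, h⟩ := h6P_all W w
  refine ⟨J, ?_⟩
  have h1 := h J le_rfl
  have h2 : toG W.t (W.B J) (mapHT W.t (windows_mono W (Nat.zero_le J)) w) = 1 := by
    rw [toG_mapHT, hw]
  rw [h1, map_mul, map_mul, map_inv, map_pow, map_zpow, toG_t, toG_of] at h2
  -- `h2 : (W.t ^ m)⁻¹ * b * W.t ^ k = 1`
  have h3 : (W.f W.t ^ m)⁻¹ * W.f b * W.f W.t ^ k = 1 := by
    have := congrArg W.f h2
    simpa using this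
  have hfb : W.f b = 1 := W.ker J hb
  rw [hfb, mul_one, W.ft] at h3
  have hk : k = m := by
    have h4 := congrArg Multiplicative.toAdd h3
    simp at h4
    omega
  subst hk
  have hb1 : b = 1 := by
    have h5 : (W.t ^ m)⁻¹ * b * W.t ^ m = 1 := by
      simpa using h2
    have h6 : b = W.t ^ m * ((W.t ^ m)⁻¹ * b * W.t ^ m) * (W.t ^ m)⁻¹ := by group
    rw [h6, h5]
    group
  subst hb1
  have h7 : (⟨1, windows_mono W le_rfl hb⟩ : W.B J) = 1 := rfl
  rw [h1, h7, map_one]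
  simp

end Pool.Agent.H34.LS
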