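import Pool.Agent.H34.LS.W2

/-!
Q1: kernels of surjective homomorphisms. `F ⧸ f.ker ≃* H`
(`QuotientGroup.quotientKerEquivOfSurjective`) maps the image of `S` onto `f '' S`, so word
lengths agree. For `Sep`: pull back a finite index normal subgroup of `H`.
-/

namespace Pool.Agent.H34.LS

universe u v

private theorem q1_wl_equiv {G : Type u} [Group G] {H : Type v} [Group H] {S : Set G}
    (p : G ≃* H) (hS : Subgroup.closure S = ⊤) (g : G) :
    wordLength ((p : G →* H) '' S) (p g) = wordLength S g := by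
  apply le_antisymm
  · exact wl_map_le (p : G →* H) hS g
  · have h1 : Subgroup.closure ((p : G →* H) '' S) = ⊤ :=
      closure_image (p : G →* H) p.surjective hS
    have h2 := wl_map_le (p.symm : H →* G) h1 (p g)
    have h3 : (p.symm : H →* G) '' ((p : G →* H) '' S) = S := by
      rw [Set.image_image]
      simp
    rw [h3] at h2
    simpa using h2

theorem hypQ_ker {F : Type u} [Group F] {H : Type v} [Group H] {S : Set F} (f : F →* H)
    (hf : Function.Surjective f) (hS : Subgroup.closure S = ⊤) {e : ℝ}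
    (h : FourPoint (f '' S) e) : HypQ S f.ker e := by
  refine ⟨inferInstance, ?_⟩
  set p : F ⧸ f.ker ≃* H := QuotientGroup.quotientKerEquivOfSurjective f hf with hp
  have hpf : ∀ x : F, p (QuotientGroup.mk' f.ker x) = f x := fun x => rfl
  have hcl : Subgroup.closure ((QuotientGroup.mk' f.ker) '' S) = ⊤ :=
    closure_image _ (QuotientGroup.mk'_surjective f.ker) hS
  have himg : (p : F ⧸ f.ker →* H) '' ((QuotientGroup.mk' f.ker) '' S) = f '' S := by
    rw [Set.image_image]
    rfl
  have hd : ∀ x y : F ⧸ f.ker, wordDist ((QuotientGroup.mk' f.ker) '' S) x y =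
      wordDist (f '' S) (p x) (p y) := by
    intro x y
    have := q1_wl_equiv p hcl (x⁻¹ * y)
    rw [himg, map_mul, map_inv] at this
    unfold wordDist
    rw [this]
  intro x y z t
  rw [hd, hd, hd, hd, hd, hd]
  exact h _ _ _ _

theorem sep_ker {F : Type u} [Group F] {H : Type v} [Group H] (f : F →* H)
    (h : ∀ g : H, g ≠ 1 → ∃ U : Subgroup H, U.Normal ∧ U.FiniteIndex ∧ g ∉ U) :
    Sep f.ker := by
  intro x hx
  have hx' : f x ≠ 1 := fun hc => hx (by rwa [MonoidHom.mem_ker])
  obtain ⟨U, hU1, hU2, hU3⟩ := h (f x) hx'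
  refine ⟨U.comap f, inferInstance, ?_, ?_, ?_⟩
  · refine ⟨?_⟩
    rw [Subgroup.index_comap]
    exact fun hc => hU2.index_ne_zero
      (Nat.eq_zero_of_zero_dvd (hc ▸ Subgroup.relIndex_dvd_index_of_normal U f.range))
  · intro y hy
    rw [Subgroup.mem_comap, (MonoidHom.mem_ker).mp hy]
    exact U.one_mem
  · intro hc
    exact hU3 hc

end Pool.Agent.H34.LS
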