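import Pool.Agent.H34.LS.H1
import Pool.Agent.H34.LS.H3
import Pool.Agent.H34.LS.H6
import Pool.Agent.H34.LS.Q1

/-!
H7: the data for the tower theorem. `F = HT t (B 0)`, `S = range of ∪ {t}` (finite, generates),
`K j` = kernel of `mapHT : F → HT t (B j)`, `pi = toG`. `mapHT` is onto (compose `mapHT_surj`,
using `step`). `Sep (K j)` by `sep_ker` and `hnn_resFin`, `HypQ` by `hypQ_ker` and
`hnn_fourPoint`. The kernel of `toG` is the union of the `K j` by `dies` (directed supremum,
`Subgroup.mem_iSup_of_directed`).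
-/

namespace Pool.Agent.H34.LS

universe u

theorem tower_data (G : Type u) [Group G] (hfg : Group.FG G) (h : LocFinByZ G) :
    ∃ (F : Type u) (_ : Group F) (S : Set F) (K : ℕ → Subgroup F) (pi : F →* G),
      S.Finite ∧ Subgroup.closure S = ⊤ ∧ (∀ j, (K j).Normal) ∧ Monotone K ∧
      (∀ j, Sep (K j)) ∧ (∀ j, ∃ e : ℝ, HypQ S (K j) e) ∧ Function.Surjective pi ∧
      pi.ker = ⨆ j, K j := by
  obtain ⟨W⟩ := exists_windows G hfg h
  have hle : ∀ j, W.B 0 ≤ W.B j := fun j => windows_mono W (Nat.zero_le j)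
  let K : ℕ → Subgroup (HT W.t (W.B 0)) := fun j => (mapHT W.t (hle j)).ker
  let S : Set (HT W.t (W.B 0)) :=
    Set.range (HNNExtension.of : W.B 0 →* HT W.t (W.B 0)) ∪ {HNNExtension.t}
  have hS : Subgroup.closure S = ⊤ := ht_closure W.t (W.B 0)
  have hsurj : ∀ j, Function.Surjective (mapHT W.t (hle j)) := by
    intro j
    induction j with
    | zero => exact fun w => ⟨w, mapHT_refl W.t w⟩
    | succ j ih =>
      intro w
      obtain ⟨u, hu⟩ := mapHT_surj W.t (windows_mono W (Nat.le_succ j)) (W.step j) w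
      obtain ⟨v, hv⟩ := ih u
      refine ⟨v, ?_⟩
      rw [← hu, ← hv, mapHT_comp]
  refine ⟨HT W.t (W.B 0), inferInstance, S, K, toG W.t (W.B 0), ?_, hS, ?_, ?_, ?_, ?_, ?_, ?_⟩
  · have := W.fin 0
    exact (Set.finite_range _).union (Set.finite_singleton _)
  · exact fun j => MonoidHom.normal_ker _
  · intro i j hij w hw
    have h1 : mapHT W.t (hle i) w = 1 := hw
    show mapHT W.t (hle j) w = 1
    rw [← mapHT_comp W.t (hle i) (windows_mono W hij) w, h1, map_one]
  · intro j
    have := W.fin j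
    exact sep_ker (mapHT W.t (hle j)) fun g hg => hnn_resFin (upIso W.t (W.B j)) g hg
  · intro j
    have := W.fin j
    obtain ⟨e, he⟩ := hnn_fourPoint (upIso W.t (W.B j)) (S := (mapHT W.t (hle j)) '' S)
      (closure_image (mapHT W.t (hle j)) (hsurj j) hS) (by
        rintro _ ⟨w, hw, rfl⟩
        rcases hw with ⟨b, rfl⟩ | hw
        · left
          rw [mapHT_of]
          exact ⟨_, rfl⟩
        · right
          rw [Set.mem_singleton_iff] at hw
          rw [hw, mapHT_t]
          exact Set.mem_singleton _)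
    exact ⟨e, hypQ_ker (mapHT W.t (hle j)) (hsurj j) hS he⟩
  · exact toG_surj W.t W.gen
  · apply le_antisymm
    · intro w hw
      obtain ⟨j, hj⟩ := dies W w hw
      exact Subgroup.mem_iSup_of_mem (S := K) j hj
    · refine iSup_le fun j w hw => ?_
      have h1 : mapHT W.t (hle j) w = 1 := hw
      show toG W.t (W.B 0) w = 1
      rw [← toG_mapHT W.t (hle j) w, h1, map_one]

end Pool.Agent.H34.LS
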