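import Pool.Agent.H34.LS.W1

/-!
C1: the asymptotic cone exists. On `ConeSeq S d` the rescaled distances
`wordDist S (x n) (y n) / d n` are bounded (triangle inequality through `1`), so they converge
along the ultrafilter `w` (a bounded real sequence lies in a compact interval: use
`IsCompact.ultrafilter_le_nhds` for the image ultrafilter `w.map u`). The limits form a
pseudometric; take the metric quotient `SeparationQuotient` (same universe `u`).
-/

namespace Pool.Agent.H34.LS

universe u

open Filter

variable {G : Type u} [Group G]

theorem coneLim_exists {S : Set G} (hS : Subgroup.closure S = ⊤) (w : Ultrafilter ℕ) {d : ℕ → ℝ}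
    (hd : ∀ n, 0 < d n) (x y : ConeSeq S d) : ∃ r, ConeLim S w d x y r := by
  obtain ⟨C1, h1⟩ := x.2
  obtain ⟨C2, h2⟩ := y.2
  have hmem : ∀ n, wordDist S (x.1 n) (y.1 n) / d n ∈ Set.Icc (0 : ℝ) (C1 + C2) := by
    intro n
    constructor
    · exact div_nonneg (wd_nonneg _ _) (hd n).le
    · rw [div_le_iff₀ (hd n)]
      have h3 := wd_tri hS (x.1 n) 1 (y.1 n)
      rw [wd_comm hS (x.1 n) 1] at h3
      have h4 := h1 n
      have h5 := h2 n
      linarith
  have hle : ((w.map fun n => wordDist S (x.1 n) (y.1 n) / d n : Ultrafilter ℝ) : Filter ℝ) ≤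
      Filter.principal (Set.Icc (0 : ℝ) (C1 + C2)) := by
    rw [Filter.le_principal_iff, Ultrafilter.coe_map]
    exact Filter.mem_map.2 (Filter.univ_mem' hmem)
  obtain ⟨r, _, hr⟩ := isCompact_Icc.ultrafilter_le_nhds _ hle
  rw [Ultrafilter.coe_map] at hr
  exact ⟨r, hr⟩

theorem c1_unique {S : Set G} {w : Ultrafilter ℕ} {d : ℕ → ℝ} {x y : ConeSeq S d} {r s : ℝ}
    (h : ConeLim S w d x y r) (h' : ConeLim S w d x y s) : r = s :=
  tendsto_nhds_unique h h'

theorem exists_cone {S : Set G} (hS : Subgroup.closure S = ⊤) (w : Ultrafilter ℕ) {d : ℕ → ℝ}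
    (hd : ∀ n, 0 < d n) :
    ∃ (T : Type u) (_ : MetricSpace T), IsAsymptoticCone S w d T := by
  classical
  choose D hD using fun x y : ConeSeq S d => coneLim_exists hS w hd x y
  let inst : PseudoMetricSpace (ConeSeq S d) :=
    { dist := D
      dist_self := by
        intro x
        refine c1_unique (hD x x) ?_
        unfold ConeLim
        have : (fun n => wordDist S (x.1 n) (x.1 n) / d n) = fun _ => (0 : ℝ) := by
          funext n
          rw [wd_self, zero_div]
        rw [this]
        exact tendsto_const_nhds
      dist_comm := by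
        intro x y
        refine c1_unique (hD x y) ?_
        have h := hD y x
        unfold ConeLim at h ⊢
        have : (fun n => wordDist S (x.1 n) (y.1 n) / d n) =
            fun n => wordDist S (y.1 n) (x.1 n) / d n := by
          funext n
          rw [wd_comm hS]
        rw [this]
        exact h
      dist_triangle := by
        intro x y z
        have h1 := hD x z
        have h2 := hD x y
        have h3 := hD y z
        unfold ConeLim at h1 h2 h3
        refine le_of_tendsto_of_tendsto' h1 (h2.add h3) ?_
        intro n
        rw [← add_div]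
        exact div_le_div_of_nonneg_right (wd_tri hS _ _ _) (hd n).le }
  refine ⟨SeparationQuotient (ConeSeq S d), inferInstance, SeparationQuotient.mk,
    SeparationQuotient.surjective_mk, fun x y => ?_⟩
  rw [SeparationQuotient.dist_mk]
  exact hD x y

end Pool.Agent.H34.LS
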