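import Pool.Agent.H34.LS.W1

/-!
C2: asymptotic cones are geodesic. Given `X = p x`, `Y = p y`, put `g n = (x n)⁻¹ * y n`,
`L n = wordLength S (g n)` and for `s` real let `k n = min (L n) ⌊s * d n⌋₊` and let `a n` be the
prefix of length `k n` of a geodesic word for `g n`: choose by `wl_exists` ONE geodesic word `l n`
for `g n` and take `a n = (l n).take (k n)` product; then for `k <= k' <= L n` the distance from
`x n * prefix k` to `x n * prefix k'` is exactly `k' - k` (a part of a geodesic word is geodesic).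
Put `c s = p (n ↦ x n * prefix (k n))`. The rescaled distances converge to `|s - t|` because
`d n → ∞` along `w`, for `s, t` in `[0, dist X Y]`. At the end `s = dist X Y` the point has
rescaled distance tending to `0` from `y n`, so it is `Y` (distance zero in a metric space).
-/

namespace Pool.Agent.H34.LS

universe u

open Filter

private theorem c2_take {G : Type u} [Group G] {S : Set G} (hS : Subgroup.closure S = ⊤)
    (l : List G) (hl : ∀ x ∈ l, x ∈ S ∨ x⁻¹ ∈ S) (hlen : l.length = wordLength S l.prod)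
    (k k' : ℕ) (hk : k ≤ k') (hk' : k' ≤ l.length) :
    wordLength S ((l.take k).prod⁻¹ * (l.take k').prod) = k' - k := by
  have h1 : l.take k ++ (l.take k').drop k = l.take k' := by
    have h := List.take_append_drop k (l.take k')
    rwa [List.take_take, min_eq_left hk] at h
  have h2 : (l.take k).prod⁻¹ * (l.take k').prod = ((l.take k').drop k).prod := by
    rw [← h1, List.prod_append]
    rw [h1]
    group
  have h3 : l.take k' ++ l.drop k' = l := List.take_append_drop k' l
  have hmem : ∀ x ∈ (l.take k').drop k, x ∈ S ∨ x⁻¹ ∈ S := fun x hx =>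
    hl x (List.mem_of_mem_take (List.mem_of_mem_drop hx))
  have hmem1 : ∀ x ∈ l.take k, x ∈ S ∨ x⁻¹ ∈ S := fun x hx => hl x (List.mem_of_mem_take hx)
  have hmem2 : ∀ x ∈ l.drop k', x ∈ S ∨ x⁻¹ ∈ S := fun x hx => hl x (List.mem_of_mem_drop hx)
  have e1 : ((l.take k').drop k).length = k' - k := by
    rw [List.length_drop, List.length_take, min_eq_left hk']
  have e2 : (l.take k).length = k := by
    rw [List.length_take, min_eq_left (hk.trans hk')]
  have e3 : (l.drop k').length = l.length - k' := List.length_drop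
  have u1 := wl_le hmem
  have u2 := wl_le hmem1
  have u3 := wl_le hmem2
  rw [e1] at u1
  rw [e2] at u2
  rw [e3] at u3
  have h4 : l.prod = (l.take k).prod * (((l.take k').drop k).prod * (l.drop k').prod) := by
    rw [← List.prod_append, ← List.prod_append, ← List.append_assoc, h1, h3]
  have h5 : wordLength S l.prod ≤ wordLength S (l.take k).prod +
      (wordLength S ((l.take k').drop k).prod + wordLength S (l.drop k').prod) := by
    conv_lhs => rw [h4]
    exact (wl_mul hS _ _).trans (Nat.add_le_add_left (wl_mul hS _ _) _)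
  rw [h2]
  omega

private theorem c2_dist {G : Type u} [Group G] {S : Set G} (hS : Subgroup.closure S = ⊤)
    (x : G) (l : List G) (hl : ∀ x ∈ l, x ∈ S ∨ x⁻¹ ∈ S) (hlen : l.length = wordLength S l.prod)
    (k k' : ℕ) (hk : k ≤ l.length) (hk' : k' ≤ l.length) :
    wordDist S (x * (l.take k).prod) (x * (l.take k').prod) = |(k : ℝ) - k'| := by
  rw [wd_left]
  rcases le_total k k' with h | h
  · unfold wordDist
    rw [c2_take hS l hl hlen k k' h hk', Nat.cast_sub h, abs_sub_comm,
      abs_of_nonneg (sub_nonneg.2 (Nat.cast_le.2 h))]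
  · rw [wd_comm hS]
    unfold wordDist
    rw [c2_take hS l hl hlen k' k h hk, Nat.cast_sub h,
      abs_of_nonneg (sub_nonneg.2 (Nat.cast_le.2 h))]

theorem cone_geodesic {G : Type u} [Group G] {S : Set G} (hS : Subgroup.closure S = ⊤)
    (w : Ultrafilter ℕ) {d : ℕ → ℝ} (hd : ∀ n, 0 < d n) (hd2 : Tendsto d (w : Filter ℕ) atTop)
    (T : Type u) [MetricSpace T] (hT : IsAsymptoticCone S w d T) (x y : T) :
    ∃ c : ℝ → T, c 0 = x ∧ c (dist x y) = y ∧
      ∀ s ∈ Set.Icc (0 : ℝ) (dist x y), ∀ t ∈ Set.Icc (0 : ℝ) (dist x y),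
        dist (c s) (c t) = |s - t| := by
  obtain ⟨p, hp, hlim⟩ := hT
  obtain ⟨X, rfl⟩ := hp x
  obtain ⟨Y, rfl⟩ := hp y
  have hex : ∀ n, ∃ l : List G, l.length = wordLength S ((X.1 n)⁻¹ * Y.1 n) ∧
      (∀ x ∈ l, x ∈ S ∨ x⁻¹ ∈ S) ∧ l.prod = (X.1 n)⁻¹ * Y.1 n := fun n => wl_exists hS _
  choose l hlen hl hprod using hex
  have hlen' : ∀ n, (l n).length = wordLength S (l n).prod := by
    intro n
    rw [hprod]
    exact hlen n
  set k : ℝ → ℕ → ℕ := fun s n => min (l n).length ⌊s * d n⌋₊ with hk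
  have hkL : ∀ s n, k s n ≤ (l n).length := fun s n => min_le_left _ _
  have hL : ∀ n, wordDist S (X.1 n) (Y.1 n) = ((l n).length : ℝ) := by
    intro n
    unfold wordDist
    rw [hlen n]
  have hYn : ∀ n, Y.1 n = X.1 n * ((l n).take (l n).length).prod := by
    intro n
    rw [List.take_length, hprod]
    group
  have hadm : ∀ s, ∃ C : ℝ, ∀ n, wordDist S 1 (X.1 n * ((l n).take (k s n)).prod) ≤ C * d n := by
    intro s
    obtain ⟨C, hC⟩ := X.2
    obtain ⟨C', hC'⟩ := Y.2
    refine ⟨C + (C + C'), fun n => ?_⟩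
    have h1 := wd_tri hS 1 (X.1 n) (X.1 n * ((l n).take (k s n)).prod)
    have h2 : wordDist S (X.1 n) (X.1 n * ((l n).take (k s n)).prod) ≤ ((l n).length : ℝ) := by
      have h3 := c2_dist hS (X.1 n) (l n) (hl n) (hlen' n) 0 (k s n) (Nat.zero_le _) (hkL s n)
      rw [List.take_zero, List.prod_nil, mul_one] at h3
      rw [h3, Nat.cast_zero, zero_sub, abs_neg, Nat.abs_cast]
      exact Nat.cast_le.2 (hkL s n)
    have h4 : ((l n).length : ℝ) ≤ C * d n + C' * d n := by
      rw [← hL n]
      refine (wd_tri hS _ 1 _).trans ?_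
      rw [wd_comm hS (X.1 n) 1]
      exact add_le_add (hC n) (hC' n)
    have h5 := hC n
    calc _ ≤ _ := h1
      _ ≤ C * d n + (C * d n + C' * d n) := add_le_add h5 (h2.trans h4)
      _ = _ := by ring
  set Z : ℝ → ConeSeq S d := fun s => ⟨fun n => X.1 n * ((l n).take (k s n)).prod, hadm s⟩ with hZ
  set D : ℝ := dist (p X) (p Y) with hD
  have hLlim : Tendsto (fun n => ((l n).length : ℝ) / d n) (w : Filter ℕ) (nhds D) := by
    have h := hlim X Y
    unfold ConeLim at h
    refine h.congr (fun n => ?_)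
    rw [hL]
  have hklim : ∀ s ∈ Set.Icc (0 : ℝ) D,
      Tendsto (fun n => (k s n : ℝ) / d n) (w : Filter ℕ) (nhds s) := by
    intro s hs
    have h1 : Tendsto (fun n => ((⌊s * d n⌋₊ : ℕ) : ℝ) / d n) (w : Filter ℕ) (nhds s) :=
      (tendsto_nat_floor_mul_div_atTop hs.1).comp hd2
    have h2 := hLlim.min h1
    rw [min_eq_right hs.2] at h2
    refine h2.congr (fun n => ?_)
    rw [hk]
    simp only [Nat.cast_min]
    exact (min_div_div_right (hd n).le _ _)
  have hdist : ∀ s ∈ Set.Icc (0 : ℝ) D, ∀ t ∈ Set.Icc (0 : ℝ) D,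
      dist (p (Z s)) (p (Z t)) = |s - t| := by
    intro s hs t ht
    refine tendsto_nhds_unique (hlim (Z s) (Z t)) ?_
    have h1 := ((hklim s hs).sub (hklim t ht)).abs
    refine h1.congr (fun n => ?_)
    have h2 : wordDist S ((Z s).1 n) ((Z t).1 n) = |(k s n : ℝ) - k t n| :=
      c2_dist hS (X.1 n) (l n) (hl n) (hlen' n) (k s n) (k t n) (hkL s n) (hkL t n)
    rw [h2, ← sub_div, abs_div, abs_of_pos (hd n)]
  have hend : dist (p (Z D)) (p Y) = 0 := by
    refine tendsto_nhds_unique (hlim (Z D) Y) ?_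
    have h1 := ((hklim D ⟨dist_nonneg, le_rfl⟩).sub hLlim).abs
    rw [sub_self, abs_zero] at h1
    refine h1.congr (fun n => ?_)
    have h2 : wordDist S ((Z D).1 n) (Y.1 n) = |(k D n : ℝ) - (l n).length| := by
      have h3 := c2_dist hS (X.1 n) (l n) (hl n) (hlen' n) (k D n) (l n).length (hkL D n) le_rfl
      rw [← hYn n] at h3
      exact h3
    rw [h2, ← sub_div, abs_div, abs_of_pos (hd n)]
  have hstart : Z 0 = X := by
    apply Subtype.ext
    funext n
    change X.1 n * ((l n).take (k 0 n)).prod = X.1 n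
    have h0 : k 0 n = 0 := by
      rw [hk]
      simp
    rw [h0, List.take_zero, List.prod_nil, mul_one]
  exact ⟨fun s => p (Z s), by simp only [hstart], eq_of_dist_eq_zero hend, hdist⟩

end Pool.Agent.H34.LS
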