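import Pool.Agent.H34.LS.W1

/-!
C3: if the balls of radius `r n` satisfy the four point condition with error `e n`, where
`e n / d n → 0` and `r n / d n → ∞` along `w`, then the cone satisfies the four point condition
with constant zero: for four admissible sequences the four point inequality holds for `w`-almost
every `n`; divide by `d n` and pass to the limit (`le_of_tendsto_of_tendsto` and continuity of
`max` and `+`).
-/

namespace Pool.Agent.H34.LS

universe u

open Filter

theorem c3_dist {G : Type u} [Group G] (S : Set G) (g : G) :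
    (wordLength S g : ℝ) = wordDist S 1 g := by
  unfold wordDist
  rw [inv_one, one_mul]

theorem c3_len {G : Type u} [Group G] {S : Set G} (w : Ultrafilter ℕ) {d r : ℕ → ℝ}
    (hd : ∀ n, 0 < d n) (hr : Tendsto (fun n => r n / d n) (w : Filter ℕ) atTop)
    (X : ConeSeq S d) : ∀ᶠ n in (w : Filter ℕ), (wordLength S (X.1 n) : ℝ) ≤ r n := by
  obtain ⟨C, hC⟩ := X.2
  filter_upwards [hr.eventually_ge_atTop C] with n hn
  rw [c3_dist]
  exact (hC n).trans ((le_div_iff₀ (hd n)).1 hn)

theorem cone_fourPoint {G : Type u} [Group G] {S : Set G} (hS : Subgroup.closure S = ⊤)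
    (w : Ultrafilter ℕ) {d e r : ℕ → ℝ} (hd : ∀ n, 0 < d n)
    (he : Tendsto (fun n => e n / d n) (w : Filter ℕ) (nhds 0))
    (hr : Tendsto (fun n => r n / d n) (w : Filter ℕ) atTop)
    (h4 : ∀ n, ∀ x y z t : G, (wordLength S x : ℝ) ≤ r n → (wordLength S y : ℝ) ≤ r n →
      (wordLength S z : ℝ) ≤ r n → (wordLength S t : ℝ) ≤ r n →
      wordDist S x y + wordDist S z t ≤
        max (wordDist S x z + wordDist S y t) (wordDist S x t + wordDist S y z) + e n)
    (T : Type u) [MetricSpace T] (hT : IsAsymptoticCone S w d T) (x y z t : T) :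
    dist x y + dist z t ≤ max (dist x z + dist y t) (dist x t + dist y z) := by
  obtain ⟨p, hp, hlim⟩ := hT
  obtain ⟨X, rfl⟩ := hp x
  obtain ⟨Y, rfl⟩ := hp y
  obtain ⟨Z, rfl⟩ := hp z
  obtain ⟨U, rfl⟩ := hp t
  have h1 := (hlim X Y).add (hlim Z U)
  have h2 := (((hlim X Z).add (hlim Y U)).max ((hlim X U).add (hlim Y Z))).add he
  rw [add_zero] at h2
  refine le_of_tendsto_of_tendsto h1 h2 ?_
  filter_upwards [c3_len w hd hr X, c3_len w hd hr Y, c3_len w hd hr Z, c3_len w hd hr U]
    with n a b c f
  have h3 := h4 n _ _ _ _ a b c f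
  have hdn := hd n
  rw [← add_div, ← add_div, ← add_div, max_div_div_right hdn.le, ← add_div]
  exact div_le_div_of_nonneg_right h3 hdn.le

end Pool.Agent.H34.LS
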