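import Pool.Agent.H34.LS.C1
import Pool.Agent.H34.LS.C2
import Pool.Agent.H34.LS.C3

/-!
C4: assembly: balls of radius `r n` satisfy the four point condition with error `e n`,
`d n → ∞`, `e n / d n → 0`, `r n / d n → ∞`: then `G` is lacunary hyperbolic.
Use the ultrafilter `Filter.hyperfilter ℕ` (it is below `cofinite = atTop` on `ℕ`),
`exists_cone`, `cone_geodesic`, `cone_fourPoint`.
-/

namespace Pool.Agent.H34.LS

universe u

open Filter

theorem lacunary_of_approx {G : Type u} [Group G] {S : Set G} (hf : S.Finite)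
    (hS : Subgroup.closure S = ⊤) {d e r : ℕ → ℝ} (hd : ∀ n, 0 < d n)
    (hd2 : Tendsto d atTop atTop)
    (he : Tendsto (fun n => e n / d n) atTop (nhds 0))
    (hr : Tendsto (fun n => r n / d n) atTop atTop)
    (h4 : ∀ n, ∀ x y z t : G, (wordLength S x : ℝ) ≤ r n → (wordLength S y : ℝ) ≤ r n →
      (wordLength S z : ℝ) ≤ r n → (wordLength S t : ℝ) ≤ r n →
      wordDist S x y + wordDist S z t ≤
        max (wordDist S x z + wordDist S y t) (wordDist S x t + wordDist S y z) + e n) :
    LacunaryHyperbolic G := by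
  have hle : ((hyperfilter ℕ : Ultrafilter ℕ) : Filter ℕ) ≤ cofinite := hyperfilter_le_cofinite
  have hat : ((hyperfilter ℕ : Ultrafilter ℕ) : Filter ℕ) ≤ atTop := by
    rw [← Nat.cofinite_eq_atTop]
    exact hle
  obtain ⟨T, iT, hT⟩ := exists_cone hS (hyperfilter ℕ) hd
  exact ⟨S, hf, hS, hyperfilter ℕ, hle, d, hd, hd2.mono_left hat, T, iT, hT,
    fun x y => cone_geodesic hS (hyperfilter ℕ) hd (hd2.mono_left hat) T hT x y,
    fun x y z t => cone_fourPoint hS (hyperfilter ℕ) hd (he.mono_left hat) (hr.mono_left hat) h4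
      T hT x y z t⟩

end Pool.Agent.H34.LS
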