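import Mathlib

/-!
# Poisson boundaries and lacunary hyperbolic groups: definitions

All definitions used by the statements on Kaimanovich's stability conjecture
(problem MP_6350f2_pr).
-/

namespace Pool.Agent.H34.LS

open Filter

universe u v

/-! ### Random walks -/

/-- `mu` is a finitely supported probability measure on `G`, given by its weights. -/
structure IsFSProb {G : Type u} (mu : G → ℝ) : Prop where
  nonneg : ∀ g, 0 ≤ mu g
  finite : (Function.support mu).Finite
  total : ∑ᶠ g, mu g = 1

/-- the support of `mu` generates `G` as a semigroup. -/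
def Generating {G : Type u} [Group G] (mu : G → ℝ) : Prop :=
  Submonoid.closure (Function.support mu) = ⊤

/-- `mu` is symmetric. -/
def Symm {G : Type u} [Group G] (mu : G → ℝ) : Prop :=
  ∀ g, mu g⁻¹ = mu g

/-- `f` is `mu`-harmonic: `f g = sum_h mu h * f (g h)`. -/
def Harmonic {G : Type u} [Group G] (mu f : G → ℝ) : Prop :=
  ∀ g, f g = ∑ᶠ h, mu h * f (g * h)

/-- The Poisson boundary of `(G, mu)` is trivial: every bounded `mu`-harmonic function on `G`
is constant. -/
def TrivialBoundary {G : Type u} [Group G] (mu : G → ℝ) : Prop :=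
  ∀ f : G → ℝ, (∃ C, ∀ g, |f g| ≤ C) → Harmonic mu f → ∀ x y, f x = f y

/-- the image measure of `mu` under a map. -/
noncomputable def push {G : Type u} {H : Type v} (p : G → H) (mu : G → ℝ) : H → ℝ :=
  fun h => ∑ᶠ g ∈ p ⁻¹' {h}, mu g

/-! ### Groups -/

/-- `G` maps onto `ℤ` with locally finite kernel. -/
def LocFinByZ (G : Type u) [Group G] : Prop :=
  ∃ f : G →* Multiplicative ℤ, Function.Surjective f ∧
    ∀ s : Set G, s.Finite → s ⊆ (f.ker : Set G) → ((Subgroup.closure s : Subgroup G) : Set G).Finite

/-- word length of `g` with respect to the set `S` and its inverses (the least length of a word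
in `S` and inverses of elements of `S` that represents `g`). -/
noncomputable def wordLength {G : Type u} [Group G] (S : Set G) (g : G) : ℕ :=
  sInf {n | ∃ l : List G, l.length = n ∧ (∀ x ∈ l, x ∈ S ∨ x⁻¹ ∈ S) ∧ l.prod = g}

/-- word distance. -/
noncomputable def wordDist {G : Type u} [Group G] (S : Set G) (x y : G) : ℝ :=
  (wordLength S (x⁻¹ * y) : ℝ)

/-! ### Asymptotic cones -/

/-- the sequences of elements of `G` whose distance from `1` is `O(d n)`. -/
def ConeSeq {G : Type u} [Group G] (S : Set G) (d : ℕ → ℝ) : Type u :=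
  {x : ℕ → G // ∃ C : ℝ, ∀ n, wordDist S 1 (x n) ≤ C * d n}

/-- `r` is the limit along the ultrafilter `w` of the rescaled distances of two sequences. -/
def ConeLim {G : Type u} [Group G] (S : Set G) (w : Ultrafilter ℕ) (d : ℕ → ℝ)
    (x y : ConeSeq S d) (r : ℝ) : Prop :=
  Tendsto (fun n => wordDist S (x.1 n) (y.1 n) / d n) (w : Filter ℕ) (nhds r)

/-- The asymptotic cone of `G` (word metric of `S`, ultrafilter `w`, scaling sequence `d`) is
isometric to the metric space `T`: there is a surjection from the admissible sequences onto `T`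
that turns limits of rescaled distances into distances. -/
def IsAsymptoticCone {G : Type u} [Group G] (S : Set G) (w : Ultrafilter ℕ) (d : ℕ → ℝ)
    (T : Type u) [MetricSpace T] : Prop :=
  ∃ p : ConeSeq S d → T, Function.Surjective p ∧ ∀ x y, ConeLim S w d x y (dist (p x) (p y))

/-- A metric space is an `ℝ`-tree: it is geodesic and satisfies the four point condition with
constant zero. -/
def IsRTree (T : Type u) [MetricSpace T] : Prop :=
  (∀ x y : T, ∃ c : ℝ → T, c 0 = x ∧ c (dist x y) = y ∧
    ∀ s ∈ Set.Icc (0 : ℝ) (dist x y), ∀ t ∈ Set.Icc (0 : ℝ) (dist x y),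
      dist (c s) (c t) = |s - t|) ∧
  (∀ x y z t : T, dist x y + dist z t ≤ max (dist x z + dist y t) (dist x t + dist y z))

/-- `G` is lacunary hyperbolic (Olshanskii, Osin, Sapir): `G` is finitely generated and at least
one of its asymptotic cones, with respect to a word metric, a non-principal ultrafilter and a
scaling sequence tending to infinity, is an `ℝ`-tree. -/
def LacunaryHyperbolic (G : Type u) [Group G] : Prop :=
  ∃ S : Set G, S.Finite ∧ Subgroup.closure S = ⊤ ∧
  ∃ w : Ultrafilter ℕ, (w : Filter ℕ) ≤ Filter.cofinite ∧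
  ∃ d : ℕ → ℝ, (∀ n, 0 < d n) ∧ Tendsto d (w : Filter ℕ) atTop ∧
  ∃ (T : Type u) (_ : MetricSpace T), IsAsymptoticCone S w d T ∧ IsRTree T

end Pool.Agent.H34.LS
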