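import Pool.Agent.H34.LS.E1

/-!
E9: the Liouville property implies convergence in total variation. The sequence
`a n = nrm (shl g (p^n) - p^(n+1))` is nonincreasing (multiply on the right by `p`, `nrm_mul_le`,
`nrm_pa`). If it did not tend to `0`, then `a n ≥ c > 0` for all `n`. Let `phi n` be the sign of
`shl g (p^n) - p^(n+1)` and `u n = avg (p^n) (phi n)`; then `|u n| ≤ 1` and
`u n g - avg p (u n) 1 = Σ phi n * (shl g (p^n) - p^(n+1)) = a n ≥ c` (use `avg_shl`, `avg_mul`,
`p^(n+1) = p * p^n`). Let `f x` be the limit of `u n x` along `Filter.hyperfilter ℕ` (bounded real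
sequences converge along an ultrafilter). Then `|f| ≤ 1`, `avg p f = f` because
`|avg p (u n) x - u n x| = |avg (p^(n+1)) (phi n) x - avg (p^n) (phi n) x|
 ≤ nrm (p^(n+1) - p^n) → 0` and `avg p` is a finite sum, and `f g - f 1 ≥ c`: contradiction.
-/

namespace Pool.Agent.H34.LS

open Filter

universe u

variable {G : Type u} [Group G]

private theorem e9_avg_sub (p q : MonoidAlgebra ℝ G) (f : G → ℝ) (x : G) :
    avg (p - q) f x = avg p f x - avg q f x := by
  unfold avg
  rw [MonoidAlgebra.coeff_sub, Finsupp.sum_sub_index]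
  intro h a b
  ring

private theorem e9_sign (r : MonoidAlgebra ℝ G) :
    avg r (fun x => ((SignType.sign (r.coeff x) : SignType) : ℝ)) 1 = nrm r := by
  unfold avg nrm Finsupp.sum
  refine Finset.sum_congr rfl fun h _ => ?_
  dsimp only
  rw [one_mul]
  exact self_mul_sign _

private theorem e9_sign_le (a : ℝ) : |((SignType.sign a : SignType) : ℝ)| ≤ 1 := by
  rcases lt_trichotomy a 0 with h | h | h
  · rw [sign_neg h]; simp
  · rw [h, sign_zero]; simp
  · rw [sign_pos h]; simp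

theorem tv_of_liou {p : MonoidAlgebra ℝ G} (hp : PA p) (hL : Liou p)
    (hlim : Tendsto (fun n : ℕ => nrm (p ^ (n + 1) - p ^ n)) atTop (nhds 0)) (g : G) :
    Tendsto (fun n : ℕ => nrm (shl g (p ^ n) - p ^ (n + 1))) atTop (nhds 0) := by
  set a : ℕ → ℝ := fun n => nrm (shl g (p ^ n) - p ^ (n + 1)) with ha
  have hanti : Antitone a := by
    refine antitone_nat_of_succ_le fun n => ?_
    have h1 : shl g (p ^ (n + 1)) - p ^ (n + 1 + 1) = (shl g (p ^ n) - p ^ (n + 1)) * p := by
      unfold shl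
      rw [sub_mul, mul_assoc, ← pow_succ, ← pow_succ]
    change nrm (shl g (p ^ (n + 1)) - p ^ (n + 1 + 1)) ≤ nrm (shl g (p ^ n) - p ^ (n + 1))
    rw [h1]
    calc nrm ((shl g (p ^ n) - p ^ (n + 1)) * p) ≤ nrm (shl g (p ^ n) - p ^ (n + 1)) * nrm p :=
          nrm_mul_le _ _
      _ = nrm (shl g (p ^ n) - p ^ (n + 1)) := by rw [nrm_pa hp, mul_one]
  have hbdd : BddBelow (Set.range a) := ⟨0, by
    rintro _ ⟨n, rfl⟩
    exact nrm_nonneg _⟩
  have hlima : Tendsto a atTop (nhds (⨅ n, a n)) := tendsto_atTop_ciInf hanti hbdd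
  have hc0 : 0 ≤ ⨅ n, a n := le_ciInf fun n => nrm_nonneg _
  rcases hc0.lt_or_eq with hc | hc
  swap
  · rw [← hc] at hlima
    exact hlima
  exfalso
  have hac : ∀ n, (⨅ n, a n) ≤ a n := fun n => ciInf_le hbdd n
  let φ : ℕ → G → ℝ := fun n x =>
    ((SignType.sign ((shl g (p ^ n) - p ^ (n + 1)).coeff x) : SignType) : ℝ)
  have hφ : ∀ n x, |φ n x| ≤ 1 := fun n x => e9_sign_le _
  let u : ℕ → G → ℝ := fun n => avg (p ^ n) (φ n)
  have hu : ∀ n x, |u n x| ≤ 1 := fun n x => avg_bound (pa_pow hp n) (hφ n) x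
  have hpu : ∀ n, avg p (u n) = avg (p ^ (n + 1)) (φ n) := by
    intro n
    rw [pow_succ', avg_mul]
  have hkey : ∀ n, u n g - avg p (u n) 1 = a n := by
    intro n
    have h1 : u n g = avg (shl g (p ^ n)) (φ n) 1 := by
      rw [avg_shl, one_mul]
    rw [h1, hpu n, ← e9_avg_sub]
    exact e9_sign _
  have hex : ∀ x, ∃ y : ℝ, Tendsto (fun n => u n x) (hyperfilter ℕ : Filter ℕ) (nhds y) ∧
      |y| ≤ 1 := by
    intro x
    have hK : IsCompact (Set.Icc (-1 : ℝ) 1) := isCompact_Icc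
    have hmem : ∀ᶠ n in (hyperfilter ℕ : Filter ℕ), u n x ∈ Set.Icc (-1 : ℝ) 1 :=
      Filter.Eventually.of_forall fun n => abs_le.1 (hu n x)
    obtain ⟨y, hy, hle⟩ := hK.ultrafilter_le_nhds ((hyperfilter ℕ).map fun n => u n x) (by
      rw [Filter.le_principal_iff]
      exact hmem)
    exact ⟨y, hle, abs_le.2 hy⟩
  choose f hf hf1 using hex
  have hpf : ∀ x, Tendsto (fun n => avg p (u n) x) (hyperfilter ℕ : Filter ℕ)
      (nhds (avg p f x)) := by
    intro x
    unfold avg Finsupp.sum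
    exact tendsto_finsetSum _ fun h _ => (hf (x * h)).const_mul _
  have hcof : (hyperfilter ℕ : Filter ℕ) ≤ atTop := by
    rw [← Nat.cofinite_eq_atTop]
    exact hyperfilter_le_cofinite
  have hharm : avg p f = f := by
    funext x
    have h1 : Tendsto (fun n => avg p (u n) x - u n x) (hyperfilter ℕ : Filter ℕ)
        (nhds (avg p f x - f x)) := (hpf x).sub (hf x)
    have h2 : Tendsto (fun n => avg p (u n) x - u n x) (hyperfilter ℕ : Filter ℕ) (nhds 0) := by
      refine squeeze_zero_norm (fun n => ?_) (hlim.mono_left hcof)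
      rw [Real.norm_eq_abs, hpu n]
      calc |avg (p ^ (n + 1)) (φ n) x - u n x| ≤ 1 * nrm (p ^ (n + 1) - p ^ n) :=
            avg_sub_le _ _ (hφ n) x
        _ = nrm (p ^ (n + 1) - p ^ n) := one_mul _
    have h3 := tendsto_nhds_unique h1 h2
    linarith
  have hfin : Tendsto (fun n => u n g - avg p (u n) 1) (hyperfilter ℕ : Filter ℕ)
      (nhds (f g - avg p f 1)) := (hf g).sub (hpf 1)
  have hge : (⨅ n, a n) ≤ f g - avg p f 1 :=
    ge_of_tendsto' hfin fun n => by rw [hkey n]; exact hac n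
  have hff : f g = f 1 := hL f ⟨1, hf1⟩ hharm g 1
  rw [hharm, hff, sub_self] at hge
  exact absurd hge (not_le.2 hc)

end Pool.Agent.H34.LS
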