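import Pool.Agent.H34.LS.E5
import Pool.Agent.H34.LS.E6
import Pool.Agent.H34.LS.E9

/-!
E10: the Liouville property (with vanishing time differences) implies zero entropy.
`incr_tendsto`: `ent (p^(n+1)) - ent (p^n) = Σ_g p g kl (shl g (p^n)) (p^(n+1))` (`ent_step`), and
`kl (shl g (p^n)) (p^(n+1)) ≤ nrm (shl g (p^n) - p^(n+1)) / p g` by `kl_le_l1` with `c = p g`
(`p g * (shl g q) x ≤ (p q) x`), so the increment is at most the finite sum over the support of
`nrm (shl g (p^n) - p^(n+1)) → 0`.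
`ent_div_tendsto`: Cesaro (`Filter.Tendsto.cesaro`) with `ent 1 = 0`.
-/

namespace Pool.Agent.H34.LS

open Filter

universe u

variable {G : Type u} [Group G]

private theorem e10_le {p q : MonoidAlgebra ℝ G} (hp : PA p) (hq : PA q) (g x : G) :
    p.coeff g * (shl g q).coeff x ≤ (p * q).coeff x := by
  have h1 : (shl g q).coeff x = q.coeff (g⁻¹ * x) := by
    unfold shl
    rw [MonoidAlgebra.coeff_single_mul_apply, one_mul]
  have h2 : (p * q).coeff x = ∑ h ∈ p.coeff.support, p.coeff h * q.coeff (h⁻¹ * x) := by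
    rw [MonoidAlgebra.coeff_mul_apply_left]
    rfl
  rw [h1, h2]
  by_cases hg : g ∈ p.coeff.support
  · exact Finset.single_le_sum (f := fun h => p.coeff h * q.coeff (h⁻¹ * x))
      (fun h _ => mul_nonneg (hp.1 h) (hq.1 _)) hg
  · rw [Finsupp.notMem_support_iff] at hg
    rw [hg, zero_mul]
    exact Finset.sum_nonneg fun h _ => mul_nonneg (hp.1 h) (hq.1 _)

private theorem e10_kl {p q : MonoidAlgebra ℝ G} (hp : PA p) (hq : PA q) (g : G)
    (hg : g ∈ p.coeff.support) :
    p.coeff g * kl (shl g q).coeff (p * q).coeff ≤ nrm (shl g q - p * q) := by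
  have h0 : 0 < p.coeff g := lt_of_le_of_ne (hp.1 g) (Finsupp.mem_support_iff.1 hg).symm
  have h1 : p.coeff g ≤ 1 := by
    rw [← hp.2]
    exact Finset.single_le_sum (f := fun h => p.coeff h) (fun h _ => hp.1 h) hg
  have h2 := kl_le_l1 (shl g q).coeff (p * q).coeff (pa_shl hq g).1 (pa_mul hp hq).1
    (pa_shl hq g).2 (pa_mul hp hq).2 h0 h1 (e10_le hp hq g)
  have h3 : nrm (shl g q - p * q) =
      ((shl g q).coeff - (p * q).coeff).sum (fun _ a => |a|) := by
    unfold nrm
    rw [MonoidAlgebra.coeff_sub]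
  rw [h3]
  calc p.coeff g * kl (shl g q).coeff (p * q).coeff ≤
      p.coeff g * (((shl g q).coeff - (p * q).coeff).sum (fun _ a => |a|) / p.coeff g) :=
        mul_le_mul_of_nonneg_left h2 h0.le
    _ = _ := mul_div_cancel₀ _ h0.ne'

theorem incr_tendsto {p : MonoidAlgebra ℝ G} (hp : PA p) (hL : Liou p)
    (hlim : Tendsto (fun n : ℕ => nrm (p ^ (n + 1) - p ^ n)) atTop (nhds 0)) :
    Tendsto (fun n : ℕ => ent (p ^ (n + 1)) - ent (p ^ n)) atTop (nhds 0) := by
  have h1 : Tendsto (fun n : ℕ => ∑ g ∈ p.coeff.support, nrm (shl g (p ^ n) - p ^ (n + 1)))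
      atTop (nhds 0) := by
    have h2 := tendsto_finsetSum p.coeff.support
      (f := fun (g : G) (n : ℕ) => nrm (shl g (p ^ n) - p ^ (n + 1))) (a := fun _ => (0 : ℝ))
      (x := atTop) (fun g _ => tv_of_liou hp hL hlim g)
    rwa [Finset.sum_const_zero] at h2
  refine squeeze_zero (fun n => ent_step_nonneg hp n) (fun n => ?_) h1
  rw [pow_succ', ent_step hp (pa_pow hp n)]
  exact Finset.sum_le_sum fun g hg => e10_kl hp (pa_pow hp n) g hg

theorem ent_div_tendsto {p : MonoidAlgebra ℝ G} (hp : PA p) (hL : Liou p)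
    (hlim : Tendsto (fun n : ℕ => nrm (p ^ (n + 1) - p ^ n)) atTop (nhds 0)) :
    Tendsto (fun n : ℕ => ent (p ^ n) / n) atTop (nhds 0) := by
  have h1 := (incr_tendsto hp hL hlim).cesaro
  have h2 : (fun n : ℕ => ent (p ^ n) / n) =
      fun n : ℕ => (n : ℝ)⁻¹ * ∑ i ∈ Finset.range n, (ent (p ^ (i + 1)) - ent (p ^ i)) := by
    funext n
    rw [Finset.sum_range_sub (fun i => ent (p ^ i)), pow_zero, ent_one, sub_zero, div_eq_inv_mul]
  rw [h2]
  exact h1

end Pool.Agent.H34.LS
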