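import Pool.Agent.H34.LS.E7

/-!
E11: if `ent (p^n) ≤ e n` for arbitrarily small `e` and arbitrarily large `n`, then the increments
become small: they are nonincreasing and nonnegative (`ent_mono`, `ent_step_nonneg`), so
`n * (ent (p^n) - ent (p^(n-1))) ≤ ent (p^n)`. Conclude with `liou_of_small`.
-/

namespace Pool.Agent.H34.LS

universe u

variable {G : Type u} [Group G]

theorem liou_of_ent {p : MonoidAlgebra ℝ G} (hp : PA p)
    (hgen : Submonoid.closure {g | p.coeff g ≠ 0} = ⊤)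
    (h : ∀ e : ℝ, 0 < e → ∃ n : ℕ, 0 < n ∧ ent (p ^ n) ≤ e * n) : Liou p := by
  refine liou_of_small hp hgen fun e he => ?_
  obtain ⟨n, hn, hle⟩ := h (e / 2) (by linarith)
  have hanti : Antitone fun k : ℕ => ent (p ^ (k + 1)) - ent (p ^ k) :=
    antitone_nat_of_succ_le fun k => ent_mono hp k
  obtain ⟨m, rfl⟩ : ∃ m, n = m + 1 := ⟨n - 1, by omega⟩
  refine ⟨m, ?_⟩
  have hsum : ent (p ^ (m + 1)) =
      ∑ k ∈ Finset.range (m + 1), (ent (p ^ (k + 1)) - ent (p ^ k)) := by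
    rw [Finset.sum_range_sub (fun k => ent (p ^ k)), pow_zero, ent_one, sub_zero]
  have hlow : ∑ _k ∈ Finset.range (m + 1), (ent (p ^ (m + 1)) - ent (p ^ m)) ≤
      ∑ k ∈ Finset.range (m + 1), (ent (p ^ (k + 1)) - ent (p ^ k)) :=
    Finset.sum_le_sum fun k hk => hanti (Nat.lt_succ_iff.1 (Finset.mem_range.1 hk))
  rw [Finset.sum_const, Finset.card_range, nsmul_eq_mul, ← hsum] at hlow
  have hm : (0 : ℝ) < ((m + 1 : ℕ) : ℝ) := by positivity
  have h1 : ((m + 1 : ℕ) : ℝ) * (ent (p ^ (m + 1)) - ent (p ^ m)) ≤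
      ((m + 1 : ℕ) : ℝ) * (e / 2) := by
    rw [mul_comm _ (e / 2)]
    exact hlow.trans hle
  have h2 := le_of_mul_le_mul_left h1 hm
  linarith

end Pool.Agent.H34.LS
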