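import Pool.Agent.H34.LS.Fwd

/-!
E3: adding a coordinate with values in a finite set of cardinality `k` raises the entropy by at
most `log k`. For a fixed value `y` of `a`, let `q_z` be the mass of `(y, z)` and `Q = Σ_z q_z`;
Jensen (concavity of `negMulLog`, `Real.concaveOn_negMulLog`, uniform weights `1/k`) gives
`Σ_z negMulLog q_z ≤ k * negMulLog (Q/k) = negMulLog Q + Q * log k`. Sum over `y`.
-/

namespace Pool.Agent.H34.LS

universe u v w

private theorem e3_apply {X : Type u} {W : Type v} [DecidableEq W] (p : X →₀ ℝ) (f : X → W)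
    (w : W) : (p.mapDomain f) w = ∑ x ∈ p.support, if f x = w then p x else 0 := by
  classical
  unfold Finsupp.mapDomain
  rw [Finsupp.sum_apply, Finsupp.sum]
  refine Finset.sum_congr rfl (fun x _ => ?_)
  rw [Finsupp.single_apply]

private theorem e3_nonneg {X : Type u} {W : Type v} (p : X →₀ ℝ) (hp : ∀ x, 0 ≤ p x)
    (f : X → W) (w : W) : 0 ≤ (p.mapDomain f) w := by
  classical
  rw [e3_apply]
  refine Finset.sum_nonneg (fun x _ => ?_)
  split_ifs
  · exact hp x
  · exact le_refl 0

private theorem e3_fiber {X : Type u} {Y : Type v} {Z : Type w} [Fintype Z] (p : X →₀ ℝ)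
    (a : X → Y) (c : X → Z) (y : Y) :
    ∑ z : Z, (p.mapDomain (fun x => (a x, c x))) (y, z) = (p.mapDomain a) y := by
  classical
  rw [e3_apply]
  have h : ∀ z : Z, (p.mapDomain (fun x => (a x, c x))) (y, z) =
      ∑ x ∈ p.support, if (a x, c x) = (y, z) then p x else 0 := fun z => e3_apply p _ _
  rw [Finset.sum_congr rfl (fun z _ => h z), Finset.sum_comm]
  refine Finset.sum_congr rfl (fun x _ => ?_)
  by_cases hy : a x = y
  · rw [if_pos hy, Finset.sum_eq_single (c x)]
    · rw [if_pos (by rw [hy])]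
    · intro z _ hz
      rw [if_neg]
      intro h'
      exact hz (Prod.mk.inj h').2.symm
    · intro hc
      exact absurd (Finset.mem_univ _) hc
  · rw [if_neg hy]
    refine Finset.sum_eq_zero (fun z _ => ?_)
    rw [if_neg]
    intro h'
    exact hy (Prod.mk.inj h').1

private theorem e3_jensen {Z : Type w} [Fintype Z] [Nonempty Z] (q : Z → ℝ) (hq : ∀ z, 0 ≤ q z) :
    ∑ z, Real.negMulLog (q z) ≤
      Real.negMulLog (∑ z, q z) + (∑ z, q z) * Real.log (Fintype.card Z : ℝ) := by
  have hk : (0 : ℝ) < (Fintype.card Z : ℝ) := by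
    exact_mod_cast Fintype.card_pos
  have hJ := Real.concaveOn_negMulLog.le_map_sum (t := (Finset.univ : Finset Z))
    (w := fun _ => (Fintype.card Z : ℝ)⁻¹) (p := q) (fun _ _ => (inv_pos.2 hk).le)
    (by
      rw [Finset.sum_const, Finset.card_univ, nsmul_eq_mul]
      exact mul_inv_cancel₀ hk.ne')
    (fun z _ => hq z)
  simp only [smul_eq_mul] at hJ
  rw [← Finset.mul_sum, ← Finset.mul_sum, mul_comm _ (∑ z, q z), Real.negMulLog_mul] at hJ
  have h1 : Real.negMulLog ((Fintype.card Z : ℝ)⁻¹) =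
      (Fintype.card Z : ℝ)⁻¹ * Real.log (Fintype.card Z : ℝ) := by
    unfold Real.negMulLog
    rw [Real.log_inv]
    ring
  rw [h1] at hJ
  have h2 := mul_le_mul_of_nonneg_left hJ hk.le
  rw [← mul_assoc, mul_inv_cancel₀ hk.ne', one_mul] at h2
  refine h2.trans (le_of_eq ?_)
  field_simp

theorem fent_index {X : Type u} {Y : Type v} {Z : Type w} [Finite Z] [Nonempty Z]
    (p : X →₀ ℝ) (hp : ∀ x, 0 ≤ p x) (h1 : p.sum (fun _ a => a) = 1)
    (a : X → Y) (c : X → Z) :
    fent (p.mapDomain (fun x => (a x, c x))) ≤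
      fent (p.mapDomain a) + Real.log (Nat.card Z : ℝ) := by
  classical
  have : Fintype Z := Fintype.ofFinite Z
  rw [Nat.card_eq_fintype_card]
  set r : Y × Z →₀ ℝ := p.mapDomain (fun x => (a x, c x)) with hr
  set s : Y →₀ ℝ := p.mapDomain a with hs
  have hr0 : ∀ w, 0 ≤ r w := fun w => e3_nonneg p hp _ w
  have hfib : ∀ y, ∑ z : Z, r (y, z) = s y := fun y => e3_fiber p a c y
  have hsub : r.support ⊆ s.support ×ˢ (Finset.univ : Finset Z) := by
    rintro ⟨y, z⟩ hyz
    rw [Finset.mem_product]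
    refine ⟨?_, Finset.mem_univ _⟩
    simp only []
    rw [Finsupp.mem_support_iff] at hyz ⊢
    intro h0
    rw [← hfib y] at h0
    exact hyz ((Finset.sum_eq_zero_iff_of_nonneg (fun z _ => hr0 (y, z))).1 h0 z
      (Finset.mem_univ z))
  have e1 : fent r = ∑ y ∈ s.support, ∑ z : Z, Real.negMulLog (r (y, z)) := by
    unfold fent Finsupp.sum
    rw [Finset.sum_subset hsub, Finset.sum_product]
    intro w _ hw
    rw [Finsupp.notMem_support_iff.1 hw]
    exact Real.negMulLog_zero
  have e2 : ∑ y ∈ s.support, s y = 1 := by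
    have h2 : s.sum (fun _ a => a) = 1 := by
      rw [hs, Finsupp.sum_mapDomain_index (fun _ => rfl) (fun _ _ _ => rfl)]
      exact h1
    exact h2
  rw [e1]
  calc ∑ y ∈ s.support, ∑ z : Z, Real.negMulLog (r (y, z))
      ≤ ∑ y ∈ s.support, (Real.negMulLog (s y) + s y * Real.log (Fintype.card Z : ℝ)) := by
        refine Finset.sum_le_sum (fun y _ => ?_)
        have h3 := e3_jensen (fun z => r (y, z)) (fun z => hr0 (y, z))
        simp only [hfib y] at h3
        exact h3
    _ = fent s + Real.log (Fintype.card Z : ℝ) := by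
        rw [Finset.sum_add_distrib, ← Finset.sum_mul, e2, one_mul]
        rfl

end Pool.Agent.H34.LS
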