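import Pool.Agent.H34.LS.E2
import Pool.Agent.H34.LS.E3
import Pool.Agent.H34.LS.E1
import Pool.Agent.H34.LS.W1

/-!
E12: comparison of entropies. `p` lives on `G = pi F`. Choose for every `g` in the support of `p`
a preimage in `F`; this gives `q : MonoidAlgebra ℝ F` with `PA q`, `mp pi q = p`, support in the
ball of radius `rho` (take `rho` the maximal word length of the chosen preimages). The support of
`q ^ n` consists of products of `n` elements of the support of `q` (or induct on `n`), so it lies
in the ball of radius `n * rho`. Now `ent (p^n) = fent (q^n mapped by pi)` (ring homomorphism), and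
for `x, y` in the support of `q^n` with `theta (pi x) = theta (pi y)` and `x U = y U` the element
`x⁻¹ * y` has length `≤ 2 n rho ≤ l`, lies in `U` and in the kernel of `theta ∘ pi`, so
`pi x = pi y`. Hence by `fent_coarse` (map `pi` against the map `x ↦ (theta (pi x), x U)` with
values in `G' × F ⧸ U`) and `fent_index`,
`ent (p^n) ≤ ent ((mp theta p)^n) + log (index U)`.
-/

namespace Pool.Agent.H34.LS

universe u v w

theorem e12_lift {F : Type u} {G : Type v} [Group F] [Group G]
    (pi : F →* G) (hpi : Function.Surjective pi) {p : MonoidAlgebra ℝ G} (hp : PA p) :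
    ∃ q : MonoidAlgebra ℝ F, PA q ∧ mp pi q = p := by
  classical
  have hsec : ∀ g, pi (Function.surjInv hpi g) = g := Function.surjInv_eq hpi
  have hinj : Function.Injective (Function.surjInv hpi) := Function.injective_surjInv hpi
  refine ⟨MonoidAlgebra.ofCoeff (Finsupp.mapDomain (Function.surjInv hpi) p.coeff), ⟨?_, ?_⟩, ?_⟩
  · intro x
    rw [MonoidAlgebra.coeff_ofCoeff]
    by_cases hx : x ∈ Set.range (Function.surjInv hpi)
    · obtain ⟨g, rfl⟩ := hx
      rw [Finsupp.mapDomain_apply hinj]
      exact hp.1 g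
    · rw [Finsupp.mapDomain_of_notMem_range _ _ hx]
  · rw [MonoidAlgebra.coeff_ofCoeff, Finsupp.sum_mapDomain_index (fun _ => rfl)
      (fun _ _ _ => rfl)]
    exact hp.2
  · apply MonoidAlgebra.coeff_injective
    change Finsupp.mapDomain pi (Finsupp.mapDomain (Function.surjInv hpi) p.coeff) = p.coeff
    rw [← Finsupp.mapDomain_comp]
    have : (pi : F → G) ∘ Function.surjInv hpi = id := funext hsec
    rw [this, Finsupp.mapDomain_id]

theorem e12_support {F : Type u} [Group F] {S : Set F} (hS : Subgroup.closure S = ⊤)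
    (q : MonoidAlgebra ℝ F) (n : ℕ) :
    ∀ x ∈ (q ^ n).coeff.support, wordLength S x ≤ n * q.coeff.support.sup (wordLength S) := by
  classical
  induction n with
  | zero =>
    intro x hx
    rw [pow_zero, MonoidAlgebra.one_def] at hx
    have h1 := Finsupp.support_single_subset hx
    rw [Finset.mem_singleton] at h1
    rw [h1, wl_one]
    exact Nat.zero_le _
  | succ n ih =>
    intro x hx
    rw [pow_succ] at hx
    have h1 := MonoidAlgebra.support_coeff_mul_subset _ _ hx
    obtain ⟨y, hy, z, hz, rfl⟩ := Finset.mem_mul.1 h1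
    have h2 := wl_mul hS y z
    have h3 := ih y hy
    have h4 : wordLength S z ≤ q.coeff.support.sup (wordLength S) :=
      Finset.le_sup (f := wordLength S) hz
    rw [Nat.succ_mul]
    omega

theorem ent_compare {F : Type u} {G : Type v} {G' : Type w} [Group F] [Group G] [Group G']
    {S : Set F} (hS : Subgroup.closure S = ⊤) (pi : F →* G) (hpi : Function.Surjective pi)
    (theta : G →* G') {p : MonoidAlgebra ℝ G} (hp : PA p) :
    ∃ rho : ℕ, ∀ (U : Subgroup F) (l : ℕ), U.Normal → U.FiniteIndex →
      (∀ x, wordLength S x ≤ l → x ∈ U → theta (pi x) = 1 → pi x = 1) →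
      ∀ n : ℕ, 2 * (n * rho) ≤ l →
        ent (p ^ n) ≤ ent ((mp theta p) ^ n) + Real.log (U.index : ℝ) := by
  classical
  obtain ⟨q, hq, rfl⟩ := e12_lift pi hpi hp
  refine ⟨q.coeff.support.sup (wordLength S), ?_⟩
  intro U l _ hfi hU n hn
  have hpa := pa_pow hq n
  have e1 : ent ((mp pi q) ^ n) = fent (Finsupp.mapDomain pi (q ^ n).coeff) := by
    have h1 : (mp pi q) ^ n = mp pi (q ^ n) := (map_pow _ q n).symm
    rw [h1]
    rfl
  have e2 : ent ((mp theta (mp pi q)) ^ n) =
      fent (Finsupp.mapDomain (fun x => theta (pi x)) (q ^ n).coeff) := by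
    have h1 : (mp theta (mp pi q)) ^ n = mp theta (mp pi (q ^ n)) := by
      unfold mp
      rw [map_pow, map_pow]
    rw [h1]
    have h2 : (mp theta (mp pi (q ^ n))).coeff =
        Finsupp.mapDomain (fun x => theta (pi x)) (q ^ n).coeff := by
      change Finsupp.mapDomain theta (Finsupp.mapDomain pi (q ^ n).coeff) = _
      rw [← Finsupp.mapDomain_comp]
      rfl
    unfold ent
    rw [h2]
  have h3 : fent (Finsupp.mapDomain pi (q ^ n).coeff) ≤
      fent (Finsupp.mapDomain (fun x => (theta (pi x), (QuotientGroup.mk x : F ⧸ U)))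
        (q ^ n).coeff) := by
    refine fent_coarse (q ^ n).coeff hpa.1 pi
      (fun x => (theta (pi x), (QuotientGroup.mk x : F ⧸ U))) ?_
    intro x hx y hy hxy
    rw [Prod.mk.injEq] at hxy
    obtain ⟨h4, h5⟩ := hxy
    have h6 : x⁻¹ * y ∈ U := QuotientGroup.eq.1 h5
    have h7 := wl_mul hS x⁻¹ y
    rw [wl_inv hS] at h7
    have h8 := e12_support hS q n x hx
    have h9 := e12_support hS q n y hy
    have h10 : theta (pi (x⁻¹ * y)) = 1 := by
      rw [map_mul, map_mul, map_inv, map_inv, h4, inv_mul_cancel]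
    have h11 := hU (x⁻¹ * y) (by omega) h6 h10
    rw [map_mul, map_inv, inv_mul_eq_one] at h11
    exact h11
  have h12 := fent_index (Z := F ⧸ U) (q ^ n).coeff hpa.1 hpa.2 (fun x => theta (pi x))
    (fun x => (QuotientGroup.mk x : F ⧸ U))
  rw [e1, e2]
  refine h3.trans (h12.trans (le_of_eq ?_))
  rfl

end Pool.Agent.H34.LS
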