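import Pool.Agent.H34.LS.E1

/-!
E8: lazy walks. `lz p = (1 + p) / 2`. Same bounded harmonic functions. `lz_norm`:
`(lz p)^n = Σ_k C(n,k) 2^(-n) p^k` (`Commute.add_pow`, 1 and p commute), so
`nrm ((lz p)^(n+1) - (lz p)^n) ≤ Σ_k |C(n+1,k) 2^(-n-1) - C(n,k) 2^(-n)|
 = 2^(-n-1) Σ_k |C(n,k-1) - C(n,k)| ≤ 2^(-n) C(n, n/2)` (unimodality, telescoping), which tends
to `0`. (Any other proof is welcome, for instance via `nrm ((1+p)^n (1-p)) 2^(-n-1)`.)
-/

namespace Pool.Agent.H34.LS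

open Filter

universe u v

variable {G : Type u} [Group G] {H : Type v} [Group H]

/-- the lazy version of `p`. -/
noncomputable def lz (p : MonoidAlgebra ℝ G) : MonoidAlgebra ℝ G := (1 / 2 : ℝ) • (1 + p)

omit [Group G] in
private theorem e8_sum_id_add (a b : G →₀ ℝ) :
    (a + b).sum (fun _ x => x) = a.sum (fun _ x => x) + b.sum (fun _ x => x) :=
  Finsupp.sum_add_index' (fun _ => rfl) (fun _ _ _ => rfl)

theorem lz_pa {p : MonoidAlgebra ℝ G} (hp : PA p) : PA (lz p) := by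
  have h1 : PA (1 : MonoidAlgebra ℝ G) := pa_one
  refine ⟨fun g => ?_, ?_⟩
  · have e : (lz p).coeff g = (1 / 2 : ℝ) * ((1 : MonoidAlgebra ℝ G).coeff g + p.coeff g) := rfl
    rw [e]
    have a1 := h1.1 g
    have a2 := hp.1 g
    positivity
  · have e : (lz p).coeff = (1 / 2 : ℝ) • ((1 : MonoidAlgebra ℝ G).coeff + p.coeff) := rfl
    rw [e, Finsupp.sum_smul_index (fun _ => rfl)]
    have : (((1 : MonoidAlgebra ℝ G).coeff + p.coeff).sum fun _ a => (1 / 2 : ℝ) * a)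
        = (1 / 2 : ℝ) * (((1 : MonoidAlgebra ℝ G).coeff + p.coeff).sum fun _ a => a) := by
      rw [Finsupp.mul_sum]
    rw [this, e8_sum_id_add, h1.2, hp.2]
    norm_num

private theorem e8_avg_lz (p : MonoidAlgebra ℝ G) (f : G → ℝ) (x : G) :
    avg (lz p) f x = (1 / 2 : ℝ) * (f x + avg p f x) := by
  have h1 : avg (1 : MonoidAlgebra ℝ G) f x = f x := by rw [avg_one]
  have e : (lz p).coeff = (1 / 2 : ℝ) • ((1 : MonoidAlgebra ℝ G).coeff + p.coeff) := rfl
  have : avg (lz p) f x = (1 / 2 : ℝ) * (avg (1 : MonoidAlgebra ℝ G) f x + avg p f x) := by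
    unfold avg
    rw [e, Finsupp.sum_smul_index (fun _ => by simp),
      ← Finsupp.sum_add_index' (f := (1 : MonoidAlgebra ℝ G).coeff) (g := p.coeff)
        (h := fun h a => a * f (x * h)) (fun _ => by simp) (fun _ _ _ => by ring), Finsupp.mul_sum]
    refine Finsupp.sum_congr fun h _ => by ring
  rw [this, h1]

theorem lz_liou (p : MonoidAlgebra ℝ G) : Liou (lz p) ↔ Liou p := by
  have key : ∀ f : G → ℝ, avg (lz p) f = f ↔ avg p f = f := by
    intro f
    constructor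
    · intro h
      funext x
      have := congrFun h x
      rw [e8_avg_lz] at this
      linarith
    · intro h
      funext x
      have := congrFun h x
      rw [e8_avg_lz]
      linarith
  unfold Liou
  simp only [key]

theorem lz_mp (f : G →* H) (p : MonoidAlgebra ℝ G) : mp f (lz p) = lz (mp f p) := by
  unfold lz mp
  have h : ∀ (c : ℝ) (x : MonoidAlgebra ℝ G), MonoidAlgebra.mapDomainRingHom ℝ f (c • x)
      = c • MonoidAlgebra.mapDomainRingHom ℝ f x := fun c x =>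
    MonoidAlgebra.mapDomain_smul f c x
  rw [h, map_add, map_one]

theorem lz_gen {p : MonoidAlgebra ℝ G} (hp : PA p)
    (hgen : Submonoid.closure {g | p.coeff g ≠ 0} = ⊤) :
    Submonoid.closure {g | (lz p).coeff g ≠ 0} = ⊤ := by
  rw [eq_top_iff, ← hgen]
  refine Submonoid.closure_mono fun g hg => ?_
  have h1 : PA (1 : MonoidAlgebra ℝ G) := pa_one
  have e : (lz p).coeff g = (1 / 2 : ℝ) * ((1 : MonoidAlgebra ℝ G).coeff g + p.coeff g) := rfl
  have a1 := h1.1 g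
  have a2 : 0 < p.coeff g := lt_of_le_of_ne (hp.1 g) (Ne.symm hg)
  have : 0 < (lz p).coeff g := by rw [e]; positivity
  exact this.ne'

private theorem e8_nrm_sum_le {ι : Type} (s : Finset ι) (f : ι → MonoidAlgebra ℝ G) :
    nrm (∑ i ∈ s, f i) ≤ ∑ i ∈ s, nrm (f i) := by
  classical
  induction s using Finset.induction_on with
  | empty => simp [nrm]
  | insert a s ha ih =>
    rw [Finset.sum_insert ha, Finset.sum_insert ha]
    exact (nrm_add_le _ _).trans (by linarith)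

private theorem e8_var (N : ℕ) :
    ∑ k ∈ Finset.range (N + 1), ((N : ℝ) / 2 - k) ^ 2 * ((N.choose k : ℝ) * (1 / 2) ^ N)
      = (N : ℝ) / 4 := by
  have h := bernsteinPolynomial.variance ℝ N
  have h2 := congrArg (Polynomial.eval (1 / 2 : ℝ)) h
  rw [Polynomial.eval_finsetSum] at h2
  have h3 : ∀ k ∈ Finset.range (N + 1),
      Polynomial.eval (1 / 2 : ℝ) ((N • Polynomial.X - (k : Polynomial ℝ)) ^ 2
        * bernsteinPolynomial ℝ N k)
      = ((N : ℝ) / 2 - k) ^ 2 * ((N.choose k : ℝ) * (1 / 2) ^ N) := by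
    intro k hk
    have hk' : k ≤ N := by simpa [Nat.lt_succ_iff] using hk
    have e1 : (1 / 2 : ℝ) ^ N = (1 / 2 : ℝ) ^ k * (1 / 2 : ℝ) ^ (N - k) := by
      rw [← pow_add]; congr 1; omega
    rw [e1]
    simp only [bernsteinPolynomial, nsmul_eq_mul, Polynomial.eval_mul, Polynomial.eval_pow,
      Polynomial.eval_sub, Polynomial.eval_natCast, Polynomial.eval_X, Polynomial.eval_one]
    norm_num
    ring
  rw [Finset.sum_congr rfl h3] at h2
  rw [h2]
  simp only [nsmul_eq_mul, Polynomial.eval_mul,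
      Polynomial.eval_sub, Polynomial.eval_natCast, Polynomial.eval_X, Polynomial.eval_one]
  ring

private theorem e8_tot (N : ℕ) :
    ∑ k ∈ Finset.range (N + 1), ((N.choose k : ℝ) * (1 / 2) ^ N) = 1 := by
  rw [← Finset.sum_mul]
  have h := Nat.sum_range_choose N
  have h2 : (∑ k ∈ Finset.range (N + 1), (N.choose k : ℝ)) = 2 ^ N := by
    exact_mod_cast h
  rw [h2, ← mul_pow]
  norm_num

private theorem e8_abs (N : ℕ) (hN : 0 < N) :
    ∑ k ∈ Finset.range (N + 1), |(2 * (k : ℝ) / N - 1)| * ((N.choose k : ℝ) * (1 / 2) ^ N)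
      ≤ 1 / Real.sqrt N := by
  have hN' : (0 : ℝ) < N := by exact_mod_cast hN
  have hcs := Finset.sum_mul_sq_le_sq_mul_sq (Finset.range (N + 1))
    (fun k => |(2 * (k : ℝ) / N - 1)| * Real.sqrt ((N.choose k : ℝ) * (1 / 2) ^ N))
    (fun k => Real.sqrt ((N.choose k : ℝ) * (1 / 2) ^ N))
  have hw : ∀ k, (0 : ℝ) ≤ (N.choose k : ℝ) * (1 / 2) ^ N := fun k => by positivity
  have e1 : ∀ k ∈ Finset.range (N + 1),
      |(2 * (k : ℝ) / N - 1)| * Real.sqrt ((N.choose k : ℝ) * (1 / 2) ^ N)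
        * Real.sqrt ((N.choose k : ℝ) * (1 / 2) ^ N)
      = |(2 * (k : ℝ) / N - 1)| * ((N.choose k : ℝ) * (1 / 2) ^ N) := by
    intro k _
    rw [mul_assoc, Real.mul_self_sqrt (hw k)]
  have e2 : ∀ k ∈ Finset.range (N + 1),
      (|(2 * (k : ℝ) / N - 1)| * Real.sqrt ((N.choose k : ℝ) * (1 / 2) ^ N)) ^ 2
      = (4 / (N : ℝ) ^ 2) * (((N : ℝ) / 2 - k) ^ 2 * ((N.choose k : ℝ) * (1 / 2) ^ N)) := by
    intro k _
    rw [mul_pow, Real.sq_sqrt (hw k), sq_abs]
    field_simp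
    ring
  have e3 : ∀ k ∈ Finset.range (N + 1),
      (Real.sqrt ((N.choose k : ℝ) * (1 / 2) ^ N)) ^ 2 = ((N.choose k : ℝ) * (1 / 2) ^ N) := by
    intro k _
    rw [Real.sq_sqrt (hw k)]
  rw [Finset.sum_congr rfl e1, Finset.sum_congr rfl e2, Finset.sum_congr rfl e3, e8_tot,
    ← Finset.mul_sum, e8_var, mul_one] at hcs
  have e4 : (4 / (N : ℝ) ^ 2) * ((N : ℝ) / 4) = 1 / N := by
    field_simp
  rw [e4] at hcs
  have hs := Real.sqrt_pos.2 hN'
  have := Real.abs_le_sqrt hcs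
  rw [Real.sqrt_div (by norm_num : (0 : ℝ) ≤ 1), Real.sqrt_one] at this
  exact (le_abs_self _).trans this

private theorem e8_pow (p : MonoidAlgebra ℝ G) (n : ℕ) :
    (lz p) ^ n = ∑ k ∈ Finset.range (n + 1), ((n.choose k : ℝ) * (1 / 2) ^ n) • p ^ k := by
  unfold lz
  rw [smul_pow, add_comm (1 : MonoidAlgebra ℝ G) p, (Commute.one_right p).add_pow,
    Finset.smul_sum]
  refine Finset.sum_congr rfl fun k _ => ?_
  rw [one_pow, mul_one, mul_comm ((n.choose k : ℝ)) _, mul_smul]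
  congr 1
  have : ((n.choose k : ℕ) : MonoidAlgebra ℝ G) = ((n.choose k : ℝ)) • (1 : MonoidAlgebra ℝ G) := by
    rw [Nat.cast_smul_eq_nsmul, nsmul_eq_mul, mul_one]
  rw [this, mul_smul_comm, mul_one]

private theorem e8_diff (p : MonoidAlgebra ℝ G) (n : ℕ) :
    (lz p) ^ (n + 1) - (lz p) ^ n = ∑ k ∈ Finset.range (n + 1 + 1),
      ((2 * (k : ℝ) / ((n + 1 : ℕ) : ℝ) - 1) * (((n + 1).choose k : ℝ) * (1 / 2) ^ (n + 1))) •
        p ^ k := by
  have h1 : (lz p) ^ n
      = ∑ k ∈ Finset.range (n + 1 + 1), ((n.choose k : ℝ) * (1 / 2) ^ n) • p ^ k := by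
    rw [e8_pow, Finset.sum_range_succ _ (n + 1)]
    simp
  rw [h1, e8_pow p (n + 1), ← Finset.sum_sub_distrib]
  refine Finset.sum_congr rfl fun k hk => ?_
  rw [← sub_smul]
  congr 1
  have hk' : k ≤ n + 1 := by simpa [Nat.lt_succ_iff] using hk
  have hc := Nat.choose_mul_succ_eq n k
  have hc2 : (n.choose k : ℝ) * ((n : ℝ) + 1) = ((n + 1).choose k : ℝ) * ((n : ℝ) + 1 - k) := by
    have := congrArg (Nat.cast : ℕ → ℝ) hc
    push_cast [Nat.cast_sub hk'] at this
    exact this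
  have hn : ((n : ℝ) + 1) ≠ 0 := by positivity
  have hc3 : (n.choose k : ℝ) = ((n + 1).choose k : ℝ) * ((n : ℝ) + 1 - k) / ((n : ℝ) + 1) := by
    rw [← hc2]; field_simp
  rw [hc3, pow_succ]
  push_cast
  field_simp
  ring

theorem lz_norm {p : MonoidAlgebra ℝ G} (hp : PA p) :
    Tendsto (fun n : ℕ => nrm ((lz p) ^ (n + 1) - (lz p) ^ n)) atTop (nhds 0) := by
  have hb : ∀ n : ℕ, nrm ((lz p) ^ (n + 1) - (lz p) ^ n) ≤ 1 / Real.sqrt ((n + 1 : ℕ) : ℝ) := by
    intro n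
    rw [e8_diff]
    refine (e8_nrm_sum_le _ _).trans ?_
    refine le_trans (le_of_eq ?_) (e8_abs (n + 1) (Nat.succ_pos n))
    refine Finset.sum_congr rfl fun k _ => ?_
    rw [nrm_smul, nrm_pa (pa_pow hp k), mul_one, abs_mul]
    congr 1
    exact abs_of_nonneg (by positivity)
  have ht : Tendsto (fun n : ℕ => 1 / Real.sqrt ((n + 1 : ℕ) : ℝ)) atTop (nhds 0) := by
    have h1 : Tendsto (fun n : ℕ => Real.sqrt ((n + 1 : ℕ) : ℝ)) atTop atTop :=
      Real.tendsto_sqrt_atTop.comp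
        (tendsto_natCast_atTop_atTop.comp (tendsto_add_atTop_nat 1))
    have h2 := h1.inv_tendsto_atTop
    refine h2.congr fun n => ?_
    rw [one_div]
    rfl
  exact squeeze_zero (fun n => nrm_nonneg _) hb ht

end Pool.Agent.H34.LS
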