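import Pool.Agent.H34.LS.E12
import Pool.Agent.H34.LS.E11
import Pool.Agent.H34.LS.E10
import Pool.Agent.H34.LS.E8

/-!
E13: the transfer theorem. Put `q = lz p` (`lz_pa`, `lz_gen`, `lz_liou`). Since `Liou (mp theta p)`
and `mp theta q = lz (mp theta p)`, `lz_norm` and `ent_div_tendsto` (applied to
`lz (mp theta p)`, `pa_mp`) give `ent ((mp theta q)^n) / n → 0`. By `ent_compare` for `q` with its
`rho` (enlarge it to be `≥ 1`): given `e > 0` choose `n0` with
`ent ((mp theta q)^n) ≤ (e/2) n` for `n ≥ n0`, then `U, l` from the hypothesis with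
`e' = e / (8 (rho + 1))` and `L = 4 (rho + 1) (n0 + 1)`; for `n = l / (2 (rho + 1))` (natural
division) one has `n ≥ n0`, `n > 0`, `2 n rho ≤ l` and `l ≤ 4 (rho + 1) n`, so
`log index ≤ e' l ≤ (e/2) n` and `ent (q^n) ≤ e n`. Conclude with `liou_of_ent` and `lz_liou`.
-/

namespace Pool.Agent.H34.LS

universe u v w

theorem transfer {F : Type u} {G : Type v} {G' : Type w} [Group F] [Group G] [Group G']
    {S : Set F} (hS : Subgroup.closure S = ⊤) (pi : F →* G) (hpi : Function.Surjective pi)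
    (theta : G →* G')
    (hc : ∀ e : ℝ, 0 < e → ∀ L : ℕ, ∃ (U : Subgroup F) (l : ℕ), U.Normal ∧ U.FiniteIndex ∧ L ≤ l ∧
      Real.log (U.index : ℝ) ≤ e * l ∧
      ∀ x, wordLength S x ≤ l → x ∈ U → theta (pi x) = 1 → pi x = 1)
    {p : MonoidAlgebra ℝ G} (hp : PA p)
    (hgen : Submonoid.closure {g | p.coeff g ≠ 0} = ⊤)
    (hL : Liou (mp theta p)) : Liou p := by
  have hq : PA (lz p) := lz_pa hp
  have hqgen := lz_gen hp hgen
  have hq' : PA (lz (mp theta p)) := lz_pa (pa_mp theta hp)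
  have hlim := ent_div_tendsto hq' ((lz_liou (mp theta p)).2 hL) (lz_norm (pa_mp theta hp))
  obtain ⟨rho, hrho⟩ := ent_compare hS pi hpi theta hq
  refine (lz_liou p).1 (liou_of_ent hq hqgen fun e he => ?_)
  have he2 : (0 : ℝ) < e / 2 := by linarith
  obtain ⟨n0, hn0⟩ := Filter.eventually_atTop.1 (hlim.eventually (gt_mem_nhds he2))
  have hRpos : 0 < 2 * (rho + 1) := by omega
  have hRr : (0 : ℝ) < 2 * ((rho : ℝ) + 1) := by positivity
  obtain ⟨U, l, hUn, hUf, hl, hlog, hinj⟩ := hc (e / (4 * (2 * ((rho : ℝ) + 1)))) (by positivity)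
    (2 * (n0 + 1) * (2 * (rho + 1)))
  have hn1 : 2 * (n0 + 1) ≤ l / (2 * (rho + 1)) := (Nat.le_div_iff_mul_le hRpos).2 hl
  have hn2 : 2 * (rho + 1) * (l / (2 * (rho + 1))) ≤ l := Nat.mul_div_le l (2 * (rho + 1))
  have hn3 : l < 2 * (rho + 1) * (l / (2 * (rho + 1)) + 1) := by
    have h1 := Nat.div_add_mod l (2 * (rho + 1))
    have h2 := Nat.mod_lt l hRpos
    rw [Nat.mul_add]
    omega
  generalize l / (2 * (rho + 1)) = n at hn1 hn2 hn3
  have hnpos : 0 < n := by omega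
  have hnr : (0 : ℝ) < n := by exact_mod_cast hnpos
  refine ⟨n, hnpos, ?_⟩
  have hcmp := hrho U l hUn hUf hinj n (by nlinarith)
  rw [lz_mp] at hcmp
  have hent := hn0 n (by omega)
  rw [div_lt_iff₀ hnr] at hent
  have hl2 : (l : ℝ) ≤ 2 * (2 * ((rho : ℝ) + 1)) * n := by
    have h1 : l ≤ 2 * (2 * (rho + 1)) * n := by nlinarith
    exact_mod_cast h1
  have hlog2 : e / (4 * (2 * ((rho : ℝ) + 1))) * l ≤ e / 2 * n := by
    calc e / (4 * (2 * ((rho : ℝ) + 1))) * l
        ≤ e / (4 * (2 * ((rho : ℝ) + 1))) * (2 * (2 * ((rho : ℝ) + 1)) * n) :=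
          mul_le_mul_of_nonneg_left hl2 (by positivity)
      _ = e / 2 * n := by
          field_simp
          ring
  linarith

end Pool.Agent.H34.LS
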