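import Pool.Agent.H34.LS.E1

/-!
E4: relative entropy. `log_sum`: the log sum inequality
`(Σ a) log (Σ a / Σ b) ≤ Σ a_i log (a_i / b_i)` for nonnegative `a_i, b_i` with `a_i = 0` whenever
`b_i = 0` (from `log x ≤ x - 1`, or Jensen). `kl_nonneg` is the special case of total sums.
`kl_mul_right`: for every `x`, apply `log_sum` to `a_y = p y * r (y⁻¹ x)`, `b_y = q y * r (y⁻¹ x)`
and sum over `x`.
-/

namespace Pool.Agent.H34.LS

universe u

theorem log_sum {ι : Type u} (s : Finset ι) (a b : ι → ℝ) (ha : ∀ i ∈ s, 0 ≤ a i)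
    (hb : ∀ i ∈ s, 0 ≤ b i) (hab : ∀ i ∈ s, b i = 0 → a i = 0) :
    (∑ i ∈ s, a i) * Real.log ((∑ i ∈ s, a i) / ∑ i ∈ s, b i) ≤
      ∑ i ∈ s, a i * Real.log (a i / b i) := by
  rcases (Finset.sum_nonneg ha).eq_or_lt with hA | hA
  · have h0 := (Finset.sum_eq_zero_iff_of_nonneg ha).1 hA.symm
    rw [← hA, zero_mul, Finset.sum_eq_zero]
    intro i hi
    rw [h0 i hi, zero_mul]
  · have hB : 0 < ∑ i ∈ s, b i := by
      rcases (Finset.sum_nonneg hb).eq_or_lt with hB | hB
      · exfalso
        have h0 := (Finset.sum_eq_zero_iff_of_nonneg hb).1 hB.symm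
        have : ∑ i ∈ s, a i = 0 := Finset.sum_eq_zero fun i hi => hab i hi (h0 i hi)
        linarith
      · exact hB
    set A := ∑ i ∈ s, a i with hAd
    set B := ∑ i ∈ s, b i with hBd
    have key : ∀ i ∈ s, a i * Real.log (A / B) + (a i - b i * (A / B)) ≤
        a i * Real.log (a i / b i) := by
      intro i hi
      rcases (ha i hi).eq_or_lt with h1 | h1
      · rw [← h1, zero_mul, zero_mul]
        have h2 : 0 ≤ b i * (A / B) := mul_nonneg (hb i hi) (div_pos hA hB).le
        linarith
      · have h2 : 0 < b i := lt_of_le_of_ne (hb i hi) fun h => h1.ne' (hab i hi h.symm)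
        have h3 : Real.log (A / B) = Real.log (a i / b i) + Real.log ((A / B) * (b i / a i)) := by
          rw [← Real.log_mul (div_pos h1 h2).ne'
            (mul_pos (div_pos hA hB) (div_pos h2 h1)).ne']
          congr 1
          field_simp
        have h4 := Real.log_le_sub_one_of_pos (mul_pos (div_pos hA hB) (div_pos h2 h1))
        have h5 : a i * Real.log ((A / B) * (b i / a i)) ≤ b i * (A / B) - a i := by
          calc a i * Real.log ((A / B) * (b i / a i))
              ≤ a i * ((A / B) * (b i / a i) - 1) := mul_le_mul_of_nonneg_left h4 h1.le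
            _ = b i * (A / B) - a i := by field_simp
        rw [h3, mul_add]
        linarith
    have h := Finset.sum_le_sum key
    rw [Finset.sum_add_distrib, Finset.sum_sub_distrib, ← Finset.sum_mul, ← Finset.sum_mul,
      ← hAd, ← hBd] at h
    have h6 : B * (A / B) = A := by field_simp
    rw [h6, sub_self, add_zero] at h
    exact h

private theorem e4_kl_sum {X : Type u} (p q : X →₀ ℝ) (s : Finset X) (hs : p.support ⊆ s) :
    kl p q = ∑ x ∈ s, p x * Real.log (p x / q x) := by
  unfold kl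
  rw [Finsupp.sum]
  refine Finset.sum_subset hs fun x _ hx => ?_
  rw [Finsupp.notMem_support_iff.1 hx, zero_mul]

private theorem e4_sum {X : Type u} (p : X →₀ ℝ) (s : Finset X) (hs : p.support ⊆ s) :
    p.sum (fun _ a => a) = ∑ x ∈ s, p x := by
  rw [Finsupp.sum]
  refine Finset.sum_subset hs fun x _ hx => ?_
  rw [Finsupp.notMem_support_iff.1 hx]

theorem kl_nonneg {X : Type u} (p q : X →₀ ℝ) (hp : ∀ x, 0 ≤ p x) (hq : ∀ x, 0 ≤ q x)
    (h : p.sum (fun _ a => a) = q.sum (fun _ a => a)) (hac : ∀ x, q x = 0 → p x = 0) :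
    0 ≤ kl p q := by
  classical
  rw [e4_kl_sum p q (p.support ∪ q.support) Finset.subset_union_left]
  have h1 := log_sum (p.support ∪ q.support) (fun x => p x) (fun x => q x) (fun x _ => hp x)
    (fun x _ => hq x) (fun x _ => hac x)
  rw [← e4_sum p _ Finset.subset_union_left, ← e4_sum q _ Finset.subset_union_right, ← h] at h1
  refine le_trans ?_ h1
  by_cases h0 : p.sum (fun _ a => a) = 0
  · rw [h0, zero_mul]
  · rw [div_self h0, Real.log_one, mul_zero]

private theorem e4_coeff_mul {G : Type u} [Group G] (p r : MonoidAlgebra ℝ G) (T : Finset G)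
    (hT : p.coeff.support ⊆ T) (x : G) :
    (p * r).coeff x = ∑ y ∈ T, p.coeff y * r.coeff (y⁻¹ * x) := by
  rw [MonoidAlgebra.coeff_mul_apply_left, Finsupp.sum]
  refine Finset.sum_subset hT fun y _ hy => ?_
  rw [Finsupp.notMem_support_iff.1 hy, zero_mul]

theorem kl_mul_right {G : Type u} [Group G] {p q r : MonoidAlgebra ℝ G} (hp : PA p) (hq : PA q)
    (hr : PA r) (hac : ∀ x, q.coeff x = 0 → p.coeff x = 0) :
    kl (p * r).coeff (q * r).coeff ≤ kl p.coeff q.coeff := by
  classical
  set T : Finset G := p.coeff.support ∪ q.coeff.support with hT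
  have hTp : p.coeff.support ⊆ T := Finset.subset_union_left
  have hTq : q.coeff.support ⊆ T := Finset.subset_union_right
  set X : Finset G := (T ×ˢ r.coeff.support).image (fun z => z.1 * z.2) with hX
  have hXs : (p * r).coeff.support ⊆ X := by
    intro x hx
    rw [Finsupp.mem_support_iff, e4_coeff_mul p r T hTp x] at hx
    obtain ⟨y, hy, hne⟩ := Finset.exists_ne_zero_of_sum_ne_zero hx
    rw [hX, Finset.mem_image]
    refine ⟨(y, y⁻¹ * x), Finset.mem_product.2 ⟨hy, ?_⟩, by simp⟩
    rw [Finsupp.mem_support_iff]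
    exact right_ne_zero_of_mul hne
  have hr1 : ∀ y ∈ T, ∑ x ∈ X, r.coeff (y⁻¹ * x) = 1 := by
    intro y hy
    have h1 : ∑ z ∈ r.coeff.support, r.coeff z = 1 := hr.2
    rw [← h1]
    symm
    refine Finset.sum_of_injOn (fun z => y * z) ?_ ?_ ?_ ?_
    · intro a _ b _ hab
      exact mul_left_cancel hab
    · intro z hz
      rw [Finset.mem_coe] at hz ⊢
      exact Finset.mem_image.2 ⟨(y, z), Finset.mem_product.2 ⟨hy, hz⟩, rfl⟩
    · intro x _ hx
      by_contra hne
      refine hx ⟨y⁻¹ * x, ?_, by simp⟩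
      rw [Finset.mem_coe, Finsupp.mem_support_iff]
      exact hne
    · intro z _
      simp
  rw [e4_kl_sum _ _ X hXs, e4_kl_sum _ _ T hTp]
  calc ∑ x ∈ X, (p * r).coeff x * Real.log ((p * r).coeff x / (q * r).coeff x)
      ≤ ∑ x ∈ X, ∑ y ∈ T, r.coeff (y⁻¹ * x) *
          (p.coeff y * Real.log (p.coeff y / q.coeff y)) := by
        refine Finset.sum_le_sum fun x _ => ?_
        rw [e4_coeff_mul p r T hTp x, e4_coeff_mul q r T hTq x]
        refine (log_sum T (fun y => p.coeff y * r.coeff (y⁻¹ * x))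
          (fun y => q.coeff y * r.coeff (y⁻¹ * x))
          (fun y _ => mul_nonneg (hp.1 y) (hr.1 _)) (fun y _ => mul_nonneg (hq.1 y) (hr.1 _))
          ?_).trans (le_of_eq ?_)
        · intro y _ h0
          rcases mul_eq_zero.1 h0 with h0 | h0
          · rw [hac y h0, zero_mul]
          · rw [h0, mul_zero]
        · refine Finset.sum_congr rfl fun y _ => ?_
          by_cases h0 : r.coeff (y⁻¹ * x) = 0
          · rw [h0]
            ring
          · rw [mul_div_mul_right _ _ h0]
            ring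
    _ = ∑ y ∈ T, ∑ x ∈ X, r.coeff (y⁻¹ * x) *
          (p.coeff y * Real.log (p.coeff y / q.coeff y)) := Finset.sum_comm
    _ = ∑ y ∈ T, p.coeff y * Real.log (p.coeff y / q.coeff y) := by
        refine Finset.sum_congr rfl fun y hy => ?_
        rw [← Finset.sum_mul, hr1 y hy, one_mul]

end Pool.Agent.H34.LS
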