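import Pool.Agent.H34.LS.Defs

/-!
# Auxiliary definitions (not used by the final statements)
-/

namespace Pool.Agent.H34.LS

open Filter

universe u v

/-- four point condition with constant `e` for the word metric of `S`. -/
def FourPoint {G : Type u} [Group G] (S : Set G) (e : ℝ) : Prop :=
  ∀ x y z t : G, wordDist S x y + wordDist S z t ≤
    max (wordDist S x z + wordDist S y t) (wordDist S x t + wordDist S y z) + e

/-- probability elements of the group algebra. -/
def PA {G : Type u} [Group G] (p : MonoidAlgebra ℝ G) : Prop :=
  (∀ g, 0 ≤ p.coeff g) ∧ p.coeff.sum (fun _ a => a) = 1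

/-- entropy of a finitely supported function. -/
noncomputable def fent {X : Type u} (p : X →₀ ℝ) : ℝ := p.sum (fun _ a => Real.negMulLog a)

/-- entropy of an element of the group algebra. -/
noncomputable def ent {G : Type u} [Group G] (p : MonoidAlgebra ℝ G) : ℝ := fent p.coeff

/-- l1 norm of an element of the group algebra. -/
noncomputable def nrm {G : Type u} [Group G] (p : MonoidAlgebra ℝ G) : ℝ :=
  p.coeff.sum (fun _ a => |a|)

/-- averaging operator of an element of the group algebra: `(P f) x = sum_h p h * f (x h)`. -/
noncomputable def avg {G : Type u} [Group G] (p : MonoidAlgebra ℝ G) (f : G → ℝ) : G → ℝ :=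
  fun x => p.coeff.sum (fun h a => a * f (x * h))

/-- all bounded harmonic functions are constant (group algebra version). -/
def Liou {G : Type u} [Group G] (p : MonoidAlgebra ℝ G) : Prop :=
  ∀ f : G → ℝ, (∃ C, ∀ g, |f g| ≤ C) → avg p f = f → ∀ x y, f x = f y

/-- relative entropy of two finitely supported functions. -/
noncomputable def kl {X : Type u} (p q : X →₀ ℝ) : ℝ :=
  p.sum (fun x a => a * Real.log (a / q x))

/-- point mass at `g` times `p`. -/
noncomputable def shl {G : Type u} [Group G] (g : G) (p : MonoidAlgebra ℝ G) :
    MonoidAlgebra ℝ G := MonoidAlgebra.single g (1 : ℝ) * p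

/-- image under a homomorphism. -/
noncomputable def mp {G : Type u} {H : Type v} [Group G] [Group H] (f : G →* H)
    (p : MonoidAlgebra ℝ G) : MonoidAlgebra ℝ H :=
  MonoidAlgebra.mapDomainRingHom ℝ f p

/-- the normal subgroup `N` is separable: every element outside `N` lies outside a normal
subgroup of finite index containing `N`. -/
def Sep {F : Type u} [Group F] (N : Subgroup F) : Prop :=
  ∀ x, x ∉ N → ∃ U : Subgroup F, U.Normal ∧ U.FiniteIndex ∧ N ≤ U ∧ x ∉ U

/-- the quotient `F / N` is hyperbolic: its word metric satisfies a four point condition. -/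
def HypQ {F : Type u} [Group F] (S : Set F) (N : Subgroup F) (e : ℝ) : Prop :=
  ∃ _ : N.Normal, FourPoint ((QuotientGroup.mk' N) '' S) e

end Pool.Agent.H34.LS
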