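import Pool.Agent.H34.LS.S1

/-!
H1: HNN extensions of finite groups are hyperbolic. Choose a transversal pair `d`
(`HNNExtension.NormalWord.TransversalPair.nonempty`) and let
`sigma g = (g • (NormalWord.empty : NormalWord d)).toList`. Left multiplication by `of b` does
not change the list (`of_smul_eq_smul`, `group_smul_toList`); left multiplication by `t` is
`unitsSMul φ 1`, which either pops (`Cancels`) or pushes; for `t⁻¹` use
`t_pow_smul_eq_unitsSMul` with the unit `-1`. If two elements have the same list, then
`x * y⁻¹ = of (head x * (head y)⁻¹)` (use `prod_smul`, `prod_group_smul`, `prod_injective`), an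
element of the finite range of `of`. Apply `fourPoint_of_stack`.
-/

namespace Pool.Agent.H34.LS

universe u

open HNNExtension

private theorem h1_units {B : Type u} [Group B] {A1 A2 : Subgroup B} (phi : A1 ≃* A2)
    {d : NormalWord.TransversalPair B A1 A2} (v : ℤˣ) (w : NormalWord d) :
    (∃ a, (NormalWord.unitsSMul phi v w).toList = a :: w.toList) ∨
      (∃ a, w.toList = a :: (NormalWord.unitsSMul phi v w).toList) := by
  by_cases hc : NormalWord.Cancels v w
  · right
    unfold NormalWord.unitsSMul
    rw [dif_pos hc]
    induction w using NormalWord.consRecOn with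
    | ofGroup g => simp [NormalWord.Cancels] at hc
    | cons g u' w h1 h2 _ =>
      exact ⟨(u', w.head), rfl⟩
  · left
    unfold NormalWord.unitsSMul
    rw [dif_neg hc]
    exact ⟨_, rfl⟩

theorem hnn_fourPoint {B : Type u} [Group B] [Finite B] {A1 A2 : Subgroup B} (phi : A1 ≃* A2)
    {S : Set (HNNExtension B A1 A2 phi)} (hS : Subgroup.closure S = ⊤)
    (hS2 : S ⊆ Set.range (HNNExtension.of : B →* HNNExtension B A1 A2 phi) ∪
      {HNNExtension.t}) :
    ∃ e : ℝ, FourPoint S e := by
  obtain ⟨d⟩ := NormalWord.TransversalPair.nonempty B A1 A2
  refine fourPoint_of_stack hS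
    (fun g => (g • (NormalWord.empty : NormalWord d)).toList) ?_ ?_
    (B := Set.range (HNNExtension.of : B →* HNNExtension B A1 A2 phi)) (Set.finite_range _) ?_
  · simp
  · intro s hs y
    have hof : ∀ b : B, ((of b * y : HNNExtension B A1 A2 phi) •
        (NormalWord.empty : NormalWord d)).toList = (y • (NormalWord.empty : NormalWord d)).toList := by
      intro b
      rw [mul_smul, NormalWord.of_smul_eq_smul, NormalWord.group_smul_toList]
    have ht : ∀ v : ℤˣ, (∃ a, ((t ^ (v : ℤ) * y : HNNExtension B A1 A2 phi) •
        (NormalWord.empty : NormalWord d)).toList =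
          a :: (y • (NormalWord.empty : NormalWord d)).toList) ∨
        (∃ a, (y • (NormalWord.empty : NormalWord d)).toList =
          a :: ((t ^ (v : ℤ) * y : HNNExtension B A1 A2 phi) •
        (NormalWord.empty : NormalWord d)).toList) := by
      intro v
      rw [mul_smul, NormalWord.t_pow_smul_eq_unitsSMul]
      exact h1_units phi v _
    rcases hs with hs | hs
    · rcases hS2 hs with ⟨b, rfl⟩ | hst
      · exact Or.inl (hof b)
      · rw [Set.mem_singleton_iff] at hst
        subst hst
        have := ht 1
        rw [Units.val_one, zpow_one] at this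
        exact Or.inr this
    · rcases hS2 hs with ⟨b, hb⟩ | hst
      · have hb' : s = of b⁻¹ := by
          rw [map_inv, hb, inv_inv]
        rw [hb']
        exact Or.inl (hof _)
      · rw [Set.mem_singleton_iff] at hst
        have hs' : s = t ^ (((-1 : ℤˣ)) : ℤ) := by
          rw [Units.val_neg, Units.val_one, zpow_neg, zpow_one, ← hst, inv_inv]
        rw [hs']
        exact Or.inr (ht (-1))
  · intro x y hxy
    have hx : (x • (NormalWord.empty : NormalWord d)).prod phi = x := by
      rw [NormalWord.prod_smul, NormalWord.prod_empty, mul_one]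
    have hy : (y • (NormalWord.empty : NormalWord d)).prod phi = y := by
      rw [NormalWord.prod_smul, NormalWord.prod_empty, mul_one]
    set wx : NormalWord d := x • (NormalWord.empty : NormalWord d) with hwx
    set wy : NormalWord d := y • (NormalWord.empty : NormalWord d) with hwy
    have hw : wx = (wx.head * wy.head⁻¹) • wy := by
      apply NormalWord.ext
      · rw [NormalWord.group_smul_head, inv_mul_cancel_right]
      · rw [NormalWord.group_smul_toList]
        exact hxy
    refine ⟨wx.head * wy.head⁻¹, ?_⟩
    have h3 : wx.prod phi = of (wx.head * wy.head⁻¹) * wy.prod phi := by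
      conv_lhs => rw [hw]
      rw [NormalWord.prod_group_smul]
    rw [hx, hy] at h3
    rw [eq_mul_inv_iff_mul_eq]
    exact h3.symm

end Pool.Agent.H34.LS
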