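import Pool.Agent.H34.LS.Defs

/-!
H2: extension of partial equivariant bijections. `X` is a finite set with a free action of the
finite group `B` (only the restrictions to the subgroups `A1`, `A2` matter). `D` is an
`A1`-invariant subset, `f : X → X` is injective on `D`, maps `D` onto the `A2`-invariant set
`f '' D`, and `f (a • x) = phi a • f x` for `a` in `A1`, `x` in `D`. Then there is a permutation
`g` of `X` that agrees with `f` on `D` and satisfies `g (a • x) = phi a • g x` for all `x`.
Proof: the complements of `D` and of `f '' D` have the same cardinality, and `A1` (resp. `A2`)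
acts freely on them, so they have the same number of orbits; match the orbits and choose base
points.
-/

namespace Pool.Agent.H34.LS

universe u v

private theorem h2_aux {B : Type u} [Group B] {A1 A2 : Subgroup B} (phi : A1 ≃* A2)
    {X : Type v} [Finite X] [MulAction B X] (hfree : ∀ (b : B) (x : X), b • x = x → b = 1) (n : ℕ) :
    ∀ (D : Set X) (_ : Dᶜ.ncard = n) (_ : ∀ (a : A1) (x : X), x ∈ D → (a : B) • x ∈ D) (f : X → X)
    (_ : Set.InjOn f D) (_ : ∀ (a : A1) (x : X), x ∈ D → f ((a : B) • x) = (phi a : B) • f x),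
    ∃ g : Equiv.Perm X, (∀ x ∈ D, g x = f x) ∧
      ∀ (a : A1) (x : X), g ((a : B) • x) = (phi a : B) • g x := by
  classical
  induction n using Nat.strong_induction_on with
  | _ n ih =>
    intro D hn hD f hinj heq
    by_cases hU : D = Set.univ
    · have hinj' : Function.Injective f := by
        rw [hU] at hinj
        exact Set.injOn_univ.1 hinj
      refine ⟨Equiv.ofBijective f (Finite.injective_iff_bijective.1 hinj'), fun x _ => rfl, ?_⟩
      intro a x
      exact heq a x (hU ▸ Set.mem_univ x)
    · obtain ⟨x₀, hx₀⟩ : ∃ x, x ∉ D := by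
        by_contra hcon
        push Not at hcon
        exact hU (Set.eq_univ_of_forall hcon)
      obtain ⟨y₀, hy₀⟩ : ∃ y, y ∉ f '' D := by
        by_contra hcon
        push Not at hcon
        have h1 : f '' D = Set.univ := Set.eq_univ_of_forall hcon
        have h2 : (f '' D).ncard = D.ncard := hinj.ncard_image
        have h3 : D.ncard < (Set.univ : Set X).ncard :=
          Set.ncard_lt_ncard ((Set.ssubset_univ_iff).2 hU) (Set.toFinite _)
        rw [h1] at h2
        omega
      -- uniqueness of the group element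
      have huniq : ∀ b b' : B, ∀ z : X, b • z = b' • z → b = b' := by
        intro b b' z h
        have h1 : (b'⁻¹ * b) • z = z := by rw [mul_smul, h, inv_smul_smul]
        have h2 := hfree _ _ h1
        exact (inv_mul_eq_one.1 h2).symm
      have horb : ∀ a : A1, (a : B) • x₀ ∉ D := by
        intro a ha
        apply hx₀
        have h1 := hD a⁻¹ _ ha
        rwa [Subgroup.coe_inv, inv_smul_smul] at h1
      have hout : ∀ (b : B) (hb : b ∈ A2) (x : X), x ∈ D → f x ≠ b • y₀ := by
        intro b hb x hx h
        apply hy₀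
        obtain ⟨a, ha⟩ := phi.surjective ⟨b, hb⟩
        refine ⟨(a⁻¹ : A1) • x, ?_, ?_⟩
        · exact hD a⁻¹ x hx
        · have h1 := heq a⁻¹ x hx
          rw [map_inv, ha] at h1
          have h2 : f ((a⁻¹ : A1) • x) = (b⁻¹ : B) • f x := h1
          rw [h2, h, inv_smul_smul]
      set D' : Set X := D ∪ {z | ∃ a : A1, (a : B) • x₀ = z} with hD'def
      set f' : X → X := fun z => if z ∈ D then f z else
        if h : ∃ a : A1, (a : B) • x₀ = z then (phi h.choose : B) • y₀ else f z with hf'
      have hf1 : ∀ x ∈ D, f' x = f x := fun x hx => if_pos hx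
      have hf2 : ∀ a : A1, f' ((a : B) • x₀) = (phi a : B) • y₀ := by
        intro a
        have hex : ∃ a' : A1, (a' : B) • x₀ = (a : B) • x₀ := ⟨a, rfl⟩
        have h1 : f' ((a : B) • x₀) = (phi hex.choose : B) • y₀ := by
          rw [hf']
          dsimp only
          rw [if_neg (horb a), dif_pos hex]
        have h2 : hex.choose = a := Subtype.ext (huniq _ _ _ hex.choose_spec)
        rw [h1, h2]
      have hmem : ∀ x ∈ D', x ∈ D ∨ ∃ a : A1, (a : B) • x₀ = x := fun x hx => hx
      have hlt : D'ᶜ.ncard < n := by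
        rw [← hn]
        refine Set.ncard_lt_ncard (compl_lt_compl_iff_lt.2 ?_) (Set.toFinite _)
        refine ⟨Set.subset_union_left, fun h => hx₀ (h (Or.inr ⟨1, ?_⟩))⟩
        rw [Subgroup.coe_one, one_smul]
      have hD1 : ∀ (a : A1) (x : X), x ∈ D' → (a : B) • x ∈ D' := by
        intro a x hx
        rcases hmem x hx with h | ⟨a', rfl⟩
        · exact Or.inl (hD a x h)
        · refine Or.inr ⟨a * a', ?_⟩
          rw [Subgroup.coe_mul, mul_smul]
      have hinj1 : Set.InjOn f' D' := by
        intro x hx x' hx' h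
        rcases hmem x hx with h1 | ⟨a, rfl⟩
        · rcases hmem x' hx' with h2 | ⟨a', rfl⟩
          · rw [hf1 x h1, hf1 x' h2] at h
            exact hinj h1 h2 h
          · rw [hf1 x h1, hf2] at h
            exact absurd h (hout _ (phi a').2 x h1)
        · rcases hmem x' hx' with h2 | ⟨a', rfl⟩
          · rw [hf1 x' h2, hf2] at h
            exact absurd h.symm (hout _ (phi a).2 x' h2)
          · rw [hf2, hf2] at h
            have h3 := phi.injective (Subtype.ext (huniq _ _ _ h))
            rw [h3]
      have heq1 : ∀ (a : A1) (x : X), x ∈ D' → f' ((a : B) • x) = (phi a : B) • f' x := by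
        intro a x hx
        rcases hmem x hx with h | ⟨a', rfl⟩
        · rw [hf1 _ (hD a x h), hf1 x h, heq a x h]
        · rw [hf2, ← mul_smul, ← Subgroup.coe_mul, hf2, map_mul, Subgroup.coe_mul, mul_smul]
      obtain ⟨g, hg1, hg2⟩ := ih _ hlt D' rfl hD1 f' hinj1 heq1
      refine ⟨g, fun x hx => ?_, hg2⟩
      rw [hg1 x (Or.inl hx), hf1 x hx]

theorem extend_perm {B : Type u} [Group B] [Finite B] {A1 A2 : Subgroup B} (phi : A1 ≃* A2)
    {X : Type v} [Finite X] [MulAction B X] (hfree : ∀ (b : B) (x : X), b • x = x → b = 1)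
    (D : Set X) (hD : ∀ (a : A1) (x : X), x ∈ D → (a : B) • x ∈ D) (f : X → X)
    (hinj : Set.InjOn f D) (heq : ∀ (a : A1) (x : X), x ∈ D → f ((a : B) • x) = (phi a : B) • f x) :
    ∃ g : Equiv.Perm X, (∀ x ∈ D, g x = f x) ∧
      ∀ (a : A1) (x : X), g ((a : B) • x) = (phi a : B) • g x := by
  exact h2_aux phi hfree _ D rfl hD f hinj heq

end Pool.Agent.H34.LS
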