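import Pool.Agent.H34.LS.Fwd

/-!
H4: the windows. `G` is generated by a finite set `E`; `f : G → ℤ` onto with locally finite
kernel; `t` with `f t = ofAdd 1`. For `x` in `E` put `a_x = x * t ^ (-(f x))`, an element of the
kernel. `B 0` is generated by the finite set of the `a_x`, `B (j+1) = B j ⊔ t (B j) t⁻¹`. Every
`B j` is generated by a finite subset of the kernel (induction: it is finite, so is its conjugate),
hence finite.
-/

namespace Pool.Agent.H34.LS

universe u

/-- the data of windows in a locally-finite-by-`ℤ` group. -/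
structure Windows (G : Type u) [Group G] where
  f : G →* Multiplicative ℤ
  t : G
  B : ℕ → Subgroup G
  ft : f t = Multiplicative.ofAdd 1
  locfin : ∀ s : Set G, s.Finite → s ⊆ (f.ker : Set G) →
    ((Subgroup.closure s : Subgroup G) : Set G).Finite
  fin : ∀ j, Finite (B j)
  ker : ∀ j, B j ≤ f.ker
  step : ∀ j, B (j + 1) = B j ⊔ (B j).map (MulAut.conj t).toMonoidHom
  gen : Subgroup.closure (((B 0 : Subgroup G) : Set G) ∪ {t}) = ⊤

theorem exists_windows (G : Type u) [Group G] (hfg : Group.FG G) (h : LocFinByZ G) :
    Nonempty (Windows G) := by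
  classical
  obtain ⟨f, hf, hloc⟩ := h
  obtain ⟨t, ht⟩ := hf (Multiplicative.ofAdd 1)
  obtain ⟨E, hE⟩ := (Group.fg_def (G := G)).mp hfg
  set a : G → G := fun x => x * t ^ (-(Multiplicative.toAdd (f x))) with ha
  have hfa : ∀ x, f (a x) = 1 := by
    intro x
    rw [ha]
    simp only [map_mul, map_zpow, ht]
    apply Multiplicative.toAdd.injective
    simp
  set B : ℕ → Subgroup G := fun j => Nat.rec (Subgroup.closure (a '' (E : Set G)))
    (fun _ H => H ⊔ H.map (MulAut.conj t).toMonoidHom) j with hB
  have hstep : ∀ j, B (j + 1) = B j ⊔ (B j).map (MulAut.conj t).toMonoidHom := fun j => rfl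
  have h0 : B 0 = Subgroup.closure (a '' (E : Set G)) := rfl
  have key : ∀ j, ((B j : Subgroup G) : Set G).Finite ∧ B j ≤ f.ker := by
    intro j
    induction j with
    | zero =>
      have hsub : a '' (E : Set G) ⊆ (f.ker : Set G) := by
        rintro _ ⟨x, -, rfl⟩
        exact hfa x
      refine ⟨?_, ?_⟩
      · rw [h0]
        exact hloc _ (E.finite_toSet.image a) hsub
      · rw [h0, Subgroup.closure_le]
        exact hsub
    | succ j ih =>
      obtain ⟨ih1, ih2⟩ := ih
      have hk : (B j).map (MulAut.conj t).toMonoidHom ≤ f.ker := by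
        rintro _ ⟨x, hx, rfl⟩
        have hx' : f x = 1 := ih2 hx
        change f (t * x * t⁻¹) = 1
        rw [map_mul, map_mul, hx', map_inv, mul_one, mul_inv_cancel]
      have hle : B (j + 1) ≤ f.ker := by
        rw [hstep]
        exact sup_le ih2 hk
      refine ⟨?_, hle⟩
      have hcl : B (j + 1) = Subgroup.closure (((B j : Subgroup G) : Set G) ∪
          (((B j).map (MulAut.conj t).toMonoidHom : Subgroup G) : Set G)) := by
        rw [hstep, Subgroup.closure_union, Subgroup.closure_eq, Subgroup.closure_eq]
      rw [hcl]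
      refine hloc _ (ih1.union ?_) ?_
      · rw [Subgroup.coe_map]
        exact ih1.image _
      · intro x hx
        rcases hx with hx | hx
        · exact ih2 hx
        · exact hk hx
  refine ⟨⟨f, t, B, ht, hloc, fun j => (key j).1.to_subtype, fun j => (key j).2, hstep, ?_⟩⟩
  rw [eq_top_iff, ← hE, Subgroup.closure_le]
  intro x hx
  have hax : a x ∈ Subgroup.closure (((B 0 : Subgroup G) : Set G) ∪ {t}) := by
    apply Subgroup.subset_closure
    left
    rw [h0]
    exact Subgroup.subset_closure ⟨x, hx, rfl⟩
  have htm : t ∈ Subgroup.closure (((B 0 : Subgroup G) : Set G) ∪ {t}) :=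
    Subgroup.subset_closure (Or.inr rfl)
  have : x = a x * t ^ (Multiplicative.toAdd (f x)) := by
    rw [ha]
    simp only [zpow_neg, inv_mul_cancel_right]
  rw [this]
  exact Subgroup.mul_mem _ hax (Subgroup.zpow_mem _ htm _)

end Pool.Agent.H34.LS
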