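import Pool.Agent.H34.LS.Fwd

/-!
HT: the HNN extension of a subgroup `B` of `G` by conjugation with `t`: the associated subgroups
are the largest possible ones, `{b | t b t⁻¹ ∈ B}` and `{b | t⁻¹ b t ∈ B}`.
Definitions; complete.
-/

namespace Pool.Agent.H34.LS

universe u

open HNNExtension

variable {G : Type u} [Group G]

/-- the elements `b` of `B` with `t * b * t⁻¹` in `B`. -/
def upSub (t : G) (B : Subgroup G) : Subgroup B where
  carrier := {b | t * (b : G) * t⁻¹ ∈ B}
  one_mem' := by simp [B.one_mem]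
  mul_mem' := by
    intro a b ha hb
    have h : t * ((a * b : B) : G) * t⁻¹ = (t * (a : G) * t⁻¹) * (t * (b : G) * t⁻¹) := by
      simp [mul_assoc]
    simp only [Set.mem_setOf_eq] at ha hb ⊢
    rw [h]
    exact B.mul_mem ha hb
  inv_mem' := by
    intro a ha
    have h : t * ((a⁻¹ : B) : G) * t⁻¹ = (t * (a : G) * t⁻¹)⁻¹ := by
      simp [mul_assoc]
    simp only [Set.mem_setOf_eq] at ha ⊢
    rw [h]
    exact B.inv_mem ha

theorem mem_upSub {t : G} {B : Subgroup G} {b : B} :
    b ∈ upSub t B ↔ t * (b : G) * t⁻¹ ∈ B := Iff.rfl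

/-- conjugation by `t` as an isomorphism of the associated subgroups. -/
def upIso (t : G) (B : Subgroup G) : upSub t B ≃* upSub t⁻¹ B where
  toFun b := ⟨⟨t * (b : G) * t⁻¹, b.2⟩, by
    rw [mem_upSub]; simp [mul_assoc]⟩
  invFun b := ⟨⟨t⁻¹ * (b : G) * t, by
    have := b.2
    rw [mem_upSub] at this
    simpa using this⟩, by
    rw [mem_upSub]; simp [mul_assoc]⟩
  left_inv b := by ext; simp [mul_assoc]
  right_inv b := by ext; simp [mul_assoc]
  map_mul' a b := by ext; simp [mul_assoc]

theorem upIso_coe (t : G) (B : Subgroup G) (b : upSub t B) :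
    ((upIso t B b : B) : G) = t * ((b : B) : G) * t⁻¹ := rfl

/-- the HNN extension of `B` by conjugation with `t`. -/
abbrev HT (t : G) (B : Subgroup G) : Type u :=
  HNNExtension B (upSub t B) (upSub t⁻¹ B) (upIso t B)

/-- the natural homomorphism to `G`. -/
def toG (t : G) (B : Subgroup G) : HT t B →* G :=
  HNNExtension.lift B.subtype t (by
    intro a
    simp [upIso_coe, mul_assoc])

theorem toG_of (t : G) (B : Subgroup G) (b : B) :
    toG t B (HNNExtension.of b) = (b : G) := by
  simp [toG]

theorem toG_t (t : G) (B : Subgroup G) : toG t B HNNExtension.t = t := by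
  simp [toG]

/-- enlarging `B`. -/
def mapHT (t : G) {B B' : Subgroup G} (h : B ≤ B') : HT t B →* HT t B' :=
  HNNExtension.lift ((HNNExtension.of).comp (Subgroup.inclusion h)) HNNExtension.t (by
    intro a
    have h1 : t * ((a : B) : G) * t⁻¹ ∈ B' := h a.2
    have h2 := HNNExtension.t_mul_of (φ := upIso t B')
      (⟨Subgroup.inclusion h (a : B), by rw [mem_upSub]; exact h1⟩ : upSub t B')
    have h3 : ((upIso t B' ⟨Subgroup.inclusion h (a : B), by rw [mem_upSub]; exact h1⟩ :
      upSub t⁻¹ B') : B') = Subgroup.inclusion h ((upIso t B a : upSub t⁻¹ B) : B) := by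
      ext; rfl
    rw [h3] at h2
    simpa using h2)

theorem mapHT_of (t : G) {B B' : Subgroup G} (h : B ≤ B') (b : B) :
    mapHT t h (HNNExtension.of b) = HNNExtension.of (Subgroup.inclusion h b) := by
  simp [mapHT]

theorem mapHT_t (t : G) {B B' : Subgroup G} (h : B ≤ B') :
    mapHT t h HNNExtension.t = HNNExtension.t := by
  simp [mapHT]

end Pool.Agent.H34.LS
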