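import Pool.Agent.H34.LS.Fwd
import Pool.Agent.H34.LS.Win

/-!
# The lamplighter group `ℤ/2 ≀ ℤ`
-/

namespace Pool.Agent.H34.LS

/-- elements of the lamplighter group: finitely many lamps are on, and a position. -/
@[ext] structure LL where
  lamp : ℤ →₀ ZMod 2
  pos : ℤ

namespace LL

/-- shift of a configuration by `k`. -/
noncomputable def sh (k : ℤ) : (ℤ →₀ ZMod 2) ≃+ (ℤ →₀ ZMod 2) :=
  Finsupp.domCongr (Equiv.addRight k)

theorem sh_apply (k : ℤ) (l : ℤ →₀ ZMod 2) (i : ℤ) : sh k l i = l (i - k) := by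
  rw [sh, Finsupp.domCongr_apply, Finsupp.equivMapDomain_apply]
  rfl

noncomputable instance : Mul LL := ⟨fun a b => ⟨a.lamp + sh a.pos b.lamp, a.pos + b.pos⟩⟩
noncomputable instance : One LL := ⟨⟨0, 0⟩⟩
noncomputable instance : Inv LL := ⟨fun a => ⟨sh (-a.pos) a.lamp, -a.pos⟩⟩

theorem mul_lamp (a b : LL) : (a * b).lamp = a.lamp + sh a.pos b.lamp := rfl
theorem mul_pos (a b : LL) : (a * b).pos = a.pos + b.pos := rfl
theorem one_lamp : (1 : LL).lamp = 0 := rfl
theorem one_pos : (1 : LL).pos = 0 := rfl
theorem inv_lamp (a : LL) : (a⁻¹).lamp = sh (-a.pos) a.lamp := rfl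
theorem inv_pos (a : LL) : (a⁻¹).pos = -a.pos := rfl

noncomputable instance : Group LL :=
  Group.ofLeftAxioms
    (by
      intro a b c
      apply LL.ext
      · rw [mul_lamp, mul_lamp, mul_lamp, mul_lamp, mul_pos, map_add, add_assoc]
        congr 2
        ext i
        rw [sh_apply, sh_apply, sh_apply]
        congr 1
        ring
      · rw [mul_pos, mul_pos, mul_pos, mul_pos, add_assoc])
    (by
      intro a
      apply LL.ext
      · rw [mul_lamp, one_lamp, one_pos, zero_add]
        ext i
        rw [sh_apply, sub_zero]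
      · rw [mul_pos, one_pos, zero_add])
    (by
      intro a
      apply LL.ext
      · rw [mul_lamp, inv_lamp, inv_pos, one_lamp]
        ext i
        rw [Finsupp.add_apply, sh_apply, Finsupp.zero_apply]
        exact CharTwo.add_self_eq_zero _
      · rw [mul_pos, inv_pos, one_pos, neg_add_cancel])

/-- the lamp generator. -/
noncomputable def ga : LL := ⟨Finsupp.single 0 1, 0⟩
/-- the step generator. -/
noncomputable def gt : LL := ⟨0, 1⟩

/-- the position as a homomorphism. -/
noncomputable def hpos : LL →* Multiplicative ℤ where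
  toFun a := Multiplicative.ofAdd a.pos
  map_one' := rfl
  map_mul' _ _ := rfl

/-- the biased measure `1/3 δ_a + 4/9 δ_t + 2/9 δ_{t⁻¹}`. -/
noncomputable def biased : LL → ℝ := fun g =>
  open Classical in
  (if g = ga then 1 / 3 else 0) + (if g = gt then 4 / 9 else 0) + (if g = gt⁻¹ then 2 / 9 else 0)

end LL

end Pool.Agent.H34.LS
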