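import Pool.Agent.H34.LS.W1

/-!
S1: groups with a stack. `sigma : G → List α` (top of the stack = head of the list) changes by at
most one push or one pop under left multiplication by a generator, `sigma 1 = []`, and elements
with equal stacks differ by left multiplication by an element of a finite set `B`. Then the word
metric satisfies the four point condition.

Use the right invariant distance `rho x y = wordLength S (x * y⁻¹)`; since
`wordDist S x y = rho x⁻¹ y⁻¹`, it is enough to prove the four point condition for `rho`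
(replace every point by its inverse). Let `C` bound `wordLength S b`, `b` in `B`.

`stack_path` (intermediate stacks): if a list `m` is a suffix of `sigma x`, and there is no `a`
such that `a :: m` is a suffix of both `sigma x` and `sigma y`, then there is `z` with
`sigma z = m` and `rho x y = rho x z + rho z y`. Proof: take a geodesic word
`x = s_1 ... s_n y`, intermediate points `z_k = s_(k+1) ... s_n y`, `z_0 = x`, `z_n = y`,
`rho x z_k = k`, `rho z_k y = n - k`. If no `sigma z_k` equals `m`, then by induction on `k` all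
`sigma z_k` have the suffix `a :: m`, with the `a` of `sigma x` (one push or pop cannot change
`a` without passing through `m`), a contradiction at `k = n`.

Hence for any `p` with `sigma p = m`: `rho x p + rho p y ≤ rho x y + 2 C`.

Let `N m = rho p 1` for a chosen `p` with `sigma p = m` (m a stack of some element). For `x, y`
let `m` be the longest common suffix of their stacks; then
`|rho x y - (rho x 1 + rho y 1 - 2 N m)| ≤ 6 C` (`stack_path` for the pairs `(x, y)`, `(x, 1)`,
`(y, 1)`; if `m` is a suffix of `sigma x` then `m` and `sigma 1 = []` satisfy the hypothesis of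
`stack_path`). If `m` is a suffix of `m'` then `N m ≤ N m' + 2 C`. For three elements the longest
common suffix of the stacks of `x, z` has as a suffix the shorter of those of `x, y` and `y, z`.
This gives the inequality of Gromov products based at `1` with an error `≤ 20 C`; the four point
condition for arbitrary four points follows by right translation (`rho (x g) (y g) = rho x y`,
take `g = t⁻¹`).
-/

namespace Pool.Agent.H34.LS

universe u v

private theorem s1_suf {α : Type v} {m u : List α} (h : m <:+ u) :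
    u = m ∨ ∃ a, a :: m <:+ u := by
  obtain ⟨t, rfl⟩ := h
  rcases List.eq_nil_or_concat t with rfl | ⟨t', a, rfl⟩
  · left
    simp
  · right
    exact ⟨a, t', by simp⟩

private theorem s1_uniq {α : Type v} {a b : α} {m u : List α} (h1 : a :: m <:+ u)
    (h2 : b :: m <:+ u) : a = b := by
  have h3 : a :: m <:+ b :: m := List.suffix_of_suffix_length_le h1 h2 (by simp)
  have h4 := h3.eq_of_length (by simp)
  exact (List.cons.inj h4).1

private theorem s1_lcs {α : Type v} (u w : List α) :
    ∃ m, m <:+ u ∧ m <:+ w ∧ ¬ ∃ a, a :: m <:+ u ∧ a :: m <:+ w := by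
  by_contra hcon
  push Not at hcon
  have h : ∀ k : ℕ, ∃ m, m <:+ u ∧ m <:+ w ∧ m.length = k := by
    intro k
    induction k with
    | zero => exact ⟨[], List.nil_suffix, List.nil_suffix, rfl⟩
    | succ k ih =>
      obtain ⟨m, h1, h2, h3⟩ := ih
      obtain ⟨a, h4, h5⟩ := hcon m h1 h2
      exact ⟨a :: m, h4, h5, by simp [h3]⟩
  obtain ⟨m, h1, _, h3⟩ := h (u.length + 1)
  have := h1.length_le
  omega

private theorem s1_lcs_le {α : Type v} {u w m m' : List α} (h1 : m <:+ u) (h2 : m <:+ w)
    (h3 : m' <:+ u) (h4 : ¬ ∃ a, a :: m' <:+ u ∧ a :: m' <:+ w) : m <:+ m' := by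
  rcases le_total m.length m'.length with h | h
  · exact List.suffix_of_suffix_length_le h1 h3 h
  · have h5 : m' <:+ m := List.suffix_of_suffix_length_le h3 h1 h
    rcases s1_suf h5 with h6 | ⟨a, h6⟩
    · rw [h6]
    · exact absurd ⟨a, h6.trans h1, h6.trans h2⟩ h4

private theorem s1_word {G : Type u} [Group G] {α : Type v} {S : Set G} (sigma : G → List α)
    (hadj : ∀ s : G, (s ∈ S ∨ s⁻¹ ∈ S) → ∀ y : G, sigma (s * y) = sigma y ∨
      (∃ a, sigma (s * y) = a :: sigma y) ∨ (∃ a, sigma y = a :: sigma (s * y)))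
    (y : G) (m : List α) : ∀ l : List G, (∀ x ∈ l, x ∈ S ∨ x⁻¹ ∈ S) →
      m <:+ sigma (l.prod * y) → (¬ ∃ a, a :: m <:+ sigma (l.prod * y) ∧ a :: m <:+ sigma y) →
      ∃ l₁ l₂ : List G, l = l₁ ++ l₂ ∧ sigma (l₂.prod * y) = m := by
  intro l
  induction l with
  | nil =>
    intro _ h1 h2
    refine ⟨[], [], rfl, ?_⟩
    rw [List.prod_nil, one_mul] at h1 h2 ⊢
    rcases s1_suf h1 with h | ⟨a, h⟩
    · exact h
    · exact absurd ⟨a, h, h⟩ h2
  | cons s l ih =>
    intro hl h1 h2
    have hs : s ∈ S ∨ s⁻¹ ∈ S := hl s List.mem_cons_self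
    have hl' : ∀ x ∈ l, x ∈ S ∨ x⁻¹ ∈ S := fun x hx => hl x (List.mem_cons_of_mem _ hx)
    rcases s1_suf h1 with h | ⟨a, h⟩
    · exact ⟨[], s :: l, rfl, h⟩
    · have hx : (s :: l).prod * y = s * (l.prod * y) := by rw [List.prod_cons, mul_assoc]
      rw [hx] at h h2
      have hay : ¬ a :: m <:+ sigma y := fun h' => h2 ⟨a, h, h'⟩
      have key : a :: m <:+ sigma (l.prod * y) →
          ∃ l₁ l₂ : List G, s :: l = l₁ ++ l₂ ∧ sigma (l₂.prod * y) = m := by
        intro h3
        obtain ⟨l₁, l₂, h4, h5⟩ := ih hl' ((List.suffix_cons a m).trans h3) (by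
          rintro ⟨b, hb1, hb2⟩
          rw [s1_uniq h3 hb1] at hay
          exact hay hb2)
        exact ⟨s :: l₁, l₂, by rw [h4, List.cons_append], h5⟩
      rcases hadj s hs (l.prod * y) with h3 | ⟨b, h3⟩ | ⟨b, h3⟩
      · rw [h3] at h
        exact key h
      · rw [h3] at h
        rcases List.suffix_cons_iff.1 h with h4 | h4
        · have h5 := (List.cons.inj h4).2
          exact ⟨[s], l, rfl, h5.symm⟩
        · exact key h4
      · exact key (h.trans (by rw [h3]; exact List.suffix_cons _ _))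

private theorem s1_path {G : Type u} [Group G] {α : Type v} {S : Set G}
    (hS : Subgroup.closure S = ⊤) (sigma : G → List α)
    (hadj : ∀ s : G, (s ∈ S ∨ s⁻¹ ∈ S) → ∀ y : G, sigma (s * y) = sigma y ∨
      (∃ a, sigma (s * y) = a :: sigma y) ∨ (∃ a, sigma y = a :: sigma (s * y)))
    (x y : G) (m : List α) (hm : m <:+ sigma x)
    (hno : ¬ ∃ a, a :: m <:+ sigma x ∧ a :: m <:+ sigma y) :
    ∃ z, sigma z = m ∧
      wordLength S (x * z⁻¹) + wordLength S (z * y⁻¹) ≤ wordLength S (x * y⁻¹) := by
  obtain ⟨l, h1, h2, h3⟩ := wl_exists hS (x * y⁻¹)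
  have h4 : l.prod * y = x := by rw [h3]; group
  obtain ⟨l₁, l₂, h5, h6⟩ := s1_word sigma hadj y m l h2 (by rwa [h4]) (by rwa [h4])
  refine ⟨l₂.prod * y, h6, ?_⟩
  have h7 : x * (l₂.prod * y)⁻¹ = l₁.prod := by
    rw [← h4, h5, List.prod_append]
    group
  have h8 : l₂.prod * y * y⁻¹ = l₂.prod := by group
  rw [h7, h8, ← h1, h5, List.length_append]
  refine add_le_add (wl_le fun x hx => h2 x ?_) (wl_le fun x hx => h2 x ?_)
  · rw [h5]
    exact List.mem_append_left _ hx
  · rw [h5]
    exact List.mem_append_right _ hx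

theorem fourPoint_of_stack {G : Type u} [Group G] {α : Type v} {S : Set G}
    (hS : Subgroup.closure S = ⊤) (sigma : G → List α) (h1 : sigma 1 = [])
    (hadj : ∀ s : G, (s ∈ S ∨ s⁻¹ ∈ S) → ∀ y : G, sigma (s * y) = sigma y ∨
      (∃ a, sigma (s * y) = a :: sigma y) ∨ (∃ a, sigma y = a :: sigma (s * y)))
    {B : Set G} (hB : B.Finite) (hfib : ∀ x y : G, sigma x = sigma y → x * y⁻¹ ∈ B) :
    ∃ e : ℝ, FourPoint S e := by
  obtain ⟨C, hC⟩ : ∃ C : ℕ, ∀ b ∈ B, wordLength S b ≤ C := by
    obtain ⟨C, hC⟩ := (hB.image (wordLength S)).bddAbove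
    exact ⟨C, fun b hb => hC ⟨b, hb, rfl⟩⟩
  set rho : G → G → ℕ := fun x y => wordLength S (x * y⁻¹) with hrho
  have hsymm : ∀ x y, rho x y = rho y x := by
    intro x y
    change wordLength S (x * y⁻¹) = wordLength S (y * x⁻¹)
    rw [← wl_inv hS (x * y⁻¹)]
    congr 1
    group
  have htri : ∀ x y z, rho x z ≤ rho x y + rho y z := by
    intro x y z
    change wordLength S (x * z⁻¹) ≤ wordLength S (x * y⁻¹) + wordLength S (y * z⁻¹)
    have h : x * z⁻¹ = (x * y⁻¹) * (y * z⁻¹) := by group
    rw [h]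
    exact wl_mul hS _ _
  have hclose : ∀ x y, sigma x = sigma y → rho x y ≤ C := fun x y h => hC _ (hfib x y h)
  have hpath : ∀ (x y : G) (m : List α), m <:+ sigma x →
      (¬ ∃ a, a :: m <:+ sigma x ∧ a :: m <:+ sigma y) →
      ∃ z, sigma z = m ∧ rho x z + rho z y ≤ rho x y := fun x y m =>
    s1_path hS sigma hadj x y m
  have hone : ∀ (x : G) (m : List α), m <:+ sigma x →
      ∃ z, sigma z = m ∧ rho x z + rho z 1 ≤ rho x 1 := by
    intro x m hm
    refine hpath x 1 m hm ?_
    rintro ⟨a, _, h⟩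
    rw [h1] at h
    have := h.length_le
    simp at this
  have hmono : ∀ p p' : G, sigma p <:+ sigma p' → rho p 1 ≤ rho p' 1 + C := by
    intro p p' h
    obtain ⟨z, hz1, hz2⟩ := hone p' (sigma p) h
    have h3 := hclose p z hz1.symm
    have h4 := htri p z 1
    omega
  have hprod : ∀ x y : G, ∃ p, sigma p <:+ sigma x ∧ sigma p <:+ sigma y ∧
      (¬ ∃ a, a :: sigma p <:+ sigma x ∧ a :: sigma p <:+ sigma y) ∧
      rho x 1 + rho y 1 ≤ rho x y + 2 * rho p 1 + 6 * C ∧
      rho x y + 2 * rho p 1 ≤ rho x 1 + rho y 1 + 6 * C := by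
    intro x y
    obtain ⟨m, hm1, hm2, hm3⟩ := s1_lcs (sigma x) (sigma y)
    obtain ⟨p, hp1, hp2⟩ := hpath x y m hm1 hm3
    obtain ⟨q, hq1, hq2⟩ := hone x m hm1
    obtain ⟨r, hr1, hr2⟩ := hone y m hm2
    subst hp1
    refine ⟨p, hm1, hm2, hm3, ?_, ?_⟩
    · have a1 := htri x p 1
      have a2 := htri y p 1
      have a3 := hsymm y p
      omega
    · have a1 := hclose p q hq1.symm
      have a2 := hclose p r hr1.symm
      have a3 := htri p q 1
      have a4 := htri p r 1
      have a5 := htri x q p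
      have a6 := hsymm q p
      have a7 := htri y r p
      have a8 := hsymm r p
      have a9 := hsymm y p
      have a10 := htri x p y
      omega
  have hgr : ∀ x y z : G, rho x z + rho y 1 ≤
      max (rho x y + rho z 1) (rho y z + rho x 1) + 20 * C := by
    intro x y z
    obtain ⟨p, hp1, hp2, hp3, hp4, hp5⟩ := hprod x y
    obtain ⟨q, hq1, hq2, hq3, hq4, hq5⟩ := hprod y z
    obtain ⟨r, hr1, hr2, hr3, hr4, hr5⟩ := hprod x z
    rcases le_total (sigma p).length (sigma q).length with h | h
    · have e1 : sigma p <:+ sigma q := List.suffix_of_suffix_length_le hp2 hq1 h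
      have e2 : sigma p <:+ sigma r := s1_lcs_le hp1 (e1.trans hq2) hr1 hr3
      have e3 := hmono p r e2
      have e4 := le_max_left (rho x y + rho z 1) (rho y z + rho x 1)
      omega
    · have e1 : sigma q <:+ sigma p := List.suffix_of_suffix_length_le hq1 hp2 h
      have e2 : sigma q <:+ sigma r := s1_lcs_le (e1.trans hp1) hq2 hr1 hr3
      have e3 := hmono q r e2
      have e4 := le_max_right (rho x y + rho z 1) (rho y z + rho x 1)
      omega
  have htrans : ∀ x y g : G, rho (x * g) (y * g) = rho x y := by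
    intro x y g
    change wordLength S (x * g * (y * g)⁻¹) = wordLength S (x * y⁻¹)
    congr 1
    group
  have hgr' : ∀ x y z t : G, rho x z + rho y t ≤
      max (rho x y + rho z t) (rho y z + rho x t) + 20 * C := by
    intro x y z t
    have h := hgr (x * t⁻¹) (y * t⁻¹) (z * t⁻¹)
    have h2 : ∀ w : G, rho (w * t⁻¹) 1 = rho w t := by
      intro w
      change wordLength S (w * t⁻¹ * 1⁻¹) = wordLength S (w * t⁻¹)
      congr 1
      group
    rw [htrans, htrans, htrans, h2, h2, h2] at h
    exact h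
  refine ⟨20 * C, fun x y z t => ?_⟩
  have hwd : ∀ x y : G, wordDist S x y = (rho x⁻¹ y⁻¹ : ℝ) := by
    intro x y
    change (wordLength S (x⁻¹ * y) : ℝ) = (wordLength S (x⁻¹ * (y⁻¹)⁻¹) : ℝ)
    rw [inv_inv]
  simp only [hwd]
  have h := hgr' x⁻¹ z⁻¹ y⁻¹ t⁻¹
  rw [hsymm z⁻¹ y⁻¹, add_comm (rho y⁻¹ z⁻¹) (rho x⁻¹ t⁻¹)] at h
  exact_mod_cast h

end Pool.Agent.H34.LS
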