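import Pool.Agent.H34.LS.W3

/-!
T0: subgroups. `Sep N`: every element outside `N` lies outside some normal subgroup of finite
index containing `N`. `HypQ S N e`: `N` is normal and the quotient satisfies the four point
condition with constant `e`.
-/

namespace Pool.Agent.H34.LS

universe u

variable {F : Type u} [Group F]

/-- finitely many elements at once: intersect the finite index subgroups of `Sep`. -/
theorem sep_finite {N : Subgroup F} (h : Sep N) [hN : N.Normal] {A : Set F} (hA : A.Finite) :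
    ∃ U : Subgroup F, U.Normal ∧ U.FiniteIndex ∧ N ≤ U ∧ ∀ x ∈ A, x ∈ U → x ∈ N := by
  induction A, hA using Set.Finite.induction_on with
  | empty =>
    exact ⟨⊤, inferInstance, inferInstance, le_top, fun x hx => absurd hx (Set.notMem_empty x)⟩
  | @insert a s _ _ ih =>
    obtain ⟨U, hU1, hU2, hU3, hU4⟩ := ih
    by_cases ha : a ∈ N
    · refine ⟨U, hU1, hU2, hU3, fun x hx hxU => ?_⟩
      rcases Set.mem_insert_iff.1 hx with rfl | hx
      · exact ha
      · exact hU4 x hx hxU
    · obtain ⟨V, hV1, hV2, hV3, hV4⟩ := h a ha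
      refine ⟨U ⊓ V, Subgroup.normal_inf_normal U V, inferInstance, le_inf hU3 hV3,
        fun x hx hxU => ?_⟩
      rw [Subgroup.mem_inf] at hxU
      rcases Set.mem_insert_iff.1 hx with rfl | hx
      · exact absurd hxU.2 hV4
      · exact hU4 x hx hxU.1

theorem sep_inf {K U : Subgroup F} (h : Sep K) (hU : U.Normal) (hU2 : U.FiniteIndex) :
    Sep (U ⊓ K) := by
  intro x hx
  by_cases hxU : x ∈ U
  · have hxK : x ∉ K := fun hK => hx (Subgroup.mem_inf.2 ⟨hxU, hK⟩)
    obtain ⟨V, hV1, hV2, hV3, hV4⟩ := h x hxK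
    exact ⟨V, hV1, hV2, inf_le_right.trans hV3, hV4⟩
  · exact ⟨U, hU, hU2, inf_le_left, hxU⟩

/-- `F / (U ⊓ K) → F / K` (this is `QuotientGroup.map _ _ (MonoidHom.id F) _`) is surjective and
its kernel is finite (it injects into `F / U`, or: it is the image of `K`, and `U ⊓ K` has finite
relative index in `K`); the generators correspond; use `fourPoint_of_finite_ker`. -/
theorem hypQ_inf {S : Set F} (hS : Subgroup.closure S = ⊤) {K U : Subgroup F} {e : ℝ}
    (h : HypQ S K e) (hU : U.Normal) (hU2 : U.FiniteIndex) :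
    ∃ e' : ℝ, 0 ≤ e' ∧ HypQ S (U ⊓ K) e' := by
  obtain ⟨hK, h4⟩ := h
  have hN : (U ⊓ K).Normal := Subgroup.normal_inf_normal U K
  have hle : U ⊓ K ≤ K.comap (MonoidHom.id F) := by
    intro x hx
    exact (Subgroup.mem_inf.1 hx).2
  have hleU : U ⊓ K ≤ U.comap (MonoidHom.id F) := by
    intro x hx
    exact (Subgroup.mem_inf.1 hx).1
  set f : F ⧸ (U ⊓ K) →* F ⧸ K := QuotientGroup.map (U ⊓ K) K (MonoidHom.id F) hle with hf
  set g : F ⧸ (U ⊓ K) →* F ⧸ U := QuotientGroup.map (U ⊓ K) U (MonoidHom.id F) hleU with hg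
  have hfmk : ∀ x : F, f (QuotientGroup.mk' (U ⊓ K) x) = QuotientGroup.mk' K x := fun x => rfl
  have hgmk : ∀ x : F, g (QuotientGroup.mk' (U ⊓ K) x) = QuotientGroup.mk' U x := fun x => rfl
  have hfs : Function.Surjective f := by
    intro y
    obtain ⟨x, rfl⟩ := QuotientGroup.mk'_surjective K y
    exact ⟨QuotientGroup.mk' (U ⊓ K) x, hfmk x⟩
  have hS' : Subgroup.closure (QuotientGroup.mk' (U ⊓ K) '' S) = ⊤ :=
    closure_image _ (QuotientGroup.mk'_surjective _) hS
  have himg : f '' (QuotientGroup.mk' (U ⊓ K) '' S) = QuotientGroup.mk' K '' S := by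
    rw [Set.image_image]
    rfl
  have hker : ((f.ker : Subgroup (F ⧸ (U ⊓ K))) : Set (F ⧸ (U ⊓ K))).Finite := by
    have hfin : Finite (F ⧸ U) := inferInstance
    refine Set.Finite.of_injOn (f := g) (t := Set.univ) (fun _ _ => Set.mem_univ _) ?_
      Set.finite_univ
    intro x hx y hy hxy
    obtain ⟨x, rfl⟩ := QuotientGroup.mk'_surjective (U ⊓ K) x
    obtain ⟨y, rfl⟩ := QuotientGroup.mk'_surjective (U ⊓ K) y
    have hx1 : QuotientGroup.mk' K x = 1 := by
      rw [← hfmk]
      exact hx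
    have hy1 : QuotientGroup.mk' K y = 1 := by
      rw [← hfmk]
      exact hy
    have hxK : x ∈ K := (QuotientGroup.eq_one_iff x).1 hx1
    have hyK : y ∈ K := (QuotientGroup.eq_one_iff y).1 hy1
    rw [hgmk, hgmk] at hxy
    have hxyU : x⁻¹ * y ∈ U := QuotientGroup.eq.1 hxy
    change (QuotientGroup.mk x : F ⧸ (U ⊓ K)) = QuotientGroup.mk y
    rw [QuotientGroup.eq, Subgroup.mem_inf]
    exact ⟨hxyU, K.mul_mem (K.inv_mem hxK) hyK⟩
  have h4' : FourPoint (f '' (QuotientGroup.mk' (U ⊓ K) '' S)) e := by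
    rw [himg]
    exact h4
  obtain ⟨e', he'⟩ := fourPoint_of_finite_ker f hfs hS' hker h4'
  refine ⟨max e' 0, le_max_right _ _, hN, fun x y z t => ?_⟩
  have h1 := he' x y z t
  have h2 := le_max_left e' 0
  linarith

/-- a finite set meets an increasing union at a finite stage. -/
theorem stage {K : ℕ → Subgroup F} (hm : Monotone K) {A : Set F} (hA : A.Finite) :
    ∃ j0 : ℕ, ∀ j, j0 ≤ j → ∀ x ∈ A, x ∈ (⨆ i, K i) → x ∈ K j := by
  induction A, hA using Set.Finite.induction_on with
  | empty => exact ⟨0, fun j _ x hx => absurd hx (Set.notMem_empty x)⟩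
  | @insert a s _ _ ih =>
    obtain ⟨j0, hj0⟩ := ih
    by_cases ha : a ∈ (⨆ i, K i)
    · obtain ⟨i, hi⟩ := (Subgroup.mem_iSup_of_directed hm.directed_le).1 ha
      refine ⟨max i j0, fun j hj x hx hxs => ?_⟩
      rcases Set.mem_insert_iff.1 hx with rfl | hx
      · exact hm ((le_max_left i j0).trans hj) hi
      · exact hj0 j ((le_max_right i j0).trans hj) x hx hxs
    · refine ⟨j0, fun j hj x hx hxs => ?_⟩
      rcases Set.mem_insert_iff.1 hx with rfl | hx
      · exact absurd hxs ha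
      · exact hj0 j hj x hx hxs

end Pool.Agent.H34.LS
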