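import Pool.Agent.H34.LS.T0

/-!
T1: one step of the construction. Given a good `N` (contained in some `K j`, separable,
hyperbolic quotient): let `e` be its constant, choose `r ≥ r0` and `r ≥ (i+1)^2 (e+1)`, choose by
`sep_finite` (and `ball_finite`) a normal `U ⊇ N` of finite index whose elements of length `≤ r`
lie in `N`; choose `l ≥ (i+1) (log [F:U] + 1)`; choose by `stage` an index `j'` larger than `j`
and than `i` such that elements of `⨆ K` of length `≤ l` lie in `K j'`; put `N' = U ⊓ K j'`.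
-/

namespace Pool.Agent.H34.LS

universe u

variable {F : Type u} [Group F]

/-- the invariant of the recursion. -/
def GoodN (S : Set F) (K : ℕ → Subgroup F) (N : Subgroup F) : Prop :=
  N.Normal ∧ (∃ j, N ≤ K j) ∧ Sep N ∧ ∃ e : ℝ, 0 ≤ e ∧ HypQ S N e

/-- relation between two consecutive stages, with the radii. -/
def StepN (S : Set F) (K : ℕ → Subgroup F) (i : ℕ) (N N' : Subgroup F) (r r' : ℕ) : Prop :=
  N ≤ N' ∧ r ≤ r' ∧ (∃ e : ℝ, 0 ≤ e ∧ HypQ S N e ∧ ((i : ℝ) + 1) ^ 2 * (e + 1) ≤ r') ∧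
  (∀ x ∈ N', wordLength S x ≤ r' → x ∈ N) ∧
  ∃ U : Subgroup F, U.Normal ∧ U.FiniteIndex ∧ U ⊓ K i ≤ N' ∧
    ∃ l : ℕ, ((i : ℝ) + 1) * (Real.log (U.index : ℝ) + 1) ≤ l ∧
      ∀ x, wordLength S x ≤ l → x ∈ U → x ∈ (⨆ j, K j) → x ∈ N'

theorem step_exists {S : Set F} (hf : S.Finite) (hS : Subgroup.closure S = ⊤)
    {K : ℕ → Subgroup F} (hn : ∀ j, (K j).Normal) (hm : Monotone K) (hsep : ∀ j, Sep (K j))
    (hh : ∀ j, ∃ e : ℝ, HypQ S (K j) e) (i : ℕ) (N : Subgroup F) (hN : GoodN S K N) (r : ℕ) :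
    ∃ (N' : Subgroup F) (r' : ℕ), GoodN S K N' ∧ StepN S K i N N' r r' := by
  obtain ⟨hNn, ⟨j, hj⟩, hNs, e, he0, he⟩ := hN
  set r' : ℕ := max r ⌈((i : ℝ) + 1) ^ 2 * (e + 1)⌉₊ with hr'
  have hr1 : ((i : ℝ) + 1) ^ 2 * (e + 1) ≤ (r' : ℝ) := by
    refine (Nat.le_ceil _).trans ?_
    exact Nat.cast_le.2 (le_max_right _ _)
  obtain ⟨U, hU1, hU2, hNU, hU3⟩ := @sep_finite F _ N hNs hNn _ (ball_finite hS hf r')
  set l : ℕ := ⌈((i : ℝ) + 1) * (Real.log (U.index : ℝ) + 1)⌉₊ with hl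
  obtain ⟨j0, hj0⟩ := stage hm (ball_finite hS hf l)
  set j' : ℕ := max (max j i) j0 with hj'
  have h1 : j ≤ j' := (le_max_left _ _).trans (le_max_left _ _)
  have h2 : i ≤ j' := (le_max_right _ _).trans (le_max_left _ _)
  have h3 : j0 ≤ j' := le_max_right _ _
  obtain ⟨e1, he1⟩ := hh j'
  obtain ⟨e2, he20, he2⟩ := hypQ_inf hS he1 hU1 hU2
  have hKn := hn j'
  refine ⟨U ⊓ K j', r', ⟨?_, ⟨j', inf_le_right⟩, sep_inf (hsep j') hU1 hU2, e2, he20, he2⟩,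
    le_inf hNU (hj.trans (hm h1)), le_max_left _ _, ⟨e, he0, he, hr1⟩, ?_, U, hU1, hU2, ?_, l,
    Nat.le_ceil _, ?_⟩
  · exact Subgroup.normal_inf_normal U (K j')
  · intro x hx hxr
    exact hU3 x hxr (Subgroup.mem_inf.1 hx).1
  · exact inf_le_inf le_rfl (hm h2)
  · intro x hxl hxU hxK
    exact Subgroup.mem_inf.2 ⟨hxU, hj0 j' h3 x hxl hxK⟩

end Pool.Agent.H34.LS
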