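import Pool.Agent.H34.LS.T1

/-!
T2: the sequence, by recursion from `step_exists` starting at `N 0 = K 0` (good because
`hypQ_inf` with `U = ⊤`, or directly).
-/

namespace Pool.Agent.H34.LS

universe u

variable {F : Type u} [Group F]

theorem seq_exists {S : Set F} (hf : S.Finite) (hS : Subgroup.closure S = ⊤)
    {K : ℕ → Subgroup F} (hn : ∀ j, (K j).Normal) (hm : Monotone K) (hsep : ∀ j, Sep (K j))
    (hh : ∀ j, ∃ e : ℝ, HypQ S (K j) e) :
    ∃ (N : ℕ → Subgroup F) (r : ℕ → ℕ), (∀ i, GoodN S K (N i)) ∧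
      ∀ i, StepN S K i (N i) (N (i + 1)) (r i) (r (i + 1)) := by
  classical
  have h0 : GoodN S K (K 0) := by
    refine ⟨hn 0, ⟨0, le_rfl⟩, hsep 0, ?_⟩
    obtain ⟨e, hN, he⟩ := hh 0
    refine ⟨max e 0, le_max_right _ _, hN, ?_⟩
    intro x y z t
    exact (he x y z t).trans (add_le_add_right (le_max_left e 0) _)
  have hstep : ∀ (i : ℕ) (N : Subgroup F) (r : ℕ), GoodN S K N →
      ∃ (N' : Subgroup F) (r' : ℕ), GoodN S K N' ∧ StepN S K i N N' r r' :=
    fun i N r hN => step_exists hf hS hn hm hsep hh i N hN r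
  choose! f g hfg using hstep
  let s : ℕ → Subgroup F × ℕ := fun n =>
    Nat.rec (K 0, 0) (fun i p => (f i p.1 p.2, g i p.1 p.2)) n
  have hs : ∀ i, GoodN S K (s i).1 := by
    intro i
    induction i with
    | zero => exact h0
    | succ i ih => exact (hfg i (s i).1 (s i).2 ih).1
  exact ⟨fun i => (s i).1, fun i => (s i).2, hs, fun i => (hfg i (s i).1 (s i).2 (hs i)).2⟩

end Pool.Agent.H34.LS
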