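import Pool.Agent.H34.LS.W2

/-!
W4: if `f` is injective on the ball of radius `r` (no non-trivial element of length `<= r` in the
kernel), then the ball of radius `r / 4` of `H` satisfies the four point condition of `G`.
For `x, y` in `H` with `4 * wordLength <= r` choose lifts of the same length (`wl_lift`). The
element `a = x'⁻¹ * y'` has length at most `r / 2`; if `b` is a lift of `x⁻¹ * y` with
`wordLength S b = wordLength (f '' S) (x⁻¹ * y) <= wordLength S a`, then `a⁻¹ * b` has length at
most `r` and lies in the kernel, so `a = b` and `wordDist S x' y' = wordDist (f '' S) x y`.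
-/

namespace Pool.Agent.H34.LS

universe u v

theorem fourPoint_ball {G : Type u} [Group G] {H : Type v} [Group H] {S : Set G}
    (f : G →* H) (hf : Function.Surjective f) (hS : Subgroup.closure S = ⊤) {r : ℕ} {e : ℝ}
    (hinj : ∀ g, wordLength S g ≤ r → f g = 1 → g = 1) (h : FourPoint S e)
    (x y z t : H) (hx : 4 * wordLength (f '' S) x ≤ r) (hy : 4 * wordLength (f '' S) y ≤ r)
    (hz : 4 * wordLength (f '' S) z ≤ r) (ht : 4 * wordLength (f '' S) t ≤ r) :
    wordDist (f '' S) x y + wordDist (f '' S) z t ≤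
      max (wordDist (f '' S) x z + wordDist (f '' S) y t)
        (wordDist (f '' S) x t + wordDist (f '' S) y z) + e := by
  have key : ∀ (p q : H), 4 * wordLength (f '' S) p ≤ r → 4 * wordLength (f '' S) q ≤ r →
      ∀ p' q' : G, f p' = p → f q' = q → wordLength S p' = wordLength (f '' S) p →
      wordLength S q' = wordLength (f '' S) q → wordDist S p' q' = wordDist (f '' S) p q := by
    intro p q hp hq p' q' hp' hq' hlp hlq
    obtain ⟨b, hb, hlb⟩ := wl_lift f hf hS (p⁻¹ * q)
    have hfa : f (p'⁻¹ * q') = p⁻¹ * q := by rw [map_mul, map_inv, hp', hq']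
    have hla : wordLength S (p'⁻¹ * q') ≤ wordLength S p' + wordLength S q' := by
      have h1 := wl_mul hS p'⁻¹ q'
      rwa [wl_inv hS] at h1
    have hba : wordLength S b ≤ wordLength S (p'⁻¹ * q') := by
      have h1 := wl_map_le f hS (p'⁻¹ * q')
      rw [hfa] at h1
      rw [hlb]
      exact h1
    have h2 : wordLength S ((p'⁻¹ * q')⁻¹ * b) ≤ r := by
      have h1 := wl_mul hS (p'⁻¹ * q')⁻¹ b
      rw [wl_inv hS] at h1
      omega
    have h3 : (p'⁻¹ * q')⁻¹ * b = 1 := hinj _ h2 (by
      rw [map_mul, map_inv, hfa, hb, inv_mul_cancel])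
    have h4 : p'⁻¹ * q' = b := (inv_mul_eq_one.1 h3)
    unfold wordDist
    rw [h4, hlb]
  obtain ⟨x', hx', hlx⟩ := wl_lift f hf hS x
  obtain ⟨y', hy', hly⟩ := wl_lift f hf hS y
  obtain ⟨z', hz', hlz⟩ := wl_lift f hf hS z
  obtain ⟨t', ht', hlt⟩ := wl_lift f hf hS t
  rw [← key x y hx hy x' y' hx' hy' hlx hly, ← key z t hz ht z' t' hz' ht' hlz hlt,
    ← key x z hx hz x' z' hx' hz' hlx hlz, ← key y t hy ht y' t' hy' ht' hly hlt,
    ← key x t hx ht x' t' hx' ht' hlx hlt, ← key y z hy hz y' z' hy' hz' hly hlz]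
  exact h x' y' z' t'

end Pool.Agent.H34.LS
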