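import Pool.Agent.H34.LS.T2
import Pool.Agent.H34.LS.W4
import Pool.Agent.H34.LS.C4

/-!
T3: the limit group `F / N`, `N = ⨆ N i`, is lacunary hyperbolic.
(1) An element of `⨆ N i` of length `≤ r (i+1)` lies in `N i` (it lies in some `N (k+1)`, `k ≥ i`;
go down one step at a time with the fourth clause of `StepN`, the radii being monotone).
(2) So `F / N i → F / N` is injective on the ball of radius `r (i+1)`, in the sense of `W4`:
an element of `F / N i` of length `≤ r (i+1)` has a representative in `F` of the same length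
(`wl_lift`). With `e i` the constant of `F / N i`, `fourPoint_ball` shows that the ball of radius
`r (i+1) / 4` of `F / N` satisfies the four point condition with error `e i`.
(3) Apply `lacunary_of_approx` with `d i = (i+1) (e i + 1)`, error `e i` and radius
`r (i+1) / 4 ≥ (i+1)^2 (e i + 1) / 4`. (`d i → ∞`, `e i / d i ≤ 1 / (i+1) → 0`,
`(r (i+1) / 4) / d i ≥ (i+1) / 4 → ∞`.)
-/

namespace Pool.Agent.H34.LS

universe u

variable {F : Type u} [Group F]

private theorem t3_down {S : Set F} {K : ℕ → Subgroup F} {N : ℕ → Subgroup F} {r : ℕ → ℕ}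
    (hst : ∀ i, StepN S K i (N i) (N (i + 1)) (r i) (r (i + 1))) (i : ℕ) {x : F}
    (hx : x ∈ ⨆ j, N j) (hl : wordLength S x ≤ r (i + 1)) : x ∈ N i := by
  have hmono : Monotone N := monotone_nat_of_le_succ fun j => (hst j).1
  have hr : Monotone r := monotone_nat_of_le_succ fun j => (hst j).2.1
  obtain ⟨k, hk⟩ := (Subgroup.mem_iSup_of_directed hmono.directed_le).mp hx
  have key : ∀ n, x ∈ N (i + n) → x ∈ N i := by
    intro n
    induction n with
    | zero => exact fun h => h
    | succ n ih =>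
      intro h
      refine ih ?_
      exact (hst (i + n)).2.2.2.1 x h (le_trans hl (hr (by omega)))
  exact key k (hmono (by omega : k ≤ i + k) hk)

theorem lacunary_limit {S : Set F} (hf : S.Finite) (hS : Subgroup.closure S = ⊤)
    {K : ℕ → Subgroup F} {N : ℕ → Subgroup F} {r : ℕ → ℕ} (hg : ∀ i, GoodN S K (N i))
    (hst : ∀ i, StepN S K i (N i) (N (i + 1)) (r i) (r (i + 1)))
    (M : Subgroup F) (hM : M = ⨆ i, N i) (hMn : M.Normal) :
    LacunaryHyperbolic (F ⧸ M) := by
  have hE : ∀ i, ∃ e : ℝ, 0 ≤ e ∧ HypQ S (N i) e ∧ ((i : ℝ) + 1) ^ 2 * (e + 1) ≤ r (i + 1) :=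
    fun i => (hst i).2.2.1
  choose e he0 heH her using hE
  have hpos : ∀ i : ℕ, (0 : ℝ) < ((i : ℝ) + 1) * (e i + 1) := by
    intro i
    have := he0 i
    positivity
  have hSM : Subgroup.closure ((QuotientGroup.mk' M) '' S) = ⊤ :=
    closure_image (QuotientGroup.mk' M) (QuotientGroup.mk'_surjective M) hS
  refine lacunary_of_approx (hf.image (QuotientGroup.mk' M)) hSM
    (d := fun i => ((i : ℝ) + 1) * (e i + 1)) (e := e)
    (r := fun i => (r (i + 1) : ℝ) / 4) hpos ?_ ?_ ?_ ?_
  · refine Filter.tendsto_atTop_mono (fun i => ?_)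
      (Filter.tendsto_atTop_add_const_right _ (1 : ℝ) tendsto_natCast_atTop_atTop)
    have h1 := he0 i
    have h2 : (0 : ℝ) ≤ (i : ℝ) := Nat.cast_nonneg i
    nlinarith
  · refine squeeze_zero (fun i => div_nonneg (he0 i) (hpos i).le) (fun i => ?_)
      tendsto_one_div_add_atTop_nhds_zero_nat
    have h1 := he0 i
    have h2 : (0 : ℝ) < (i : ℝ) + 1 := by positivity
    rw [div_le_div_iff₀ (hpos i) h2]
    nlinarith
  · refine Filter.tendsto_atTop_mono (fun i => ?_)
      (Filter.Tendsto.const_mul_atTop (by norm_num : (0 : ℝ) < 1 / 4)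
        (Filter.tendsto_atTop_add_const_right _ (1 : ℝ) tendsto_natCast_atTop_atTop))
    rw [le_div_iff₀ (hpos i)]
    have h1 := her i
    have h3 : 1 / 4 * ((i : ℝ) + 1) * (((i : ℝ) + 1) * (e i + 1)) =
        (((i : ℝ) + 1) ^ 2 * (e i + 1)) / 4 := by ring
    rw [h3]
    linarith
  · intro i x y z t hx hy hz ht
    haveI hNn : (N i).Normal := (hg i).1
    obtain ⟨hn', h4⟩ := heH i
    have hle : N i ≤ Subgroup.comap (MonoidHom.id F) M := by
      rw [Subgroup.comap_id, hM]
      exact le_iSup N i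
    set f : F ⧸ N i →* F ⧸ M := QuotientGroup.map (N i) M (MonoidHom.id F) hle with hfdef
    have hfmk : ∀ g : F, f (QuotientGroup.mk' (N i) g) = QuotientGroup.mk' M g := fun g => rfl
    have hfs : Function.Surjective f := by
      intro q
      obtain ⟨g, rfl⟩ := QuotientGroup.mk'_surjective M q
      exact ⟨QuotientGroup.mk' (N i) g, hfmk g⟩
    have himg : f '' ((QuotientGroup.mk' (N i)) '' S) = (QuotientGroup.mk' M) '' S := by
      rw [Set.image_image]
      rfl
    have hSN : Subgroup.closure ((QuotientGroup.mk' (N i)) '' S) = ⊤ :=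
      closure_image (QuotientGroup.mk' (N i)) (QuotientGroup.mk'_surjective (N i)) hS
    have hinj : ∀ g : F ⧸ N i, wordLength ((QuotientGroup.mk' (N i)) '' S) g ≤ r (i + 1) →
        f g = 1 → g = 1 := by
      intro g hgl hg1
      obtain ⟨a, ha1, ha2⟩ := wl_lift (QuotientGroup.mk' (N i)) (QuotientGroup.mk'_surjective (N i)) hS g
      rw [← ha1, hfmk] at hg1
      have ha3 : a ∈ M := by
        rwa [QuotientGroup.mk'_apply, QuotientGroup.eq_one_iff] at hg1
      have ha4 : a ∈ N i := t3_down hst i (by rw [← hM]; exact ha3) (by rw [ha2]; exact hgl)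
      rw [← ha1, QuotientGroup.mk'_apply, QuotientGroup.eq_one_iff]
      exact ha4
    have hcast : ∀ u : F ⧸ M, (wordLength ((QuotientGroup.mk' M) '' S) u : ℝ) ≤ (r (i + 1) : ℝ) / 4 →
        4 * wordLength (f '' ((QuotientGroup.mk' (N i)) '' S)) u ≤ r (i + 1) := by
      intro u hu
      rw [himg]
      have h5 : (4 : ℝ) * (wordLength ((QuotientGroup.mk' M) '' S) u : ℝ) ≤ (r (i + 1) : ℝ) := by
        linarith
      exact_mod_cast h5
    have h6 := fourPoint_ball f hfs hSN hinj h4 x y z t (hcast x hx) (hcast y hy) (hcast z hz)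
      (hcast t ht)
    rw [himg] at h6
    exact h6

end Pool.Agent.H34.LS
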