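import Pool.Agent.H34.LS.Fwd
import Pool.Agent.H34.LS.Win

/-!
# Windows of a group with a height function; killed walks: definitions

`tot`, `tl`, `bnd`, `JJ`, `DD`: finitely supported functions (measures), total mass, left
translate, integral of a kernel, the concavity defect of the entropy of a mixture and its
density. `pw P n`: convolution powers. `psi`, `lam`, `ppsi`, `vv`, `qk`: the walk killed outside
the window `[-w, w]` of heights, weighted so that its total mass is `lam ^ m * psi w s`.
-/

namespace Pool.Agent.H34.LS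

universe u v w

/-- total mass of a finitely supported function. -/
noncomputable def tot {X : Type u} (p : X →₀ ℝ) : ℝ := p.sum (fun _ a => a)

/-- left translate: point mass at `g` convolved with `q`. -/
noncomputable def tl {G : Type u} [Group G] (g : G) (q : G →₀ ℝ) : G →₀ ℝ :=
  q.mapDomain (fun x => g * x)

/-- integral of the kernel `K` with respect to `r`: `sum_z r z * K z`. -/
noncomputable def bnd {X : Type u} {Y : Type v} (r : X →₀ ℝ) (K : X → (Y →₀ ℝ)) : Y →₀ ℝ :=
  r.sum (fun z a => a • K z)

/-- concavity defect of the entropy for the mixture of the `u i` with weights `a i`. -/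
noncomputable def JJ {I : Type u} {X : Type v} (a : I →₀ ℝ) (f : I → (X →₀ ℝ)) : ℝ :=
  fent (bnd a f) - a.sum (fun i c => c * fent (f i))

/-- the density of `JJ`. -/
noncomputable def DD {I : Type u} {X : Type v} (a : I →₀ ℝ) (f : I → (X →₀ ℝ)) (x : X) : ℝ :=
  a.sum (fun i c => c * (f i x * Real.log (f i x / bnd a f x)))

/-- convolution powers of `P`. -/
noncomputable def pw {G : Type u} [Group G] (P : G →₀ ℝ) : ℕ → (G →₀ ℝ)
  | 0 => Finsupp.single 1 1
  | n + 1 => bnd P (fun g => tl g (pw P n))

/-- `P` is a symmetric finitely supported probability, `hh` is a height function (additive) which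
is bounded by `R` on the support of `P`. -/
structure Walk {G : Type u} [Group G] (P : G →₀ ℝ) (hh : G → ℤ) (R : ℕ) : Prop where
  nonneg : ∀ g, 0 ≤ P g
  total : tot P = 1
  symm : ∀ g, P g⁻¹ = P g
  hom : ∀ x y, hh (x * y) = hh x + hh y
  bdd : ∀ g, P g ≠ 0 → |hh g| ≤ (R : ℤ)

/-- the first Dirichlet eigenfunction of the interval `[-w, w]`. -/
noncomputable def psi (w : ℕ) (x : ℤ) : ℝ :=
  if |x| ≤ (w : ℤ) then Real.cos (Real.pi * x / (2 * w)) else 0

noncomputable def lam {G : Type u} (P : G →₀ ℝ) (hh : G → ℤ) (w : ℕ) : ℝ :=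
  P.sum (fun g a => a * Real.cos (Real.pi * hh g / (2 * w)))

noncomputable def ppsi {G : Type u} (P : G →₀ ℝ) (hh : G → ℤ) (w : ℕ) (x : ℤ) : ℝ :=
  P.sum (fun g a => a * psi w (x + hh g))

/-- survival probability at height `x`. -/
noncomputable def vv {G : Type u} (P : G →₀ ℝ) (hh : G → ℤ) (w : ℕ) (x : ℤ) : ℝ :=
  lam P hh w * psi w x / ppsi P hh w x

/-- the killed walk after `m` steps, started at height `s`. -/
noncomputable def qk {G : Type u} [Group G] (P : G →₀ ℝ) (hh : G → ℤ) (w : ℕ) :
    ℕ → ℤ → (G →₀ ℝ)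
  | 0, s => psi w s • Finsupp.single 1 1
  | m + 1, s => vv P hh w s • bnd P (fun g => tl g (qk P hh w m (s + hh g)))

/-- mass of `pw P n` at heights of modulus at least `k`. -/
noncomputable def tail {G : Type u} [Group G] (P : G →₀ ℝ) (hh : G → ℤ) (n k : ℕ) : ℝ :=
  (pw P n).sum (fun x a => if (k : ℤ) ≤ |hh x| then a else 0)

end Pool.Agent.H34.LS
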