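import Pool.Agent.H34.LS.V3
import Pool.Agent.H34.LS.V14
import Pool.Agent.H34.LS.V15

/-!
V16: a good time and a good starting point. Put `l = lam`, `w = 4 k`. From `phi_step`, by induction on `T`:
`sum_{m < T} l^(T-1-m) * (sum_s psi s * Jk m s) ≤ Phi T` (`phi_nonneg` at `0`), i.e. dividing by `l^T`:
`sum_{m < T} l^(-(m+1)) * (sum_s psi s * Jk m s) ≤ l^(-T) * Phi T`. Upper bound: `Ioo (-w) w` has
`2 w - 1 ≤ 8 k` elements, `ppsi / lam ≤ 1 / lam ≤ 2`, `fent_qk_le`: `l^(-T) * Phi T ≤ 16 k * E` with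
`E = log N + T (- log l) + 1 ≥ 1`. If the conclusion fails then for each `m < T` with `T ≤ 2 (m+1)` and each `|s| ≤ 2 k`:
`l^(-(m+1)) * Jk m s > 12 E / T`, `psi s ≥ 2/3` (`psi_ge`); there are at least `T / 2` such `m` and `4 k + 1`
such `s`, and all the other terms are nonnegative (`jj_nonneg`), so the sum is
`> (T/2) (4 k) (2/3) (12 E / T) = 16 k E`, a contradiction.
-/

namespace Pool.Agent.H34.LS

universe u

variable {G : Type u} [Group G] {P : G →₀ ℝ} {hh : G → ℤ} {R : ℕ}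

theorem good_pair (h : Walk P hh R) {k : ℕ} (hk : 1 ≤ k) (hR : R ≤ k) {N : ℕ}
    (hN : ∀ m s, (qk P hh (4 * k) m s).support.card ≤ N) {T : ℕ} (hT : 1 ≤ T) :
    ∃ (m : ℕ) (s : ℤ), m + 1 ≤ T ∧ T ≤ 2 * (m + 1) ∧ |s| ≤ 2 * (k : ℤ) ∧
      Jk P hh (4 * k) m s ≤ lam P hh (4 * k) ^ (m + 1) *
        (12 * (Real.log N + T * (- Real.log (lam P hh (4 * k))) + 1) / T) := by
  have hw : 1 ≤ 4 * k := by omega
  have hR2 : 2 * R ≤ 4 * k := by omega
  set l := lam P hh (4 * k) with hl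
  have hl2 : 1 / 2 ≤ l := lam_ge h hw hR2
  have hl0 : 0 < l := by linarith
  have hl1 : l ≤ 1 := lam_le_one h _
  have hT0 : (0 : ℝ) < T := by exact_mod_cast hT
  have hk0 : (0 : ℝ) < k := by exact_mod_cast hk
  set E : ℝ := Real.log N + T * (- Real.log l) + 1 with hE
  have hE1 : 1 ≤ E := by
    have h1 : 0 ≤ Real.log N := Real.log_natCast_nonneg N
    have h2 : 0 ≤ (T : ℝ) * (- Real.log l) :=
      mul_nonneg (Nat.cast_nonneg _) (by linarith [Real.log_nonpos hl0.le hl1])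
    linarith
  by_contra hcon
  push Not at hcon
  have hJ : ∀ m s, 0 ≤ Jk P hh (4 * k) m s := fun m s =>
    jj_nonneg h.nonneg h.total (fun g x => tl_nonneg g (qk_nonneg h hw hR2 m _) x)
  set S : ℕ → ℝ := fun m => ∑ s ∈ Finset.Ioo (-((4 * k : ℕ) : ℤ)) ((4 * k : ℕ) : ℤ),
    psi (4 * k) s * Jk P hh (4 * k) m s with hS
  have hS0 : ∀ m, 0 ≤ S m := fun m =>
    Finset.sum_nonneg fun s _ => mul_nonneg (psi_nonneg _ _) (hJ m s)
  -- induction
  have hind : ∀ n : ℕ, ∑ m ∈ Finset.range n, l⁻¹ ^ (m + 1) * S m ≤ l⁻¹ ^ n * Phi P hh (4 * k) n := by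
    intro n
    induction n with
    | zero => simpa using phi_nonneg h hw hR2 0
    | succ n ih =>
      rw [Finset.sum_range_succ]
      have hst := phi_step h hw hR2 n
      have hpos : 0 ≤ l⁻¹ ^ (n + 1) := by positivity
      have e1 : l⁻¹ ^ n * Phi P hh (4 * k) n = l⁻¹ ^ (n + 1) * (l * Phi P hh (4 * k) n) := by
        rw [pow_succ]
        field_simp
      calc ∑ m ∈ Finset.range n, l⁻¹ ^ (m + 1) * S m + l⁻¹ ^ (n + 1) * S n
          ≤ l⁻¹ ^ n * Phi P hh (4 * k) n + l⁻¹ ^ (n + 1) * S n := by linarith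
        _ = l⁻¹ ^ (n + 1) * (S n + l * Phi P hh (4 * k) n) := by rw [e1]; ring
        _ ≤ l⁻¹ ^ (n + 1) * Phi P hh (4 * k) (n + 1) := mul_le_mul_of_nonneg_left hst hpos
  -- upper bound
  have hup : l⁻¹ ^ T * Phi P hh (4 * k) T ≤ 16 * k * E := by
    have h1 : Phi P hh (4 * k) T ≤
        ∑ s ∈ Finset.Ioo (-((4 * k : ℕ) : ℤ)) ((4 * k : ℕ) : ℤ), 2 * (l ^ T * E) := by
      refine Finset.sum_le_sum fun s _ => ?_
      have h2 := fent_qk_nonneg h hw hR2 T s
      have h3 := fent_qk_le h hw hR2 T s (hN T s)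
      have h4 : ppsi P hh (4 * k) s / lam P hh (4 * k) ≤ 2 := by
        rw [div_le_iff₀ (by rw [← hl]; exact hl0), ← hl]
        have := ppsi_le_one h (4 * k) s
        linarith
      exact mul_le_mul h4 h3 h2 (by norm_num)
    rw [Finset.sum_const, nsmul_eq_mul, Int.card_Ioo] at h1
    have h5 : ((((4 * k : ℕ) : ℤ) - (-((4 * k : ℕ) : ℤ)) - 1).toNat : ℝ) ≤ 8 * k := by
      have : (((4 * k : ℕ) : ℤ) - (-((4 * k : ℕ) : ℤ)) - 1).toNat ≤ 8 * k := by omega
      exact_mod_cast this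
    have h6 : 0 ≤ 2 * (l ^ T * E) := by positivity
    have h7 : Phi P hh (4 * k) T ≤ 8 * k * (2 * (l ^ T * E)) :=
      h1.trans (mul_le_mul_of_nonneg_right h5 h6)
    have h8 : 0 ≤ l⁻¹ ^ T := by positivity
    calc l⁻¹ ^ T * Phi P hh (4 * k) T ≤ l⁻¹ ^ T * (8 * k * (2 * (l ^ T * E))) :=
          mul_le_mul_of_nonneg_left h7 h8
      _ = (l⁻¹ * l) ^ T * (16 * k * E) := by rw [mul_pow]; ring
      _ = 16 * k * E := by rw [inv_mul_cancel₀ hl0.ne', one_pow, one_mul]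
  -- lower bound
  have hlow : ∀ m, m + 1 ≤ T → T ≤ 2 * (m + 1) →
      (4 * k + 1) * (8 * E / T) ≤ l⁻¹ ^ (m + 1) * S m := by
    intro m hm1 hm2
    have h1 : ∑ s ∈ Finset.Icc (-(2 * (k : ℤ))) (2 * (k : ℤ)),
        (2 / 3 * (l ^ (m + 1) * (12 * E / T))) ≤ S m := by
      calc ∑ s ∈ Finset.Icc (-(2 * (k : ℤ))) (2 * (k : ℤ)), (2 / 3 * (l ^ (m + 1) * (12 * E / T)))
          ≤ ∑ s ∈ Finset.Icc (-(2 * (k : ℤ))) (2 * (k : ℤ)),
            psi (4 * k) s * Jk P hh (4 * k) m s := by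
            refine Finset.sum_le_sum fun s hs => ?_
            rw [Finset.mem_Icc] at hs
            have hs' : |s| ≤ 2 * (k : ℤ) := abs_le.2 hs
            have h2 := hcon m s hm1 hm2 hs'
            exact mul_le_mul (psi_ge hs' hk) h2.le (by positivity) (psi_nonneg _ _)
        _ ≤ S m := by
            refine Finset.sum_le_sum_of_subset_of_nonneg ?_ fun s _ _ =>
              mul_nonneg (psi_nonneg _ _) (hJ m s)
            intro s hs
            rw [Finset.mem_Icc] at hs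
            rw [Finset.mem_Ioo]
            omega
    rw [Finset.sum_const, nsmul_eq_mul, Int.card_Icc] at h1
    have h3 : ((2 * (k : ℤ) + 1 - -(2 * (k : ℤ))).toNat : ℝ) = 4 * k + 1 := by
      have : (2 * (k : ℤ) + 1 - -(2 * (k : ℤ))).toNat = 4 * k + 1 := by omega
      rw [this]
      push_cast
      ring
    rw [h3] at h1
    have h8 : 0 ≤ l⁻¹ ^ (m + 1) := by positivity
    calc (4 * k + 1) * (8 * E / T) = (l⁻¹ * l) ^ (m + 1) * ((4 * k + 1) * (8 * E / T)) := by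
          rw [inv_mul_cancel₀ hl0.ne', one_pow, one_mul]
      _ = l⁻¹ ^ (m + 1) * ((4 * k + 1) * (2 / 3 * (l ^ (m + 1) * (12 * E / T)))) := by
          rw [mul_pow]; ring
      _ ≤ l⁻¹ ^ (m + 1) * S m := mul_le_mul_of_nonneg_left h1 h8
  have hsum : ((T : ℝ) / 2) * ((4 * k + 1) * (8 * E / T)) ≤
      ∑ m ∈ Finset.range T, l⁻¹ ^ (m + 1) * S m := by
    calc ((T : ℝ) / 2) * ((4 * k + 1) * (8 * E / T))
        ≤ ((T - T / 2 : ℕ) : ℝ) * ((4 * k + 1) * (8 * E / T)) := by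
          refine mul_le_mul_of_nonneg_right ?_ (by positivity)
          rw [div_le_iff₀ (by norm_num)]
          have : T ≤ (T - T / 2) * 2 := by omega
          exact_mod_cast this
      _ = ∑ m ∈ Finset.Ico (T / 2) T, (4 * k + 1) * (8 * E / T) := by
          rw [Finset.sum_const, Nat.card_Ico, nsmul_eq_mul]
      _ ≤ ∑ m ∈ Finset.Ico (T / 2) T, l⁻¹ ^ (m + 1) * S m := by
          refine Finset.sum_le_sum fun m hm => ?_
          rw [Finset.mem_Ico] at hm
          exact hlow m (by omega) (by omega)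
      _ ≤ ∑ m ∈ Finset.range T, l⁻¹ ^ (m + 1) * S m := by
          refine Finset.sum_le_sum_of_subset_of_nonneg ?_ fun m _ _ =>
            mul_nonneg (by positivity) (hS0 m)
          intro m hm
          rw [Finset.mem_Ico] at hm
          exact Finset.mem_range.2 hm.2
  have hfin := hsum.trans ((hind T).trans hup)
  have e2 : ((T : ℝ) / 2) * ((4 * k + 1) * (8 * E / T)) = 16 * k * E + 4 * E := by
    field_simp
    ring
  rw [e2] at hfin
  linarith

end Pool.Agent.H34.LS
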