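import Pool.Agent.H34.LS.E4
import Pool.Agent.H34.LS.V1

/-!
V3: first properties of `JJ a f = fent (bnd a f) - a.sum (fun i c => c * fent (f i))` and of its
density `DD a f x = a.sum (fun i c => c * (f i x * log (f i x / bnd a f x)))`.
Write `U = bnd a f`. If `U x = 0` then `f i x = 0` for all `i` in the support of `a` (nonnegative
terms with sum `0`), hence `DD a f x = 0`. For `U x > 0` the term is
`c * (f i x * log (f i x) - f i x * log (U x))`, and the sum over `i` is
`a.sum (fun i c => - c * negMulLog (f i x)) + negMulLog (U x)`. Sum over `x` in a finite set `s`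
containing the support of `U`; for `i` in the support of `a` the support of `f i` lies in the
support of `U`, so `fent (f i)` is the sum over `s` (`fent_sum_subset` style: a `Finsupp.sum` over a larger
finite set, `Finsupp.sum_of_support_subset`, `Real.negMulLog_zero`).
`dd_nonneg`: `log_sum` (E4) with `a_i = a i * f i x`, `b_i = a i * U x`: the sums are `U x` and
`tot a * U x = U x`. `dd_le`: `a i * f i x ≤ U x`, so `log (f i x / U x) ≤ - log (a i) ≤ L`.
-/

namespace Pool.Agent.H34.LS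

universe u v

variable {I : Type u} {X : Type v}

private theorem v3_bnd (a : I →₀ ℝ) (f : I → (X →₀ ℝ)) (x : X) :
    bnd a f x = ∑ i ∈ a.support, a i * f i x := by
  rw [bnd_apply]
  rfl

private theorem v3_dd (a : I →₀ ℝ) (f : I → (X →₀ ℝ)) (x : X) :
    DD a f x = ∑ i ∈ a.support, a i * (f i x * Real.log (f i x / bnd a f x)) := rfl

private theorem v3_le {a : I →₀ ℝ} (ha : ∀ i, 0 ≤ a i) {f : I → (X →₀ ℝ)}
    (hf : ∀ i x, 0 ≤ f i x) {i : I} (hi : i ∈ a.support) (x : X) :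
    a i * f i x ≤ bnd a f x := by
  rw [v3_bnd]
  exact Finset.single_le_sum (f := fun j => a j * f j x)
    (fun j _ => mul_nonneg (ha j) (hf j x)) hi

private theorem v3_pos {a : I →₀ ℝ} (ha : ∀ i, 0 ≤ a i) {i : I} (hi : i ∈ a.support) :
    0 < a i := lt_of_le_of_ne (ha i) (Ne.symm (Finsupp.mem_support_iff.1 hi))

private theorem v3_zero {a : I →₀ ℝ} (ha : ∀ i, 0 ≤ a i) {f : I → (X →₀ ℝ)}
    (hf : ∀ i x, 0 ≤ f i x) {x : X} (h : bnd a f x = 0) {i : I} (hi : i ∈ a.support) :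
    f i x = 0 := by
  have h1 := v3_le ha hf hi x
  rw [h] at h1
  have h2 := v3_pos ha hi
  rcases (hf i x).eq_or_lt with h3 | h3
  · exact h3.symm
  · exact absurd (mul_pos h2 h3) (not_lt.2 h1)

theorem dd_zero {a : I →₀ ℝ} (ha : ∀ i, 0 ≤ a i) {f : I → (X →₀ ℝ)} (hf : ∀ i x, 0 ≤ f i x)
    {x : X} (h : bnd a f x = 0) : DD a f x = 0 := by
  rw [v3_dd]
  apply Finset.sum_eq_zero
  intro i hi
  rw [v3_zero ha hf h hi, zero_mul, mul_zero]

private theorem v3_fent (q : X →₀ ℝ) (s : Finset X) (hs : q.support ⊆ s) :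
    fent q = ∑ x ∈ s, Real.negMulLog (q x) := by
  unfold fent
  exact Finsupp.sum_of_support_subset _ hs _ (fun x _ => Real.negMulLog_zero)

theorem jj_eq {a : I →₀ ℝ} (ha : ∀ i, 0 ≤ a i) {f : I → (X →₀ ℝ)} (hf : ∀ i x, 0 ≤ f i x)
    (s : Finset X) (hs : (bnd a f).support ⊆ s) : JJ a f = ∑ x ∈ s, DD a f x := by
  have h1 : a.sum (fun i c => c * fent (f i)) =
      ∑ i ∈ a.support, ∑ x ∈ s, a i * Real.negMulLog (f i x) := by
    unfold Finsupp.sum
    apply Finset.sum_congr rfl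
    intro i hi
    change a i * fent (f i) = _
    rw [v3_fent (f i) s, Finset.mul_sum]
    intro x hx
    apply hs
    rw [Finsupp.mem_support_iff] at hx ⊢
    intro h
    exact hx (v3_zero ha hf h hi)
  unfold JJ
  rw [h1, v3_fent _ s hs, Finset.sum_comm, ← Finset.sum_sub_distrib]
  apply Finset.sum_congr rfl
  intro x _
  by_cases h0 : bnd a f x = 0
  · rw [dd_zero ha hf h0, h0, Real.negMulLog_zero, zero_sub, neg_eq_zero]
    apply Finset.sum_eq_zero
    intro i hi
    rw [v3_zero ha hf h0 hi, Real.negMulLog_zero, mul_zero]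
  · rw [v3_dd]
    have h2 : ∀ i ∈ a.support, a i * (f i x * Real.log (f i x / bnd a f x)) =
        a i * f i x * (- Real.log (bnd a f x)) - a i * Real.negMulLog (f i x) := by
      intro i _
      by_cases h3 : f i x = 0
      · rw [h3, Real.negMulLog_zero]
        ring
      · rw [Real.log_div h3 h0]
        change _ = a i * f i x * (- Real.log (bnd a f x)) - a i * (- f i x * Real.log (f i x))
        ring
    rw [Finset.sum_congr rfl h2, Finset.sum_sub_distrib, ← Finset.sum_mul, ← v3_bnd]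
    congr 1
    change - bnd a f x * Real.log (bnd a f x) = _
    ring

theorem dd_nonneg {a : I →₀ ℝ} (ha : ∀ i, 0 ≤ a i) (h1 : tot a = 1) {f : I → (X →₀ ℝ)}
    (hf : ∀ i x, 0 ≤ f i x) (x : X) : 0 ≤ DD a f x := by
  have h2 := log_sum a.support (fun i => a i * f i x) (fun i => a i * bnd a f x)
    (fun i _ => mul_nonneg (ha i) (hf i x))
    (fun i _ => mul_nonneg (ha i) (bnd_nonneg ha hf x))
    (fun i hi h3 => by
      rcases mul_eq_zero.1 h3 with h4 | h4
      · rw [h4, zero_mul]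
      · rw [v3_zero ha hf h4 hi, mul_zero])
  have h3 : ∑ i ∈ a.support, a i = 1 := h1
  rw [← Finset.sum_mul, h3, one_mul, ← v3_bnd] at h2
  have h4 : bnd a f x * Real.log (bnd a f x / bnd a f x) = 0 := by
    by_cases h5 : bnd a f x = 0
    · rw [h5, zero_mul]
    · rw [div_self h5, Real.log_one, mul_zero]
  rw [h4] at h2
  rw [v3_dd]
  refine le_trans h2 (le_of_eq ?_)
  apply Finset.sum_congr rfl
  intro i hi
  rw [mul_div_mul_left _ _ (v3_pos ha hi).ne', mul_assoc]

theorem dd_le {a : I →₀ ℝ} (ha : ∀ i, 0 ≤ a i) {L : ℝ} (hL : ∀ i, a i ≠ 0 → - Real.log (a i) ≤ L)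
    {f : I → (X →₀ ℝ)} (hf : ∀ i x, 0 ≤ f i x) (x : X) : DD a f x ≤ L * bnd a f x := by
  rw [v3_dd, v3_bnd, Finset.mul_sum]
  apply Finset.sum_le_sum
  intro i hi
  rw [← v3_bnd]
  have hai := v3_pos ha hi
  rcases (hf i x).eq_or_lt with h0 | h0
  · rw [← h0]
    simp
  · have h1 := v3_le ha hf hi x
    have hU : 0 < bnd a f x := lt_of_lt_of_le (mul_pos hai h0) h1
    have h2 : Real.log (f i x / bnd a f x) ≤ L := by
      refine le_trans ?_ (hL i hai.ne')
      rw [← Real.log_inv]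
      apply Real.log_le_log (div_pos h0 hU)
      rw [div_le_iff₀ hU, inv_mul_eq_div, le_div_iff₀ hai, mul_comm]
      exact h1
    have h3 := mul_le_mul_of_nonneg_left h2 (mul_pos hai h0).le
    linarith

theorem jj_nonneg {a : I →₀ ℝ} (ha : ∀ i, 0 ≤ a i) (h1 : tot a = 1) {f : I → (X →₀ ℝ)}
    (hf : ∀ i x, 0 ≤ f i x) : 0 ≤ JJ a f := by
  rw [jj_eq ha hf _ subset_rfl]
  exact Finset.sum_nonneg fun x _ => dd_nonneg ha h1 hf x

theorem jj_le {a : I →₀ ℝ} (ha : ∀ i, 0 ≤ a i) {L : ℝ} (hL : ∀ i, a i ≠ 0 → - Real.log (a i) ≤ L)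
    {f : I → (X →₀ ℝ)} (hf : ∀ i x, 0 ≤ f i x) : JJ a f ≤ L * tot (bnd a f) := by
  rw [jj_eq ha hf _ subset_rfl, tot, Finsupp.sum, Finset.mul_sum]
  exact Finset.sum_le_sum fun x _ => dd_le ha hL hf x

end Pool.Agent.H34.LS
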