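import Pool.Agent.H34.LS.V3

/-!
V4: `JJ` is subadditive. Use `jj_eq` with one finite set `s` containing the three supports. For each
`x`: with `U = bnd a f`, `V = bnd a g`, `bnd a (f + g) = U + V` (`bnd_add`), and for each `i` with
`a i > 0`
`(f i x + g i x) * log ((f i x + g i x) / (U x + V x)) ≤ f i x * log (f i x / U x) + g i x * log (g i x / V x)`
by `log_sum` (E4) for the two-element family (`a = f i x, g i x`, `b = U x, V x`; `U x = 0` implies
`f i x = 0` as `a i > 0`, `V x = 0` implies `g i x = 0`).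
-/

namespace Pool.Agent.H34.LS

universe u v

variable {I : Type u} {X : Type v}

private theorem v4_bnd_apply (a : I →₀ ℝ) (f : I → (X →₀ ℝ)) (x : X) :
    bnd a f x = ∑ i ∈ a.support, a i * f i x := by
  unfold bnd
  rw [Finsupp.sum_apply, Finsupp.sum]
  refine Finset.sum_congr rfl fun i _ => ?_
  rw [Finsupp.smul_apply, smul_eq_mul]

private theorem v4_nonneg {a : I →₀ ℝ} (ha : ∀ i, 0 ≤ a i) {f : I → (X →₀ ℝ)}
    (hf : ∀ i x, 0 ≤ f i x) (x : X) : 0 ≤ bnd a f x := by
  rw [v4_bnd_apply]
  exact Finset.sum_nonneg fun i _ => mul_nonneg (ha i) (hf i x)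

private theorem v4_zero {a : I →₀ ℝ} (ha : ∀ i, 0 ≤ a i) {f : I → (X →₀ ℝ)}
    (hf : ∀ i x, 0 ≤ f i x) {x : X} (h : bnd a f x = 0) {i : I} (hi : i ∈ a.support) :
    f i x = 0 := by
  rw [v4_bnd_apply] at h
  have h1 := (Finset.sum_eq_zero_iff_of_nonneg
    (fun j _ => mul_nonneg (ha j) (hf j x))).1 h i hi
  rcases mul_eq_zero.1 h1 with h2 | h2
  · exact absurd h2 (Finsupp.mem_support_iff.1 hi)
  · exact h2

private theorem v4_two {p q U V : ℝ} (hp : 0 ≤ p) (hq : 0 ≤ q) (hU : 0 ≤ U) (hV : 0 ≤ V)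
    (h1 : U = 0 → p = 0) (h2 : V = 0 → q = 0) :
    (p + q) * Real.log ((p + q) / (U + V)) ≤ p * Real.log (p / U) + q * Real.log (q / V) := by
  have h := log_sum (Finset.univ : Finset (Fin 2)) ![p, q] ![U, V]
    (by
      intro i _
      fin_cases i
      · simpa using hp
      · simpa using hq)
    (by
      intro i _
      fin_cases i
      · simpa using hU
      · simpa using hV)
    (by
      intro i _
      fin_cases i
      · simpa using h1
      · simpa using h2)
  simpa [Fin.sum_univ_two] using h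

theorem jj_add {a : I →₀ ℝ} (ha : ∀ i, 0 ≤ a i) {f g : I → (X →₀ ℝ)} (hf : ∀ i x, 0 ≤ f i x)
    (hg : ∀ i x, 0 ≤ g i x) : JJ a (fun i => f i + g i) ≤ JJ a f + JJ a g := by
  classical
  have hfg : ∀ i x, 0 ≤ (fun i => f i + g i) i x := by
    intro i x
    rw [Finsupp.add_apply]
    exact add_nonneg (hf i x) (hg i x)
  rw [jj_eq ha hf ((bnd a f).support ∪ (bnd a g).support ∪ (bnd a (fun i => f i + g i)).support)
      (Finset.subset_union_left.trans Finset.subset_union_left),
    jj_eq ha hg ((bnd a f).support ∪ (bnd a g).support ∪ (bnd a (fun i => f i + g i)).support)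
      (Finset.subset_union_right.trans Finset.subset_union_left),
    jj_eq ha hfg ((bnd a f).support ∪ (bnd a g).support ∪ (bnd a (fun i => f i + g i)).support)
      Finset.subset_union_right, ← Finset.sum_add_distrib]
  refine Finset.sum_le_sum fun x _ => ?_
  unfold DD
  rw [Finsupp.sum, Finsupp.sum, Finsupp.sum, ← Finset.sum_add_distrib]
  refine Finset.sum_le_sum fun i hi => ?_
  rw [← mul_add]
  refine mul_le_mul_of_nonneg_left ?_ (ha i)
  have hb : bnd a (fun i => f i + g i) x = bnd a f x + bnd a g x := by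
    rw [v4_bnd_apply, v4_bnd_apply, v4_bnd_apply, ← Finset.sum_add_distrib]
    refine Finset.sum_congr rfl fun j _ => ?_
    rw [Finsupp.add_apply, mul_add]
  rw [hb, Finsupp.add_apply]
  exact v4_two (hf i x) (hg i x) (v4_nonneg ha hf x) (v4_nonneg ha hg x)
    (fun h => v4_zero ha hf h hi) (fun h => v4_zero ha hg h hi)

end Pool.Agent.H34.LS
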