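import Pool.Agent.H34.LS.W2

/-!
W3: the four point condition passes from a quotient by a finite kernel to the group.
Let `C` be the maximum of `wordLength S k` over the finite kernel. For `g` in `G` take, by
`wl_lift`, `g'` with `f g' = f g` and `wordLength S g' = wordLength (f '' S) (f g)`; then
`g = g' * k` with `k` in the kernel, hence
`wordLength (f '' S) (f g) <= wordLength S g <= wordLength (f '' S) (f g) + C`,
so word distances change by at most `C` and `e' = e + 2 * C` (or any larger constant) works.
-/

namespace Pool.Agent.H34.LS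

universe u v

private theorem w3_bound {G : Type u} [Group G] {H : Type v} [Group H] {S : Set G}
    (f : G →* H) (hf : Function.Surjective f) (hS : Subgroup.closure S = ⊤)
    (hk : ((f.ker : Subgroup G) : Set G).Finite) :
    ∃ C : ℕ, ∀ g : G, wordLength S g ≤ wordLength (f '' S) (f g) + C := by
  classical
  refine ⟨hk.toFinset.sup (wordLength S), ?_⟩
  intro g
  obtain ⟨g', hg', hl⟩ := wl_lift f hf hS (f g)
  have hker : g'⁻¹ * g ∈ f.ker := by
    rw [MonoidHom.mem_ker, map_mul, map_inv, hg', inv_mul_cancel]
  have h1 : wordLength S (g'⁻¹ * g) ≤ hk.toFinset.sup (wordLength S) :=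
    Finset.le_sup (f := wordLength S) (hk.mem_toFinset.2 hker)
  have h2 := wl_mul hS g' (g'⁻¹ * g)
  rw [mul_inv_cancel_left, hl] at h2
  omega

theorem fourPoint_of_finite_ker {G : Type u} [Group G] {H : Type v} [Group H] {S : Set G}
    (f : G →* H) (hf : Function.Surjective f) (hS : Subgroup.closure S = ⊤)
    (hk : ((f.ker : Subgroup G) : Set G).Finite) {e : ℝ} (h : FourPoint (f '' S) e) :
    ∃ e' : ℝ, FourPoint S e' := by
  obtain ⟨C, hC⟩ := w3_bound f hf hS hk
  have hd1 : ∀ x y : G, wordDist (f '' S) (f x) (f y) ≤ wordDist S x y := by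
    intro x y
    unfold wordDist
    have h1 := wl_map_le f hS (x⁻¹ * y)
    rw [map_mul, map_inv] at h1
    exact_mod_cast h1
  have hd2 : ∀ x y : G, wordDist S x y ≤ wordDist (f '' S) (f x) (f y) + C := by
    intro x y
    unfold wordDist
    have h1 := hC (x⁻¹ * y)
    rw [map_mul, map_inv] at h1
    exact_mod_cast h1
  refine ⟨e + 2 * C, ?_⟩
  intro x y z t
  have h0 := h (f x) (f y) (f z) (f t)
  have h1 := hd2 x y
  have h2 := hd2 z t
  have h3 : max (wordDist (f '' S) (f x) (f z) + wordDist (f '' S) (f y) (f t))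
      (wordDist (f '' S) (f x) (f t) + wordDist (f '' S) (f y) (f z)) ≤
      max (wordDist S x z + wordDist S y t) (wordDist S x t + wordDist S y z) :=
    max_le_max (add_le_add (hd1 _ _) (hd1 _ _)) (add_le_add (hd1 _ _) (hd1 _ _))
  linarith

end Pool.Agent.H34.LS
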